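import Mathlib

set_option autoImplicit false

/-!
# The combinatorial core: no coherent system of germs of equalities

`Λ` is a very large index set, every index `i` carries a continuous function `θ i` on the
one-point compactification `Z` of `ℕ`.  There is no family of clopen subsets `O i j` of
`2^Λ × Z` such that `O` is transitive, `({i, j}, z) ∈ O i j` whenever `θ i z = θ j z`, and
`({i, j}, z) ∉ O i j` whenever `θ i z = 0` and `θ j z = 1`.
-/

namespace Pool.Agent.Lib_helper8.V53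

open Set Filter Topology Cardinal OnePoint

/-- the labels: continuous functions on the one-point compactification of `ℕ` -/
abbrev KK : Type := C(OnePoint ℕ, ℝ)

/-- the colours -/
abbrev CC : Type := KK → KK → ℕ

/-- the second index set -/
abbrev JJ1 : Type := Set CC

/-- the third index set -/
abbrev JJ2 : Type := Set (JJ1 → CC)

/-- the indices -/
abbrev LL : Type := (ℕ ⊕ JJ1 ⊕ JJ2) × KK

/-- the base space -/
abbrev YY : Type := (LL → Bool) × OnePoint ℕ

/-- the characteristic function of `{i, j}` -/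
noncomputable def pr (i j : LL) : LL → Bool := fun k => @decide (k = i ∨ k = j) (Classical.dec _)

/-- the characteristic function of `{i, j, k}` -/
noncomputable def tr (i j k : LL) : LL → Bool :=
  fun l => @decide (l = i ∨ l = j ∨ l = k) (Classical.dec _)

theorem exists_supp {ι : Type*} {S : Set (ι → Bool)} (hS : IsOpen S) {x : ι → Bool}
    (hx : x ∈ S) : ∃ G : Finset ι, ∀ x' : ι → Bool, (∀ k ∈ G, x' k = x k) → x' ∈ S := by
  rw [isOpen_pi_iff] at hS
  obtain ⟨G, u, hu, hsub⟩ := hS x hx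
  refine ⟨G, fun x' hx' => hsub ?_⟩
  intro k hk
  rw [hx' k (Finset.mem_coe.mp hk)]
  exact (hu k (Finset.mem_coe.mp hk)).2

theorem exists_supp_clopen {ι : Type*} {S : Set (ι → Bool)} (hS : IsClopen S) (x : ι → Bool) :
    ∃ G : Finset ι, ∀ x' : ι → Bool, (∀ k ∈ G, x' k = x k) → (x' ∈ S ↔ x ∈ S) := by
  by_cases hx : x ∈ S
  · obtain ⟨G, hG⟩ := exists_supp hS.isOpen hx
    exact ⟨G, fun x' h => ⟨fun _ => hx, fun _ => hG x' h⟩⟩
  · obtain ⟨G, hG⟩ := exists_supp hS.compl.isOpen (x := x) hx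
    exact ⟨G, fun x' h => ⟨fun h' => absurd h' (hG x' h), fun h' => absurd h' hx⟩⟩

/-- germs at finite levels have finite support -/
theorem exists_G (O : LL → LL → Set YY) (hO : ∀ i j, IsClopen (O i j)) (n : ℕ) (i j : LL) :
    ∃ G : Finset LL, ∀ k, k ∉ G → ((tr i j k, (n : OnePoint ℕ)) ∈ O i j ↔
      (pr i j, (n : OnePoint ℕ)) ∈ O i j) := by
  classical
  have hc : Continuous (fun x : LL → Bool => ((x, (n : OnePoint ℕ)) : YY)) := by fun_prop
  obtain ⟨G, hG⟩ := exists_supp_clopen ((hO i j).preimage hc) (pr i j)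
  refine ⟨G, fun k hk => hG (tr i j k) ?_⟩
  intro l hl
  have hlk : l ≠ k := by rintro rfl; exact hk hl
  simp [tr, pr, hlk]

/-- near infinity -/
theorem exists_N (O : LL → LL → Set YY) (hO : ∀ i j, IsClopen (O i j))
    (hA : ∀ (i j : LL) (z : OnePoint ℕ), i.2 z = j.2 z → (pr i j, z) ∈ O i j) (i j : LL) :
    ∃ N : ℕ, i.2 ∞ = j.2 ∞ → ∀ n ≥ N, (pr i j, (n : OnePoint ℕ)) ∈ O i j := by
  by_cases h : i.2 ∞ = j.2 ∞
  · have hc : Continuous (fun z : OnePoint ℕ => ((pr i j, z) : YY)) := by fun_prop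
    have h1 : {z : OnePoint ℕ | ((pr i j, z) : YY) ∈ O i j} ∈ 𝓝 (∞ : OnePoint ℕ) :=
      ((hO i j).isOpen.preimage hc).mem_nhds (hA i j ∞ h)
    have h2 : Tendsto (fun n : ℕ => (n : OnePoint ℕ)) atTop (𝓝 ∞) := by
      have := OnePoint.tendsto_coe_infty (X := ℕ)
      rwa [coclosedCompact_eq_cocompact, cocompact_eq_cofinite, Nat.cofinite_eq_atTop] at this
    obtain ⟨N, hN⟩ := eventually_atTop.mp (h2.eventually h1)
    exact ⟨N, fun _ => hN⟩
  · exact ⟨0, fun h' => absurd h' h⟩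

/-- the step function labels exist -/
theorem exists_labels (c : CC) : ∃ n : ℕ, 0 < n ∧ ∀ k < n, ∃ th th' : KK,
    th n = (k : ℝ) / n ∧ th' n = ((k : ℝ) + 1) / n ∧ th ∞ = th' ∞ ∧ c th th' ≤ n := by
  by_contra hcon
  push Not at hcon
  choose! kk hkk hbad using hcon
  -- compactness
  have hmem : ∀ m : ℕ, ((kk (m + 1) : ℝ) / ((m + 1 : ℕ) : ℝ)) ∈ Icc (0 : ℝ) 1 := by
    intro m
    have h1 := hkk (m + 1) (Nat.succ_pos m)
    have h2 : (kk (m + 1) : ℝ) ≤ ((m + 1 : ℕ) : ℝ) := by exact_mod_cast h1.le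
    constructor
    · positivity
    · rw [div_le_one (by positivity)]
      exact h2
  obtain ⟨t, -, φ, hφ, hlim⟩ := isCompact_Icc.tendsto_subseq hmem
  classical
  let S : Set ℕ := {m | ∃ l, m = φ l + 1}
  -- the label functions
  have key : ∀ s : ℝ, Tendsto (fun m : ℕ => if m ∈ S then ((kk m : ℝ) + s) / m else t)
      atTop (𝓝 t) := by
    intro s
    rw [Metric.tendsto_atTop]
    intro ε hε
    have h0 : Tendsto (fun l : ℕ => (kk (φ l + 1) : ℝ) / ((φ l + 1 : ℕ) : ℝ) +
        s / ((φ l + 1 : ℕ) : ℝ)) atTop (𝓝 (t + 0)) := by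
      refine Tendsto.add hlim ?_
      have : Tendsto (fun l : ℕ => ((φ l + 1 : ℕ) : ℝ)) atTop atTop :=
        tendsto_natCast_atTop_atTop.comp ((tendsto_add_atTop_nat 1).comp hφ.tendsto_atTop)
      exact tendsto_const_nhds.div_atTop this
    rw [add_zero, Metric.tendsto_atTop] at h0
    obtain ⟨L, hL⟩ := h0 ε hε
    refine ⟨φ L + 1, fun m hm => ?_⟩
    by_cases hmS : m ∈ S
    · obtain ⟨l, rfl⟩ := hmS
      have hl : L ≤ l := by
        by_contra hlt
        push Not at hlt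
        have := hφ hlt
        omega
      have h1 : (φ l + 1) ∈ S := ⟨l, rfl⟩
      simp only [h1, if_true]
      rw [add_div]
      exact hL l hl
    · simp only [hmS, if_false, dist_self]
      exact hε
  let th : ℝ → KK := fun s => OnePoint.continuousMapMkNat _ t (key s)
  have hthn : ∀ s (m : ℕ), th s (m : OnePoint ℕ) = if m ∈ S then ((kk m : ℝ) + s) / m else t :=
    fun s m => rfl
  have hthi : ∀ s, th s ∞ = t := fun s => rfl
  -- contradiction
  obtain ⟨l, hl⟩ : ∃ l, c (th 0) (th 1) ≤ φ l + 1 :=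
    ⟨c (th 0) (th 1), (hφ.id_le _).trans (Nat.le_succ _)⟩
  have h1 : (φ l + 1) ∈ S := ⟨l, rfl⟩
  have := hbad (φ l + 1) (Nat.succ_pos _) (th 0) (th 1)
    (by rw [hthn, if_pos h1, add_zero]) (by rw [hthn, if_pos h1]) (by rw [hthi, hthi])
  omega

theorem tr_rot (i j k : LL) : tr j k i = tr i j k := by
  classical
  funext l
  simp only [tr, decide_eq_decide]
  tauto

theorem tr_swap (i j k : LL) : tr i k j = tr i j k := by
  classical
  funext l
  simp only [tr, decide_eq_decide]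
  tauto

theorem card_JJ1_le : #JJ1 ≤ #(JJ1 → CC) := by
  classical
  refine Cardinal.mk_le_of_injective (f := fun p p' _ _ => if p' = p then 1 else 0) ?_
  intro p p' h
  have h1 := congrFun (congrFun (congrFun h p) 0) 0
  by_contra hne
  simp [hne] at h1

theorem card_CC : ℵ₀ ≤ #CC := by
  refine (Cardinal.mk_nat.symm.le).trans
    (Cardinal.mk_le_of_injective (f := fun (n : ℕ) (_ _ : KK) => n) ?_)
  intro m n h
  exact congrFun (congrFun h 0) 0

theorem exists_not_mem_iUnion {α T : Type} (A : Set α) (B : T → Set α) (hB : ∀ t, (B t).Finite)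
    (hT : #T < #A) (hA : ℵ₀ < #A) : ∃ a ∈ A, ∀ t, a ∉ B t := by
  by_contra hcon
  push Not at hcon
  have h1 : A ⊆ ⋃ t, B t := fun a ha => Set.mem_iUnion.mpr (hcon a ha)
  have h2 : #A ≤ #T * ℵ₀ := by
    calc #A ≤ #(⋃ t, B t : Set α) := Cardinal.mk_le_mk_of_subset h1
      _ ≤ Cardinal.sum fun t => #(B t) := Cardinal.mk_iUnion_le_sum_mk
      _ ≤ Cardinal.sum fun _ : T => ℵ₀ :=
          Cardinal.sum_le_sum _ _ fun t => (hB t).lt_aleph0.le
      _ = #T * ℵ₀ := by simp
  have h3 : #T * ℵ₀ < #A := by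
    rcases le_total #T ℵ₀ with h | h
    · exact (mul_le_mul' h le_rfl).trans_lt (by rwa [Cardinal.aleph0_mul_aleph0])
    · rwa [Cardinal.mul_aleph0_eq h]
  exact absurd h2 (not_le.mpr h3)

/-- **The combinatorial core.** -/
theorem comb (O : LL → LL → Set YY) (hO : ∀ i j, IsClopen (O i j))
    (htr : ∀ i j k y, y ∈ O i j → y ∈ O j k → y ∈ O i k)
    (hA : ∀ (i j : LL) (z : OnePoint ℕ), i.2 z = j.2 z → (pr i j, z) ∈ O i j)
    (hB : ∀ (i j : LL) (z : OnePoint ℕ), i.2 z = 0 → j.2 z = 1 → (pr i j, z) ∉ O i j) :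
    False := by
  classical
  choose N hN using exists_N O hO hA
  choose G hG using fun n i j => exists_G O hO n i j
  -- uniformisation
  let c : JJ2 → (JJ1 → CC) := fun q p th th' => N (Sum.inr (Sum.inl p), th)
    (Sum.inr (Sum.inr q), th')
  have hJ1 : #CC < #JJ1 := by rw [Cardinal.mk_set]; exact Cardinal.cantor _
  have hJ2 : #(JJ1 → CC) < #JJ2 := by rw [Cardinal.mk_set]; exact Cardinal.cantor _
  have hJ1' : ℵ₀ < #JJ1 := card_CC.trans_lt hJ1
  have hJ2' : #JJ1 ≤ #(JJ1 → CC) := card_JJ1_le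
  obtain ⟨c0, hc0⟩ := Cardinal.infinite_pigeonhole_card_lt c hJ2
    ((hJ1'.le.trans hJ2').trans hJ2.le)
  obtain ⟨c1, hc1⟩ := Cardinal.infinite_pigeonhole_card_lt c0 hJ1 hJ1'.le
  obtain ⟨n, hn, hlab⟩ := exists_labels c1
  choose! th th' hth hth' hinf hle using hlab
  -- choice of `q`
  obtain ⟨q, hq, hqB⟩ := exists_not_mem_iUnion (c ⁻¹' {c0})
    (fun t : ℕ × JJ1 × ℕ × ℕ => {q : JJ2 | ((Sum.inr (Sum.inr q), th' t.2.2.1) : LL) ∈
      G n (Sum.inl t.1, 0) (Sum.inr (Sum.inl t.2.1), th t.2.2.2)})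
    (by
      intro t
      refine Set.Finite.preimage ?_ (Finset.finite_toSet _)
      intro a _ b _ hab
      simpa using hab)
    (by
      have : #(ℕ × JJ1 × ℕ × ℕ) = #JJ1 := by
        simp only [Cardinal.mk_prod, Cardinal.lift_id, Cardinal.mk_nat]
        rw [Cardinal.aleph0_mul_aleph0, Cardinal.mul_aleph0_eq hJ1'.le,
          Cardinal.aleph0_mul_eq hJ1'.le]
      rw [this]
      exact hJ2'.trans_lt hc0)
    ((hJ1'.trans_le hJ2').trans hc0)
  -- choice of `p`
  obtain ⟨p, hp, hpB⟩ := exists_not_mem_iUnion (c0 ⁻¹' {c1})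
    (fun t : ℕ × ℕ × ℕ => {p : JJ1 | ((Sum.inr (Sum.inl p), th t.2.1) : LL) ∈
      G n (Sum.inl t.1, 0) (Sum.inr (Sum.inr q), th' t.2.2)})
    (by
      intro t
      refine Set.Finite.preimage ?_ (Finset.finite_toSet _)
      intro a _ b _ hab
      simpa using hab)
    (by
      have : #(ℕ × ℕ × ℕ) = ℵ₀ := by simp
      rw [this]
      exact card_CC.trans_lt hc1)
    (card_CC.trans_lt hc1)
  set o : ℕ → LL := fun l => (Sum.inr (Sum.inl p), th l) with ho
  set e : ℕ → LL := fun k => (Sum.inr (Sum.inr q), th' k) with he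
  -- choice of `i`
  obtain ⟨i0, hi0⟩ : ∃ i0 : ℕ, ∀ k < n, ∀ l < n, ((Sum.inl i0, 0) : LL) ∉ G n (o l) (e k) ∧
      ((Sum.inl i0, 0) : LL) ∉ G n (e k) (o l) := by
    have hfin : (⋃ k ∈ Finset.range n, ⋃ l ∈ Finset.range n,
        {i : ℕ | ((Sum.inl i, 0) : LL) ∈ G n (o l) (e k) ∪ G n (e k) (o l)}).Finite := by
      refine Set.Finite.biUnion (Finset.finite_toSet _) fun k _ =>
        Set.Finite.biUnion (Finset.finite_toSet _) fun l _ => ?_
      refine Set.Finite.preimage ?_ (Finset.finite_toSet _)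
      intro a _ b _ hab
      simpa using hab
    obtain ⟨i0, hi0⟩ := hfin.exists_notMem
    refine ⟨i0, fun k hk l hl => ?_⟩
    simp only [Set.mem_iUnion, Finset.mem_range, not_exists] at hi0
    have := hi0 k hk l hl
    simp only [Set.mem_ofPred_eq, Finset.mem_union, not_or] at this
    exact this
  set i : LL := (Sum.inl i0, 0) with hi
  have hNoe : ∀ k < n, ((pr (o k) (e k), (n : OnePoint ℕ)) : YY) ∈ O (o k) (e k) := by
    intro k hk
    refine hN (o k) (e k) (hinf k hk) n ?_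
    have h1 : N (o k) (e k) = c q p (th k) (th' k) := rfl
    have h2 : c q = c0 := hq
    have h3 : c0 p = c1 := hp
    rw [h1, h2, h3]
    exact hle k hk
  have heo : ∀ k, k + 1 < n →
      ((pr (e k) (o (k + 1)), (n : OnePoint ℕ)) : YY) ∈ O (e k) (o (k + 1)) := by
    intro k hk
    refine hA _ _ _ ?_
    change th' k n = th (k + 1) n
    rw [hth' k (by omega), hth (k + 1) hk]
    push_cast
    ring
  have hstep1 : ∀ k < n, ((pr i (o k), (n : OnePoint ℕ)) : YY) ∈ O i (o k) →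
      ((pr i (e k), (n : OnePoint ℕ)) : YY) ∈ O i (e k) := by
    intro k hk h
    have h1 : ((tr i (o k) (e k), (n : OnePoint ℕ)) : YY) ∈ O i (o k) :=
      (hG n i (o k) (e k) (hqB (i0, p, k, k))).mpr h
    have h2 : ((tr (o k) (e k) i, (n : OnePoint ℕ)) : YY) ∈ O (o k) (e k) :=
      (hG n (o k) (e k) i (hi0 k hk k hk).1).mpr (hNoe k hk)
    rw [tr_rot] at h2
    have h3 := htr _ _ _ _ h1 h2
    rw [← tr_swap] at h3
    exact (hG n i (e k) (o k) (hpB (i0, k, k))).mp h3
  have hstep2 : ∀ k, k + 1 < n → ((pr i (e k), (n : OnePoint ℕ)) : YY) ∈ O i (e k) →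
      ((pr i (o (k + 1)), (n : OnePoint ℕ)) : YY) ∈ O i (o (k + 1)) := by
    intro k hk h
    have h1 : ((tr i (e k) (o (k + 1)), (n : OnePoint ℕ)) : YY) ∈ O i (e k) :=
      (hG n i (e k) (o (k + 1)) (hpB (i0, k + 1, k))).mpr h
    have h2 : ((tr (e k) (o (k + 1)) i, (n : OnePoint ℕ)) : YY) ∈ O (e k) (o (k + 1)) :=
      (hG n (e k) (o (k + 1)) i (hi0 k (by omega) (k + 1) hk).2).mpr (heo k hk)
    rw [tr_rot] at h2
    have h3 := htr _ _ _ _ h1 h2
    rw [← tr_swap] at h3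
    exact (hG n i (o (k + 1)) (e k) (hqB (i0, p, k, k + 1))).mp h3
  have hmain : ∀ k < n, ((pr i (e k), (n : OnePoint ℕ)) : YY) ∈ O i (e k) := by
    intro k
    induction k with
    | zero =>
      intro hk
      refine hstep1 0 hk (hA _ _ _ ?_)
      change (0 : ℝ) = th 0 n
      rw [hth 0 hk]
      simp
    | succ k ih =>
      intro hk
      exact hstep1 (k + 1) hk (hstep2 k hk (ih (by omega)))
  refine hB i (e (n - 1)) (n : OnePoint ℕ) rfl ?_ (hmain (n - 1) (by omega))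
  change th' (n - 1) n = 1
  rw [hth' (n - 1) (by omega)]
  have hn' : (n : ℝ) ≠ 0 := by positivity
  have hc' : ((n - 1 : ℕ) : ℝ) + 1 = n := by
    have : n - 1 + 1 = n := by omega
    exact_mod_cast this
  rw [hc', div_self hn']

end Pool.Agent.Lib_helper8.V53
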