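import Pool.Agent.Lib_helper8.V53.OrdIdeal
import Pool.Agent.Lib_helper8.V53.Comb

set_option autoImplicit false

/-!
# The ring side of `C_RR0 ⊄ C_reg`
-/

namespace Pool.Agent.Lib_helper8.V53

open Matrix

universe u v

section one

variable {R : Type u} [NonUnitalRing R]

/-- the `1 × 1` matrix with entry `q` -/
def one1 (q : R) : Matrix Unit Unit R := Matrix.of fun _ _ => q

theorem one1_mul (q q' : R) : one1 q * one1 q' = one1 (q * q') := by
  ext i j
  simp [one1, Matrix.mul_apply]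

theorem one1_add (q q' : R) : one1 q + one1 q' = one1 (q + q') := by
  ext i j
  simp [one1]

theorem one1_idem {q : R} (hq : q * q = q) : one1 q * one1 q = one1 q := by
  rw [one1_mul, hq]

/-- the class of an idempotent element -/
noncomputable def clsE (q : R) (hq : q * q = q) : V R := cls (one1 q) (one1_idem hq)

end one

/-- The properties of the C*-algebra `A` used on the ring side. -/
structure Model (A : Type) [Ring A] (M : Type) [NonUnitalRing M] where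
  /-- evaluations -/
  ev : YY → A →ₙ+* M
  /-- the projections -/
  F : LL → A
  F_idem : ∀ i, F i * F i = F i
  clopen : ∀ c : V A, IsClopen {y | V.map (ev y) c = 0}
  ne : ∀ y, ev y 1 ≠ 0
  central : ∀ i j z, i.2 z = j.2 z ∨ (i.2 z = 0 ∧ j.2 z = 1) → ∀ a,
    ev (pr i j, z) a * ev (pr i j, z) (F i) = ev (pr i j, z) (F i) * ev (pr i j, z) a
  central' : ∀ i j z, i.2 z = j.2 z ∨ (i.2 z = 0 ∧ j.2 z = 1) → ∀ a,
    ev (pr i j, z) a * ev (pr i j, z) (F j) = ev (pr i j, z) (F j) * ev (pr i j, z) a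
  eqF : ∀ i j z, i.2 z = j.2 z → ev (pr i j, z) (F i) = ev (pr i j, z) (F j)
  oppF : ∀ i j z, i.2 z = 0 → j.2 z = 1 →
    ev (pr i j, z) (F i) + ev (pr i j, z) (F j) = ev (pr i j, z) 1

section

variable {A : Type} [Ring A] {M : Type} [NonUnitalRing M]

/-- A class below an idempotent which is central after `φ` consists of matrices with entries in
the corner. -/
theorem entry_of_le (φ : A →ₙ+* M) {q : A} (hq : q * q = q)
    (hc : ∀ a, φ a * φ q = φ q * φ a) {n : ℕ} {p : Matrix (Fin n) (Fin n) A} (hp : p * p = p)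
    {c : V A} (h : cls p hp + c = clsE q hq) (a b : Fin n) : φ q * φ (p a b) = φ (p a b) := by
  obtain ⟨m, u, v, huv⟩ := (finRank_iff (one1_idem hq) hp).mp ⟨1, c, by rw [one_smul]; exact h⟩
  rw [huv]
  simp only [Matrix.sum_apply, Matrix.mul_apply, one1, Finset.univ_unique, Finset.sum_singleton,
    Matrix.of_apply, map_sum, map_mul, Finset.mul_sum]
  refine Finset.sum_congr rfl fun l _ => ?_
  rw [← mul_assoc, ← mul_assoc, ← hc, mul_assoc (φ (u l a default)), ← map_mul φ q q, hq]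

theorem van_of_le (φ : A →ₙ+* M) {q q' : A} (hq : q * q = q) (hq' : q' * q' = q')
    (hc : ∀ a, φ a * φ q = φ q * φ a) (hc' : ∀ a, φ a * φ q' = φ q' * φ a)
    (h0 : φ q * φ q' = 0) {d c c' : V A} (h : d + c = clsE q hq) (h' : d + c' = clsE q' hq') :
    V.map φ d = 0 := by
  obtain ⟨n, p, hp, rfl⟩ := d.exists_rep
  rw [V.map_cls, ← cls_zero (ι := Fin n)]
  refine cls_congr ?_ _ _
  ext a b
  have h1 := entry_of_le φ hq hc hp h a b
  have h2 := entry_of_le φ hq' hc' hp h' a b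
  simp only [Matrix.map_apply, Matrix.zero_apply]
  rw [← h1, ← h2, ← mul_assoc, h0, zero_mul]

end

section

variable {A : Type} [Ring A] {M : Type} [NonUnitalRing M] (𝓜 : Model A M)
variable {R : Type u} [NonUnitalRing R]

/-- the order ideal of `V(R)` attached to a point -/
def PP (Ψ : V R ≃+ V A) (y : YY) : V R → Prop := fun c => V.map (𝓜.ev y) (Ψ c) = 0

theorem PP_ord (Ψ : V R ≃+ V A) (y : YY) : OrdIdeal (PP 𝓜 Ψ y) where
  zero := by simp [PP]
  add a b := by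
    simp only [PP, map_add]
    constructor
    · intro h
      exact ⟨V.eq_zero_of_add h, V.eq_zero_of_add ((add_comm _ _).trans h)⟩
    · rintro ⟨h1, h2⟩
      rw [h1, h2, add_zero]

theorem inId_clopen (hR : IsVNRegular R) (Ψ : V R ≃+ V A) {n : ℕ}
    (g : Matrix (Fin n) (Fin n) R) : IsClopen {y | InId (PP 𝓜 Ψ y) g} := by
  obtain ⟨s, hs⟩ := MReg.of_regular hR (Fin n) (Fin n) g
  have : {y | InId (PP 𝓜 Ψ y) g} =
      {y | V.map (𝓜.ev y) (Ψ (cls (g * s) (quasi_idem hs))) = 0} := by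
    ext y
    exact inId_iff_of_quasi (PP_ord 𝓜 Ψ y) hs (quasi_idem hs)
  rw [this]
  exact 𝓜.clopen _

theorem inId_mul (hR : IsVNRegular R) (Ψ : V R ≃+ V A) {n : ℕ} {y : YY}
    {f f' : Matrix (Fin n) (Fin n) R} (hf : f * f = f) (hf' : f' * f' = f') {q q' : A}
    (hq : q * q = q) (hq' : q' * q' = q') (h : Ψ (cls f hf) = clsE q hq)
    (h' : Ψ (cls f' hf') = clsE q' hq')
    (hc : ∀ a, 𝓜.ev y a * 𝓜.ev y q = 𝓜.ev y q * 𝓜.ev y a)
    (hc' : ∀ a, 𝓜.ev y a * 𝓜.ev y q' = 𝓜.ev y q' * 𝓜.ev y a)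
    (h0 : 𝓜.ev y q * 𝓜.ev y q' = 0) : InId (PP 𝓜 Ψ y) (f * f') := by
  obtain ⟨s, hs⟩ := MReg.of_regular hR (Fin n) (Fin n) (f * f')
  rw [inId_iff_of_quasi (PP_ord 𝓜 Ψ y) hs (quasi_idem hs)]
  obtain ⟨c, hc1⟩ := cls_le (quasi_idem hs) hf f (f' * s)
    (by rw [hf]; simp only [Matrix.mul_assoc])
  obtain ⟨c', hc1'⟩ := cls_le (quasi_idem hs) hf' f s rfl
  refine van_of_le (𝓜.ev y) hq hq' hc hc' h0 (c := Ψ c) (c' := Ψ c') ?_ ?_
  · rw [← map_add, ← hc1, h]
  · rw [← map_add, ← hc1', h']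

include 𝓜 in
/-- **Ring side.** `V(A)` is not `V(R)` for a regular ring `R`. -/
theorem ring_side (hR : IsVNRegular R) (Ψ : V R ≃+ V A) : False := by
  have h1A : (1 : A) * 1 = 1 := one_mul 1
  obtain ⟨n, e, he, hecls⟩ := (Ψ.symm (clsE (1 : A) h1A)).exists_rep
  have hF' : ∀ i, (1 - 𝓜.F i) * (1 - 𝓜.F i) = 1 - 𝓜.F i := by
    intro i
    have := 𝓜.F_idem i
    noncomm_ring
    rw [this]
    abel
  have hsplit : ∀ i, ∃ (e1 e2 : Matrix (Fin n) (Fin n) R) (h1 : e1 * e1 = e1)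
      (h2 : e2 * e2 = e2), e1 * e2 = 0 ∧ e2 * e1 = 0 ∧ e1 + e2 = e ∧
        cls e1 h1 = Ψ.symm (clsE (𝓜.F i) (𝓜.F_idem i)) ∧
        cls e2 h2 = Ψ.symm (clsE (1 - 𝓜.F i) (hF' i)) := by
    intro i
    refine cls_split he ?_
    rw [← hecls, ← map_add]
    congr 1
    unfold clsE
    rw [← cls_add (one1_idem (𝓜.F_idem i)) (one1_idem (hF' i))]
    · exact cls_congr (by rw [one1_add]; simp) _ _
    · rw [one1_mul, mul_sub, 𝓜.F_idem i, mul_one, sub_self]; rfl
    · rw [one1_mul, sub_mul, 𝓜.F_idem i, one_mul, sub_self]; rfl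
  choose f f' hf hf' hff' hf'f hsum hcf hcf' using hsplit
  have hcf1 : ∀ i, Ψ (cls (f i) (hf i)) = clsE (𝓜.F i) (𝓜.F_idem i) := by
    intro i; rw [hcf, AddEquiv.apply_symm_apply]
  have hcf1' : ∀ i, Ψ (cls (f' i) (hf' i)) = clsE (1 - 𝓜.F i) (hF' i) := by
    intro i; rw [hcf', AddEquiv.apply_symm_apply]
  have hfe : ∀ i, f i * e = f i := by
    intro i; rw [← hsum i, Matrix.mul_add, hf, hff', add_zero]
  have hf'e : ∀ i, f' i * e = f' i := by
    intro i; rw [← hsum i, Matrix.mul_add, hf', hf'f, zero_add]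
  have hef : ∀ i, e * f i = f i := by
    intro i; rw [← hsum i, Matrix.add_mul, hf, hf'f, add_zero]
  -- the germs
  let O : LL → LL → Set YY := fun i j => {y | InId (PP 𝓜 Ψ y) (f i - f j)}
  have hcent : ∀ i j z, (i.2 z = j.2 z ∨ (i.2 z = 0 ∧ j.2 z = 1)) → ∀ a,
      𝓜.ev (pr i j, z) a * 𝓜.ev (pr i j, z) (1 - 𝓜.F i) =
        𝓜.ev (pr i j, z) (1 - 𝓜.F i) * 𝓜.ev (pr i j, z) a := by
    intro i j z h a
    rw [map_sub, mul_sub, sub_mul, 𝓜.central i j z h a, ← map_mul, ← map_mul _ 1 a, mul_one,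
      one_mul]
  have hcent' : ∀ i j z, (i.2 z = j.2 z ∨ (i.2 z = 0 ∧ j.2 z = 1)) → ∀ a,
      𝓜.ev (pr i j, z) a * 𝓜.ev (pr i j, z) (1 - 𝓜.F j) =
        𝓜.ev (pr i j, z) (1 - 𝓜.F j) * 𝓜.ev (pr i j, z) a := by
    intro i j z h a
    rw [map_sub, mul_sub, sub_mul, 𝓜.central' i j z h a, ← map_mul, ← map_mul _ 1 a, mul_one,
      one_mul]
  refine comb O (fun i j => inId_clopen 𝓜 hR Ψ _) ?_ ?_ ?_
  · intro i j k y hij hjk
    have := InId.add (PP_ord 𝓜 Ψ y) hij hjk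
    rw [sub_add_sub_cancel] at this
    exact this
  · intro i j z hz
    have h1 : InId (PP 𝓜 Ψ (pr i j, z)) (f i * f' j) := by
      refine inId_mul 𝓜 hR Ψ (hf i) (hf' j) (𝓜.F_idem i) (hF' j) (hcf1 i) (hcf1' j)
        (𝓜.central i j z (Or.inl hz)) (hcent' i j z (Or.inl hz)) ?_
      rw [𝓜.eqF i j z hz, ← map_mul, mul_sub, 𝓜.F_idem, mul_one, sub_self, map_zero]
    have h2 : InId (PP 𝓜 Ψ (pr i j, z)) (f' i * f j) := by
      refine inId_mul 𝓜 hR Ψ (hf' i) (hf j) (hF' i) (𝓜.F_idem j) (hcf1' i) (hcf1 j)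
        (hcent i j z (Or.inl hz)) (𝓜.central' i j z (Or.inl hz)) ?_
      rw [← 𝓜.eqF i j z hz, ← map_mul, sub_mul, 𝓜.F_idem, one_mul, sub_self, map_zero]
    have h3 : f i - f j = f i * f' j - f' i * f j := by
      have e1 : f i = f i * f j + f i * f' j := by rw [← Matrix.mul_add, hsum, hfe]
      have e2 : f j = f i * f j + f' i * f j := by rw [← Matrix.add_mul, hsum, hef]
      calc f i - f j = (f i * f j + f i * f' j) - (f i * f j + f' i * f j) := by
            rw [← e1, ← e2]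
        _ = _ := by abel
    change InId _ _
    rw [h3]
    exact h1.sub (PP_ord 𝓜 Ψ _) h2
  · intro i j z hi hj hmem
    have hP := PP_ord 𝓜 Ψ (pr i j, z)
    have hmem' : InId (PP 𝓜 Ψ (pr i j, z)) (f i - f j) := hmem
    have hopp := 𝓜.oppF i j z hi hj
    have hFF : 𝓜.ev (pr i j, z) (𝓜.F i) * 𝓜.ev (pr i j, z) (𝓜.F j) = 0 := by
      have e1 : 𝓜.ev (pr i j, z) (𝓜.F j) =
          𝓜.ev (pr i j, z) 1 - 𝓜.ev (pr i j, z) (𝓜.F i) := by rw [← hopp]; abel
      rw [e1, mul_sub, ← map_mul, ← map_mul, mul_one, 𝓜.F_idem, sub_self]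
    have h1 : InId (PP 𝓜 Ψ (pr i j, z)) (f i * f j) :=
      inId_mul 𝓜 hR Ψ (hf i) (hf j) (𝓜.F_idem i) (𝓜.F_idem j) (hcf1 i) (hcf1 j)
        (𝓜.central i j z (Or.inr ⟨hi, hj⟩)) (𝓜.central' i j z (Or.inr ⟨hi, hj⟩)) hFF
    have h2 : InId (PP 𝓜 Ψ (pr i j, z)) (f' i * f' j) := by
      refine inId_mul 𝓜 hR Ψ (hf' i) (hf' j) (hF' i) (hF' j) (hcf1' i) (hcf1' j)
        (hcent i j z (Or.inr ⟨hi, hj⟩)) (hcent' i j z (Or.inr ⟨hi, hj⟩)) ?_
      rw [map_sub, map_sub, sub_mul, mul_sub, mul_sub, hFF, ← map_mul _ 1 1, ← map_mul _ 1 (𝓜.F j),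
        ← map_mul _ (𝓜.F i) 1, mul_one, one_mul, mul_one, ← hopp]
      abel
    have hfi : InId (PP 𝓜 Ψ (pr i j, z)) (f i) := by
      have : f i = f i * (f i - f j) + f i * f j := by
        rw [Matrix.mul_sub, hf]; abel
      rw [this]
      exact (hmem'.mul_left _).add hP h1
    have hfj : InId (PP 𝓜 Ψ (pr i j, z)) (f j) := by
      have : f j = f i - (f i - f j) := by abel
      rw [this]
      exact hfi.sub hP hmem'
    have hf'i : InId (PP 𝓜 Ψ (pr i j, z)) (f' i) := by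
      have : f' i = f' i * f j + f' i * f' j := by rw [← Matrix.mul_add, hsum, hf'e]
      rw [this]
      exact (hfj.mul_left _).add hP h2
    have he' : InId (PP 𝓜 Ψ (pr i j, z)) e := by
      rw [← hsum i]
      exact hfi.add hP hf'i
    rw [inId_idem_iff hP he] at he'
    unfold PP at he'
    rw [← hecls, AddEquiv.apply_symm_apply] at he'
    unfold clsE at he'
    rw [V.map_cls] at he'
    have h4 := cls_eq_zero he'
    have h5 := congrFun (congrFun h4 ()) ()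
    exact 𝓜.ne _ h5

end

end Pool.Agent.Lib_helper8.V53
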