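import Pool.Agent.Lib_helper8.V53.RR0
import Pool.Agent.Lib_helper8.V53.RingSide

set_option autoImplicit false

/-!
# The C*-algebra `A` of real rank zero whose `V` is not `V` of a regular ring
-/

namespace Pool.Agent.Lib_helper8.V53

open Polynomial Topology Set

noncomputable section

/-- A C*-algebra `M` with a path of projections, having the properties of the path of rank one
projections from `e₁₁` to `e₂₂` in `M_2(ℂ)`. -/
structure RotData (M : Type) [CStarAlgebra M] where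
  /-- the path -/
  P : ℝ → M
  P_idem : ∀ s, P s * P s = P s
  P_star : ∀ s, star (P s) = P s
  continuous_P : Continuous P
  P_add : P 0 + P 1 = 1
  comm_P : ∀ {T : M} {s : ℝ}, T * P s = P s * T → ∃ α β : ℂ, T = α • P s + β • (1 - P s)
  comm_two : ∀ {T : M} {s t : ℝ}, T * P s = P s * T → T * P t = P t * T →
    P s * P t ≠ P t * P s → ∃ α : ℂ, T = α • 1
  comm_all : ∀ {T : M}, (∀ x, T * x = x * T) → ∃ α : ℂ, T = α • 1
  exists_poly : ∀ T : M, ∃ p : ℂ[X], p ≠ 0 ∧ aeval T p = 0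
  ne : (1 : M) ≠ 0

variable {M : Type} [CStarAlgebra M] (𝓡 : RotData M)

/-- the generators of the fibre at a point -/
def gens (y : YY) : Set M := {T | ∃ i : LL, y.1 i = true ∧ T = 𝓡.P (i.2 y.2)}

/-- the fibre at a point -/
def DD (y : YY) : Set M := (gens 𝓡 y).centralizer.centralizer

variable {𝓡}

theorem mem_DD {y : YY} {T : M} :
    T ∈ DD 𝓡 y ↔ ∀ x ∈ (gens 𝓡 y).centralizer, x * T = T * x := Iff.rfl

theorem star_centralizer_gens {y : YY} {x : M} (hx : x ∈ (gens 𝓡 y).centralizer) :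
    star x ∈ (gens 𝓡 y).centralizer := by
  rintro _ ⟨i, hi, rfl⟩
  have h := congrArg star (hx _ ⟨i, hi, rfl⟩)
  rw [star_mul, star_mul, 𝓡.P_star] at h
  exact h.symm

theorem DD_smul_one (y : YY) (α : ℂ) : α • (1 : M) ∈ DD 𝓡 y := by
  intro x _
  simp

theorem DD_zero (y : YY) : (0 : M) ∈ DD 𝓡 y := by
  intro x _
  simp

variable (𝓡)

/-- the algebra -/
def AA : StarSubalgebra ℂ C(YY, M) where
  carrier := {T | ∀ y, T y ∈ DD 𝓡 y}
  mul_mem' := by
    intro a b ha hb y
    exact Set.mul_mem_centralizer (ha y) (hb y)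
  one_mem' := by
    intro y x _
    simp
  add_mem' := by
    intro a b ha hb y
    exact Set.add_mem_centralizer (ha y) (hb y)
  zero_mem' := by
    intro y x _
    simp
  algebraMap_mem' := by
    intro r y x _
    exact (Algebra.commutes r x).symm
  star_mem' := by
    intro a ha y x hx
    have h := congrArg star (ha y _ (star_centralizer_gens hx))
    rw [star_mul, star_mul, star_star] at h
    exact h.symm

variable {𝓡}

theorem mem_AA {T : C(YY, M)} : T ∈ AA 𝓡 ↔ ∀ y, T y ∈ DD 𝓡 y := Iff.rfl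

variable (𝓡)

instance AA_closed : IsClosed (AA 𝓡 : Set C(YY, M)) := by
  have : (AA 𝓡 : Set C(YY, M)) = ⋂ y, (fun T : C(YY, M) => T y) ⁻¹' (DD 𝓡 y) := by
    ext T
    simp only [SetLike.mem_coe, mem_AA, Set.mem_iInter, Set.mem_preimage]
  rw [this]
  refine isClosed_iInter fun y => ?_
  exact (Set.isClosed_centralizer _).preimage (ContinuousEvalConst.continuous_eval_const y)

instance AA_cstar : CStarAlgebra (AA 𝓡) := StarSubalgebra.cstarAlgebra (AA 𝓡)

variable {𝓡}

/-- the characteristic function of a clopen set -/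
def chi (W : Set YY) (hW : IsClopen W) : C(YY, M) :=
  ⟨W.indicator (fun _ => 1), by
    refine ((IsLocallyConstant.iff_exists_open _).mpr ?_).continuous
    intro y
    by_cases hy : y ∈ W
    · exact ⟨W, hW.isOpen, hy, fun z hz => by simp [hz, hy]⟩
    · exact ⟨Wᶜ, hW.compl.isOpen, hy, fun z hz => by
        have : z ∉ W := hz
        simp [this, hy]⟩⟩

theorem chi_mem {W : Set YY} {hW : IsClopen W} {y : YY} (hy : y ∈ W) :
    (chi W hW : C(YY, M)) y = 1 := by
  change W.indicator (fun _ => (1 : M)) y = 1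
  exact Set.indicator_of_mem hy _

theorem chi_notMem {W : Set YY} {hW : IsClopen W} {y : YY} (hy : y ∉ W) :
    (chi W hW : C(YY, M)) y = 0 := by
  change W.indicator (fun _ => (1 : M)) y = 0
  exact Set.indicator_of_notMem hy _

/-- Patching of functions over a clopen set. -/
def patch (W : Set YY) (hW : IsClopen W) (s t : C(YY, M)) : C(YY, M) :=
  chi W hW * s + (1 - chi W hW) * t

theorem patch_mem {W : Set YY} {hW : IsClopen W} {s t : C(YY, M)} {y : YY} (hy : y ∈ W) :
    patch W hW s t y = s y := by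
  simp [patch, chi_mem hy]

theorem patch_notMem {W : Set YY} {hW : IsClopen W} {s t : C(YY, M)} {y : YY} (hy : y ∉ W) :
    patch W hW s t y = t y := by
  simp [patch, chi_notMem hy]

theorem patch_mem_AA {W : Set YY} {hW : IsClopen W} {s t : C(YY, M)}
    (hs : ∀ y ∈ W, s y ∈ DD 𝓡 y) (ht : ∀ y ∉ W, t y ∈ DD 𝓡 y) : patch W hW s t ∈ AA 𝓡 := by
  intro y
  by_cases hy : y ∈ W
  · rw [patch_mem hy]; exact hs y hy
  · rw [patch_notMem hy]; exact ht y hy

theorem star_patch {W : Set YY} {hW : IsClopen W} {s t : C(YY, M)} (hs : star s = s)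
    (ht : star t = t) : star (patch W hW s t) = patch W hW s t := by
  ext1 y
  rw [ContinuousMap.star_apply]
  by_cases hy : y ∈ W
  · rw [patch_mem hy, ← ContinuousMap.star_apply, hs]
  · rw [patch_notMem hy, ← ContinuousMap.star_apply, ht]

/-- the clopen set where `i` belongs to the first coordinate -/
def Ui (i : LL) : Set YY := {y | y.1 i = true}

theorem Ui_clopen (i : LL) : IsClopen (Ui i) := by
  have : Ui i = (fun y : YY => y.1 i) ⁻¹' {true} := rfl
  rw [this]
  exact (isClopen_discrete _).preimage (by fun_prop)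

variable (𝓡)

/-- the rotating projection, everywhere -/
def Pi (i : LL) : C(YY, M) := ⟨fun y => 𝓡.P (i.2 y.2), 𝓡.continuous_P.comp (by fun_prop)⟩

/-- the generating projections of `A` -/
def FF (i : LL) : C(YY, M) := patch (Ui i) (Ui_clopen i) (Pi 𝓡 i) 0

variable {𝓡}

theorem FF_of_mem {i : LL} {y : YY} (h : y.1 i = true) : FF 𝓡 i y = 𝓡.P (i.2 y.2) := patch_mem h

theorem FF_of_notMem {i : LL} {y : YY} (h : ¬ y.1 i = true) : FF 𝓡 i y = 0 := patch_notMem h

theorem P_mem {i : LL} {y : YY} (h : y.1 i = true) : 𝓡.P (i.2 y.2) ∈ DD 𝓡 y :=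
  Set.subset_centralizer_centralizer ⟨i, h, rfl⟩

theorem FF_mem_AA (i : LL) : FF 𝓡 i ∈ AA 𝓡 :=
  patch_mem_AA (fun _ hy => P_mem hy) (fun y _ => DD_zero y)

theorem FF_star (i : LL) : star (FF 𝓡 i) = FF 𝓡 i := by
  refine star_patch ?_ (star_zero _)
  ext1 y
  exact 𝓡.P_star _

theorem FF_idem (i : LL) : FF 𝓡 i * FF 𝓡 i = FF 𝓡 i := by
  ext1 y
  rw [ContinuousMap.mul_apply]
  by_cases hy : y.1 i = true
  · rw [FF_of_mem hy, 𝓡.P_idem]
  · rw [FF_of_notMem hy, zero_mul]

/-- Local models. -/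
theorem local_model {a : C(YY, M)} (ha : a ∈ AA 𝓡) (hsa : star a = a) (y : YY) :
    ∃ s ∈ AA 𝓡, star s = s ∧ ∃ p : ℂ[X], p ≠ 0 ∧ ∃ W : Set YY, IsClopen W ∧ y ∈ W ∧
      s y = a y ∧ ∀ y' ∈ W, aeval (s y') p = 0 := by
  have hstar : star (a y) = a y := by
    rw [← ContinuousMap.star_apply, hsa]
  obtain ⟨p0, hp0, hp0'⟩ := 𝓡.exists_poly (a y)
  by_cases h1 : ∃ i, y.1 i = true
  · obtain ⟨i, hi⟩ := h1
    by_cases h2 : ∀ j, y.1 j = true →
        𝓡.P (i.2 y.2) * 𝓡.P (j.2 y.2) = 𝓡.P (j.2 y.2) * 𝓡.P (i.2 y.2)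
    · -- commutative fibre
      have hc : 𝓡.P (i.2 y.2) ∈ (gens 𝓡 y).centralizer := by
        rintro _ ⟨j, hj, rfl⟩
        exact (h2 j hj).symm
      obtain ⟨α, β, hαβ⟩ := 𝓡.comm_P (s := i.2 y.2) (T := a y) (ha y _ hc).symm
      let r : ℂ := (1 / 2 : ℂ) * (α + star α)
      let r' : ℂ := (1 / 2 : ℂ) * (β + star β)
      have hr : star r = r := by
        simp only [r, star_mul', star_add, star_star]
        rw [show star (1 / 2 : ℂ) = 1 / 2 by simp]
        ring
      have hr' : star r' = r' := by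
        simp only [r', star_mul', star_add, star_star]
        rw [show star (1 / 2 : ℂ) = 1 / 2 by simp]
        ring
      have hay : a y = r • 𝓡.P (i.2 y.2) + r' • (1 - 𝓡.P (i.2 y.2)) := by
        have h3 : star (a y) = star α • 𝓡.P (i.2 y.2) + star β • (1 - 𝓡.P (i.2 y.2)) := by
          rw [hαβ]
          simp only [star_add, star_smul, star_sub, star_one, 𝓡.P_star]
        have h4 : a y = (1 / 2 : ℂ) • (a y + star (a y)) := by
          rw [hstar, ← two_smul ℂ (a y), smul_smul]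
          norm_num
        rw [h4, h3, hαβ]
        simp only [r, r', mul_smul, add_smul, smul_add]
        abel
      refine ⟨r • FF 𝓡 i + r' • (1 - FF 𝓡 i), ?_, ?_, (X - C r) * (X - C r'),
        mul_ne_zero (X_sub_C_ne_zero _) (X_sub_C_ne_zero _), Set.univ, isClopen_univ,
        Set.mem_univ _, ?_, ?_⟩
      · exact add_mem ((AA 𝓡).smul_mem (FF_mem_AA i) _)
          ((AA 𝓡).smul_mem (sub_mem (one_mem _) (FF_mem_AA i)) _)
      · rw [star_add, star_smul, star_smul, star_sub, star_one, FF_star, hr, hr']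
      · simp only [ContinuousMap.add_apply, ContinuousMap.smul_apply, ContinuousMap.sub_apply,
          ContinuousMap.one_apply, FF_of_mem hi]
        exact hay.symm
      · intro y' _
        have hF : FF 𝓡 i y' * FF 𝓡 i y' = FF 𝓡 i y' := by
          rw [← ContinuousMap.mul_apply, FF_idem]
        simp only [ContinuousMap.add_apply, ContinuousMap.smul_apply, ContinuousMap.sub_apply,
          ContinuousMap.one_apply, map_mul, map_sub, aeval_X, aeval_C,
          Algebra.algebraMap_eq_smul_one]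
        have e1 : r • FF 𝓡 i y' + r' • (1 - FF 𝓡 i y') - r • 1 =
            (r' - r) • (1 - FF 𝓡 i y') := by
          simp only [smul_sub, sub_smul]; abel
        have e2 : r • FF 𝓡 i y' + r' • (1 - FF 𝓡 i y') - r' • 1 = (r - r') • FF 𝓡 i y' := by
          simp only [smul_sub, sub_smul]; abel
        rw [e1, e2, smul_mul_smul_comm]
        have e3 : (1 - FF 𝓡 i y') * FF 𝓡 i y' = 0 := by
          rw [sub_mul, one_mul, hF, sub_self]
        rw [e3, smul_zero]
    · -- full fibre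
      push Not at h2
      obtain ⟨j, hj, hne⟩ := h2
      have hopen : IsOpen {y' : YY | y'.1 i = true ∧ y'.1 j = true ∧
          𝓡.P (i.2 y'.2) * 𝓡.P (j.2 y'.2) ≠ 𝓡.P (j.2 y'.2) * 𝓡.P (i.2 y'.2)} := by
        have o1 := (Ui_clopen i).isOpen
        have o2 := (Ui_clopen j).isOpen
        have o3 : IsOpen {y' : YY | 𝓡.P (i.2 y'.2) * 𝓡.P (j.2 y'.2) ≠
            𝓡.P (j.2 y'.2) * 𝓡.P (i.2 y'.2)} := by
          have c1 : Continuous fun y' : YY => 𝓡.P (i.2 y'.2) := (Pi 𝓡 i).continuous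
          have c2 : Continuous fun y' : YY => 𝓡.P (j.2 y'.2) := (Pi 𝓡 j).continuous
          exact isOpen_ne_fun (c1.mul c2) (c2.mul c1)
        exact o1.inter (o2.inter o3)
      obtain ⟨W, hW, hyW, hsub⟩ := compact_exists_isClopen_in_isOpen hopen
        (show y ∈ _ from ⟨hi, hj, hne⟩)
      refine ⟨patch W hW (ContinuousMap.const _ (a y)) 0, patch_mem_AA ?_ ?_,
        star_patch ?_ (star_zero _), p0, hp0, W, hW, hyW, ?_, ?_⟩
      · intro y' hy' x hx
        obtain ⟨hi', hj', hne'⟩ := hsub hy'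
        obtain ⟨α, rfl⟩ := 𝓡.comm_two (hx _ ⟨i, hi', rfl⟩).symm (hx _ ⟨j, hj', rfl⟩).symm hne'
        simp
      · intro y' _
        exact DD_zero y'
      · ext1 y'
        exact hstar
      · rw [patch_mem hyW]; rfl
      · intro y' hy'
        rw [patch_mem hy']
        exact hp0'
  · -- empty fibre
    have hgens : gens 𝓡 y = ∅ := by
      ext T
      simp only [gens, Set.mem_ofPred_eq, Set.mem_empty_iff_false, iff_false, not_exists]
      intro i hi
      exact h1 ⟨i, hi.1⟩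
    have hall : ∀ x, a y * x = x * a y := by
      intro x
      have := ha y x (by rw [hgens]; intro z hz; exact absurd hz (Set.notMem_empty z))
      exact this.symm
    obtain ⟨α, hα⟩ := 𝓡.comm_all hall
    refine ⟨ContinuousMap.const _ (a y), ?_, ?_, p0, hp0, Set.univ, isClopen_univ,
      Set.mem_univ _, rfl, fun y' _ => hp0'⟩
    · intro y'
      rw [ContinuousMap.const_apply, hα]
      exact DD_smul_one y' α
    · ext1 y'
      exact hstar

/-- Finite spectrum approximation in `A`. -/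
theorem approx {a : C(YY, M)} (ha : a ∈ AA 𝓡) (hsa : star a = a) {ε : ℝ} (hε : 0 < ε) :
    ∃ b ∈ AA 𝓡, star b = b ∧ (∃ p : ℂ[X], p ≠ 0 ∧ ∀ y, aeval (b y) p = 0) ∧ ‖a - b‖ < ε := by
  let Q : Set YY → Prop := fun s => ∃ b ∈ AA 𝓡, star b = b ∧ ∃ p : ℂ[X], p ≠ 0 ∧
    ∃ W : Set YY, IsClopen W ∧ s ⊆ W ∧ ∀ y ∈ W, aeval (b y) p = 0 ∧ ‖a y - b y‖ < ε
  have hQ : Q Set.univ := by
    refine isCompact_univ.induction_on (p := Q) ?_ ?_ ?_ ?_
    · exact ⟨0, zero_mem _, star_zero _, 1, one_ne_zero, ∅, isClopen_empty,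
        Set.Subset.rfl, fun y hy => absurd hy (Set.notMem_empty y)⟩
    · rintro s t hst ⟨b, hb, hb', p, hp, W, hW, hsW, h⟩
      exact ⟨b, hb, hb', p, hp, W, hW, hst.trans hsW, h⟩
    · rintro s t ⟨b, hb, hb', p, hp, W, hW, hsW, h⟩ ⟨c, hc, hc', q, hq, V, hV, htV, h'⟩
      refine ⟨patch W hW b c, patch_mem_AA (fun y _ => hb y) (fun y _ => hc y),
        star_patch hb' hc', p * q, mul_ne_zero hp hq, W ∪ V, hW.union hV,
        Set.union_subset_union hsW htV, ?_⟩
      intro y hy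
      by_cases hyW : y ∈ W
      · rw [patch_mem hyW, map_mul, (h y hyW).1, zero_mul]
        exact ⟨rfl, (h y hyW).2⟩
      · have hyV : y ∈ V := hy.resolve_left hyW
        rw [patch_notMem hyW, map_mul, (h' y hyV).1, mul_zero]
        exact ⟨rfl, (h' y hyV).2⟩
    · intro y _
      obtain ⟨s, hs, hs', p, hp, W, hW, hyW, hsy, h⟩ := local_model ha hsa y
      have hopen : IsOpen {y' : YY | ‖a y' - s y'‖ < ε} :=
        isOpen_lt (a - s).continuous.norm continuous_const
      obtain ⟨V, hV, hyV, hsub⟩ := compact_exists_isClopen_in_isOpen (hW.isOpen.inter hopen)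
        (show y ∈ W ∩ {y' : YY | ‖a y' - s y'‖ < ε} from
          ⟨hyW, by simp only [Set.mem_ofPred_eq, hsy, sub_self, norm_zero]; exact hε⟩)
      exact ⟨V, mem_nhdsWithin_of_mem_nhds (hV.isOpen.mem_nhds hyV), s, hs, hs', p, hp, V, hV,
        Set.Subset.rfl, fun y' hy' => ⟨h y' (hsub hy').1, (hsub hy').2⟩⟩
  obtain ⟨b, hb, hb', p, hp, W, -, hsW, h⟩ := hQ
  refine ⟨b, hb, hb', ⟨p, hp, fun y => (h y (hsW (Set.mem_univ y))).1⟩, ?_⟩
  rw [ContinuousMap.norm_lt_iff _ hε]
  intro y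
  exact (h y (hsW (Set.mem_univ y))).2

variable (𝓡)

/-- evaluation at a point -/
def evA (y : YY) : AA 𝓡 →ₐ[ℂ] M where
  toFun T := (T : C(YY, M)) y
  map_one' := rfl
  map_mul' _ _ := rfl
  map_zero' := rfl
  map_add' _ _ := rfl
  commutes' _ := rfl

/-- evaluation at a point, as a homomorphism of non-unital rings -/
def evR (y : YY) : AA 𝓡 →ₙ+* M where
  toFun T := (T : C(YY, M)) y
  map_mul' _ _ := rfl
  map_zero' := rfl
  map_add' _ _ := rfl

theorem AA_rr0 : RealRankZero (AA 𝓡) := by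
  refine realRankZero_of_unital fun a ha ε hε => ?_
  have ha' : star (a : C(YY, M)) = a := congrArg Subtype.val ha.star_eq
  obtain ⟨b, hb, hb', ⟨p, hp, hpb⟩, hab⟩ := approx a.2 ha' hε
  refine ⟨⟨b, hb⟩, Subtype.ext hb', ⟨p, hp, ?_⟩, hab⟩
  apply Subtype.ext
  ext1 y
  have h := aeval_algHom_apply (evA 𝓡 y) (⟨b, hb⟩ : AA 𝓡) p
  have h2 : aeval (evA 𝓡 y ⟨b, hb⟩) p = 0 := hpb y
  rw [h2] at h
  exact h.symm

theorem matrix_clopen {n : ℕ} {p : Matrix (Fin n) (Fin n) (AA 𝓡)} (hp : p * p = p) :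
    IsClopen {y : YY | p.map (evR 𝓡 y) = 0} := by
  let m : YY → ℝ := fun y => ∑ a, ∑ b, ‖((p a b : AA 𝓡) : C(YY, M)) y‖
  have hm : Continuous m := by
    refine continuous_finsetSum _ fun a _ => continuous_finsetSum _ fun b _ => ?_
    exact ((p a b : AA 𝓡) : C(YY, M)).continuous.norm
  have hm0 : ∀ y, 0 ≤ m y := fun y =>
    Finset.sum_nonneg fun a _ => Finset.sum_nonneg fun b _ => norm_nonneg _
  have hiff : ∀ y, p.map (evR 𝓡 y) = 0 ↔ m y = 0 := by
    intro y
    constructor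
    · intro h
      refine Finset.sum_eq_zero fun a _ => Finset.sum_eq_zero fun b _ => ?_
      have : ((p a b : AA 𝓡) : C(YY, M)) y = 0 := congrFun (congrFun h a) b
      rw [this, norm_zero]
    · intro h
      ext a b
      have h1 := (Finset.sum_eq_zero_iff_of_nonneg
        (fun a _ => Finset.sum_nonneg fun b _ => norm_nonneg _)).mp h a (Finset.mem_univ _)
      have h2 := (Finset.sum_eq_zero_iff_of_nonneg (fun b _ => norm_nonneg _)).mp h1 b
        (Finset.mem_univ _)
      exact norm_eq_zero.mp h2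
  have hsq : ∀ y, m y ≤ m y * m y := by
    intro y
    have h1 : ∀ a b, ((p a b : AA 𝓡) : C(YY, M)) y =
        ∑ c, ((p a c : AA 𝓡) : C(YY, M)) y * ((p c b : AA 𝓡) : C(YY, M)) y := by
      intro a b
      have h2 : p a b = ∑ c, p a c * p c b := by
        have := congrFun (congrFun hp a) b
        rw [Matrix.mul_apply] at this
        exact this.symm
      have h3 := congrArg (evA 𝓡 y) h2
      rw [map_sum] at h3
      exact h3
    have hrow : ∀ a b, ‖((p a b : AA 𝓡) : C(YY, M)) y‖ ≤ m y := by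
      intro a b
      calc ‖((p a b : AA 𝓡) : C(YY, M)) y‖ ≤ ∑ b, ‖((p a b : AA 𝓡) : C(YY, M)) y‖ :=
            Finset.single_le_sum (f := fun b => ‖((p a b : AA 𝓡) : C(YY, M)) y‖)
              (fun b _ => norm_nonneg _) (Finset.mem_univ b)
        _ ≤ m y := Finset.single_le_sum
              (f := fun a => ∑ b, ‖((p a b : AA 𝓡) : C(YY, M)) y‖)
              (fun a _ => Finset.sum_nonneg fun b _ => norm_nonneg _) (Finset.mem_univ a)
    calc m y ≤ ∑ a, ∑ b, ∑ c, ‖((p a c : AA 𝓡) : C(YY, M)) y‖ *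
            ‖((p c b : AA 𝓡) : C(YY, M)) y‖ := by
          refine Finset.sum_le_sum fun a _ => Finset.sum_le_sum fun b _ => ?_
          rw [h1 a b]
          exact (norm_sum_le _ _).trans (Finset.sum_le_sum fun c _ => norm_mul_le _ _)
      _ = ∑ a, ∑ c, ‖((p a c : AA 𝓡) : C(YY, M)) y‖ *
            ∑ b, ‖((p c b : AA 𝓡) : C(YY, M)) y‖ := by
          refine Finset.sum_congr rfl fun a _ => ?_
          rw [Finset.sum_comm]
          refine Finset.sum_congr rfl fun c _ => ?_
          rw [Finset.mul_sum]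
      _ ≤ ∑ a, ∑ c, ‖((p a c : AA 𝓡) : C(YY, M)) y‖ * m y := by
          refine Finset.sum_le_sum fun a _ => Finset.sum_le_sum fun c _ => ?_
          refine mul_le_mul_of_nonneg_left ?_ (norm_nonneg _)
          exact Finset.single_le_sum
              (f := fun a => ∑ b, ‖((p a b : AA 𝓡) : C(YY, M)) y‖)
              (fun a _ => Finset.sum_nonneg fun b _ => norm_nonneg _) (Finset.mem_univ c)
      _ = m y * m y := by
          simp only [← Finset.sum_mul]
          rfl
  have hdich : ∀ y, m y = 0 ↔ m y < 1 := by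
    intro y
    constructor
    · intro h; rw [h]; exact one_pos
    · intro h
      by_contra hne
      have hpos : 0 < m y := lt_of_le_of_ne (hm0 y) (Ne.symm hne)
      have := mul_lt_mul_of_pos_left h hpos
      rw [mul_one] at this
      exact absurd (hsq y) (not_le.mpr this)
  have hset : {y : YY | p.map (evR 𝓡 y) = 0} = {y | m y = 0} := by
    ext y; exact hiff y
  rw [hset]
  refine ⟨isClosed_eq hm continuous_const, ?_⟩
  have hset2 : {y : YY | m y = 0} = {y | m y < 1} := by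
    ext y; exact hdich y
  rw [hset2]
  exact isOpen_lt hm continuous_const

theorem comm_of_rel (s t : ℝ) (h : s = t ∨ (s = 0 ∧ t = 1)) :
    𝓡.P s * 𝓡.P t = 𝓡.P t * 𝓡.P s := by
  rcases h with rfl | ⟨rfl, rfl⟩
  · rfl
  · have h1 : 𝓡.P 1 = 1 - 𝓡.P 0 := by rw [← 𝓡.P_add]; abel
    rw [h1, mul_sub, sub_mul, mul_one, one_mul]

theorem pr_left (i j : LL) : pr i j i = true := by simp [pr]
theorem pr_right (i j : LL) : pr i j j = true := by simp [pr]

theorem central_aux (i j : LL) (z : OnePoint ℕ) (h : i.2 z = j.2 z ∨ (i.2 z = 0 ∧ j.2 z = 1)) :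
    𝓡.P (i.2 z) ∈ (gens 𝓡 (pr i j, z)).centralizer ∧
      𝓡.P (j.2 z) ∈ (gens 𝓡 (pr i j, z)).centralizer := by
  constructor
  · rintro _ ⟨k, hk, rfl⟩
    have hk' : k = i ∨ k = j := by simpa [pr] using hk
    rcases hk' with rfl | rfl
    · rfl
    · exact (comm_of_rel 𝓡 _ _ h).symm
  · rintro _ ⟨k, hk, rfl⟩
    have hk' : k = i ∨ k = j := by simpa [pr] using hk
    rcases hk' with rfl | rfl
    · exact comm_of_rel 𝓡 _ _ h
    · rfl

/-- the properties of `A` used on the ring side -/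
def modelA : Model (AA 𝓡) M where
  ev := evR 𝓡
  F i := ⟨FF 𝓡 i, FF_mem_AA i⟩
  F_idem i := Subtype.ext (FF_idem i)
  clopen := by
    intro c
    obtain ⟨n, p, hp, rfl⟩ := c.exists_rep
    have : {y : YY | V.map (evR 𝓡 y) (cls p hp) = 0} = {y : YY | p.map (evR 𝓡 y) = 0} := by
      ext y
      simp only [Set.mem_ofPred_eq]
      rw [V.map_cls]
      constructor
      · intro h; exact cls_eq_zero h
      · intro h
        rw [← cls_zero (ι := Fin n)]
        exact cls_congr h _ _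
    rw [this]
    exact matrix_clopen 𝓡 hp
  ne := by
    intro y h
    exact 𝓡.ne h
  central := by
    intro i j z h a
    have h1 := (a.2 (pr i j, z)) _ (central_aux 𝓡 i j z h).1
    have h2 : evR 𝓡 (pr i j, z) ⟨FF 𝓡 i, FF_mem_AA i⟩ = 𝓡.P (i.2 z) :=
      FF_of_mem (pr_left i j)
    rw [h2]
    exact h1.symm
  central' := by
    intro i j z h a
    have h1 := (a.2 (pr i j, z)) _ (central_aux 𝓡 i j z h).2
    have h2 : evR 𝓡 (pr i j, z) ⟨FF 𝓡 j, FF_mem_AA j⟩ = 𝓡.P (j.2 z) :=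
      FF_of_mem (pr_right i j)
    rw [h2]
    exact h1.symm
  eqF := by
    intro i j z h
    have h2 : evR 𝓡 (pr i j, z) ⟨FF 𝓡 i, FF_mem_AA i⟩ = 𝓡.P (i.2 z) :=
      FF_of_mem (pr_left i j)
    have h3 : evR 𝓡 (pr i j, z) ⟨FF 𝓡 j, FF_mem_AA j⟩ = 𝓡.P (j.2 z) :=
      FF_of_mem (pr_right i j)
    rw [h2, h3, h]
  oppF := by
    intro i j z hi hj
    have h2 : evR 𝓡 (pr i j, z) ⟨FF 𝓡 i, FF_mem_AA i⟩ = 𝓡.P (i.2 z) :=
      FF_of_mem (pr_left i j)
    have h3 : evR 𝓡 (pr i j, z) ⟨FF 𝓡 j, FF_mem_AA j⟩ = 𝓡.P (j.2 z) :=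
      FF_of_mem (pr_right i j)
    rw [h2, h3, hi, hj, 𝓡.P_add]
    rfl

end

end Pool.Agent.Lib_helper8.V53
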