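import Pool.Agent.Lib_helper8.V53.Corner

set_option autoImplicit false

/-!
# Approximation by combinations of orthogonal idempotents in a corner
-/

namespace Pool.Agent.Lib_helper8.V53

open Topology Filter Set

noncomputable section

/-! ### The step functions -/

/-- the index of the cell of width `δ` containing `t` -/
def cell (δ t : ℝ) : ℤ := ⌊t / δ + 1 / 2⌋

theorem cell_eq_iff {δ : ℝ} (hδ : 0 < δ) {t : ℝ} {k : ℤ} :
    cell δ t = k ↔ ((k : ℝ) - 1 / 2) * δ ≤ t ∧ t < ((k : ℝ) + 1 / 2) * δ := by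
  unfold cell
  rw [Int.floor_eq_iff]
  constructor
  · rintro ⟨h1, h2⟩
    constructor
    · have : (k : ℝ) - 1 / 2 ≤ t / δ := by linarith
      rwa [le_div_iff₀ hδ] at this
    · have : t / δ < (k : ℝ) + 1 / 2 := by linarith
      rwa [div_lt_iff₀ hδ] at this
  · rintro ⟨h1, h2⟩
    rw [← le_div_iff₀ hδ] at h1
    rw [← div_lt_iff₀ hδ] at h2
    constructor <;> linarith

theorem cell_spec {δ : ℝ} (hδ : 0 < δ) (t : ℝ) :
    ((cell δ t : ℝ) - 1 / 2) * δ ≤ t ∧ t < ((cell δ t : ℝ) + 1 / 2) * δ :=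
  (cell_eq_iff hδ).mp rfl

theorem cell_zero {δ : ℝ} (hδ : 0 < δ) : cell δ 0 = 0 := by
  rw [cell_eq_iff hδ]
  constructor <;> norm_num <;> linarith

/-- near a point which is not a boundary point, the cell is constant -/
theorem cell_eventually {δ : ℝ} (hδ : 0 < δ) {t : ℝ}
    (ht : ∀ k : ℤ, t ≠ ((k : ℝ) + 1 / 2) * δ) : ∀ᶠ s in 𝓝 t, cell δ s = cell δ t := by
  have h1 := cell_spec hδ t
  have h2 : ((cell δ t : ℝ) - 1 / 2) * δ ≠ t := by
    intro h
    refine ht (cell δ t - 1) ?_
    push_cast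
    linear_combination (-1 : ℝ) * h
  have h3 : Ioo (((cell δ t : ℝ) - 1 / 2) * δ) (((cell δ t : ℝ) + 1 / 2) * δ) ∈ 𝓝 t :=
    Ioo_mem_nhds (lt_of_le_of_ne h1.1 h2) h1.2
  filter_upwards [h3] with s hs
  exact (cell_eq_iff hδ).mpr ⟨hs.1.le, hs.2⟩

/-- the characteristic function of a cell -/
def chiR (δ : ℝ) (k : ℤ) (t : ℝ) : ℝ := if cell δ t = k then 1 else 0

/-- the characteristic function divided by the variable -/
def chiD (δ : ℝ) (k : ℤ) (t : ℝ) : ℝ := chiR δ k t / t

theorem chiR_contAt {δ : ℝ} (hδ : 0 < δ) (k : ℤ) {t : ℝ}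
    (ht : ∀ k : ℤ, t ≠ ((k : ℝ) + 1 / 2) * δ) : ContinuousAt (chiR δ k) t := by
  have h : chiR δ k =ᶠ[𝓝 t] fun _ => chiR δ k t := by
    filter_upwards [cell_eventually hδ ht] with s hs
    unfold chiR
    rw [hs]
  exact h.continuousAt

theorem chiD_contAt {δ : ℝ} (hδ : 0 < δ) {k : ℤ} (hk : k ≠ 0) {t : ℝ}
    (ht : ∀ k : ℤ, t ≠ ((k : ℝ) + 1 / 2) * δ) : ContinuousAt (chiD δ k) t := by
  by_cases h0 : t = 0
  · subst h0
    have h : chiD δ k =ᶠ[𝓝 0] fun _ => (0 : ℝ) := by
      filter_upwards [cell_eventually hδ ht] with s hs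
      unfold chiD chiR
      rw [hs, cell_zero hδ, if_neg hk.symm, zero_div]
    exact h.continuousAt
  · exact (chiR_contAt hδ k ht).div continuousAt_id h0

theorem chiR_eq_mul {δ : ℝ} (hδ : 0 < δ) {k : ℤ} (hk : k ≠ 0) (t : ℝ) :
    chiR δ k t = t * chiD δ k t := by
  unfold chiD
  by_cases h0 : t = 0
  · subst h0
    unfold chiR
    rw [cell_zero hδ, if_neg hk.symm]
    simp
  · field_simp

/-! ### Avoiding finitely many spectral values -/

variable {C : Type*} [CStarAlgebra C]

theorem InCor.sub_smul {g y : C} (hg : g * g = g) (hg' : star g = g) (hy : InCor g y) (l : ℝ) :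
    InCor g (y - l • g) where
  sa := by rw [star_sub, star_smul, hy.sa, hg', star_trivial]
  left := by rw [mul_sub, mul_smul_comm, hg, hy.left]
  right := by rw [sub_mul, smul_mul_assoc, hg, hy.right]

theorem avoid {g : C} (hg : g * g = g) (hg' : star g = g) (hD : DProp g) {y : C}
    (hy : InCor g y) (L : Finset ℝ) : ∀ ε > 0, ∃ y', InCor g y' ∧ ‖y - y'‖ < ε ∧
      ∀ l ∈ L, CorInv g (y' - l • g) := by
  classical
  induction L using Finset.induction_on with
  | empty =>
    intro ε hε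
    exact ⟨y, hy, by simpa using hε, by simp⟩
  | insert l L _ ih =>
    intro ε hε
    obtain ⟨y1, hy1, hn1, hL⟩ := ih (ε / 2) (by positivity)
    have hopen : IsOpen {z : C | ∀ l ∈ L, IsUnit (z - l • g + (1 - g))} := by
      have : {z : C | ∀ l ∈ L, IsUnit (z - l • g + (1 - g))} =
          ⋂ l ∈ L, (fun z : C => z - l • g + (1 - g)) ⁻¹' {x | IsUnit x} := by
        ext z; simp
      rw [this]
      refine isOpen_biInter_finset fun l _ => ?_
      exact Units.isOpen.preimage (by fun_prop)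
    have hmem : y1 ∈ {z : C | ∀ l ∈ L, IsUnit (z - l • g + (1 - g))} := by
      intro l hl
      have h1 := hy1.sub_smul hg hg' l
      exact (hL l hl).isUnit hg h1.left h1.right
    obtain ⟨r, hr, hball⟩ := Metric.isOpen_iff.mp hopen y1 hmem
    obtain ⟨y2, hy2, hn2, hinv⟩ := hD (y1 - l • g) (hy1.sub_smul hg hg' l) (min r (ε / 2))
      (lt_min hr (by positivity))
    have hy3 : InCor g (y2 + l • g) := by
      have := hy2.sub_smul hg hg' (-l)
      rwa [neg_smul, sub_neg_eq_add] at this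
    have hn3 : ‖y1 - (y2 + l • g)‖ < min r (ε / 2) := by
      have : y1 - (y2 + l • g) = y1 - l • g - y2 := by abel
      rw [this]; exact hn2
    refine ⟨y2 + l • g, hy3, ?_, ?_⟩
    · calc ‖y - (y2 + l • g)‖ = ‖(y - y1) + (y1 - (y2 + l • g))‖ := by congr 1; abel
        _ ≤ ‖y - y1‖ + ‖y1 - (y2 + l • g)‖ := norm_add_le _ _
        _ < ε / 2 + ε / 2 := add_lt_add hn1 (hn3.trans_le (min_le_right _ _))
        _ = ε := by ring
    · intro l' hl'
      rcases Finset.mem_insert.mp hl' with rfl | hl'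
      · have : y2 + l' • g - l' • g = y2 := by abel
        rw [this]; exact hinv
      · have h1 := hy3.sub_smul hg hg' l'
        refine corInv_of_isUnit hg h1.left h1.right ?_
        refine hball ?_ l' hl'
        rw [Metric.mem_ball, dist_eq_norm, norm_sub_rev]
        exact hn3.trans_le (min_le_left _ _)

theorem notMem_spectrum {g y : C} (hg : g * g = g) (hg' : star g = g) (hy : InCor g y) {l : ℝ}
    (hl : l ≠ 0) (h : CorInv g (y - l • g)) : l ∉ spectrum ℝ y := by
  rw [spectrum.notMem_iff]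
  have h1 := hy.sub_smul hg hg' l
  have h2 := h.isUnit hg h1.left h1.right
  have h3 : IsUnit (g - l • (1 - g)) := by
    refine ⟨⟨g - l • (1 - g), g - l⁻¹ • (1 - g), ?_, ?_⟩, rfl⟩
    · simp only [mul_sub, sub_mul, mul_smul_comm, smul_mul_assoc, hg, mul_one, one_mul,
        smul_sub, smul_smul, inv_mul_cancel₀ hl, one_smul]
      abel
    · simp only [mul_sub, sub_mul, mul_smul_comm, smul_mul_assoc, hg, mul_one, one_mul,
        smul_sub, smul_smul, mul_inv_cancel₀ hl, one_smul]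
      abel
  have h4 : algebraMap ℝ C l - y = -((y - l • g + (1 - g)) * (g - l • (1 - g))) := by
    rw [Algebra.algebraMap_eq_smul_one]
    simp only [mul_sub, sub_mul, add_mul, mul_smul_comm, smul_mul_assoc, hg, mul_one, one_mul,
      smul_sub, hy.right]
    module
  rw [h4]
  exact (h2.mul h3).neg

/-- Approximation by linear combinations of orthogonal idempotents of the corner. -/
theorem corner_approx {g : C} (hg : g * g = g) (hg' : star g = g) (hD : DProp g) {y : C}
    (hy : InCor g y) {ε : ℝ} (hε : 0 < ε) :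
    ∃ (S : Finset ℤ) (q : ℤ → C) (μ : ℤ → ℂ),
      (∀ k ∈ S, q k * q k = q k ∧ g * q k = q k ∧ q k * g = q k) ∧
      (∀ k ∈ S, ∀ l ∈ S, k ≠ l → q k * q l = 0) ∧ ‖y - ∑ k ∈ S, μ k • q k‖ < ε := by
  classical
  set δ : ℝ := min ε 1 / 2 with hδdef
  have hδ : 0 < δ := by positivity
  have hδε : 2 * δ ≤ ε := by rw [hδdef]; linarith [min_le_left ε 1]
  have hδ1 : δ ≤ 1 := by rw [hδdef]; linarith [min_le_right ε 1]
  obtain ⟨K, hK⟩ := exists_nat_gt ((‖y‖ + 1) / δ)
  rw [div_lt_iff₀ hδ] at hK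
  let L : Finset ℝ := (Finset.Icc (-(K : ℤ) - 1) K).image (fun k : ℤ => ((k : ℝ) + 1 / 2) * δ)
  obtain ⟨y', hy', hn, hL⟩ := avoid hg hg' hD hy L δ hδ
  have hy'n : ‖y'‖ ≤ ‖y‖ + 1 := by
    calc ‖y'‖ = ‖y - (y - y')‖ := by congr 1; abel
      _ ≤ ‖y‖ + ‖y - y'‖ := norm_sub_le _ _
      _ ≤ ‖y‖ + 1 := by linarith
  have hspecn : ∀ t ∈ spectrum ℝ y', |t| ≤ ‖y‖ + 1 := by
    intro t ht
    have h1 := spectrum.norm_le_norm_mul_of_mem ht
    have h2 : ‖(1 : C)‖ ≤ 1 := norm_proj_le (one_mul 1) (star_one C)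
    calc |t| = ‖t‖ := (Real.norm_eq_abs t).symm
      _ ≤ ‖y'‖ * ‖(1 : C)‖ := h1
      _ ≤ ‖y'‖ * 1 := by gcongr
      _ ≤ ‖y‖ + 1 := by rw [mul_one]; exact hy'n
  have hspec : ∀ t ∈ spectrum ℝ y', ∀ k : ℤ, t ≠ ((k : ℝ) + 1 / 2) * δ := by
    intro t ht k htk
    have habs := hspecn t ht
    rw [abs_le] at habs
    have hk1 : -(K : ℤ) - 1 ≤ k := by
      by_contra hlt
      push Not at hlt
      have h1 : (k : ℝ) + 1 ≤ -(K : ℝ) - 1 := by exact_mod_cast Int.add_one_le_iff.mpr hlt
      nlinarith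
    have hk2 : k ≤ K := by
      by_contra hlt
      push Not at hlt
      have h1 : (K : ℝ) + 1 ≤ k := by exact_mod_cast Int.add_one_le_iff.mpr hlt
      nlinarith
    have hne : ((k : ℝ) + 1 / 2) * δ ≠ 0 := by
      refine mul_ne_zero ?_ hδ.ne'
      intro h
      have h1 : (2 * k + 1 : ℝ) = 0 := by linarith
      have h2 : 2 * k + 1 = 0 := by exact_mod_cast h1
      omega
    exact notMem_spectrum hg hg' hy' hne
      (hL _ (Finset.mem_image.mpr ⟨k, Finset.mem_Icc.mpr ⟨hk1, hk2⟩, rfl⟩)) (htk ▸ ht)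
  have hc : ∀ k, ContinuousOn (chiR δ k) (spectrum ℝ y') := fun k t ht =>
    (chiR_contAt hδ k (hspec t ht)).continuousWithinAt
  have hd : ∀ k, k ≠ 0 → ContinuousOn (chiD δ k) (spectrum ℝ y') := fun k hk t ht =>
    (chiD_contAt hδ hk (hspec t ht)).continuousWithinAt
  have hsa : IsSelfAdjoint y' := hy'.sa
  let q : ℤ → C := fun k => cfc (chiR δ k) y'
  have hqq : ∀ k, q k * q k = q k := by
    intro k
    have := cfc_mul (chiR δ k) (chiR δ k) y' (hc k) (hc k)
    change cfc (chiR δ k) y' * cfc (chiR δ k) y' = cfc (chiR δ k) y'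
    rw [← this]
    refine cfc_congr fun t _ => ?_
    unfold chiR
    split_ifs <;> simp
  have hql : ∀ k l, k ≠ l → q k * q l = 0 := by
    intro k l hkl
    have := cfc_mul (chiR δ k) (chiR δ l) y' (hc k) (hc l)
    change cfc (chiR δ k) y' * cfc (chiR δ l) y' = 0
    rw [← this, ← cfc_const_zero ℝ y']
    refine cfc_congr fun t _ => ?_
    unfold chiR
    split_ifs with h1 h2
    · exact absurd (h1.symm.trans h2) hkl
    all_goals simp
  have hqy : ∀ k, k ≠ 0 → q k = y' * cfc (chiD δ k) y' ∧ q k = cfc (chiD δ k) y' * y' := by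
    intro k hk
    constructor
    · have h1 := cfc_mul (id : ℝ → ℝ) (chiD δ k) y' continuousOn_id (hd k hk)
      rw [cfc_id ℝ y'] at h1
      rw [← h1]
      exact cfc_congr fun t _ => chiR_eq_mul hδ hk t
    · have h1 := cfc_mul (chiD δ k) (id : ℝ → ℝ) y' (hd k hk) continuousOn_id
      rw [cfc_id ℝ y'] at h1
      rw [← h1]
      exact cfc_congr fun t _ => (chiR_eq_mul hδ hk t).trans (mul_comm _ _)
  let S : Finset ℤ := (Finset.Icc (-(K : ℤ) - 1) (K + 1)).erase 0
  refine ⟨S, q, fun k => ((k * δ : ℝ) : ℂ), ?_, fun k _ l _ => hql k l, ?_⟩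
  · intro k hk
    have hk0 : k ≠ 0 := (Finset.mem_erase.mp hk).1
    refine ⟨hqq k, ?_, ?_⟩
    · rw [(hqy k hk0).1, ← mul_assoc, hy'.left]
    · rw [(hqy k hk0).2, mul_assoc, hy'.right]
  · have hsum : ∑ k ∈ S, ((k * δ : ℝ) : ℂ) • q k =
        cfc (∑ k ∈ S, fun t => (k * δ : ℝ) * chiR δ k t) y' := by
      have hsm := cfc_sum (fun (k : ℤ) (t : ℝ) => (k * δ : ℝ) * chiR δ k t) y' S
        (fun k _ => continuousOn_const.mul (hc k))
      rw [hsm]
      refine Finset.sum_congr rfl fun k _ => ?_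
      rw [cfc_const_mul _ _ _ (hc k)]
      exact (RCLike.real_smul_eq_coe_smul (K := ℂ) _ _).symm
    have hcs : ContinuousOn (∑ k ∈ S, fun t => (k * δ : ℝ) * chiR δ k t) (spectrum ℝ y') := by
      have : (∑ k ∈ S, fun t => (k * δ : ℝ) * chiR δ k t) =
          fun t => ∑ k ∈ S, (k * δ : ℝ) * chiR δ k t := by
        funext t
        rw [Finset.sum_apply]
      rw [this]
      exact continuousOn_finsetSum _ fun k _ => continuousOn_const.mul (hc k)
    have hdiff : y' - ∑ k ∈ S, ((k * δ : ℝ) : ℂ) • q k =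
        cfc (fun t => t - (∑ k ∈ S, fun t => (k * δ : ℝ) * chiR δ k t) t) y' := by
      rw [hsum, cfc_sub (fun t => t) _ y' continuousOn_id hcs]
      congr 1
      exact (cfc_id ℝ y').symm
    have hbound : ‖y' - ∑ k ∈ S, ((k * δ : ℝ) : ℂ) • q k‖ ≤ δ / 2 := by
      rw [hdiff]
      refine norm_cfc_le (by positivity) fun t ht => ?_
      have hval : (∑ k ∈ S, fun t => (k * δ : ℝ) * chiR δ k t) t = (cell δ t : ℝ) * δ := by
        rw [Finset.sum_apply]
        by_cases h0 : cell δ t = 0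
        · rw [h0]
          refine (Finset.sum_eq_zero fun k hk => ?_).trans (by simp)
          have hk0 : k ≠ 0 := (Finset.mem_erase.mp hk).1
          unfold chiR
          rw [h0, if_neg hk0.symm, mul_zero]
        · have hmem : cell δ t ∈ S := by
            refine Finset.mem_erase.mpr ⟨h0, Finset.mem_Icc.mpr ?_⟩
            have habs := hspecn t ht
            rw [abs_le] at habs
            obtain ⟨h1, h2⟩ := cell_spec hδ t
            constructor
            · by_contra hlt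
              push Not at hlt
              have h3 : (cell δ t : ℝ) + 1 ≤ -(K : ℝ) - 1 := by
                exact_mod_cast Int.add_one_le_iff.mpr hlt
              nlinarith
            · by_contra hlt
              push Not at hlt
              have h3 : ((K : ℝ) + 1) + 1 ≤ cell δ t := by
                exact_mod_cast Int.add_one_le_iff.mpr hlt
              nlinarith
          rw [Finset.sum_eq_single (cell δ t)]
          · unfold chiR
            rw [if_pos rfl, mul_one]
          · intro k _ hk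
            unfold chiR
            rw [if_neg hk.symm, mul_zero]
          · intro h; exact absurd hmem h
      rw [hval, Real.norm_eq_abs, abs_le]
      obtain ⟨h1, h2⟩ := cell_spec hδ t
      constructor <;> nlinarith
    calc ‖y - ∑ k ∈ S, ((k * δ : ℝ) : ℂ) • q k‖
        = ‖(y - y') + (y' - ∑ k ∈ S, ((k * δ : ℝ) : ℂ) • q k)‖ := by congr 1; abel
      _ ≤ ‖y - y'‖ + ‖y' - ∑ k ∈ S, ((k * δ : ℝ) : ℂ) • q k‖ := norm_add_le _ _
      _ < ε := by linarith

end

end Pool.Agent.Lib_helper8.V53
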