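import Pool.Agent.Lib_helper8.V53.RingSide

set_option autoImplicit false

/-!
# A Bergman type regular ring

`BB` is the ring of all `ℚ`-linear endomorphisms `T` of `ℚ[X]` which agree, on some nonzero
ideal, with the multiplication by a rational function: `T (h * f) = p * f` for some polynomials
`h ≠ 0` and `p`.
-/

namespace Pool.Agent.Lib_helper8.V53

open Polynomial

universe u

/-- The properties of a pair of classes `a`, `x` of `V(R)` which are impossible for a C*-algebra
of real rank zero. -/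
structure BadPair {M : Type*} [AddCommMonoid M] (a x : M) : Prop where
  ne : a ≠ 0
  atom : ∀ b c, a = b + c → b = 0 ∨ c = 0
  absorb : x = x + a
  dich : ∀ y z, x = y + z → (∃ (m : ℕ) (t : M), y + t = m • a) ∨ (∃ (m : ℕ) (t : M), z + t = m • a)
  big : ¬ ∃ (m : ℕ) (t : M), x + t = m • a

noncomputable section

/-- endomorphisms of the vector space `ℚ[X]` -/
abbrev EE : Type := Module.End ℚ ℚ[X]

/-- `T` is the multiplication by `p / h` on the ideal generated by `h` -/
def MulOn (T : EE) (h p : ℚ[X]) : Prop := h ≠ 0 ∧ ∀ f, T (h * f) = p * f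

/-- the ring -/
def BB : Subring EE where
  carrier := {T | ∃ h p, MulOn T h p}
  mul_mem' := by
    rintro S T ⟨h, p, hh, hS⟩ ⟨k, q, hk, hT⟩
    refine ⟨h * k, p * q, mul_ne_zero hh hk, fun f => ?_⟩
    have e1 : h * k * f = k * (h * f) := by ring
    have e2 : q * (h * f) = h * (q * f) := by ring
    rw [Module.End.mul_apply, e1, hT, e2, hS]
    ring
  one_mem' := ⟨1, 1, one_ne_zero, fun f => by simp⟩
  add_mem' := by
    rintro S T ⟨h, p, hh, hS⟩ ⟨k, q, hk, hT⟩
    refine ⟨h * k, p * k + q * h, mul_ne_zero hh hk, fun f => ?_⟩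
    have e1 : S (h * k * f) = p * (k * f) := by rw [mul_assoc, hS]
    have e2 : T (h * k * f) = q * (h * f) := by
      rw [show h * k * f = k * (h * f) by ring, hT]
    rw [LinearMap.add_apply, e1, e2]
    ring
  zero_mem' := ⟨1, 0, one_ne_zero, fun f => by simp⟩
  neg_mem' := by
    rintro S ⟨h, p, hh, hS⟩
    exact ⟨h, -p, hh, fun f => by rw [LinearMap.neg_apply, hS]; ring⟩

theorem mem_BB {T : EE} : T ∈ BB ↔ ∃ h p, MulOn T h p := Iff.rfl

/-- An endomorphism killing a nonzero ideal has range in a space of polynomials of bounded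
degree. -/
theorem bounded_of_kill {T : EE} {h : ℚ[X]} (hh : h ≠ 0) (hT : ∀ f, T (h * f) = 0) :
    ∃ N : ℕ, ∀ f, T f ∈ degreeLT ℚ N := by
  let n := h.natDegree
  refine ⟨(Finset.range (n + 1)).sup (fun i => (T (monomial i 1)).natDegree) + 1, fun f => ?_⟩
  have h1 : T f = T (f % h) := by
    conv_lhs => rw [← EuclideanDomain.div_add_mod f h, map_add, hT, zero_add]
  have h2 : (f % h).natDegree < n + 1 := by
    have h0 := Polynomial.natDegree_le_natDegree (Polynomial.degree_mod_lt f hh).le
    omega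
  have h3 := Polynomial.as_sum_range' (f % h) (n + 1) h2
  rw [h1, h3, map_sum]
  refine Submodule.sum_mem _ fun i hi => ?_
  have h4 : (monomial i ((f % h).coeff i) : ℚ[X]) = ((f % h).coeff i) • monomial i (1 : ℚ) := by
    rw [smul_monomial, smul_eq_mul, mul_one]
  rw [h4, map_smul]
  refine Submodule.smul_mem _ _ ?_
  rw [mem_degreeLT]
  have h5 : (T (monomial i 1)).natDegree ≤
      (Finset.range (n + 1)).sup (fun i => (T (monomial i 1)).natDegree) :=
    Finset.le_sup (f := fun i => (T (monomial i 1)).natDegree) hi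
  refine lt_of_le_of_lt degree_le_natDegree ?_
  exact_mod_cast Nat.lt_succ_of_le h5

/-- Elements in a regular ring: the case of a nonzero rational function. -/
theorem regular_case1 {T : EE} {h p : ℚ[X]} (hp : p ≠ 0) (hT : ∀ f, T (h * f) = p * f) :
    ∃ S : EE, T * S * T = T ∧ ∀ f, S (p * f) = h * f := by
  let W : Submodule ℚ ℚ[X] := LinearMap.range (LinearMap.mulLeft ℚ h)
  have hdisj : Disjoint W (LinearMap.ker T) := by
    rw [Submodule.disjoint_def]
    rintro _ ⟨f, rfl⟩ hf
    rw [LinearMap.mem_ker, LinearMap.mulLeft_apply, hT] at hf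
    have : f = 0 := (mul_eq_zero.mp hf).resolve_left hp
    rw [this, map_zero]
  obtain ⟨U, hWU, hU⟩ := hdisj.exists_isCompl
  have hinj : LinearMap.ker (T ∘ₗ U.subtype) = ⊥ := by
    rw [LinearMap.ker_eq_bot']
    intro u hu
    have h1 : (u : ℚ[X]) ∈ LinearMap.ker T := hu
    have := (Submodule.disjoint_def.mp hU.disjoint) u u.2 h1
    exact Subtype.ext this
  obtain ⟨g, hg⟩ := LinearMap.exists_leftInverse_of_injective (T ∘ₗ U.subtype) hinj
  have hg' : ∀ u ∈ U, (g (T u) : ℚ[X]) = u := by
    intro u hu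
    have := LinearMap.congr_fun hg ⟨u, hu⟩
    exact congrArg Subtype.val this
  refine ⟨U.subtype ∘ₗ g, ?_, ?_⟩
  · refine LinearMap.ext fun x => ?_
    have hx : x ∈ U ⊔ LinearMap.ker T := by
      rw [codisjoint_iff.mp hU.codisjoint]
      exact Submodule.mem_top
    obtain ⟨u, hu, k, hk, rfl⟩ := Submodule.mem_sup.mp hx
    have hk' : T k = 0 := hk
    change T (g (T (u + k)) : ℚ[X]) = T (u + k)
    rw [map_add, hk', add_zero, hg' u hu]
  · intro f
    have h1 : h * f ∈ U := hWU ⟨f, rfl⟩
    rw [← hT]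
    exact hg' _ h1

/-- Elements in a regular ring: the case of zero. -/
theorem regular_case2 {T : EE} {h : ℚ[X]} (hh : h ≠ 0) (hT : ∀ f, T (h * f) = 0) :
    ∃ S : EE, T * S * T = T ∧ ∃ N : ℕ, ∀ f, S (X ^ N * f) = 0 := by
  obtain ⟨N, hN⟩ := bounded_of_kill hh hT
  let W : Submodule ℚ ℚ[X] := LinearMap.range (LinearMap.mulLeft ℚ (X ^ N : ℚ[X]))
  have hdisj : Disjoint W (LinearMap.range T) := by
    rw [Submodule.disjoint_def]
    rintro _ ⟨f, rfl⟩ ⟨g, hg⟩
    have h1 := hN g
    rw [hg, mem_degreeLT, LinearMap.mulLeft_apply] at h1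
    rw [LinearMap.mulLeft_apply]
    by_contra hne
    have hf : f ≠ 0 := by
      rintro rfl
      exact hne (mul_zero _)
    rw [degree_mul, degree_X_pow, degree_eq_natDegree hf] at h1
    have h2 : N + f.natDegree < N := by exact_mod_cast h1
    omega
  obtain ⟨U, hWU, hU⟩ := hdisj.exists_isCompl
  obtain ⟨σ, hσ⟩ := LinearMap.exists_rightInverse_of_surjective T.rangeRestrict
    T.range_rangeRestrict
  have hσ' : ∀ e : LinearMap.range T, T (σ e) = e := by
    intro e
    have := LinearMap.congr_fun hσ e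
    exact congrArg Subtype.val this
  let π : ℚ[X] →ₗ[ℚ] LinearMap.range T := Submodule.projectionOnto _ _ hU.symm
  refine ⟨σ ∘ₗ π, ?_, N, ?_⟩
  · refine LinearMap.ext fun x => ?_
    change T (σ (π (T x))) = T x
    rw [hσ']
    have h1 : π ((⟨T x, LinearMap.mem_range_self T x⟩ : LinearMap.range T) : ℚ[X]) =
        (⟨T x, LinearMap.mem_range_self T x⟩ : LinearMap.range T) :=
      Submodule.projectionOnto_apply_left hU.symm _
    exact congrArg Subtype.val h1
  · intro f
    change σ (π (X ^ N * f)) = 0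
    have h1 : (X ^ N * f : ℚ[X]) ∈ U := hWU ⟨f, rfl⟩
    have h2 : π (X ^ N * f) = 0 := (Submodule.projectionOnto_apply_eq_zero_iff hU.symm).mpr h1
    rw [h2, map_zero]

theorem BB_regular : IsVNRegular BB := by
  rintro ⟨T, h, p, hh, hT⟩
  by_cases hp : p = 0
  · subst hp
    obtain ⟨S, hS, N, hN⟩ := regular_case2 hh (fun f => by rw [hT, zero_mul])
    refine ⟨⟨S, X ^ N, 0, pow_ne_zero _ X_ne_zero, fun f => by rw [hN, zero_mul]⟩, ?_⟩
    exact Subtype.ext hS
  · obtain ⟨S, hS, hS'⟩ := regular_case1 hp hT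
    exact ⟨⟨S, p, h, hp, hS'⟩, Subtype.ext hS⟩

/-! ### The elements -/

/-- the rank one idempotent -/
def e0E : EE where
  toFun f := C (f.coeff 0)
  map_add' f g := by simp
  map_smul' r f := by simp [smul_eq_C_mul]

/-- multiplication by `X` -/
def mE : EE := LinearMap.mulLeft ℚ X

/-- division by `X` -/
def dE : EE where
  toFun f := f.divX
  map_add' f g := divX_add
  map_smul' r f := by
    rw [RingHom.id_apply, smul_eq_C_mul, smul_eq_C_mul, divX_C_mul]

/-- the map `f ↦ c • g` where `c` is the constant coefficient of `f` -/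
def uE (g : ℚ[X]) : EE where
  toFun f := C (f.coeff 0) * g
  map_add' f f' := by simp [add_mul]
  map_smul' r f := by simp [smul_eq_C_mul, mul_assoc]

/-- the map `f ↦` the `i`-th coefficient of `T f` -/
def wE (T : EE) (i : ℕ) : EE where
  toFun f := C ((T f).coeff i)
  map_add' f f' := by simp
  map_smul' r f := by rw [map_smul]; simp [smul_eq_C_mul]

theorem e0E_mem : e0E ∈ BB := ⟨X, 0, X_ne_zero, fun f => by
  change C ((X * f).coeff 0) = _
  simp⟩

theorem mE_mem : mE ∈ BB := ⟨1, X, one_ne_zero, fun f => by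
  change X * (1 * f) = _
  rw [one_mul]⟩

theorem dE_mem : dE ∈ BB := ⟨X, 1, X_ne_zero, fun f => by
  change (X * f).divX = _
  rw [one_mul]
  ext n
  rw [coeff_divX, coeff_X_mul]⟩

theorem uE_mem (g : ℚ[X]) : uE g ∈ BB := ⟨X, 0, X_ne_zero, fun f => by
  change C ((X * f).coeff 0) * g = _
  simp⟩

theorem wE_mem {T : EE} {h : ℚ[X]} (hh : h ≠ 0) (hT : ∀ f, T (h * f) = 0) (i : ℕ) :
    wE T i ∈ BB := ⟨h, 0, hh, fun f => by
  change C ((T (h * f)).coeff i) = _
  rw [hT]; simp⟩

/-- the rank one idempotent of `BB` -/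
def e0 : BB := ⟨e0E, e0E_mem⟩

theorem e0_idem : e0 * e0 = e0 := by
  refine Subtype.ext (LinearMap.ext fun f => ?_)
  change C ((C (f.coeff 0) : ℚ[X]).coeff 0) = C (f.coeff 0)
  simp

theorem d_mul_m : (⟨dE, dE_mem⟩ : BB) * ⟨mE, mE_mem⟩ = 1 := by
  refine Subtype.ext (LinearMap.ext fun f => ?_)
  change (X * f).divX = f
  ext n
  rw [coeff_divX, coeff_X_mul]

theorem m_mul_d : (⟨mE, mE_mem⟩ : BB) * ⟨dE, dE_mem⟩ = 1 - e0 := by
  refine Subtype.ext (LinearMap.ext fun f => ?_)
  change X * f.divX = f - C (f.coeff 0)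
  have := divX_mul_X_add f
  rw [eq_sub_iff_add_eq, mul_comm]
  exact this

theorem unit_matrix_mul {R : Type u} [NonUnitalRing R] (x y : Matrix Unit Unit R) :
    (x * y) () () = x () () * y () () := by
  simp [Matrix.mul_apply]

theorem finRank_of_kill {T : BB} {h : ℚ[X]} (hh : h ≠ 0) (hT : ∀ f, (T : EE) (h * f) = 0) :
    FinRank (one1 e0) (one1 T) := by
  obtain ⟨N, hN⟩ := bounded_of_kill hh hT
  refine ⟨N, fun i => one1 ⟨uE (X ^ (i : ℕ)), uE_mem _⟩,
    fun i => one1 ⟨wE T i, wE_mem hh hT i⟩, ?_⟩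
  have h1 : T = ∑ i : Fin N, (⟨uE (X ^ (i : ℕ)), uE_mem _⟩ : BB) * e0 *
      ⟨wE T i, wE_mem hh hT i⟩ := by
    refine Subtype.ext (LinearMap.ext fun f => ?_)
    rw [AddSubmonoidClass.coe_finsetSum, LinearMap.sum_apply]
    have h2 : ∀ i : Fin N, (((⟨uE (X ^ (i : ℕ)), uE_mem _⟩ : BB) * e0 *
        ⟨wE T i, wE_mem hh hT i⟩ : BB) : EE) f = monomial (i : ℕ) (((T : EE) f).coeff i) := by
      intro i
      change C ((C ((C (((T : EE) f).coeff i) : ℚ[X]).coeff 0) : ℚ[X]).coeff 0) * X ^ (i : ℕ) = _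
      rw [coeff_C_zero, coeff_C_zero, C_mul_X_pow_eq_monomial]
    simp only [h2]
    rw [Fin.sum_univ_eq_sum_range (fun i => monomial i (((T : EE) f).coeff i)) N]
    have h3 := hN f
    rw [mem_degreeLT] at h3
    rcases Nat.eq_zero_or_pos N with hN0 | hN0
    · subst hN0
      have h4 : (T : EE) f = 0 := by
        rw [← degree_eq_bot]
        exact Nat.WithBot.lt_zero_iff.mp (by exact_mod_cast h3)
      simp [h4]
    · refine as_sum_range' _ N ?_
      by_cases h4 : (T : EE) f = 0
      · rw [h4, natDegree_zero]; exact hN0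
      · exact (natDegree_lt_iff_degree_lt h4).mpr h3
  ext i j
  conv_lhs => rw [h1]
  simp only [Matrix.sum_apply, one1_mul]
  rfl

theorem split_unit {q : BB} (hq : q * q = q) {y z : V BB} (h : clsE q hq = y + z) :
    ∃ (t1 t2 : BB) (h1 : t1 * t1 = t1) (h2 : t2 * t2 = t2), t1 * t2 = 0 ∧ t2 * t1 = 0 ∧
      t1 + t2 = q ∧ clsE t1 h1 = y ∧ clsE t2 h2 = z := by
  obtain ⟨e1, e2, h1, h2, h12, h21, hs, hc1, hc2⟩ := cls_split (one1_idem hq) h
  have f1 : e1 () () * e1 () () = e1 () () := by rw [← unit_matrix_mul, h1]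
  have f2 : e2 () () * e2 () () = e2 () () := by rw [← unit_matrix_mul, h2]
  refine ⟨e1 () (), e2 () (), f1, f2, ?_, ?_, ?_, ?_, ?_⟩
  · rw [← unit_matrix_mul, h12]; rfl
  · rw [← unit_matrix_mul, h21]; rfl
  · have := congrFun (congrFun hs ()) ()
    exact this
  · rw [← hc1]; exact cls_congr rfl _ _
  · rw [← hc2]; exact cls_congr rfl _ _

theorem clsE_zero {t : BB} (ht : t * t = t) (h : t = 0) : clsE t ht = 0 := by
  subst h
  rw [← cls_zero (ι := Unit)]
  exact cls_congr rfl _ _

theorem BB_bad : BadPair (clsE e0 e0_idem) (clsE (1 : BB) (one_mul 1)) where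
  ne := by
    intro h
    have h1 := cls_eq_zero h
    have h2 : e0 = 0 := congrFun (congrFun h1 ()) ()
    have h3 := LinearMap.congr_fun (congrArg Subtype.val h2) 1
    change C ((1 : ℚ[X]).coeff 0) = 0 at h3
    simp at h3
  atom := by
    intro b c h
    obtain ⟨t1, t2, h1, h2, h12, h21, hs, hb, hc⟩ := split_unit e0_idem h
    have hl : e0 * t1 = t1 := by rw [← hs, add_mul, h1, h21, add_zero]
    have hr : t1 * e0 = t1 := by rw [← hs, mul_add, h1, h12, add_zero]
    set l : ℚ := ((t1 : EE) 1).coeff 0 with hldef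
    have hform : ∀ f, (t1 : EE) f = C (l * f.coeff 0) := by
      intro f
      have e1 : (t1 : EE) f = C (((t1 : EE) (C (f.coeff 0))).coeff 0) := by
        conv_lhs => rw [← hl, ← hr]
        rfl
      have e2 : (C (f.coeff 0) : ℚ[X]) = f.coeff 0 • (1 : ℚ[X]) := by
        rw [smul_eq_C_mul, mul_one]
      rw [e1, e2, map_smul, coeff_smul, smul_eq_mul, mul_comm]
    have hll : l * l = l := by
      have e1 := LinearMap.congr_fun (congrArg Subtype.val h1) 1
      change (t1 : EE) ((t1 : EE) 1) = (t1 : EE) 1 at e1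
      rw [hform, hform] at e1
      have e2 := congrArg (fun g : ℚ[X] => g.coeff 0) e1
      simpa using e2
    have hcases : l = 0 ∨ l = 1 := by
      have : l * (l - 1) = 0 := by linear_combination hll
      rcases mul_eq_zero.mp this with h | h
      · exact Or.inl h
      · exact Or.inr (by linarith)
    rcases hcases with h0 | h0
    · left
      rw [← hb]
      refine clsE_zero h1 (Subtype.ext (LinearMap.ext fun f => ?_))
      rw [hform, h0, zero_mul, C_0]
      rfl
    · right
      rw [← hc]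
      refine clsE_zero h2 ?_
      have h3 : t1 = e0 := by
        refine Subtype.ext (LinearMap.ext fun f => ?_)
        rw [hform, h0, one_mul]
        rfl
      rw [h3] at hs
      exact left_eq_add.mp hs.symm
  absorb := by
    have hi : (1 - e0) * (1 - e0) = 1 - e0 := by
      rw [sub_mul, mul_sub, mul_sub, e0_idem]
      simp
    have h1 : clsE (1 : BB) (one_mul 1) = clsE (1 - e0) hi := by
      refine cls_eq_iff.mpr ⟨one1 ⟨dE, dE_mem⟩, one1 ⟨mE, mE_mem⟩, ?_, ?_⟩
      · rw [one1_mul, d_mul_m]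
      · rw [one1_mul, m_mul_d]
    conv_rhs => rw [h1]
    unfold clsE
    rw [← cls_add (one1_idem hi) (one1_idem e0_idem)]
    · exact cls_congr (by rw [one1_add]; simp) _ _
    · rw [one1_mul, sub_mul, one_mul, e0_idem, sub_self]; rfl
    · rw [one1_mul, mul_sub, mul_one, e0_idem, sub_self]; rfl
  dich := by
    intro y z h
    obtain ⟨t1, t2, h1, h2, h12, h21, hs, hb, hc⟩ := split_unit (one_mul 1) h
    obtain ⟨k, p, hk, hT⟩ := t1.2
    have hpp : p * p = p * k := by
      have e1 := LinearMap.congr_fun (congrArg Subtype.val h1) (k * (k * 1))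
      change (t1 : EE) ((t1 : EE) (k * (k * 1))) = (t1 : EE) (k * (k * 1)) at e1
      rw [hT] at e1
      rw [show p * (k * 1) = k * (p * 1) by ring, hT] at e1
      linear_combination e1
    by_cases hp : p = 0
    · left
      rw [← hb]
      exact (finRank_iff (one1_idem e0_idem) (one1_idem h1)).mpr
        (finRank_of_kill hk fun f => by rw [hT, hp, zero_mul])
    · right
      rw [← hc]
      have hpk : p = k := mul_left_cancel₀ hp hpp
      refine (finRank_iff (one1_idem e0_idem) (one1_idem h2)).mpr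
        (finRank_of_kill hk fun f => ?_)
      have e1 := LinearMap.congr_fun (congrArg Subtype.val hs) (k * f)
      change (t1 : EE) (k * f) + (t2 : EE) (k * f) = k * f at e1
      rw [hT, hpk] at e1
      exact add_eq_left.mp e1
  big := by
    intro h
    obtain ⟨m, u, v, huv⟩ := (finRank_iff (one1_idem e0_idem) (one1_idem (one_mul 1))).mp h
    have h1 : (1 : BB) = ∑ l, u l () () * e0 * v l () () := by
      have := congrFun (congrFun huv ()) ()
      rw [Matrix.sum_apply] at this
      simp only [unit_matrix_mul] at this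
      exact this
    have h2 : ∀ f : ℚ[X], f = ∑ l, ((v l () () : EE) f).coeff 0 • ((u l () () : BB) : EE) 1 := by
      intro f
      have h3 := LinearMap.congr_fun (congrArg Subtype.val h1) f
      rw [AddSubmonoidClass.coe_finsetSum, LinearMap.sum_apply] at h3
      refine h3.trans (Finset.sum_congr rfl fun l _ => ?_)
      change ((u l () () : BB) : EE) (C (((v l () () : EE) f).coeff 0)) = _
      rw [← map_smul, smul_eq_C_mul, mul_one]
    let N : ℕ := (Finset.univ : Finset (Fin m)).sup
      (fun l => (((u l () () : BB) : EE) 1).natDegree)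
    have h3 : (X ^ (N + 1) : ℚ[X]).natDegree ≤ N := by
      rw [h2 (X ^ (N + 1))]
      refine natDegree_sum_le_of_forall_le _ _ fun l _ => ?_
      refine (natDegree_smul_le _ _).trans ?_
      exact Finset.le_sup (f := fun l => (((u l () () : BB) : EE) 1).natDegree)
        (Finset.mem_univ l)
    rw [natDegree_X_pow] at h3
    omega

end

end Pool.Agent.Lib_helper8.V53
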