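import Pool.Agent.Lib_helper8.V53.RegMat

set_option autoImplicit false

/-!
# Ideals of matrices attached to order ideals of `V(R)`
-/

namespace Pool.Agent.Lib_helper8.V53

open Matrix

/-- order ideals of a commutative monoid -/
structure OrdIdeal {M : Type*} [AddCommMonoid M] (P : M → Prop) : Prop where
  zero : P 0
  add : ∀ a b, P (a + b) ↔ P a ∧ P b

section

universe u

variable {R : Type u} [NonUnitalRing R] {ι : Type} [Fintype ι]

/-- the matrices factoring through an idempotent matrix whose class satisfies `P` -/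
def InId (P : V R → Prop) (g : Matrix ι ι R) : Prop :=
  ∃ (κ : Type) (_ : Fintype κ) (H : Matrix κ κ R) (hH : H * H = H) (u : Matrix ι κ R)
    (v : Matrix κ ι R), P (cls H hH) ∧ g = u * H * v

variable {P : V R → Prop}

theorem InId.mul_left {g : Matrix ι ι R} (h : InId P g) (a : Matrix ι ι R) : InId P (a * g) := by
  obtain ⟨κ, _, H, hH, u, v, hP, rfl⟩ := h
  exact ⟨κ, _, H, hH, a * u, v, hP, by simp only [Matrix.mul_assoc]⟩

theorem InId.mul_right {g : Matrix ι ι R} (h : InId P g) (a : Matrix ι ι R) : InId P (g * a) := by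
  obtain ⟨κ, _, H, hH, u, v, hP, rfl⟩ := h
  exact ⟨κ, _, H, hH, u, v * a, hP, by simp only [Matrix.mul_assoc]⟩

theorem InId.neg {g : Matrix ι ι R} (h : InId P g) : InId P (-g) := by
  obtain ⟨κ, _, H, hH, u, v, hP, rfl⟩ := h
  exact ⟨κ, _, H, hH, -u, v, hP, by simp only [Matrix.neg_mul]⟩

theorem InId.add (hP : OrdIdeal P) {g g' : Matrix ι ι R} (h : InId P g) (h' : InId P g') :
    InId P (g + g') := by
  obtain ⟨κ, _, H, hH, u, v, h1, rfl⟩ := h
  obtain ⟨κ', _, H', hH', u', v', h1', rfl⟩ := h'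
  refine ⟨κ ⊕ κ', inferInstance, fromBlocks H 0 0 H', idem_fromBlocks hH hH',
    fromCols u u', fromRows v v', ?_, ?_⟩
  · rw [cls_fromBlocks hH hH', hP.add]
    exact ⟨h1, h1'⟩
  · ext i j
    simp [Matrix.mul_apply, Fintype.sum_sum_type]

theorem InId.sub (hP : OrdIdeal P) {g g' : Matrix ι ι R} (h : InId P g) (h' : InId P g') :
    InId P (g - g') := by
  rw [sub_eq_add_neg]
  exact h.add hP h'.neg

theorem OrdIdeal.of_le (hP : OrdIdeal P) {a b c : V R} (h : b = a + c) (hb : P b) : P a := by
  rw [h, hP.add] at hb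
  exact hb.1

theorem inId_idem_iff (hP : OrdIdeal P) {k : Matrix ι ι R} (hk : k * k = k) :
    InId P k ↔ P (cls k hk) := by
  constructor
  · rintro ⟨κ, _, H, hH, u, v, h1, h2⟩
    obtain ⟨c, hc⟩ := cls_le hk hH u v h2
    exact hP.of_le hc h1
  · intro h
    exact ⟨ι, inferInstance, k, hk, k, k, h, by rw [hk, hk]⟩

/-- In a regular ring, membership of `g` is decided by any idempotent `g s` with `g s g = g`. -/
theorem inId_iff_of_quasi (hP : OrdIdeal P) {g s : Matrix ι ι R} (hs : g * s * g = g)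
    (hk : (g * s) * (g * s) = g * s) : InId P g ↔ P (cls (g * s) hk) := by
  rw [← inId_idem_iff hP hk]
  constructor
  · intro h; exact h.mul_right s
  · intro h
    have := h.mul_right g
    rwa [hs] at this

theorem quasi_idem {g s : Matrix ι ι R} (hs : g * s * g = g) : (g * s) * (g * s) = g * s := by
  rw [← Matrix.mul_assoc, hs]

end

end Pool.Agent.Lib_helper8.V53
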