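import Pool.Agent.Lib_helper8.V53.EndGame
import Pool.Agent.Lib_helper8.V53.OrdIdeal

set_option autoImplicit false

/-!
# Closed ideals of C*-algebras attached to order ideals of classes
-/

namespace Pool.Agent.Lib_helper8.V53

open Topology Set

noncomputable section

variable {C : Type*} [CStarAlgebra C]

/-! ### Closed ideals -/

/-- If `b* b` lies in a closed ideal then `b` does. -/
theorem mem_of_star_mul_self {J : Submodule ℂ C} (hJ : IsClosed (J : Set C))
    (hl : ∀ c, ∀ x ∈ J, c * x ∈ J) (hr : ∀ c, ∀ x ∈ J, x * c ∈ J) {b : C}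
    (hb : star b * b ∈ J) : b ∈ J := by
  have hcl : b ∈ closure (J : Set C) := by
    rw [Metric.mem_closure_iff]
    intro δ hδ
    obtain ⟨ε, hε, hεδ⟩ : ∃ ε : ℝ, 0 < ε ∧ ε < δ ^ 2 :=
      ⟨δ ^ 2 / 2, by positivity, by linarith [sq_pos_of_pos hδ]⟩
    set a : C := star b * b with ha
    have hsa : IsSelfAdjoint a := IsSelfAdjoint.star_mul_self b
    have hspec : ∀ t ∈ spectrum ℝ a, 0 ≤ t := fun t ht => spectrum_star_mul_self_nonneg t ht
    have hc1 : ContinuousOn (fun t : ℝ => 1 / (t + ε)) (spectrum ℝ a) := by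
      refine ContinuousOn.div continuousOn_const (by fun_prop) fun t ht => ?_
      have := hspec t ht
      positivity
    have hc2 : ContinuousOn (fun t : ℝ => t * (1 / (t + ε))) (spectrum ℝ a) :=
      continuousOn_id.mul hc1
    have hc3 : ContinuousOn (fun t : ℝ => t * ((1 / (t + ε)) * (1 / (t + ε)))) (spectrum ℝ a) :=
      continuousOn_id.mul (hc1.mul hc1)
    set k : C := cfc (fun t : ℝ => 1 / (t + ε)) a with hk
    have hks : star k = k := (cfc_predicate (fun t : ℝ => 1 / (t + ε)) a : IsSelfAdjoint k)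
    have hkn : ε • k = 1 - a * k := by
      have h1 : a * k = cfc (fun t : ℝ => t * (1 / (t + ε))) a := by
        have h2 := cfc_mul (fun t : ℝ => t) (fun t : ℝ => 1 / (t + ε)) a continuousOn_id hc1
        rw [h2]
        congr 1
        exact (cfc_id' ℝ a).symm
      have h3 : ε • k = cfc (fun t : ℝ => ε • (1 / (t + ε))) a := (cfc_smul ε _ a hc1).symm
      have h4 : (1 : C) = cfc (fun _ : ℝ => (1 : ℝ)) a := (cfc_one ℝ a).symm
      rw [h1, h3, h4, ← cfc_sub (fun _ : ℝ => (1 : ℝ)) _ a continuousOn_const hc2]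
      refine cfc_congr fun t ht => ?_
      have := hspec t ht
      have h5 : t + ε ≠ 0 := by positivity
      simp only [smul_eq_mul]
      field_simp
      ring
    refine ⟨b * (a * k), hl _ _ (hr _ _ hb), ?_⟩
    rw [dist_eq_norm]
    have h1 : b - b * (a * k) = ε • (b * k) := by
      rw [← mul_smul_comm, hkn, mul_sub, mul_one]
    rw [h1]
    have h2 : ‖ε • (b * k)‖ * ‖ε • (b * k)‖ ≤ ε := by
      rw [← CStarRing.norm_star_mul_self]
      have h3 : star (ε • (b * k)) * (ε • (b * k)) =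
          cfc (fun t : ℝ => t * ((ε / (t + ε)) * (ε / (t + ε)))) a := by
        rw [star_smul, star_mul, hks, star_trivial, smul_mul_smul_comm]
        have e1 : k * star b * (b * k) = k * a * k := by rw [ha]; simp only [mul_assoc]
        rw [e1]
        have e2 : k * a = a * k := by
          have h5 : a * k = cfc (fun t : ℝ => t * (1 / (t + ε))) a := by
            have h2 := cfc_mul (fun t : ℝ => t) (fun t : ℝ => 1 / (t + ε)) a continuousOn_id hc1
            rw [h2]
            congr 1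
            exact (cfc_id' ℝ a).symm
          have h6 : k * a = cfc (fun t : ℝ => (1 / (t + ε)) * t) a := by
            have h2 := cfc_mul (fun t : ℝ => 1 / (t + ε)) (fun t : ℝ => t) a hc1 continuousOn_id
            rw [h2]
            congr 1
            exact (cfc_id' ℝ a).symm
          rw [h5, h6]
          exact cfc_congr fun t _ => mul_comm _ _
        rw [e2, mul_assoc]
        have h7 : k * k = cfc (fun t : ℝ => (1 / (t + ε)) * (1 / (t + ε))) a :=
          (cfc_mul _ _ a hc1 hc1).symm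
        have h8 : a * (k * k) = cfc (fun t : ℝ => t * ((1 / (t + ε)) * (1 / (t + ε)))) a := by
          rw [h7]
          have h2 := cfc_mul (fun t : ℝ => t) (fun t : ℝ => (1 / (t + ε)) * (1 / (t + ε))) a
            continuousOn_id (hc1.mul hc1)
          rw [h2]
          congr 1
          exact (cfc_id' ℝ a).symm
        rw [h8, ← cfc_smul (ε * ε) _ a hc3]
        refine cfc_congr fun t _ => ?_
        simp only [smul_eq_mul]
        ring
      rw [h3]
      refine norm_cfc_le hε.le fun t ht => ?_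
      have ht0 := hspec t ht
      have h5 : 0 < t + ε := by positivity
      rw [Real.norm_eq_abs, abs_of_nonneg (by positivity)]
      have h6 : ε / (t + ε) ≤ 1 := by rw [div_le_one h5]; linarith
      have h7 : t * (ε / (t + ε)) ≤ ε := by
        rw [← mul_div_assoc, div_le_iff₀ h5]
        nlinarith
      calc t * (ε / (t + ε) * (ε / (t + ε))) = (t * (ε / (t + ε))) * (ε / (t + ε)) := by ring
        _ ≤ ε * 1 := mul_le_mul h7 h6 (by positivity) hε.le
        _ = ε := mul_one ε
    have h4 : ‖ε • (b * k)‖ ^ 2 < δ ^ 2 := by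
      rw [sq]
      exact h2.trans_lt hεδ
    exact lt_of_pow_lt_pow_left₀ 2 hδ.le h4
  rwa [hJ.closure_eq] at hcl

/-! ### Cutting down products of projections -/

/-- the characteristic function of `|t| > t₀` -/
def chi0 (t0 t : ℝ) : ℝ := if t0 < |t| then 1 else 0

/-- the function `1/t` for `|t| > t₀` -/
def inv0 (t0 t : ℝ) : ℝ := if t0 < |t| then t⁻¹ else 0

theorem chi0_eventually {t0 t : ℝ} (ht : |t| ≠ t0) :
    ∀ᶠ s in 𝓝 t, (t0 < |s| ↔ t0 < |t|) := by
  rcases lt_or_gt_of_ne ht with h | h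
  · filter_upwards [(continuous_abs.tendsto t).eventually (gt_mem_nhds h)] with s hs
    exact ⟨fun h' => absurd h' (not_lt.mpr (le_of_lt hs)), fun h' => absurd h' (not_lt.mpr h.le)⟩
  · filter_upwards [(continuous_abs.tendsto t).eventually (lt_mem_nhds h)] with s hs
    exact ⟨fun _ => h, fun _ => hs⟩

theorem chi0_contAt {t0 t : ℝ} (ht : |t| ≠ t0) : ContinuousAt (chi0 t0) t := by
  have h : chi0 t0 =ᶠ[𝓝 t] fun _ => chi0 t0 t := by
    filter_upwards [chi0_eventually ht] with s hs
    unfold chi0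
    simp only [hs]
  exact h.continuousAt

theorem inv0_contAt {t0 t : ℝ} (h0 : 0 < t0) (ht : |t| ≠ t0) : ContinuousAt (inv0 t0) t := by
  by_cases h1 : t0 < |t|
  · have hne : t ≠ 0 := by
      rintro rfl
      rw [abs_zero] at h1
      exact absurd h1 (not_lt.mpr h0.le)
    have h : inv0 t0 =ᶠ[𝓝 t] fun s => s⁻¹ := by
      filter_upwards [chi0_eventually ht] with s hs
      unfold inv0
      rw [if_pos (hs.mpr h1)]
    exact (continuousAt_inv₀ hne).congr h.symm
  · have h : inv0 t0 =ᶠ[𝓝 t] fun _ => 0 := by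
      filter_upwards [chi0_eventually ht] with s hs
      unfold inv0
      rw [if_neg fun h2 => h1 (hs.mp h2)]
    exact continuousAt_const.congr h.symm

/-- `p p' p` is approximated by multiples of an idempotent below `p` and `p'`. -/
theorem cut_lemma {p p' : C} (hp : p * p = p) (hp' : star p = p) (hq' : star p' = p')
    (hD : DProp p) {ε : ℝ} (hε : 0 < ε) :
    ∃ q w s t : C, q * q = q ∧ p * q = q ∧ q * p = q ∧ q = s * p' * t ∧
      ‖p * p' * p - w * q‖ < ε := by
  set a : C := p * p' * p with ha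
  have haC : InCor p a := ⟨by rw [ha, star_mul, star_mul, hp', hq', mul_assoc],
    by rw [ha, ← mul_assoc, ← mul_assoc, hp], by rw [ha, mul_assoc, hp]⟩
  set t0 : ℝ := ε / 4 with ht0
  have ht0p : 0 < t0 := by positivity
  obtain ⟨y, hy, hn, hL⟩ := avoid hp hp' hD haC {t0, -t0} (t0 / 2) (by positivity)
  have hspec : ∀ t ∈ spectrum ℝ y, |t| ≠ t0 := by
    intro t ht habs
    rcases eq_or_eq_neg_of_abs_eq habs with h | h
    · exact notMem_spectrum hp hp' hy ht0p.ne' (hL t0 (by simp)) (h ▸ ht)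
    · exact notMem_spectrum hp hp' hy (neg_ne_zero.mpr ht0p.ne') (hL (-t0) (by simp)) (h ▸ ht)
  have hc : ContinuousOn (chi0 t0) (spectrum ℝ y) := fun t ht =>
    (chi0_contAt (hspec t ht)).continuousWithinAt
  have hd : ContinuousOn (inv0 t0) (spectrum ℝ y) := fun t ht =>
    (inv0_contAt ht0p (hspec t ht)).continuousWithinAt
  have hsa : IsSelfAdjoint y := hy.sa
  set q : C := cfc (chi0 t0) y with hq
  set k : C := cfc (inv0 t0) y with hk
  have hqq : q * q = q := by
    rw [hq, ← cfc_mul _ _ y hc hc]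
    refine cfc_congr fun t _ => ?_
    unfold chi0
    split_ifs <;> simp
  have hqs : star q = q := (cfc_predicate (chi0 t0) y : IsSelfAdjoint q)
  have hmul : ∀ t : ℝ, t * inv0 t0 t = chi0 t0 t := by
    intro t
    unfold inv0 chi0
    split_ifs with h
    · have : t ≠ 0 := by
        rintro rfl
        rw [abs_zero] at h
        exact absurd h (not_lt.mpr ht0p.le)
      exact mul_inv_cancel₀ this
    · exact mul_zero t
  have hyk : y * k = q := by
    have h1 := cfc_mul (fun t : ℝ => t) (inv0 t0) y continuousOn_id hd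
    rw [cfc_id' ℝ y] at h1
    rw [hk, ← h1, hq]
    exact cfc_congr fun t _ => hmul t
  have hky : k * y = q := by
    have h1 := cfc_mul (inv0 t0) (fun t : ℝ => t) y hd continuousOn_id
    rw [cfc_id' ℝ y] at h1
    rw [hk, ← h1, hq]
    exact cfc_congr fun t _ => (mul_comm _ _).trans (hmul t)
  have hpq : p * q = q := by rw [← hyk, ← mul_assoc, hy.left]
  have hqp : q * p = q := by rw [← hky, mul_assoc, hy.right]
  have hkn : ‖k‖ ≤ t0⁻¹ := by
    refine norm_cfc_le (by positivity) fun t _ => ?_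
    unfold inv0
    split_ifs with h
    · rw [norm_inv, Real.norm_eq_abs]
      exact inv_anti₀ ht0p h.le
    · rw [norm_zero]; positivity
  have hqn : ‖q‖ ≤ 1 := norm_proj_le hqq hqs
  have hyq : ‖y - y * q‖ ≤ t0 := by
    have h1 : y - y * q = cfc (fun t : ℝ => t - t * chi0 t0 t) y := by
      have h2 := cfc_mul (fun t : ℝ => t) (chi0 t0) y continuousOn_id hc
      rw [cfc_id' ℝ y] at h2
      have hc2 : ContinuousOn (fun t : ℝ => t * chi0 t0 t) (spectrum ℝ y) :=
        continuousOn_id.mul hc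
      rw [cfc_sub (fun t : ℝ => t) _ y continuousOn_id hc2, cfc_id' ℝ y, h2]
    rw [h1]
    refine norm_cfc_le ht0p.le fun t _ => ?_
    unfold chi0
    split_ifs with h
    · rw [mul_one, sub_self, norm_zero]; exact ht0p.le
    · rw [mul_zero, sub_zero, Real.norm_eq_abs]
      exact not_lt.mp h
  -- `q` factors through `p'`
  set δ : C := q * (a - y) * k * q with hδ
  have hδn : ‖δ‖ < 1 := by
    have h1 : ‖δ‖ ≤ 1 * (t0 / 2) * t0⁻¹ * 1 := by
      calc ‖δ‖ ≤ ‖q‖ * ‖a - y‖ * ‖k‖ * ‖q‖ := by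
            refine (norm_mul_le _ _).trans ?_
            refine mul_le_mul_of_nonneg_right ?_ (norm_nonneg _)
            refine (norm_mul_le _ _).trans ?_
            exact mul_le_mul_of_nonneg_right (norm_mul_le _ _) (norm_nonneg _)
        _ ≤ 1 * (t0 / 2) * t0⁻¹ * 1 := by gcongr
    refine h1.trans_lt ?_
    rw [one_mul, mul_one, div_mul_eq_mul_div, mul_inv_cancel₀ ht0p.ne']
    norm_num
  have hqδ : q * δ = δ := by rw [hδ]; simp only [← mul_assoc, hqq]
  have hδq : δ * q = δ := by rw [hδ, mul_assoc, hqq]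
  have hqak : q * a * k * q = q + δ := by
    rw [hδ]
    have : q * a * k * q = q * (y * k) * q + q * (a - y) * k * q := by
      simp only [mul_sub, sub_mul, mul_assoc]
      abel
    rw [this, hyk, hqq, hqq]
  obtain ⟨w, hw⟩ : IsUnit (1 + δ) := by
    have : 1 + δ = 1 - (-δ) := by abel
    rw [this]
    exact isUnit_one_sub_of_norm_lt_one (by rwa [norm_neg])
  have hfac : q = q * a * k * q * ↑w⁻¹ := by
    have h1 : q + δ = q * (1 + δ) := by rw [mul_add, mul_one, hqδ]
    rw [hqak, h1, ← hw, mul_assoc, Units.mul_inv, mul_one]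
  refine ⟨q, y, q * p, p * k * q * ↑w⁻¹, hqq, hpq, hqp, ?_, ?_⟩
  · conv_lhs => rw [hfac, ha]
    simp only [mul_assoc]
  · calc ‖a - y * q‖ = ‖(a - y) + (y - y * q)‖ := by congr 1; abel
      _ ≤ ‖a - y‖ + ‖y - y * q‖ := norm_add_le _ _
      _ ≤ t0 / 2 + t0 := add_le_add hn.le hyq
      _ < ε := by rw [ht0]; linarith

/-! ### The ideal of an order ideal of classes -/

section ideal

variable {M : Type*} [AddCommMonoid M] (𝓢 : ClassSys C M) (P : M → Prop)

/-- finite sums of elements factoring through idempotents with class in `P` -/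
def InS (c : C) : Prop :=
  ∃ (m : ℕ) (u H v : Fin m → C) (a : Fin m → M), (∀ l, 𝓢.Cl (H l) (a l) ∧ P (a l)) ∧
    c = ∑ l, u l * H l * v l

variable {𝓢 P}

theorem InS.zero : InS 𝓢 P 0 :=
  ⟨0, fun _ => 0, fun _ => 0, fun _ => 0, fun _ => 0, fun l => l.elim0, by simp⟩

theorem InS.add {c d : C} (h : InS 𝓢 P c) (h' : InS 𝓢 P d) : InS 𝓢 P (c + d) := by
  obtain ⟨m, u, H, v, a, h1, rfl⟩ := h
  obtain ⟨m', u', H', v', a', h1', rfl⟩ := h'
  refine ⟨m + m', Fin.append u u', Fin.append H H', Fin.append v v', Fin.append a a', ?_, ?_⟩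
  · intro l
    refine Fin.addCases (fun l => ?_) (fun l => ?_) l
    · rw [Fin.append_left, Fin.append_left]; exact h1 l
    · rw [Fin.append_right, Fin.append_right]; exact h1' l
  · rw [Fin.sum_univ_add]
    simp

theorem InS.mul_left {c : C} (h : InS 𝓢 P c) (d : C) : InS 𝓢 P (d * c) := by
  obtain ⟨m, u, H, v, a, h1, rfl⟩ := h
  exact ⟨m, fun l => d * u l, H, v, a, h1, by simp only [Finset.mul_sum, mul_assoc]⟩

theorem InS.mul_right {c : C} (h : InS 𝓢 P c) (d : C) : InS 𝓢 P (c * d) := by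
  obtain ⟨m, u, H, v, a, h1, rfl⟩ := h
  exact ⟨m, u, H, fun l => v l * d, a, h1, by simp only [Finset.sum_mul, mul_assoc]⟩

theorem InS.of_cl {q : C} {a : M} (h : 𝓢.Cl q a) (hP : P a) : InS 𝓢 P q :=
  ⟨1, fun _ => 1, fun _ => q, fun _ => 1, fun _ => a, fun _ => ⟨h, hP⟩, by simp⟩

variable (𝓢 P)

/-- the algebraic ideal -/
def JS : Submodule ℂ C where
  carrier := {c | InS 𝓢 P c}
  add_mem' := fun h h' => h.add h'
  zero_mem' := InS.zero
  smul_mem' := by
    intro r c h
    have : r • c = (r • (1 : C)) * c := by rw [smul_mul_assoc, one_mul]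
    rw [this]
    exact InS.mul_left h _

/-- the closed ideal -/
def JC : Submodule ℂ C := (JS 𝓢 P).topologicalClosure

variable {𝓢 P}

theorem JC_closed : IsClosed (JC 𝓢 P : Set C) := Submodule.isClosed_topologicalClosure _

theorem JS_le : JS 𝓢 P ≤ JC 𝓢 P := Submodule.le_topologicalClosure _

theorem JC_coe : (JC 𝓢 P : Set C) = closure (JS 𝓢 P : Set C) :=
  Submodule.topologicalClosure_coe _

theorem JC_mul_left (c : C) : ∀ x ∈ JC 𝓢 P, c * x ∈ JC 𝓢 P := by
  intro x hx
  have hx' : x ∈ closure (JS 𝓢 P : Set C) := by rw [← JC_coe]; exact hx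
  have : c * x ∈ closure (JS 𝓢 P : Set C) :=
    map_mem_closure (by fun_prop : Continuous fun x => c * x) hx' fun y hy => InS.mul_left hy c
  rw [← JC_coe] at this
  exact this

theorem JC_mul_right (c : C) : ∀ x ∈ JC 𝓢 P, x * c ∈ JC 𝓢 P := by
  intro x hx
  have hx' : x ∈ closure (JS 𝓢 P : Set C) := by rw [← JC_coe]; exact hx
  have : x * c ∈ closure (JS 𝓢 P : Set C) :=
    map_mem_closure (f := fun y => y * c) (by fun_prop) hx' fun y hy => InS.mul_right hy c
  rw [← JC_coe] at this
  exact this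

/-- the projection version of an idempotent -/
theorem exists_proj {f : C} {a : M} (hf : 𝓢.Cl f a) :
    ∃ p, 𝓢.Cl p a ∧ p * p = p ∧ star p = p ∧ f * p = p ∧ p * f = f := by
  obtain ⟨p, hp, hp', h1, h2, c, hc⟩ := kaplansky (𝓢.idem _ _ hf)
  have hpJ : p ∈ 𝓢.J := by
    have := 𝓢.mul_mem 1 f c (𝓢.mem _ _ hf)
    rwa [one_mul, ← hc] at this
  exact ⟨p, 𝓢.equiv f p p f a hf hpJ hp h2 h1, hp, hp', h1, h2⟩

theorem InS.star {c : C} (h : InS 𝓢 P c) : InS 𝓢 P (star c) := by
  obtain ⟨m, u, H, v, a, h1, rfl⟩ := h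
  choose p hp _ hps _ hpH using fun l => exists_proj (h1 l).1
  refine ⟨m, fun l => Star.star (v l) * Star.star (H l), p, fun l => Star.star (u l), a,
    fun l => ⟨hp l, (h1 l).2⟩, ?_⟩
  rw [star_sum]
  refine Finset.sum_congr rfl fun l _ => ?_
  rw [star_mul, star_mul]
  conv_lhs => rw [← hpH l, star_mul, hps l]
  simp only [mul_assoc]

theorem JC_star : ∀ x ∈ JC 𝓢 P, star x ∈ JC 𝓢 P := by
  intro x hx
  have hx' : x ∈ closure (JS 𝓢 P : Set C) := by rw [← JC_coe]; exact hx
  have : star x ∈ closure (JS 𝓢 P : Set C) :=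
    map_mem_closure continuous_star hx' fun y hy => InS.star hy
  rw [← JC_coe] at this
  exact this

/-- A projection in the closed ideal lies in the algebraic ideal. -/
theorem proj_mem {q : C} (hq : q * q = q) (hqs : star q = q) (h : q ∈ JC 𝓢 P) : InS 𝓢 P q := by
  have hx' : q ∈ closure (JS 𝓢 P : Set C) := by rw [← JC_coe]; exact h
  obtain ⟨x, hx, hqx⟩ := Metric.mem_closure_iff.mp hx' 1 one_pos
  rw [dist_eq_norm] at hqx
  have hqn := norm_proj_le hq hqs
  set r : C := q * (q - x) * q with hr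
  have hrn : ‖r‖ < 1 := by
    calc ‖r‖ ≤ ‖q‖ * ‖q - x‖ * ‖q‖ :=
          (norm_mul_le _ _).trans (mul_le_mul_of_nonneg_right (norm_mul_le _ _) (norm_nonneg _))
      _ ≤ 1 * ‖q - x‖ * 1 := by gcongr
      _ < 1 := by rw [one_mul, mul_one]; exact hqx
  have hqr : q * r = r := by rw [hr, ← mul_assoc, ← mul_assoc, hq]
  obtain ⟨w, hw⟩ : IsUnit (1 - r) := isUnit_one_sub_of_norm_lt_one hrn
  have h1 : q * x * q = q * (1 - r) := by
    rw [mul_sub, mul_one, hqr, hr, mul_sub, sub_mul, hq, hq]
    abel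
  have h2 : q = q * x * q * ↑w⁻¹ := by
    rw [h1, ← hw, mul_assoc, Units.mul_inv, mul_one]
  rw [h2]
  exact ((InS.mul_left hx q).mul_right q).mul_right _

end ideal

end

end Pool.Agent.Lib_helper8.V53
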