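import Mathlib

set_option autoImplicit false

/-!
# Rank one idempotents of `M_3(F_2)` and vectors of `C^3`

The orthogonality graph of 19 rank one idempotents of `M_3(F_2)` is not an orthogonality graph of
nonzero vectors of `C^3`.
-/

namespace Pool.Agent.Lib_helper8.V53

open Matrix

noncomputable section

/-- the combinatorial core -/
theorem frames_core {α : Type*} (E : α → α → Prop) (hs : ∀ x y, E x y → E y x)
    (hirr : ∀ x y, x = y → E x y → False)
    (rule : ∀ a b u w, E a u → E b u → E a w → E b w → a = b ∨ u = w)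
    (radj : ∀ a b u w, E a b → E a u → E b u → E a w → E b w → u = w)
    (x0 x1 x2 x3 x4 x5 x6 x7 x8 x9 x10 x11 x12 x13 x14 x15 x16 x17 x18 : α)
    (e0_3 : E x0 x3) (e0_8 : E x0 x8) (e0_14 : E x0 x14) (e1_3 : E x1 x3)
    (e1_4 : E x1 x4) (e1_12 : E x1 x12) (e1_13 : E x1 x13) (e2_5 : E x2 x5)
    (e2_7 : E x2 x7) (e2_12 : E x2 x12) (e2_13 : E x2 x13) (e2_14 : E x2 x14)
    (e2_16 : E x2 x16) (e3_8 : E x3 x8) (e3_9 : E x3 x9) (e3_12 : E x3 x12)
    (e4_16 : E x4 x16) (e4_17 : E x4 x17) (e5_8 : E x5 x8) (e5_10 : E x5 x10)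
    (e5_11 : E x5 x11) (e5_12 : E x5 x12) (e6_11 : E x6 x11) (e6_12 : E x6 x12)
    (e6_18 : E x6 x18) (e7_15 : E x7 x15) (e7_16 : E x7 x16) (e7_18 : E x7 x18)
    (e9_11 : E x9 x11) (e9_17 : E x9 x17) (e10_11 : E x10 x11) (e10_15 : E x10 x15)
    (e11_18 : E x11 x18) (e13_14 : E x13 x14) (e15_17 : E x15 x17) : False := by
  by_cases h3_5 : x3 = x5
  · subst h3_5
    obtain rfl := radj _ _ _ _ e5_11 e3_9 (hs _ _ e9_11) e5_10 (hs _ _ e10_11)
    obtain rfl := radj _ _ _ _ e5_12 (hs _ _ e1_3) (hs _ _ e1_12) (hs _ _ e2_5) (hs _ _ e2_12)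
    obtain rfl := radj _ _ _ _ e2_16 e1_4 (hs _ _ e4_16) e2_7 (hs _ _ e7_16)
    obtain rfl := radj _ _ _ _ e15_17 (hs _ _ e7_15) (hs _ _ e4_17) (hs _ _ e10_15) (hs _ _ e9_17)
    obtain rfl := radj _ _ _ _ e11_18 (hs _ _ e9_11) (hs _ _ e7_18) (hs _ _ e6_11) (hs _ _ e6_18)
    exact hirr _ _ (radj _ _ _ _ e1_12 e1_3 (hs _ _ e5_12) e1_4 (hs _ _ e6_12)) e5_10
  · obtain rfl := (rule _ _ _ _ e3_8 e5_8 e3_12 e5_12).resolve_left h3_5
    obtain rfl := radj _ _ _ _ e3_12 (hs _ _ e0_3) (hs _ _ e0_8) (hs _ _ e1_3) (hs _ _ e1_12)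
    obtain rfl := radj _ _ _ _ e13_14 (hs _ _ e1_13) (hs _ _ e0_14) (hs _ _ e2_13) (hs _ _ e2_14)
    exact h3_5 (radj _ _ _ _ e0_8 e0_3 (hs _ _ e3_12) e2_5 (hs _ _ e5_12))

/-- the types -/
abbrev TT : Type := Fin 19

/-- the vectors -/
def vT : TT → Fin 3 → ZMod 2 := ![
    ![0, 0, 1], ![0, 0, 1], ![0, 0, 1], ![0, 1, 0], ![0, 1, 0], ![0, 1, 1], ![0, 1, 1],
    ![0, 1, 1], ![1, 0, 0], ![1, 0, 0], ![1, 0, 0], ![1, 0, 1], ![1, 0, 1], ![1, 0, 1],
    ![1, 1, 0], ![1, 1, 0], ![1, 1, 0], ![1, 1, 1], ![1, 1, 1]]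

/-- the functionals -/
def pT : TT → Fin 3 → ZMod 2 := ![
    ![0, 0, 1], ![1, 0, 1], ![1, 1, 1], ![0, 1, 0], ![1, 1, 0], ![0, 1, 0], ![1, 0, 1],
    ![1, 1, 0], ![1, 0, 0], ![1, 0, 1], ![1, 1, 1], ![0, 1, 1], ![1, 0, 0], ![1, 1, 0],
    ![0, 1, 0], ![0, 1, 1], ![1, 0, 0], ![0, 0, 1], ![1, 1, 1]]

/-- the pairing -/
def dotT (s t : TT) : ZMod 2 := pT s 0 * vT t 0 + pT s 1 * vT t 1 + pT s 2 * vT t 2

/-- orthogonality -/
def OrthT (s t : TT) : Prop := dotT s t = 0 ∧ dotT t s = 0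

instance : DecidableRel OrthT := fun _ _ => inferInstanceAs (Decidable (_ ∧ _))

theorem dotT_self : ∀ t, dotT t t = 1 := by decide

theorem OrthT.symm {s t : TT} (h : OrthT s t) : OrthT t s := ⟨h.2, h.1⟩

theorem not_orthT : ¬ OrthT 0 1 := by decide

/-- the idempotents -/
def fT (t : TT) : Matrix (Fin 3) (Fin 3) (ZMod 2) := Matrix.of fun i j => vT t i * pT t j

theorem fT_mul (s t : TT) (i j : Fin 3) : (fT s * fT t) i j = vT s i * dotT s t * pT t j := by
  rw [Matrix.mul_apply, Fin.sum_univ_three]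
  simp only [fT, Matrix.of_apply, dotT]
  ring

theorem fT_idem (t : TT) : fT t * fT t = fT t := by
  ext i j
  rw [fT_mul, dotT_self, mul_one]
  rfl

theorem fT_orth {s t : TT} (h : OrthT s t) : fT s * fT t = 0 := by
  ext i j
  rw [fT_mul, h.1, mul_zero, zero_mul]
  rfl

/-! ### Vectors of `C^3` -/

/-- the sesquilinear form of a matrix -/
def BF (G : Matrix (Fin 3) (Fin 3) ℂ) (x y : Fin 3 → ℂ) : ℂ := star x ⬝ᵥ (G *ᵥ y)

theorem BF_add_left (G : Matrix (Fin 3) (Fin 3) ℂ) (x x' y : Fin 3 → ℂ) :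
    BF G (x + x') y = BF G x y + BF G x' y := by
  simp [BF, add_dotProduct]

theorem BF_add_right (G : Matrix (Fin 3) (Fin 3) ℂ) (x y y' : Fin 3 → ℂ) :
    BF G x (y + y') = BF G x y + BF G x y' := by
  simp [BF, Matrix.mulVec_add, dotProduct_add]

theorem BF_smul_left (G : Matrix (Fin 3) (Fin 3) ℂ) (a : ℂ) (x y : Fin 3 → ℂ) :
    BF G (a • x) y = star a * BF G x y := by
  simp [BF, star_smul, smul_dotProduct]

theorem BF_smul_right (G : Matrix (Fin 3) (Fin 3) ℂ) (a : ℂ) (x y : Fin 3 → ℂ) :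
    BF G x (a • y) = a * BF G x y := by
  simp [BF, Matrix.mulVec_smul, dotProduct_smul]

/-- Four vectors of `C^3` with two orthogonal pairs of pairs. -/
theorem frames_rule (G : Matrix (Fin 3) (Fin 3) ℂ) (hG : ∀ x, BF G x x = 0 → x = 0)
    {a b u w : Fin 3 → ℂ} (h1 : BF G a u = 0) (h2 : BF G b u = 0)
    (h3 : BF G a w = 0) (h4 : BF G b w = 0) :
    ¬ LinearIndependent ℂ ![a, b] ∨ ¬ LinearIndependent ℂ ![u, w] := by
  by_contra hcon
  push Not at hcon
  obtain ⟨hab, huw⟩ := hcon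
  have hdep : ¬ LinearIndependent ℂ ![a, b, u, w] := by
    intro h
    have := h.fintype_card_le_finrank
    simp at this
  rw [Fintype.not_linearIndependent_iff] at hdep
  obtain ⟨g, hg, i, hi⟩ := hdep
  simp only [Fin.sum_univ_four, Matrix.cons_val_zero, Matrix.cons_val_one, Matrix.cons_val] at hg
  have hx : g 0 • a + g 1 • b = 0 := by
    apply hG
    have e1 : g 0 • a + g 1 • b = (-1 : ℂ) • (g 2 • u + g 3 • w) := by
      rw [neg_one_smul, eq_neg_iff_add_eq_zero, ← hg]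
      abel
    conv_lhs => rw [show BF G (g 0 • a + g 1 • b) (g 0 • a + g 1 • b) =
      BF G (g 0 • a + g 1 • b) ((-1 : ℂ) • (g 2 • u + g 3 • w)) by rw [← e1]]
    simp only [BF_add_left, BF_add_right, BF_smul_left, BF_smul_right, h1, h2, h3, h4, mul_zero,
      add_zero]
  have hy : g 2 • u + g 3 • w = 0 := by
    have : g 2 • u + g 3 • w = (g 0 • a + g 1 • b + g 2 • u + g 3 • w) - (g 0 • a + g 1 • b) := by
      abel
    rw [this, hg, hx, sub_zero]
  have h01 := LinearIndependent.pair_iff.mp hab _ _ hx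
  have h23 := LinearIndependent.pair_iff.mp huw _ _ hy
  fin_cases i
  · exact hi h01.1
  · exact hi h01.2
  · exact hi h23.1
  · exact hi h23.2

open scoped LinearAlgebra.Projectivization in
/-- **No realisation in `C^3`.** -/
theorem frames (G : Matrix (Fin 3) (Fin 3) ℂ) (hG : ∀ x, BF G x x = 0 → x = 0)
    (c : TT → Fin 3 → ℂ) (hc : ∀ t, c t ≠ 0) (hE : ∀ s t, OrthT s t → BF G (c s) (c t) = 0) :
    False := by
  let E : ℙ ℂ (Fin 3 → ℂ) → ℙ ℂ (Fin 3 → ℂ) → Prop := fun x y =>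
    BF G x.rep y.rep = 0 ∧ BF G y.rep x.rep = 0
  have hs : ∀ x y, E x y → E y x := fun x y h => ⟨h.2, h.1⟩
  have hirr : ∀ x y, x = y → E x y → False := by
    rintro x _ rfl h
    exact x.rep_nonzero (hG _ h.1)
  have heq : ∀ x y : ℙ ℂ (Fin 3 → ℂ), ¬ LinearIndependent ℂ ![x.rep, y.rep] → x = y := by
    intro x y h
    by_contra hne
    apply h
    have h2 := (Projectivization.independent_pair_iff_ne x y).mpr hne
    rw [Projectivization.independent_iff] at h2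
    have h3 : (Projectivization.rep ∘ ![x, y]) = ![x.rep, y.rep] := by
      funext i
      fin_cases i <;> rfl
    rw [h3] at h2
    exact h2
  have rule : ∀ a b u w, E a u → E b u → E a w → E b w → a = b ∨ u = w := by
    intro a b u w h1 h2 h3 h4
    rcases frames_rule G hG h1.1 h2.1 h3.1 h4.1 with h | h
    · exact Or.inl (heq _ _ h)
    · exact Or.inr (heq _ _ h)
  have radj : ∀ a b u w, E a b → E a u → E b u → E a w → E b w → u = w := by
    intro a b u w h0 h1 h2 h3 h4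
    rcases rule a b u w h1 h2 h3 h4 with h | h
    · exact absurd h0 (hirr a b h)
    · exact h
  have hE' : ∀ s t, OrthT s t → E (Projectivization.mk ℂ (c s) (hc s))
      (Projectivization.mk ℂ (c t) (hc t)) := by
    intro s t h
    obtain ⟨a, ha⟩ := Projectivization.exists_smul_eq_mk_rep ℂ (c s) (hc s)
    obtain ⟨b, hb⟩ := Projectivization.exists_smul_eq_mk_rep ℂ (c t) (hc t)
    refine ⟨?_, ?_⟩
    · rw [← ha, ← hb]
      change BF G ((a : ℂ) • c s) ((b : ℂ) • c t) = 0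
      rw [BF_smul_left, BF_smul_right, hE s t h, mul_zero, mul_zero]
    · rw [← ha, ← hb]
      change BF G ((b : ℂ) • c t) ((a : ℂ) • c s) = 0
      rw [BF_smul_left, BF_smul_right, hE t s h.symm, mul_zero, mul_zero]
  let z : TT → ℙ ℂ (Fin 3 → ℂ) := fun t => Projectivization.mk ℂ (c t) (hc t)
  exact frames_core E hs hirr rule radj (z 0) (z 1) (z 2) (z 3) (z 4) (z 5) (z 6) (z 7) (z 8)
    (z 9) (z 10) (z 11) (z 12) (z 13) (z 14) (z 15) (z 16) (z 17) (z 18)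
    (hE' 0 3 (by decide)) (hE' 0 8 (by decide)) (hE' 0 14 (by decide))
    (hE' 1 3 (by decide)) (hE' 1 4 (by decide)) (hE' 1 12 (by decide))
    (hE' 1 13 (by decide)) (hE' 2 5 (by decide)) (hE' 2 7 (by decide))
    (hE' 2 12 (by decide)) (hE' 2 13 (by decide)) (hE' 2 14 (by decide))
    (hE' 2 16 (by decide)) (hE' 3 8 (by decide)) (hE' 3 9 (by decide))
    (hE' 3 12 (by decide)) (hE' 4 16 (by decide)) (hE' 4 17 (by decide))
    (hE' 5 8 (by decide)) (hE' 5 10 (by decide)) (hE' 5 11 (by decide))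
    (hE' 5 12 (by decide)) (hE' 6 11 (by decide)) (hE' 6 12 (by decide))
    (hE' 6 18 (by decide)) (hE' 7 15 (by decide)) (hE' 7 16 (by decide))
    (hE' 7 18 (by decide)) (hE' 9 11 (by decide)) (hE' 9 17 (by decide))
    (hE' 10 11 (by decide)) (hE' 10 15 (by decide)) (hE' 11 18 (by decide))
    (hE' 13 14 (by decide)) (hE' 15 17 (by decide))

end

end Pool.Agent.Lib_helper8.V53
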