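import Pool.Agent.Lib_helper8.V53.VMon

set_option autoImplicit false

/-!
# Matrices over a von Neumann regular ring
-/

namespace Pool.Agent.Lib_helper8.V53

open Matrix

/-- A (not necessarily unital) ring is (von Neumann) regular if every element `x` has a
quasi-inverse `y`, `x * y * x = x`. -/
def IsVNRegular (R : Type*) [NonUnitalRing R] : Prop := ∀ x : R, ∃ y, x * y * x = x

section

variable {R : Type*} [NonUnitalRing R]
variable {ι κ μ ν : Type*} [Fintype ι] [Fintype κ] [Fintype μ] [Fintype ν]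

/-- all `ι × κ` matrices are regular -/
def MReg (R : Type*) [NonUnitalRing R] (ι κ : Type*) [Fintype ι] [Fintype κ] : Prop :=
  ∀ x : Matrix ι κ R, ∃ y : Matrix κ ι R, x * y * x = x

theorem regular_of_sub (x : Matrix ι κ R) (a b : Matrix κ ι R)
    (h : (x - x * a * x) * b * (x - x * a * x) = x - x * a * x) :
    ∃ y : Matrix κ ι R, x * y * x = x := by
  refine ⟨b - b * x * a - a * x * b + a * x * b * x * a + a, ?_⟩
  have h2 : (x - x * a * x) * b * (x - x * a * x) =
      x * (b - b * x * a - a * x * b + a * x * b * x * a) * x := by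
    simp only [Matrix.sub_mul, Matrix.mul_sub, Matrix.mul_add, Matrix.add_mul, Matrix.mul_assoc]
    abel
  rw [Matrix.mul_add, Matrix.add_mul, ← h2, h]
  abel

theorem MReg.congr (h : MReg R ι κ) (σ : μ ≃ ι) (τ : ν ≃ κ) : MReg R μ ν := by
  intro x
  obtain ⟨y, hy⟩ := h (x.submatrix σ.symm τ.symm)
  refine ⟨y.submatrix τ σ, ?_⟩
  have h1 := congrArg (fun z => z.submatrix σ τ) hy
  rw [← Matrix.submatrix_mul_equiv _ _ σ σ τ, ← Matrix.submatrix_mul_equiv _ _ σ τ σ] at h1
  simpa using h1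

theorem MReg.rows (h1 : MReg R ι κ) (h2 : MReg R μ κ) : MReg R (ι ⊕ μ) κ := by
  intro x
  obtain ⟨x1, x2, rfl⟩ : ∃ x1 x2, x = fromRows x1 x2 :=
    ⟨x.toRows₁, x.toRows₂, (fromRows_toRows x).symm⟩
  obtain ⟨y1, hy1⟩ := h1 x1
  obtain ⟨y2, hy2⟩ := h2 (x2 - x2 * y1 * x1)
  have e1 : ∀ (z1 : Matrix κ ι R) (z2 : Matrix κ μ R) (w1 : Matrix ι κ R) (w2 : Matrix μ κ R),
      fromCols z1 z2 * fromRows w1 w2 = z1 * w1 + z2 * w2 := by
    intro z1 z2 w1 w2
    ext i j
    simp [Matrix.mul_apply, Fintype.sum_sum_type]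
  have e2 : ∀ (w1 : Matrix ι κ R) (w2 : Matrix μ κ R) (z : Matrix κ κ R),
      fromRows w1 w2 * z = fromRows (w1 * z) (w2 * z) := by
    intro w1 w2 z
    ext i j
    rcases i with i | i <;> simp [Matrix.mul_apply]
  set x : Matrix (ι ⊕ μ) κ R := fromRows x1 x2 with hx
  set a : Matrix κ (ι ⊕ μ) R := fromCols y1 0 with ha
  set b : Matrix κ (ι ⊕ μ) R := fromCols 0 y2 with hb
  have e3 : x - x * a * x = fromRows 0 (x2 - x2 * y1 * x1) := by
    rw [Matrix.mul_assoc, ha, hx, e1, e2, Matrix.zero_mul, add_zero, ← Matrix.mul_assoc, hy1,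
      ← Matrix.mul_assoc]
    ext i j
    rcases i with i | i <;> simp
  refine regular_of_sub x a b ?_
  rw [e3, Matrix.mul_assoc, hb, e1, e2]
  simp only [Matrix.zero_mul, zero_add]
  rw [← Matrix.mul_assoc, hy2]

theorem MReg.cols (h1 : MReg R ι κ) (h2 : MReg R ι μ) : MReg R ι (κ ⊕ μ) := by
  intro x
  obtain ⟨x1, x2, rfl⟩ : ∃ x1 x2, x = fromCols x1 x2 :=
    ⟨x.toCols₁, x.toCols₂, (fromCols_toCols x).symm⟩
  obtain ⟨y1, hy1⟩ := h1 x1
  obtain ⟨y2, hy2⟩ := h2 (x2 - x1 * y1 * x2)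
  have e1 : ∀ (z1 : Matrix ι κ R) (z2 : Matrix ι μ R) (w1 : Matrix κ ι R) (w2 : Matrix μ ι R),
      fromCols z1 z2 * fromRows w1 w2 = z1 * w1 + z2 * w2 := by
    intro z1 z2 w1 w2
    ext i j
    simp [Matrix.mul_apply, Fintype.sum_sum_type]
  have e2 : ∀ (w1 : Matrix ι κ R) (w2 : Matrix ι μ R) (z : Matrix ι ι R),
      z * fromCols w1 w2 = fromCols (z * w1) (z * w2) := by
    intro w1 w2 z
    ext i j
    rcases j with j | j <;> simp [Matrix.mul_apply]
  set x : Matrix ι (κ ⊕ μ) R := fromCols x1 x2 with hx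
  set a : Matrix (κ ⊕ μ) ι R := fromRows y1 0 with ha
  set b : Matrix (κ ⊕ μ) ι R := fromRows 0 y2 with hb
  have e3 : x - x * a * x = fromCols 0 (x2 - x1 * y1 * x2) := by
    rw [ha, hx, e1, e2, Matrix.mul_zero, add_zero, hy1]
    ext i j
    rcases j with j | j <;> simp
  refine regular_of_sub x a b ?_
  rw [e3, hb, e1, e2]
  simp only [Matrix.mul_zero, zero_add]
  rw [hy2]

theorem MReg.fin_one (h : IsVNRegular R) : MReg R (Fin 1) (Fin 1) := by
  intro x
  obtain ⟨y, hy⟩ := h (x 0 0)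
  refine ⟨Matrix.of fun _ _ => y, ?_⟩
  ext i j
  rw [Subsingleton.elim i 0, Subsingleton.elim j 0, Matrix.mul_apply, Fin.sum_univ_one,
    Matrix.mul_apply, Fin.sum_univ_one]
  exact hy

theorem MReg.fin (h : IsVNRegular R) (m n : ℕ) : MReg R (Fin m) (Fin n) := by
  have h1 : ∀ m, MReg R (Fin m) (Fin 1) := by
    intro m
    induction m with
    | zero => intro x; exact ⟨0, by ext i; exact i.elim0⟩
    | succ m ih => exact (ih.rows (MReg.fin_one h)).congr finSumFinEquiv.symm (Equiv.refl _)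
  induction n with
  | zero => intro x; exact ⟨0, by ext i j; exact j.elim0⟩
  | succ n ih => exact (ih.cols (h1 m)).congr (Equiv.refl _) finSumFinEquiv.symm

/-- Matrices over a regular ring are regular. -/
theorem MReg.of_regular (h : IsVNRegular R) (ι κ : Type*) [Fintype ι] [Fintype κ] : MReg R ι κ :=
  (MReg.fin h _ _).congr (Fintype.equivFin ι) (Fintype.equivFin κ)

end

end Pool.Agent.Lib_helper8.V53
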