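import Pool.Agent.Lib_helper8.V53.VField
import Pool.Agent.Lib_helper8.V53.RegMat
import Pool.Agent.Lib_helper8.V53.Frames

set_option autoImplicit false
set_option linter.unusedSectionVars false

/-!
# The regular ring `R`
-/

namespace Pool.Agent.Lib_helper8.V53

open Topology TopologicalSpace

noncomputable section

/-- the field of two elements -/
abbrev K2 : Type := ZMod 2

/-- `M_3(F_2)` -/
abbrev M3 : Type := Matrix (Fin 3) (Fin 3) K2

theorem fT_ne_one (s : TT) : (1 : M3) - fT s ≠ 0 := by
  intro h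
  have h1 : (1 : M3) = fT s := sub_eq_zero.mp h
  have a := congrFun (congrFun h1 0) 0
  have b := congrFun (congrFun h1 1) 1
  have c := congrFun (congrFun h1 0) 1
  simp only [fT, Matrix.of_apply, Matrix.one_apply_eq, ne_eq, not_false_eq_true,
    Matrix.one_apply_ne, zero_ne_one] at a b c
  have h2 : (1 : K2) = 0 := by
    calc (1 : K2) = (vT s 0 * pT s 0) * (vT s 1 * pT s 1) := by rw [← a, ← b, mul_one]
      _ = (vT s 0 * pT s 1) * (pT s 0 * vT s 1) := by ring
      _ = 0 := by rw [← c, zero_mul]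
  exact one_ne_zero h2

theorem fT_ne_zero (s : TT) : fT s ≠ 0 := by
  intro h
  have h1 : (fT s).trace = 0 := by rw [h, Matrix.trace_zero]
  have h2 : (fT s).trace = dotT s s := by
    rw [Matrix.trace, Fin.sum_univ_three]
    simp only [fT, Matrix.diag_apply, Matrix.of_apply, dotT]
    ring
  rw [h2, dotT_self] at h1
  exact one_ne_zero h1

theorem fT_add_ne_one (s t : TT) : (1 : M3) - (fT s + fT t) ≠ 0 := by
  intro h
  have h1 : (1 : M3) = fT s + fT t := sub_eq_zero.mp h
  have h3 := congrArg Matrix.trace h1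
  have h2 : ∀ s, (fT s).trace = dotT s s := by
    intro s
    rw [Matrix.trace, Fin.sum_univ_three]
    simp only [fT, Matrix.diag_apply, Matrix.of_apply, dotT]
    ring
  rw [Matrix.trace_add, h2, h2, dotT_self, dotT_self, Matrix.trace_one] at h3
  revert h3
  decide

/-! ### Families of orthogonal idempotents -/

section fam

variable {K : Type} [Field K] {B : Type*} [Ring B] [Algebra K B] {ι : Type} [Fintype ι]
  [DecidableEq ι]

/-- the homomorphism defined by a family of orthogonal idempotents -/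
def famHom (e : ι → B) (he : ∀ i, e i * e i = e i) (hij : ∀ i j, i ≠ j → e i * e j = 0) :
    (ι → K) →ₙ+* B where
  toFun c := ∑ i, c i • e i
  map_mul' c d := by
    rw [Finset.sum_mul]
    refine Finset.sum_congr rfl fun i _ => ?_
    rw [Finset.mul_sum, Finset.sum_eq_single i]
    · rw [smul_mul_smul_comm, he, Pi.mul_apply]
    · intro j _ hj
      rw [smul_mul_smul_comm, hij i j hj.symm, smul_zero]
    · intro h; exact absurd (Finset.mem_univ i) h
  map_zero' := by simp
  map_add' c d := by
    rw [← Finset.sum_add_distrib]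
    exact Finset.sum_congr rfl fun i _ => by rw [Pi.add_apply, add_smul]

theorem famHom_apply (e : ι → B) (he : ∀ i, e i * e i = e i)
    (hij : ∀ i j, i ≠ j → e i * e j = 0) (c : ι → K) : famHom e he hij c = ∑ i, c i • e i := rfl

end fam

/-! ### The ring -/

/-- the indices -/
abbrev LR (X : Type) : Type := X × TT

/-- the base space -/
abbrev YR (X : Type) : Type := LR X → Bool

variable {X : Type}

open Classical in
/-- the types present in `x` -/
def typ (x : YR X) : Finset TT := Finset.univ.filter fun t => ∃ a, x (a, t) = true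

theorem mem_typ {x : YR X} {t : TT} : t ∈ typ x ↔ ∃ a, x (a, t) = true := by
  simp [typ]

/-- the points with commutative fibres -/
def Small (x : YR X) : Prop :=
  (typ x).card ≤ 2 ∧ ∀ s ∈ typ x, ∀ t ∈ typ x, s ≠ t → OrthT s t

theorem Small.mono {x y : YR X} (h : typ x ⊆ typ y) (hy : Small y) : Small x :=
  ⟨(Finset.card_le_card h).trans hy.1, fun s hs t ht => hy.2 s (h hs) t (h ht)⟩

/-- the sum of the idempotents of the types of `x` -/
def sumT (x : YR X) : M3 := ∑ t ∈ typ x, fT t

theorem Small.ne {x : YR X} (hx : Small x) : (1 : M3) - sumT x ≠ 0 := by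
  unfold sumT
  have h := hx.1
  interval_cases h' : (typ x).card
  · rw [Finset.card_eq_zero] at h'
    rw [h', Finset.sum_empty, sub_zero]
    exact one_ne_zero
  · obtain ⟨s, hs⟩ := Finset.card_eq_one.mp h'
    rw [hs, Finset.sum_singleton]
    exact fT_ne_one s
  · obtain ⟨s, t, hst, hs⟩ := Finset.card_eq_two.mp h'
    rw [hs, Finset.sum_pair hst]
    exact fT_add_ne_one s t

theorem Small.fT_sumT {x : YR X} (hx : Small x) {t : TT} (ht : t ∈ typ x) :
    fT t * sumT x = fT t := by
  unfold sumT
  rw [Finset.mul_sum, Finset.sum_eq_single t]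
  · exact fT_idem t
  · intro s hs hst
    exact fT_orth (hx.2 t ht s hs hst.symm)
  · intro h; exact absurd ht h

/-- the fibres -/
def DR (x : YR X) : Subring M3 where
  carrier := {m | Small x → (∀ t ∈ typ x, ∃ α : K2, m * fT t = α • fT t) ∧
    ∃ β : K2, m * (1 - sumT x) = β • (1 - sumT x)}
  mul_mem' := by
    intro m m' hm hm' hx
    obtain ⟨h1, β, hβ⟩ := hm hx
    obtain ⟨h1', β', hβ'⟩ := hm' hx
    refine ⟨fun t ht => ?_, β' * β, ?_⟩
    · obtain ⟨α, hα⟩ := h1 t ht
      obtain ⟨α', hα'⟩ := h1' t ht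
      exact ⟨α' * α, by rw [mul_assoc, hα', mul_smul_comm, hα, smul_smul]⟩
    · rw [mul_assoc, hβ', mul_smul_comm, hβ, smul_smul]
  one_mem' := by
    intro _
    exact ⟨fun t _ => ⟨1, by rw [one_mul, one_smul]⟩, 1, by rw [one_mul, one_smul]⟩
  add_mem' := by
    intro m m' hm hm' hx
    obtain ⟨h1, β, hβ⟩ := hm hx
    obtain ⟨h1', β', hβ'⟩ := hm' hx
    refine ⟨fun t ht => ?_, β + β', ?_⟩
    · obtain ⟨α, hα⟩ := h1 t ht
      obtain ⟨α', hα'⟩ := h1' t ht
      exact ⟨α + α', by rw [add_mul, hα', hα, add_smul]⟩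
    · rw [add_mul, hβ', hβ, add_smul]
  zero_mem' := by
    intro _
    exact ⟨fun t _ => ⟨0, by rw [zero_mul, zero_smul]⟩, 0, by rw [zero_mul, zero_smul]⟩
  neg_mem' := by
    intro m hm hx
    obtain ⟨h1, β, hβ⟩ := hm hx
    refine ⟨fun t ht => ?_, -β, ?_⟩
    · obtain ⟨α, hα⟩ := h1 t ht
      exact ⟨-α, by rw [neg_mul, hα, neg_smul]⟩
    · rw [neg_mul, hβ, neg_smul]

theorem mem_DR {x : YR X} {m : M3} : m ∈ DR x ↔
    (Small x → (∀ t ∈ typ x, ∃ α : K2, m * fT t = α • fT t) ∧
      ∃ β : K2, m * (1 - sumT x) = β • (1 - sumT x)) := Iff.rfl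

/-- elements of the small fibres -/
theorem mem_DR_small {x : YR X} (hx : Small x) {m : M3} (hm : m ∈ DR x) :
    ∃ (α : TT → K2) (β : K2), m = ∑ t ∈ typ x, α t • fT t + β • (1 - sumT x) := by
  obtain ⟨h1, β, hβ⟩ := hm hx
  choose! α hα using h1
  refine ⟨α, β, ?_⟩
  calc m = m * (sumT x + (1 - sumT x)) := by rw [add_sub_cancel, mul_one]
    _ = _ := by
      rw [mul_add, hβ]
      congr 1
      unfold sumT
      rw [Finset.mul_sum]
      exact Finset.sum_congr rfl hα

variable (X)

/-- **The ring `R`.** -/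
def RR : Subring (YR X → M3) where
  carrier := {T | IsLocallyConstant T ∧ ∀ x, T x ∈ DR x}
  mul_mem' := fun h h' => ⟨h.1.mul h'.1, fun x => (DR x).mul_mem (h.2 x) (h'.2 x)⟩
  one_mem' := ⟨IsLocallyConstant.one, fun x => (DR x).one_mem⟩
  add_mem' := fun h h' => ⟨h.1.add h'.1, fun x => (DR x).add_mem (h.2 x) (h'.2 x)⟩
  zero_mem' := ⟨IsLocallyConstant.zero, fun x => (DR x).zero_mem⟩
  neg_mem' := fun h => ⟨h.1.neg, fun x => (DR x).neg_mem (h.2 x)⟩

variable {X}

theorem RR_ext {a b : RR X} (h : ∀ x, (a : YR X → M3) x = (b : YR X → M3) x) : a = b :=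
  Subtype.ext (funext h)

/-- evaluation -/
def evX (x : YR X) : RR X →ₙ+* M3 where
  toFun a := (a : YR X → M3) x
  map_mul' _ _ := rfl
  map_zero' := rfl
  map_add' _ _ := rfl

theorem evX_apply (x : YR X) (a : RR X) : evX x a = (a : YR X → M3) x := rfl

instance : Algebra K2 (RR X) where
  smul c a := ⟨c • (a : YR X → M3), ⟨(a.2.1).comp (fun m => c • m), fun x => by
    have h := (DR x).mul_mem (a.2.2 x) (a.2.2 x)
    have h2 : c = 0 ∨ c = 1 := by revert c; decide
    rcases h2 with rfl | rfl
    · rw [Pi.smul_apply, zero_smul]; exact (DR x).zero_mem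
    · rw [Pi.smul_apply, one_smul]; exact a.2.2 x⟩⟩
  algebraMap :=
    { toFun := fun c => ⟨fun _ => algebraMap K2 M3 c, IsLocallyConstant.const _, fun x => by
        have h2 : c = 0 ∨ c = 1 := by revert c; decide
        rcases h2 with rfl | rfl
        · rw [map_zero]; exact (DR x).zero_mem
        · rw [map_one]; exact (DR x).one_mem⟩
      map_one' := RR_ext fun x => map_one _
      map_mul' := fun a b => RR_ext fun x => map_mul _ _ _
      map_zero' := RR_ext fun x => map_zero _
      map_add' := fun a b => RR_ext fun x => map_add _ _ _ }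
  commutes' c a := RR_ext fun x => Algebra.commutes c ((a : YR X → M3) x)
  smul_def' c a := RR_ext fun x => Algebra.smul_def c ((a : YR X → M3) x)

theorem RR_smul (c : K2) (a : RR X) (x : YR X) :
    ((c • a : RR X) : YR X → M3) x = c • (a : YR X → M3) x := rfl

theorem evX_smul (c : K2) (a : RR X) (x : YR X) : evX x (c • a) = c • evX x a := rfl

theorem evX_one (x : YR X) : evX x (1 : RR X) = 1 := rfl

/-- the generating idempotents -/
def FR (i : LR X) : RR X := ⟨fun y => if y i = true then fT i.2 else 0, by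
  constructor
  · have h : IsLocallyConstant (fun y : YR X => y i) :=
      (IsLocallyConstant.iff_continuous _).mpr (continuous_apply i)
    exact h.comp (fun b => if b = true then fT i.2 else 0)
  · intro y
    change (if y i = true then fT i.2 else 0) ∈ DR y
    by_cases hy : y i = true
    · rw [if_pos hy]
      have ht : i.2 ∈ typ y := mem_typ.mpr ⟨i.1, hy⟩
      intro hs
      refine ⟨fun t ht' => ?_, 0, ?_⟩
      · by_cases h : i.2 = t
        · exact ⟨1, by rw [h, fT_idem, one_smul]⟩
        · exact ⟨0, by rw [fT_orth (hs.2 _ ht _ ht' h), zero_smul]⟩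
      · rw [mul_sub, mul_one, hs.fT_sumT ht, sub_self, zero_smul]
    · rw [if_neg hy]
      exact (DR y).zero_mem⟩

theorem FR_apply (i : LR X) (y : YR X) :
    ((FR i : RR X) : YR X → M3) y = if y i = true then fT i.2 else 0 := rfl

theorem FR_idem (i : LR X) : (FR i : RR X) * FR i = FR i := by
  refine RR_ext fun y => ?_
  change ((FR i : RR X) : YR X → M3) y * ((FR i : RR X) : YR X → M3) y = _
  rw [FR_apply]
  by_cases hy : y i = true
  · rw [if_pos hy, fT_idem]
  · rw [if_neg hy, zero_mul]

theorem FR_orth {i j : LR X} (h : OrthT i.2 j.2) : (FR i : RR X) * FR j = 0 := by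
  refine RR_ext fun y => ?_
  change ((FR i : RR X) : YR X → M3) y * ((FR j : RR X) : YR X → M3) y = 0
  rw [FR_apply, FR_apply]
  by_cases hy : y i = true
  · by_cases hy' : y j = true
    · rw [if_pos hy, if_pos hy', fT_orth h]
    · rw [if_neg hy', mul_zero]
  · rw [if_neg hy, zero_mul]

open Classical in
/-- the central idempotents of `R` -/
def chR (W : Clopens (YR X)) : RR X := ⟨fun y => if y ∈ W then 1 else 0, by
  constructor
  · rw [IsLocallyConstant.iff_exists_open]
    intro y
    by_cases hy : y ∈ W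
    · exact ⟨W, W.isClopen.isOpen, hy, fun z hz => by
        rw [if_pos hy, if_pos (show z ∈ W from hz)]⟩
    · exact ⟨(W : Set (YR X))ᶜ, W.isClopen.compl.isOpen, hy, fun z hz => by
        rw [if_neg hy, if_neg (show ¬ z ∈ W from hz)]⟩
  · intro y
    change (if y ∈ W then 1 else 0) ∈ DR y
    by_cases hy : y ∈ W
    · rw [if_pos hy]; exact (DR y).one_mem
    · rw [if_neg hy]; exact (DR y).zero_mem⟩

theorem chR_mem {W : Clopens (YR X)} {y : YR X} (hy : y ∈ W) :
    ((chR W : RR X) : YR X → M3) y = 1 := if_pos hy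

theorem chR_notMem {W : Clopens (YR X)} {y : YR X} (hy : y ∉ W) :
    ((chR W : RR X) : YR X → M3) y = 0 := if_neg hy

theorem RR_mul (a b : RR X) (y : YR X) :
    ((a * b : RR X) : YR X → M3) y = (a : YR X → M3) y * (b : YR X → M3) y := rfl

theorem RR_add (a b : RR X) (y : YR X) :
    ((a + b : RR X) : YR X → M3) y = (a : YR X → M3) y + (b : YR X → M3) y := rfl

variable (X)

/-- `R` is fibred -/
def fibR : Fibred (YR X) (RR X) where
  χ := chR
  comm W a := by
    refine RR_ext fun y => ?_
    rw [RR_mul, RR_mul]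
    by_cases hy : y ∈ W
    · rw [chR_mem hy, one_mul, mul_one]
    · rw [chR_notMem hy, zero_mul, mul_zero]
  inf W W' := by
    refine RR_ext fun y => ?_
    rw [RR_mul]
    by_cases hy : y ∈ W
    · by_cases hy' : y ∈ W'
      · rw [chR_mem hy, chR_mem hy', chR_mem (show y ∈ W ⊓ W' from ⟨hy, hy'⟩), one_mul]
      · rw [chR_notMem hy', chR_notMem (show y ∉ W ⊓ W' from fun h => hy' h.2), mul_zero]
    · rw [chR_notMem hy, chR_notMem (show y ∉ W ⊓ W' from fun h => hy h.1), zero_mul]
  sup W W' h := by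
    refine RR_ext fun y => ?_
    rw [RR_add]
    by_cases hy : y ∈ W
    · have hy' : y ∉ W' := fun hy' => by
        have : y ∈ W ⊓ W' := ⟨hy, hy'⟩
        rw [h.eq_bot] at this
        exact this
      rw [chR_mem hy, chR_notMem hy', chR_mem (show y ∈ W ⊔ W' from Or.inl hy), add_zero]
    · by_cases hy' : y ∈ W'
      · rw [chR_notMem hy, chR_mem hy', chR_mem (show y ∈ W ⊔ W' from Or.inr hy'),
          zero_add]
      · rw [chR_notMem hy, chR_notMem hy',
          chR_notMem (show y ∉ W ⊔ W' from fun h => h.elim hy hy'), add_zero]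
  top := by
    refine RR_ext fun y => ?_
    rw [chR_mem (show y ∈ (⊤ : Clopens (YR X)) from trivial)]
    rfl

variable {X}

theorem exists_nhd {x : YR X} {a b : RR X} (h : evX x a = evX x b) :
    ∃ W : Clopens (YR X), x ∈ W ∧ ∀ y ∈ W, (a : YR X → M3) y = (b : YR X → M3) y := by
  have ha : IsLocallyConstant (fun y => (a : YR X → M3) y - (b : YR X → M3) y) :=
    a.2.1.sub b.2.1
  have ho : IsOpen ((fun y => (a : YR X → M3) y - (b : YR X → M3) y) ⁻¹' {0}) :=
    ha.isOpen_fiber 0
  obtain ⟨W, hW, hx, hsub⟩ := compact_exists_isClopen_in_isOpen ho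
    (show x ∈ _ from sub_eq_zero.mpr h)
  exact ⟨⟨W, hW⟩, hx, fun y hy => sub_eq_zero.mp (hsub hy)⟩

theorem exists_nhd_matrix {x : YR X} {n : ℕ} {p q : Matrix (Fin n) (Fin n) (RR X)}
    (h : p.map (evX x) = q.map (evX x)) :
    ∃ W : Clopens (YR X), x ∈ W ∧ p.map ((fibR X).cut W) = q.map ((fibR X).cut W) := by
  choose W hx hW using fun (k : Fin n × Fin n) =>
    exists_nhd (x := x) (a := p k.1 k.2) (b := q k.1 k.2) (congrFun (congrFun h k.1) k.2)
  refine ⟨⟨⋂ k, (W k : Set (YR X)), isClopen_iInter_of_finite fun k => (W k).isClopen⟩,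
    Set.mem_iInter.mpr hx, ?_⟩
  ext1 i j
  refine RR_ext fun y => ?_
  simp only [Matrix.map_apply]
  rw [Fibred.cut_apply, Fibred.cut_apply]
  change ((chR _ * _ : RR X) : YR X → M3) y = ((chR _ * _ : RR X) : YR X → M3) y
  rw [RR_mul, RR_mul]
  by_cases hy : y ∈ (⟨⋂ k, (W k : Set (YR X)), isClopen_iInter_of_finite fun k =>
    (W k).isClopen⟩ : Clopens (YR X))
  · rw [hW (i, j) y (Set.mem_iInter.mp hy (i, j))]
  · rw [chR_notMem hy, zero_mul, zero_mul]

/-- extension by zero of constants -/
def constHom (W : Clopens (YR X)) (hW : ∀ y ∈ W, ¬ Small y) : M3 →ₙ+* RR X where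
  toFun m := ⟨((chR W : RR X) : YR X → M3) * (fun _ => m), by
    constructor
    · exact (chR W).2.1.mul (IsLocallyConstant.const _)
    · intro y
      rw [Pi.mul_apply]
      by_cases hy : y ∈ W
      · intro hs; exact absurd hs (hW y hy)
      · rw [chR_notMem hy, zero_mul]; exact (DR y).zero_mem⟩
  map_mul' m m' := by
    refine RR_ext fun y => ?_
    change (chR W : RR X).1 y * (m * m') = (chR W : RR X).1 y * m * ((chR W : RR X).1 y * m')
    by_cases hy : y ∈ W
    · rw [chR_mem hy, one_mul, one_mul, one_mul]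
    · rw [chR_notMem hy, zero_mul, zero_mul, zero_mul]
  map_zero' := by
    refine RR_ext fun y => ?_
    change (chR W : RR X).1 y * 0 = 0
    rw [mul_zero]
  map_add' m m' := by
    refine RR_ext fun y => ?_
    change (chR W : RR X).1 y * (m + m') = (chR W : RR X).1 y * m + (chR W : RR X).1 y * m'
    rw [mul_add]

theorem constHom_apply (W : Clopens (YR X)) (hW : ∀ y ∈ W, ¬ Small y) (m : M3) (y : YR X) :
    ((constHom W hW m : RR X) : YR X → M3) y = ((chR W : RR X) : YR X → M3) y * m := rfl

/-- the clopen set of the points containing a finite set of indices -/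
def conW (F : Finset (LR X)) : Clopens (YR X) :=
  ⟨⋂ i ∈ F, {y : YR X | y i = true}, isClopen_biInter_finset fun i _ =>
    (isClopen_discrete {true}).preimage (continuous_apply i)⟩

theorem mem_conW {F : Finset (LR X)} {y : YR X} : y ∈ conW F ↔ ∀ i ∈ F, y i = true := by
  change y ∈ ⋂ i ∈ F, {y : YR X | y i = true} ↔ _
  simp

theorem K2_mul_self : ∀ a : K2, a * a * a = a := by decide

theorem vnRegular_pow (ι : Type) : IsVNRegular (ι → K2) := by
  intro c
  exact ⟨c, funext fun i => K2_mul_self (c i)⟩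

theorem vnRegular_M3 : IsVNRegular M3 := by
  have h : IsVNRegular K2 := by
    intro a
    exact ⟨a, K2_mul_self a⟩
  exact MReg.of_regular h (Fin 3) (Fin 3)

/-- Local models of `R`. -/
theorem local_R (x : YR X) : ∃ (D : Type) (_ : Ring D) (ρ : RR X →ₙ+* D) (s : D →ₙ+* RR X),
    (∀ d, ρ (s d) = d) ∧ NiceMon (V D) ∧ IsVNRegular D ∧
      ∀ a b : RR X, ρ a = ρ b → evX x a = evX x b := by
  classical
  by_cases hx : Small x
  · -- commutative fibre
    have hch : ∀ t : typ x, ∃ a, x (a, t.1) = true := fun t => mem_typ.mp t.2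
    choose a ha using hch
    let F : typ x → RR X := fun t => FR (a t, t.1)
    have hFF : ∀ t, F t * F t = F t := fun t => FR_idem _
    have hFo : ∀ s t, s ≠ t → F s * F t = 0 := fun s t hst =>
      FR_orth (hx.2 s.1 s.2 t.1 t.2 fun h => hst (Subtype.ext h))
    have hF1 : ∀ t, F t * (1 - ∑ s, F s) = 0 := by
      intro t
      rw [mul_sub, mul_one, Finset.mul_sum, Finset.sum_eq_single t, hFF, sub_self]
      · intro s _ hs; exact hFo t s hs.symm
      · intro h; exact absurd (Finset.mem_univ t) h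
    have hF2 : ∀ t, (1 - ∑ s, F s) * F t = 0 := by
      intro t
      rw [sub_mul, one_mul, Finset.sum_mul, Finset.sum_eq_single t, hFF, sub_self]
      · intro s _ hs; exact hFo s t hs
      · intro h; exact absurd (Finset.mem_univ t) h
    let e : Option (typ x) → RR X := fun o => o.elim (1 - ∑ s, F s) F
    have he : ∀ i, e i * e i = e i := by
      rintro (_ | t)
      · change (1 - ∑ s, F s) * (1 - ∑ s, F s) = 1 - ∑ s, F s
        rw [mul_sub, mul_one, Finset.mul_sum, Finset.sum_eq_zero (fun t _ => hF2 t), sub_zero]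
      · exact hFF t
    have heo : ∀ i j, i ≠ j → e i * e j = 0 := by
      rintro (_ | s) (_ | t) hij
      · exact absurd rfl hij
      · exact hF2 t
      · exact hF1 s
      · exact hFo s t fun h => hij (by rw [h])
    let s : (Option (typ x) → K2) →ₙ+* RR X := famHom e he heo
    have hsum : evX x (∑ t, F t) = sumT x := by
      rw [map_sum]
      unfold sumT
      rw [← Finset.sum_coe_sort (typ x)]
      refine Finset.sum_congr rfl fun t _ => ?_
      rw [evX_apply, FR_apply, if_pos (ha t)]
    have he0 : evX x (e none) = 1 - sumT x := by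
      change evX x (1 - ∑ s, F s) = _
      rw [map_sub, hsum, evX_one]
    have het : ∀ t, evX x (e (some t)) = fT t.1 := by
      intro t
      change evX x (F t) = _
      rw [evX_apply, FR_apply, if_pos (ha t)]
    have hne : ∀ i, evX x (e i) ≠ 0 := by
      rintro (_ | t)
      · rw [he0]; exact hx.ne
      · rw [het]; exact fT_ne_zero _
    have hev : ∀ c, evX x (s c) = ∑ i, c i • evX x (e i) := by
      intro c
      change evX x (∑ i, c i • e i) = _
      rw [map_sum]
      rfl
    have hjinj : Function.Injective ((evX x).comp s) := by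
      rw [injective_iff_map_eq_zero]
      intro c hc
      have hc' : ∑ i, c i • evX x (e i) = 0 := by rw [← hev]; exact hc
      funext i
      have h1 := congrArg (fun m => evX x (e i) * m) hc'
      simp only [Finset.mul_sum, mul_smul_comm, mul_zero] at h1
      rw [Finset.sum_eq_single i] at h1
      · rw [← map_mul, he] at h1
        exact (smul_eq_zero.mp h1).resolve_right (hne i)
      · intro j _ hj
        rw [← map_mul, heo i j hj.symm, map_zero, smul_zero]
      · intro h; exact absurd (Finset.mem_univ i) h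
    obtain ⟨ρ, hρ⟩ : ∃ ρ : RR X →ₙ+* (Option (typ x) → K2), ∀ a, (evX x).comp s (ρ a) = evX x a := by
      have hr : ∀ a, ∃ d, (evX x).comp s d = evX x a := by
        intro b
        obtain ⟨α, β, hαβ⟩ := mem_DR_small hx (b.2.2 x)
        refine ⟨fun o => o.elim β (fun t => α t.1), ?_⟩
        rw [NonUnitalRingHom.comp_apply, hev, Fintype.sum_option, he0, evX_apply, hαβ, add_comm]
        congr 1
        rw [← Finset.sum_coe_sort (typ x)]
        refine Finset.sum_congr rfl fun t _ => ?_
        rw [het]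
        rfl
      choose f hf using hr
      exact ⟨{ toFun := f
               map_mul' := fun a b => hjinj (by rw [hf, map_mul, map_mul, hf, hf])
               map_zero' := hjinj (by rw [hf, map_zero, map_zero])
               map_add' := fun a b => hjinj (by rw [hf, map_add, map_add, hf, hf]) }, hf⟩
    refine ⟨Option (typ x) → K2, inferInstance, ρ, s, fun d => hjinj (hρ _),
      niceMon_V_power _ K2, vnRegular_pow _, fun b b' h => ?_⟩
    rw [← hρ b, ← hρ b', h]
  · -- full fibre
    have hch : ∀ t : typ x, ∃ a, x (a, t.1) = true := fun t => mem_typ.mp t.2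
    choose a ha using hch
    let F : Finset (LR X) := Finset.univ.image fun t : typ x => (a t, t.1)
    have hxW : x ∈ conW F := by
      rw [mem_conW]
      intro i hi
      obtain ⟨t, -, rfl⟩ := Finset.mem_image.mp hi
      exact ha t
    have hW : ∀ y ∈ conW F, ¬ Small y := by
      intro y hy hs
      apply hx
      refine hs.mono fun t ht => ?_
      rw [mem_conW] at hy
      exact mem_typ.mpr ⟨a ⟨t, ht⟩, hy _ (Finset.mem_image.mpr ⟨⟨t, ht⟩, Finset.mem_univ _, rfl⟩)⟩
    refine ⟨M3, inferInstance, evX x, constHom (conW F) hW, ?_, niceMon_V_matrix K2 (Fin 3),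
      vnRegular_M3, fun _ _ h => h⟩
    intro m
    rw [evX_apply, constHom_apply, chR_mem hxW, one_mul]

/-- `V(R)` is the cone of a dimension group. -/
theorem niceMon_RR : NiceMon (V (RR X)) := by
  refine (fibR X).nice fun x => ?_
  obtain ⟨D, _, ρ, s, h1, h2, -, h4⟩ := local_R x
  refine ⟨D, inferInstance, ρ, s, h1, h2, ?_⟩
  intro n p q hp hq hpq
  have hpq' : p.map (evX x) = q.map (evX x) := by
    ext1 i j
    exact h4 _ _ (congrFun (congrFun hpq i) j)
  obtain ⟨W, hx, hW⟩ := exists_nhd_matrix hpq'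
  refine ⟨W, hx, ?_⟩
  rw [hW]
  exact MEquiv.refl (map_idem _ hq)

/-- `R` is regular. -/
theorem RR_regular : IsVNRegular (RR X) := by
  intro a
  have key := clopens_induction (Y := YR X)
    (fun W => ∃ b : RR X, chR W * (a * b * a) = chR W * a) ?_ ?_ ?_ ?_
  · obtain ⟨b, hb⟩ := key
    refine ⟨b, ?_⟩
    have h1 : (chR (⊤ : Clopens (YR X)) : RR X) = 1 := (fibR X).top
    rwa [h1, one_mul, one_mul] at hb
  · refine ⟨0, ?_⟩
    have h1 : (chR (⊥ : Clopens (YR X)) : RR X) = 0 := (fibR X).bot
    rw [h1, zero_mul, zero_mul]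
  · rintro W W' hWW' ⟨b, hb⟩
    refine ⟨b, ?_⟩
    have h1 : (chR W : RR X) = chR W * chR W' := by
      have := (fibR X).inf W W'
      rwa [inf_of_le_left hWW'] at this
    rw [h1, mul_assoc, hb, ← mul_assoc]
  · rintro W W' hd ⟨b, hb⟩ ⟨b', hb'⟩
    refine ⟨chR W * b + chR W' * b', ?_⟩
    refine RR_ext fun y => ?_
    have e1 := congrFun (congrArg Subtype.val hb) y
    have e2 := congrFun (congrArg Subtype.val hb') y
    simp only [RR_mul, RR_add] at e1 e2 ⊢
    by_cases hy : y ∈ W
    · have hy' : y ∉ W' := fun hy' => by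
        have : y ∈ W ⊓ W' := ⟨hy, hy'⟩
        rw [hd.eq_bot] at this
        exact this
      rw [chR_mem hy, one_mul, one_mul] at e1
      rw [chR_mem hy, chR_notMem hy', chR_mem (show y ∈ W ⊔ W' from Or.inl hy), one_mul, one_mul,
        one_mul, zero_mul, add_zero, e1]
    · by_cases hy' : y ∈ W'
      · rw [chR_mem hy', one_mul, one_mul] at e2
        rw [chR_mem hy', chR_notMem hy, chR_mem (show y ∈ W ⊔ W' from Or.inr hy'), one_mul,
          one_mul, one_mul, zero_mul, zero_add, e2]
      · rw [chR_notMem (show y ∉ W ⊔ W' from fun h => h.elim hy hy'), zero_mul, zero_mul]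
  · intro x
    obtain ⟨D, _, ρ, s, h1, -, h3, h4⟩ := local_R x
    obtain ⟨d', hd'⟩ := h3 (ρ a)
    have h5 : evX x (a * s d' * a) = evX x a := by
      apply h4
      rw [map_mul, map_mul, h1, hd']
    obtain ⟨W, hx, hW⟩ := exists_nhd h5
    refine ⟨W, hx, s d', RR_ext fun y => ?_⟩
    rw [RR_mul (chR W), RR_mul (chR W)]
    by_cases hy : y ∈ W
    · rw [hW y hy]
    · rw [chR_notMem hy, zero_mul, zero_mul]

end

end Pool.Agent.Lib_helper8.V53
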