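import Pool.Agent.Lib_helper8.V53.CIdeal
import Pool.Agent.Lib_helper8.V53.Frames
import Pool.Agent.Lib_helper8.V53.RegR

set_option autoImplicit false

/-!
# The C*-side for dimension groups
-/

namespace Pool.Agent.Lib_helper8.V53

open Topology Set

noncomputable section

variable {C : Type*} [CStarAlgebra C] {M : Type*} [AddCommMonoid M] {𝓢 : ClassSys C M}
  {P : M → Prop}

/-- Subidempotents give decompositions of classes. -/
theorem cls_dec {p : C} {y : M} (hp : 𝓢.Cl p y) {q : C} (hq : q * q = q) (hpq : p * q = q)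
    (hqp : q * p = q) : ∃ b b', 𝓢.Cl q b ∧ 𝓢.Cl (p - q) b' ∧ y = b + b' := by
  have hpi := 𝓢.idem _ _ hp
  have hpJ := 𝓢.mem _ _ hp
  have hqJ : q ∈ 𝓢.J := by
    have := 𝓢.mul_mem 1 p q hpJ
    rwa [one_mul, hpq] at this
  have hsub : (p - q) * (p - q) = p - q := by
    rw [sub_mul, mul_sub, mul_sub, hpi, hpq, hqp, hq]; abel
  obtain ⟨b, hb⟩ := 𝓢.exists_cl q hqJ hq
  obtain ⟨b', hb'⟩ := 𝓢.exists_cl (p - q) (𝓢.sub_mem _ _ hpJ hqJ) hsub
  refine ⟨b, b', hb, hb', ?_⟩
  have h1 := 𝓢.add q (p - q) b b' hb hb' (by rw [mul_sub, hqp, hq, sub_self])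
    (by rw [sub_mul, hpq, hq, sub_self])
  have h2 : q + (p - q) = p := by abel
  rw [h2] at h1
  exact 𝓢.unique _ _ _ hp h1

/-- An idempotent factoring through another has smaller class. -/
theorem cls_below {p q s t : C} {y d : M} (hp : 𝓢.Cl p y) (hq : 𝓢.Cl q d) (h : q = s * p * t) :
    ∃ b', y = d + b' := by
  have hpi := 𝓢.idem _ _ hp
  have hqi := 𝓢.idem _ _ hq
  set u : C := q * s * p with hu
  set v : C := p * t * q with hv
  have huv : u * v = q := by
    calc u * v = q * (s * (p * p) * t) * q := by simp only [hu, hv, mul_assoc]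
      _ = q := by rw [hpi, ← h, hqi, hqi]
  have hvq : v * q = v := by rw [hv, mul_assoc, hqi]
  have hpv : p * v = v := by rw [hv, ← mul_assoc, ← mul_assoc, hpi]
  have hup : u * p = u := by rw [hu, mul_assoc, hpi]
  have hww : v * u * (v * u) = v * u := by
    calc v * u * (v * u) = v * (u * v) * u := by simp only [mul_assoc]
      _ = v * u := by rw [huv, hvq]
  have hwJ : v * u ∈ 𝓢.J := by
    have := 𝓢.mul_mem (p * t) q (s * p) (𝓢.mem _ _ hq)
    have e1 : v * u = p * t * q * (s * p) := by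
      calc v * u = p * t * (q * q) * (s * p) := by simp only [hu, hv, mul_assoc]
        _ = p * t * q * (s * p) := by rw [hqi]
    rwa [e1]
  have hw : 𝓢.Cl (v * u) d := 𝓢.equiv q (v * u) u v d hq hwJ hww huv rfl
  obtain ⟨b, b', hb, -, hy⟩ := cls_dec hp hww (by rw [← mul_assoc, hpv]) (by rw [mul_assoc, hup])
  exact ⟨b', by rw [hy, 𝓢.unique _ _ _ hb hw]⟩

/-- self-adjoint elements are scalars modulo the ideal -/
theorem scalar_sa {g : C} (hg : g * g = g) (hg' : star g = g) (hD : DProp g)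
    (hdich : ∀ q, q * q = q → g * q = q → q * g = q → InS 𝓢 P q ∨ InS 𝓢 P (g - q))
    {y : C} (hy : InCor g y) : ∃ l : ℂ, y - l • g ∈ JC 𝓢 P := by
  classical
  have _ : IsClosed (JC 𝓢 P : Set C) := JC_closed
  let yb : C ⧸ (JC 𝓢 P) := Submodule.Quotient.mk y
  let gb : C ⧸ (JC 𝓢 P) := Submodule.Quotient.mk g
  have hcl : IsClosed ((Submodule.span ℂ {gb} : Submodule ℂ (C ⧸ (JC 𝓢 P))) :
      Set (C ⧸ (JC 𝓢 P))) := Submodule.closed_of_finiteDimensional _
  have hmem : yb ∈ closure ((Submodule.span ℂ {gb} : Submodule ℂ (C ⧸ (JC 𝓢 P))) :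
      Set (C ⧸ (JC 𝓢 P))) := by
    rw [Metric.mem_closure_iff]
    intro ε hε
    obtain ⟨S, q, μ, hq, hql, hn⟩ := corner_approx hg hg' hD hy hε
    have key : ∃ l : ℂ, ∑ k ∈ S, μ k • q k - l • g ∈ JC 𝓢 P := by
      by_cases hall : ∀ k ∈ S, InS 𝓢 P (q k)
      · refine ⟨0, ?_⟩
        rw [zero_smul, sub_zero]
        exact Submodule.sum_mem _ fun k hk => Submodule.smul_mem _ _ (JS_le (hall k hk))
      · push Not at hall
        obtain ⟨k0, hk0, hnot⟩ := hall
        obtain ⟨a1, a2, a3⟩ := hq k0 hk0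
        have hfr : InS 𝓢 P (g - q k0) := (hdich _ a1 a2 a3).resolve_left hnot
        refine ⟨μ k0, ?_⟩
        have h1 : ∑ k ∈ S, μ k • q k - μ k0 • g =
            ∑ k ∈ S.erase k0, μ k • (q k * (g - q k0)) - μ k0 • (g - q k0) := by
          have h2 : ∑ k ∈ S.erase k0, μ k • (q k * (g - q k0)) =
              ∑ k ∈ S.erase k0, μ k • q k := by
            refine Finset.sum_congr rfl fun k hk => ?_
            have hk' := Finset.mem_erase.mp hk
            rw [mul_sub, (hq k hk'.2).2.2, hql k hk'.2 k0 hk0 hk'.1, sub_zero]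
          rw [h2, ← Finset.add_sum_erase S _ hk0, smul_sub]
          abel
        rw [h1]
        exact Submodule.sub_mem _
          (Submodule.sum_mem _ fun k _ => Submodule.smul_mem _ _ (JS_le (hfr.mul_left _)))
          (Submodule.smul_mem _ _ (JS_le hfr))
    obtain ⟨l, hl⟩ := key
    refine ⟨l • gb, Submodule.smul_mem _ _ (Submodule.mem_span_singleton_self _), ?_⟩
    rw [dist_eq_norm]
    have e1 : yb - l • gb = Submodule.Quotient.mk (y - ∑ k ∈ S, μ k • q k) := by
      have e2 : yb - l • gb = Submodule.Quotient.mk (y - l • g) := rfl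
      rw [e2, Submodule.Quotient.eq]
      have e3 : y - l • g - (y - ∑ k ∈ S, μ k • q k) = ∑ k ∈ S, μ k • q k - l • g := by abel
      rw [e3]
      exact hl
    rw [e1]
    exact (Submodule.Quotient.norm_mk_le _ _).trans_lt hn
  rw [hcl.closure_eq] at hmem
  obtain ⟨l, hl⟩ := Submodule.mem_span_singleton.mp hmem
  refine ⟨l, ?_⟩
  rw [← Submodule.Quotient.eq]
  exact hl.symm

/-- elements of the corner are scalars modulo the ideal -/
theorem scalar_mod {g : C} (hg : g * g = g) (hg' : star g = g) (hD : DProp g)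
    (hdich : ∀ q, q * q = q → g * q = q → q * g = q → InS 𝓢 P q ∨ InS 𝓢 P (g - q))
    {v : C} (hv1 : g * v = v) (hv2 : v * g = v) : ∃ l : ℂ, v - l • g ∈ JC 𝓢 P := by
  have hv3 : star v * g = star v := by
    have := congrArg star hv1
    rwa [star_mul, hg'] at this
  have hv4 : g * star v = star v := by
    have := congrArg star hv2
    rwa [star_mul, hg'] at this
  obtain ⟨l1, n1⟩ := scalar_sa hg hg' hD hdich (y := v + star v)
    ⟨by rw [star_add, star_star, add_comm], by rw [mul_add, hv1, hv4],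
      by rw [add_mul, hv2, hv3]⟩
  obtain ⟨l2, n2⟩ := scalar_sa hg hg' hD hdich (y := Complex.I • (v - star v))
    ⟨by
      rw [star_smul, star_sub, star_star]
      change (starRingEnd ℂ) Complex.I • _ = _
      rw [Complex.conj_I, neg_smul, ← smul_neg, neg_sub],
    by rw [mul_smul_comm, mul_sub, hv1, hv4], by rw [smul_mul_assoc, sub_mul, hv2, hv3]⟩
  refine ⟨(1 / 2 : ℂ) * (l1 - Complex.I * l2), ?_⟩
  have h3 : v = (1 / 2 : ℂ) • ((v + star v) - Complex.I • (Complex.I • (v - star v))) := by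
    rw [smul_smul, Complex.I_mul_I, neg_smul, one_smul, sub_neg_eq_add]
    have : v + star v + (v - star v) = (2 : ℂ) • v := by rw [two_smul]; abel
    rw [this, smul_smul]
    norm_num
  have h4 : v - ((1 / 2 : ℂ) * (l1 - Complex.I * l2)) • g =
      (1 / 2 : ℂ) • ((v + star v - l1 • g) -
        Complex.I • (Complex.I • (v - star v) - l2 • g)) := by
    conv_lhs => rw [h3]
    simp only [mul_smul, sub_smul, smul_sub, smul_add]
    abel
  rw [h4]
  exact Submodule.smul_mem _ _ (Submodule.sub_mem _ n1 (Submodule.smul_mem _ _ n2))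

/-! ### The theorem -/

open Classical in
/-- the point `{i, j}` -/
def prR {X : Type} (i j : LR X) : YR X := fun l => decide (l = i ∨ l = j)

open Classical in
/-- the point given by one index of each type -/
def xH {X : Type} (h : TT → X) : YR X := fun l => decide (l.1 = h l.2)

theorem xH_mem {X : Type} (h : TT → X) (t : TT) : xH h (h t, t) = true := by simp [xH]

/-- **The C*-side.** -/
theorem cside_aux (hkey : ∀ (P : M → Prop), OrdIdeal P → ∀ k c, 𝓢.Cl k c → InS 𝓢 P k → P c)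
    (hD : DProp (1 : C)) {X : Type}
    (hX : ∀ (G0 : Set X) (G2 : X → X → Set X), G0.Countable → (∀ a b, (G2 a b).Countable) →
      ∃ h : TT → X, (∀ s, h s ∉ G0) ∧ ∀ s t t', s ≠ t → s ≠ t' → h s ∉ G2 (h t) (h t'))
    (P : YR X → M → Prop) (hP : ∀ x, OrdIdeal (P x)) (hclopen : ∀ c, IsClopen {x | P x c})
    (a : LR X → M) (z : M) (haz : ∀ i, ∃ b, z = a i + b)
    (hcomm : ∀ i j, OrthT i.2 j.2 → ∀ d c c', a i = d + c → a j = d + c' → P (prR i j) d)
    (hfree : ∀ h : TT → X, ∃ g, ¬ P (xH h) g ∧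
      (∀ d d', g = d + d' → P (xH h) d ∨ P (xH h) d') ∧
      (∀ t, ∃ g', a (h t, t) = g + g' ∧ P (xH h) g') ∧
      ∃ g', z = g + g + g + g' ∧ P (xH h) g')
    {z0 : C} (hz0 : 𝓢.Cl z0 z) : False := by
  classical
  -- the projections
  obtain ⟨z1, hz1, hz1i, hz1s, -, -⟩ := exists_proj hz0
  have hpi : ∀ i, ∃ p, 𝓢.Cl p (a i) ∧ p * p = p ∧ star p = p ∧ z1 * p = p := by
    intro i
    obtain ⟨b, hb⟩ := haz i
    obtain ⟨q1, q2, h1, h2, h12, h21, hs⟩ := 𝓢.split z1 (a i) b (hb ▸ hz1)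
    obtain ⟨p, hp, hpp, hps, hq1p, hpq1⟩ := exists_proj h1
    refine ⟨p, hp, hpp, hps, ?_⟩
    calc z1 * p = (q1 + q2) * (q1 * p) := by rw [hs, hq1p]
      _ = q1 * q1 * p + q2 * q1 * p := by rw [add_mul]; simp only [mul_assoc]
      _ = p := by rw [𝓢.idem _ _ h1, h21, zero_mul, add_zero, hq1p]
  choose p hp hpp hps hzp using hpi
  -- the products of projections
  have hN : ∀ i j, ∃ N : Set (LR X), N.Countable ∧ (OrthT i.2 j.2 → ∀ x : YR X,
      (∀ l ∈ N, x l = prR i j l) → p i * p j * p i ∈ JC 𝓢 (P x)) := by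
    intro i j
    have h1 : ∀ k : ℕ, ∃ F : Finset (LR X), OrthT i.2 j.2 → ∀ x : YR X,
        (∀ l ∈ F, x l = prR i j l) →
          ∃ y ∈ JC 𝓢 (P x), ‖p i * p j * p i - y‖ < 1 / ((k : ℝ) + 1) := by
      intro k
      obtain ⟨q, w, s, t, hq, hq1, hq2, hq3, hq4⟩ := cut_lemma (hpp i) (hps i) (hps j)
        (hD.corner (hpp i) (hps i)) (show (0 : ℝ) < 1 / ((k : ℝ) + 1) by positivity)
      obtain ⟨d, b', hd, -, hy⟩ := cls_dec (hp i) hq hq1 hq2
      obtain ⟨c', hc'⟩ := cls_below (hp j) hd hq3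
      obtain ⟨F, hF⟩ := exists_supp_clopen (hclopen d) (prR i j)
      refine ⟨F, fun ho x hx => ⟨w * q, ?_, hq4⟩⟩
      exact JS_le (InS.mul_left (InS.of_cl hd ((hF x hx).mpr (hcomm i j ho d b' c' hy hc'))) w)
    choose F hF using h1
    refine ⟨⋃ k, (F k : Set (LR X)), Set.countable_iUnion fun k => (F k).countable_toSet,
      fun ho x hx => ?_⟩
    have hcl : p i * p j * p i ∈ closure (JC 𝓢 (P x) : Set C) := by
      rw [Metric.mem_closure_iff]
      intro ε hε
      obtain ⟨k, hk⟩ := exists_nat_one_div_lt hε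
      obtain ⟨y, hy, hn⟩ := hF k ho x fun l hl => hx l (Set.mem_iUnion.mpr ⟨k, hl⟩)
      exact ⟨y, hy, by rw [dist_eq_norm]; exact hn.trans hk⟩
    rwa [JC_closed.closure_eq] at hcl
  choose N hNc hN using hN
  -- the free choice
  obtain ⟨h, -, hfr⟩ := hX ∅ (fun α β => ⋃ t : TT, ⋃ t' : TT, ⋃ s : TT,
      {γ | (γ, s) ∈ N (α, t) (β, t')}) Set.countable_empty (fun α β =>
    Set.countable_iUnion fun t => Set.countable_iUnion fun t' => Set.countable_iUnion fun s =>
      (hNc (α, t) (β, t')).preimage (fun γ γ' hγ => (Prod.mk.inj hγ).1))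
  obtain ⟨g, hgP, hatom, hga, g', hzg, hg'P⟩ := hfree h
  have hOne : ∀ {s t : TT}, OrthT s t → s ≠ t := by
    rintro s t hst rfl
    have := dotT_self s
    rw [hst.1] at this
    exact zero_ne_one this
  have hprod : ∀ t t', OrthT t t' →
      p (h t, t) * p (h t', t') * p (h t, t) ∈ JC 𝓢 (P (xH h)) := by
    intro t t' ho
    refine hN (h t, t) (h t', t') ho (xH h) fun l hl => ?_
    by_cases hl1 : l.1 = h l.2
    · have e1 : xH h l = true := by simp [xH, hl1]
      rw [e1]
      by_cases h1 : l.2 = t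
      · have : l = (h t, t) := Prod.ext (by rw [hl1, h1]) h1
        simp [prR, this]
      · by_cases h2 : l.2 = t'
        · have : l = (h t', t') := Prod.ext (by rw [hl1, h2]) h2
          simp [prR, this]
        · exfalso
          apply hfr l.2 t t' h1 h2
          refine Set.mem_iUnion.mpr ⟨t, Set.mem_iUnion.mpr ⟨t', Set.mem_iUnion.mpr ⟨l.2, ?_⟩⟩⟩
          change (h l.2, l.2) ∈ N (h t, t) (h t', t')
          rw [← hl1]
          exact hl
    · have e1 : xH h l = false := by simp [xH, hl1]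
      have e2 : l ≠ (h t, t) := fun he => hl1 (by rw [he])
      have e3 : l ≠ (h t', t') := fun he => hl1 (by rw [he])
      rw [e1]
      simp [prR, e2, e3]
  have _ : IsClosed (JC 𝓢 (P (xH h)) : Set C) := JC_closed
  have hJl := JC_mul_left (𝓢 := 𝓢) (P := P (xH h))
  have hJr := JC_mul_right (𝓢 := 𝓢) (P := P (xH h))
  have hJs := JC_star (𝓢 := 𝓢) (P := P (xH h))
  have hprod' : ∀ t t', OrthT t t' → p (h t, t) * p (h t', t') ∈ JC 𝓢 (P (xH h)) := by
    intro t t' ho
    have h1 : p (h t', t') * p (h t, t) ∈ JC 𝓢 (P (xH h)) := by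
      refine mem_of_star_mul_self JC_closed hJl hJr ?_
      have e1 : star (p (h t', t') * p (h t, t)) * (p (h t', t') * p (h t, t)) =
          p (h t, t) * p (h t', t') * p (h t, t) := by
        rw [star_mul, hps, hps]
        calc p (h t, t) * p (h t', t') * (p (h t', t') * p (h t, t)) =
            p (h t, t) * (p (h t', t') * p (h t', t')) * p (h t, t) := by simp only [mul_assoc]
          _ = _ := by rw [hpp]
      rw [e1]
      exact hprod t t' ho
    have h2 := hJs _ h1
    rwa [star_mul, hps, hps] at h2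
  -- the rank one projection `q`
  obtain ⟨g0, hg0, -⟩ := hga 0
  obtain ⟨r0, -, hr0, -, -, -, -⟩ := 𝓢.split (p (h 0, 0)) g g0 (hg0 ▸ hp (h 0, 0))
  obtain ⟨q, hqg, hq, hqs, -, -⟩ := exists_proj hr0
  have hqn : q ∉ JC 𝓢 (P (xH h)) := fun hmem =>
    hgP (hkey _ (hP _) q g hqg (proj_mem hq hqs hmem))
  have hsc : ∀ l : ℂ, l • q ∈ JC 𝓢 (P (xH h)) → l = 0 := by
    intro l hl
    by_contra hne
    apply hqn
    have := Submodule.smul_mem _ l⁻¹ hl
    rwa [smul_smul, inv_mul_cancel₀ hne, one_smul] at this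
  have hdich : ∀ q', q' * q' = q' → q * q' = q' → q' * q = q' →
      InS 𝓢 (P (xH h)) q' ∨ InS 𝓢 (P (xH h)) (q - q') := by
    intro q' h1 h2 h3
    obtain ⟨b, b', hb, hb', hy⟩ := cls_dec hqg h1 h2 h3
    rcases hatom b b' hy with h4 | h4
    · exact Or.inl (InS.of_cl hb h4)
    · exact Or.inr (InS.of_cl hb' h4)
  have hscal : ∀ v : C, q * v = v → v * q = v → ∃ l : ℂ, v - l • q ∈ JC 𝓢 (P (xH h)) :=
    fun v h1 h2 => scalar_mod hq hqs (hD.corner hq hqs) hdich h1 h2
  -- columns
  have hcol : ∀ r : C, 𝓢.Cl r g → ∃ x y : C, x * y = q ∧ y * x = r ∧ q * x = x ∧ x * r = x ∧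
      y * q = y ∧ r * y = y := by
    intro r hr
    have hri := 𝓢.idem _ _ hr
    obtain ⟨u, v, huv, hvu⟩ := 𝓢.equiv' q r g hqg hr
    refine ⟨q * u * r, r * v * q, ?_, ?_, ?_, ?_, ?_, ?_⟩
    · calc q * u * r * (r * v * q) = q * u * (r * r) * v * q := by simp only [mul_assoc]
        _ = q * (u * v) * (u * v) * q := by rw [hri, ← hvu]; simp only [mul_assoc]
        _ = q := by rw [huv, hq, hq, hq]
    · calc r * v * q * (q * u * r) = r * v * (q * q) * u * r := by simp only [mul_assoc]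
        _ = r * (v * u) * (v * u) * r := by rw [hq, ← huv]; simp only [mul_assoc]
        _ = r := by rw [hvu, hri, hri, hri]
    · simp only [← mul_assoc, hq]
    · rw [mul_assoc, hri]
    · rw [mul_assoc, hq]
    · simp only [← mul_assoc, hri]
  have hyt : ∀ t : TT, ∃ x y : C, x * y = q ∧ y * q = y ∧ p (h t, t) * y = y := by
    intro t
    obtain ⟨gt, hgt, -⟩ := hga t
    obtain ⟨r, r', hr, hr', h12, h21, hs⟩ := 𝓢.split (p (h t, t)) g gt (hgt ▸ hp (h t, t))
    obtain ⟨x, y, h1, h2, h3, h4, h5, h6⟩ := hcol r hr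
    refine ⟨x, y, h1, h5, ?_⟩
    calc p (h t, t) * y = (r + r') * (r * y) := by rw [hs, h6]
      _ = r * r * y + r' * r * y := by rw [add_mul]; simp only [mul_assoc]
      _ = y := by rw [𝓢.idem _ _ hr, h21, zero_mul, add_zero, h6]
  choose xt yt hxy hyq hpy using hyt
  -- decomposition of `z1`
  obtain ⟨e, s', he, hs', -, -, hsum1⟩ := 𝓢.split z1 (g + g + g) g' (hzg ▸ hz1)
  obtain ⟨e12, s3, he12, hs3, ho1, ho2, hsum2⟩ := 𝓢.split e (g + g) g he
  obtain ⟨s1, s2, hs1, hs2, ho3, ho4, hsum3⟩ := 𝓢.split e12 g g he12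
  have hs1i := 𝓢.idem _ _ hs1
  have hs2i := 𝓢.idem _ _ hs2
  have k1 : s1 * e12 = s1 := by rw [← hsum3, mul_add, hs1i, ho3, add_zero]
  have k2 : e12 * s1 = s1 := by rw [← hsum3, add_mul, hs1i, ho4, add_zero]
  have k3 : s2 * e12 = s2 := by rw [← hsum3, mul_add, hs2i, ho4, zero_add]
  have k4 : e12 * s2 = s2 := by rw [← hsum3, add_mul, hs2i, ho3, zero_add]
  have o13 : s1 * s3 = 0 := by rw [← k1, mul_assoc, ho1, mul_zero]
  have o31 : s3 * s1 = 0 := by rw [← k2, ← mul_assoc, ho2, zero_mul]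
  have o23 : s2 * s3 = 0 := by rw [← k3, mul_assoc, ho1, mul_zero]
  have o32 : s3 * s2 = 0 := by rw [← k4, ← mul_assoc, ho2, zero_mul]
  let s : Fin 3 → C := ![s1, s2, s3]
  have hscl : ∀ k, 𝓢.Cl (s k) g := by
    intro k
    fin_cases k
    · exact hs1
    · exact hs2
    · exact hs3
  have hso : ∀ k l, k ≠ l → s k * s l = 0 := by
    intro k l hkl
    fin_cases k <;> fin_cases l <;> first | exact absurd rfl hkl | assumption
  have hssum : ∑ k, s k + s' = z1 := by
    rw [Fin.sum_univ_three, ← hsum1, ← hsum2, ← hsum3]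
    rfl
  have hs'J : s' ∈ JC 𝓢 (P (xH h)) := JS_le (InS.of_cl hs' hg'P)
  choose Xk Yk hXY hYX hqX hXs hYq hsY using fun k => hcol (s k) (hscl k)
  have hXYo : ∀ k l, k ≠ l → Xk k * Yk l = 0 := by
    intro k l hkl
    rw [← hXs k, ← hsY l, mul_assoc, ← mul_assoc (s k), hso k l hkl, zero_mul, mul_zero]
  have hG : ∀ k l, ∃ c : ℂ, star (Yk k) * Yk l - c • q ∈ JC 𝓢 (P (xH h)) := by
    intro k l
    refine hscal _ ?_ ?_
    · rw [← mul_assoc]
      have : q * star (Yk k) = star (Yk k) := by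
        conv_rhs => rw [← hYq k, star_mul, hqs]
      rw [this]
    · rw [mul_assoc, hYq]
  choose G hG using hG
  have hc : ∀ t k, ∃ c : ℂ, Xk k * yt t - c • q ∈ JC 𝓢 (P (xH h)) := by
    intro t k
    refine hscal _ ?_ ?_
    · rw [← mul_assoc, hqX]
    · rw [mul_assoc, hyq]
  choose c hc using hc
  let b : (Fin 3 → ℂ) → C := fun v => ∑ k, v k • Yk k
  have hBF : ∀ v w : Fin 3 → ℂ, star (b v) * b w - BF (Matrix.of G) v w • q ∈
      JC 𝓢 (P (xH h)) := by
    intro v w
    have e1 : star (b v) * b w = ∑ k, ∑ l, (star (v k) * w l) • (star (Yk k) * Yk l) := by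
      simp only [b, star_sum, star_smul, Finset.sum_mul, Finset.mul_sum, smul_mul_smul_comm]
      exact Finset.sum_comm
    have e2 : BF (Matrix.of G) v w • q = ∑ k, ∑ l, (star (v k) * w l) • (G k l • q) := by
      simp only [BF, dotProduct, Matrix.mulVec, Matrix.of_apply, Pi.star_apply, Finset.sum_smul,
        Finset.mul_sum, smul_smul]
      refine Finset.sum_congr rfl fun k _ => Finset.sum_congr rfl fun l _ => ?_
      congr 1
      ring
    rw [e1, e2, ← Finset.sum_sub_distrib]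
    refine Submodule.sum_mem _ fun k _ => ?_
    rw [← Finset.sum_sub_distrib]
    refine Submodule.sum_mem _ fun l _ => ?_
    rw [← smul_sub]
    exact Submodule.smul_mem _ _ (hG k l)
  have hXb : ∀ (v : Fin 3 → ℂ) k, Xk k * b v = v k • q := by
    intro v k
    simp only [b, Finset.mul_sum, mul_smul_comm]
    rw [Finset.sum_eq_single k]
    · rw [hXY]
    · intro l _ hl
      rw [hXYo k l hl.symm, smul_zero]
    · intro h; exact absurd (Finset.mem_univ k) h
  have haniso : ∀ v, BF (Matrix.of G) v v = 0 → v = 0 := by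
    intro v hv
    have h1 := hBF v v
    rw [hv, zero_smul, sub_zero] at h1
    have h2 : b v ∈ JC 𝓢 (P (xH h)) := mem_of_star_mul_self JC_closed hJl hJr h1
    funext k
    have h3 := hJl (Xk k) _ h2
    rw [hXb] at h3
    exact hsc _ h3
  have hyb : ∀ t, yt t - b (c t) ∈ JC 𝓢 (P (xH h)) := by
    intro t
    have e1 : yt t = ∑ k, Yk k * (Xk k * yt t) + s' * yt t := by
      have e2 : ∑ k, Yk k * (Xk k * yt t) = (∑ k, s k) * yt t := by
        rw [Finset.sum_mul]
        exact Finset.sum_congr rfl fun k _ => by rw [← mul_assoc, hYX]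
      rw [e2, ← add_mul, hssum]
      calc yt t = p (h t, t) * yt t := (hpy t).symm
        _ = z1 * p (h t, t) * yt t := by rw [hzp]
        _ = z1 * yt t := by rw [mul_assoc, hpy]
    have e3 : yt t - b (c t) = ∑ k, Yk k * (Xk k * yt t - c t k • q) + s' * yt t := by
      conv_lhs => rw [e1]
      simp only [b, mul_sub, Finset.sum_sub_distrib, mul_smul_comm, hYq]
      abel
    rw [e3]
    exact Submodule.add_mem _ (Submodule.sum_mem _ fun k _ => hJl _ _ (hc t k)) (hJr _ _ hs'J)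
  refine frames (Matrix.of G) haniso c ?_ ?_
  · intro t ht
    have h1 := hyb t
    have h2 : b (c t) = 0 := by
      simp [b, ht]
    rw [h2, sub_zero] at h1
    apply hqn
    rw [← hxy t]
    exact hJl _ _ h1
  · intro t t' ho
    apply hsc
    have h1 : star (yt t) * yt t' ∈ JC 𝓢 (P (xH h)) := by
      have e1 : star (yt t) * yt t' = star (yt t) * (p (h t, t) * p (h t', t')) * yt t' := by
        conv_lhs => rw [← hpy t, ← hpy t', star_mul, hps]
        simp only [mul_assoc]
      rw [e1]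
      exact hJr _ _ (hJl _ _ (hprod' t t' ho))
    have h2 : star (yt t) * yt t' - star (b (c t)) * b (c t') ∈ JC 𝓢 (P (xH h)) := by
      have e1 : star (yt t) * yt t' - star (b (c t)) * b (c t') =
          star (yt t - b (c t)) * yt t' + star (b (c t)) * (yt t' - b (c t')) := by
        rw [star_sub, sub_mul, mul_sub]; abel
      rw [e1]
      exact Submodule.add_mem _ (hJr _ _ (hJs _ (hyb t))) (hJl _ _ (hyb t'))
    have h3 := hBF (c t) (c t')
    have e2 : BF (Matrix.of G) (c t) (c t') • q = star (yt t) * yt t' -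
        (star (yt t) * yt t' - star (b (c t)) * b (c t')) -
        (star (b (c t)) * b (c t') - BF (Matrix.of G) (c t) (c t') • q) := by abel
    rw [e2]
    exact Submodule.sub_mem _ (Submodule.sub_mem _ h1 h2) h3

end

end Pool.Agent.Lib_helper8.V53
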