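import Mathlib

set_option autoImplicit false

/-!
# Density of invertible self-adjoint elements passes to sums of projections and to corners
-/

namespace Pool.Agent.Lib_helper8.V53

section ring

variable {C : Type*} [Ring C]

/-- `y` is invertible in the corner `p C p` -/
def CorInv (p y : C) : Prop := ∃ z, p * z = z ∧ z * p = z ∧ y * z = p ∧ z * y = p

theorem corInv_of_isUnit {p y : C} (hp : p * p = p) (h1 : p * y = y) (h2 : y * p = y)
    (h : IsUnit (y + (1 - p))) : CorInv p y := by
  obtain ⟨w, hw⟩ := h
  have e1 : p * (w : C) = y := by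
    rw [hw, mul_add, mul_sub, hp, mul_one, sub_self, add_zero, h1]
  have e2 : (w : C) * p = y := by
    rw [hw, add_mul, sub_mul, hp, one_mul, sub_self, add_zero, h2]
  have e3 : (↑w⁻¹ : C) * p = p * ↑w⁻¹ := by
    calc (↑w⁻¹ : C) * p = ↑w⁻¹ * (p * ↑w) * ↑w⁻¹ := by
          rw [mul_assoc, mul_assoc p, Units.mul_inv, mul_one]
      _ = ↑w⁻¹ * (↑w * p) * ↑w⁻¹ := by rw [e1, e2]
      _ = p * ↑w⁻¹ := by rw [← mul_assoc, Units.inv_mul, one_mul]
  refine ⟨↑w⁻¹ * p, ?_, ?_, ?_, ?_⟩
  · rw [← mul_assoc, ← e3, mul_assoc, hp]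
  · rw [mul_assoc, hp]
  · rw [← e2, mul_assoc, ← mul_assoc p, ← e3, mul_assoc, hp, ← mul_assoc, Units.mul_inv, one_mul]
  · rw [mul_assoc, h1, ← e2, ← mul_assoc, Units.inv_mul, one_mul]

theorem CorInv.isUnit {p y : C} (hp : p * p = p) (h1 : p * y = y) (h2 : y * p = y)
    (h : CorInv p y) : IsUnit (y + (1 - p)) := by
  obtain ⟨z, h3, h4, h5, h6⟩ := h
  refine ⟨⟨y + (1 - p), z + (1 - p), ?_, ?_⟩, rfl⟩
  · simp only [mul_add, add_mul, h5, mul_sub, sub_mul, hp, h2, h3, mul_one, one_mul]
    abel
  · simp only [mul_add, add_mul, h6, mul_sub, sub_mul, hp, h4, h1, mul_one, one_mul]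
    abel

/-- The Schur complement: if `b` is invertible and `(1-g) b (1-g)` is invertible in its corner,
then the Schur complement is invertible in the corner of `g`. -/
theorem schur_corner {g p b t : C} (hg : g * g = g) (hgp : g + p = 1) (hb : IsUnit b)
    (h1 : p * t = t) (h2 : t * p = t)
    (h3 : p * b * p * t = p) (h4 : t * (p * b * p) = p) :
    CorInv g (g * b * g - g * b * t * b * g) := by
  obtain ⟨w, rfl⟩ := hb
  set B : C := ↑w with hB
  set β : C := ↑w⁻¹ with hβ
  have hwβ : B * β = 1 := Units.mul_inv w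
  have hβw : β * B = 1 := Units.inv_mul w
  have hgt : g * t = 0 := by
    have : (g + p) * t = t := by rw [hgp, one_mul]
    rw [add_mul, h1] at this
    exact add_eq_right.mp this
  have htg : t * g = 0 := by
    have : t * (g + p) = t := by rw [hgp, mul_one]
    rw [mul_add, h2] at this
    exact add_eq_right.mp this
  have k1 : B * g * β * g = g - B * p * β * g := by
    have : B * (g + p) * β * g = g := by rw [hgp, mul_one, hwβ, one_mul]
    rw [mul_add, add_mul, add_mul] at this
    exact eq_sub_of_add_eq this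
  have k1' : g * β * g * B = g - g * β * p * B := by
    have : g * β * (g + p) * B = g := by rw [hgp, mul_one, mul_assoc, hβw, mul_one]
    rw [mul_add, add_mul] at this
    exact eq_sub_of_add_eq this
  have k2 : t * B * p = p := by
    calc t * B * p = t * p * B * p := by rw [h2]
      _ = t * (p * B * p) := by simp only [mul_assoc]
      _ = _ := h4
  have k2' : p * B * t = p := by
    calc p * B * t = p * B * (p * t) := by rw [h1]
      _ = p * B * p * t := by simp only [mul_assoc]
      _ = _ := h3
  refine ⟨g * β * g, ?_, ?_, ?_, ?_⟩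
  · rw [← mul_assoc, ← mul_assoc, hg]
  · rw [mul_assoc, hg]
  · calc (g * B * g - g * B * t * B * g) * (g * β * g)
        = g * (B * (g * g) * β * g) - g * B * t * (B * (g * g) * β * g) := by
          simp only [sub_mul, mul_assoc]
      _ = g * (g - B * p * β * g) - g * B * t * (g - B * p * β * g) := by
          rw [hg, k1]
      _ = g * g - g * B * p * β * g - (g * B * (t * g) -
            g * B * (t * B * p) * β * g) := by
          simp only [mul_sub, mul_assoc]
      _ = g := by rw [hg, htg, k2, mul_zero]; abel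
  · calc g * β * g * (g * B * g - g * B * t * B * g)
        = (g * β * (g * g) * B) * g - (g * β * (g * g) * B) * t * B * g := by
          simp only [mul_sub, mul_assoc]
      _ = (g - g * β * p * B) * g - (g - g * β * p * B) * t * B * g := by
          rw [hg, k1']
      _ = g * g - g * β * p * B * g - ((g * t) * B * g -
            g * β * (p * B * t) * B * g) := by
          simp only [sub_mul, mul_assoc]
      _ = g := by rw [hg, hgt, k2', zero_mul, zero_mul]; abel

/-- Block matrices with invertible Schur complement are invertible. -/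
theorem schur_sum {p q y s w z : C} (hq : q * q = q) (hpq : p * q = 0)
    (hqp : q * p = 0) (hs1 : p * s = s) (hs2 : s * p = s) (hw1 : q * w = w)
    (hs : IsUnit (s + (1 - p))) (hw : IsUnit (w + (1 - q))) (hz1 : q * z = z) (hz2 : z * q = z)
    (hwz : w * z = q) (hzw : z * w = q) :
    IsUnit (s + p * y * q * z * y * p + p * y * q + q * y * p + w + (1 - (p + q))) := by
  have hzp : z * p = 0 := by rw [← hz2, mul_assoc, hqp, mul_zero]
  have hpz : p * z = 0 := by rw [← hz1, ← mul_assoc, hpq, zero_mul]
  have hX : IsUnit (1 + p * y * q * z) := by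
    refine ⟨⟨1 + p * y * q * z, 1 - p * y * q * z, ?_, ?_⟩, rfl⟩
    · have : p * y * q * z * (p * y * q * z) = 0 := by
        calc p * y * q * z * (p * y * q * z) = p * y * q * (z * p) * y * q * z := by
              simp only [mul_assoc]
          _ = 0 := by rw [hzp]; simp
      rw [mul_sub, add_mul, add_mul, this]
      simp
    · have : p * y * q * z * (p * y * q * z) = 0 := by
        calc p * y * q * z * (p * y * q * z) = p * y * q * (z * p) * y * q * z := by
              simp only [mul_assoc]
          _ = 0 := by rw [hzp]; simp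
      rw [mul_add, sub_mul, sub_mul, this]
      simp
  have hY : IsUnit (1 + z * y * p) := by
    have : z * y * p * (z * y * p) = 0 := by
      calc z * y * p * (z * y * p) = z * y * (p * z) * y * p := by simp only [mul_assoc]
        _ = 0 := by rw [hpz]; simp
    refine ⟨⟨1 + z * y * p, 1 - z * y * p, ?_, ?_⟩, rfl⟩
    · rw [mul_sub, add_mul, add_mul, this]
      simp
    · rw [mul_add, sub_mul, sub_mul, this]
      simp
  have hsw : s * w = 0 := by rw [← hs2, ← hw1, mul_assoc, ← mul_assoc p q, hpq]; simp
  have hsq : s * q = 0 := by rw [← hs2, mul_assoc, hpq, mul_zero]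
  have hpw : p * w = 0 := by rw [← hw1, ← mul_assoc, hpq, zero_mul]
  have hmid : (s + (1 - p)) * (w + (1 - q)) = s + w + (1 - (p + q)) := by
    simp only [mul_add, add_mul, mul_sub, sub_mul, hsw, hsq, hpw, hpq, mul_one, one_mul]
    abel
  have hzs : z * s = 0 := by rw [← hs1, ← mul_assoc, hzp, zero_mul]
  have hsz : s * z = 0 := by rw [← hs2, mul_assoc, hpz, mul_zero]
  have hfin : s + p * y * q * z * y * p + p * y * q + q * y * p + w + (1 - (p + q)) =
      (1 + p * y * q * z) * ((s + (1 - p)) * (w + (1 - q))) * (1 + z * y * p) := by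
    rw [hmid]
    have e1 : (1 + p * y * q * z) * (s + w + (1 - (p + q))) =
        s + w + (1 - (p + q)) + p * y * q := by
      have a1 : p * y * q * z * s = 0 := by rw [mul_assoc, hzs, mul_zero]
      have a2 : p * y * q * z * w = p * y * q := by
        rw [mul_assoc, hzw, mul_assoc, hq]
      have a3 : p * y * q * z * (p + q) = p * y * q * z := by
        rw [mul_add, mul_assoc _ z p, hzp, mul_zero, mul_assoc _ z q, hz2, zero_add]
      rw [add_mul, one_mul, mul_add, mul_add, a1, a2, mul_sub, a3, mul_one]
      abel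
    rw [e1]
    have b1 : s * (z * y * p) = 0 := by rw [mul_assoc z, ← mul_assoc, hsz, zero_mul]
    have b2 : w * (z * y * p) = q * y * p := by rw [mul_assoc z, ← mul_assoc, hwz, mul_assoc]
    have b3 : (p + q) * (z * y * p) = z * y * p := by
      rw [mul_assoc z, ← mul_assoc, add_mul, hpz, hz1, zero_add]
    have b4 : p * y * q * (z * y * p) = p * y * q * z * y * p := by simp only [mul_assoc]
    rw [mul_add, mul_one, add_mul, add_mul, add_mul, b1, b2, b4, sub_mul, b3, one_mul]
    abel
  rw [hfin]
  exact (hX.mul (hs.mul hw)).mul hY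

end ring

section cstar

variable {C : Type*} [CStarAlgebra C]

/-- `y` is a self-adjoint element of the corner `p C p` -/
structure InCor (p y : C) : Prop where
  sa : star y = y
  left : p * y = y
  right : y * p = y

/-- the invertible self-adjoint elements of `p C p` are dense in the self-adjoint elements -/
def DProp (p : C) : Prop :=
  ∀ y, InCor p y → ∀ ε > 0, ∃ y', InCor p y' ∧ ‖y - y'‖ < ε ∧ CorInv p y'

theorem star_of_corInv {p y z : C} (hp' : star p = p) (hy : star y = y) (h1 : p * z = z)
    (h3 : y * z = p) : star z = z := by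
  have e1 : star z * y = p := by
    have := congrArg star h3
    rwa [star_mul, hy, hp'] at this
  have e2 : star z * p = star z := by
    have := congrArg star h1
    rwa [star_mul, hp'] at this
  calc star z = star z * p := e2.symm
    _ = star z * (y * z) := by rw [h3]
    _ = z := by rw [← mul_assoc, e1, h1]

/-- `DProp` passes to orthogonal sums. -/
theorem DProp.add {p q : C} (hp : p * p = p) (hq : q * q = q) (hp' : star p = p)
    (hq' : star q = q) (hpq : p * q = 0) (hqp : q * p = 0) (h1 : DProp p) (h2 : DProp q) :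
    DProp (p + q) := by
  intro y hy ε hε
  -- the corner `q y q`
  obtain ⟨w, hw, hwn, z, hz1, hz2, hwz, hzw⟩ := h2 (q * y * q)
    ⟨by rw [star_mul, star_mul, hq', hy.sa, mul_assoc], by rw [← mul_assoc, ← mul_assoc, hq],
      by rw [mul_assoc, hq]⟩ (ε / 2) (by positivity)
  have hzs : star z = z := star_of_corInv hq' hw.sa hz1 hwz
  obtain ⟨s, hs, hsn, hsinv⟩ := h1 (p * y * p - p * y * q * z * y * p)
    ⟨by
      simp only [star_sub, star_mul, hp', hq', hy.sa, hzs]
      congr 1
      · rw [mul_assoc]
      · have e1 : z * q = z := hz2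
        have e2 : q * z = z := hz1
        calc p * (y * (z * (q * (y * p)))) = p * y * (z * q) * y * p := by
              simp only [mul_assoc]
          _ = p * y * (q * z) * y * p := by rw [e1, e2]
          _ = _ := by simp only [mul_assoc],
      by simp only [mul_sub, ← mul_assoc, hp], by simp only [sub_mul, mul_assoc, hp]⟩
    (ε / 2) (by positivity)
  have hpw : p * w = 0 := by rw [← hw.left, ← mul_assoc, hpq, zero_mul]
  have hqs : q * s = 0 := by rw [← hs.left, ← mul_assoc, hqp, zero_mul]
  have hwp : w * p = 0 := by rw [← hw.right, mul_assoc, hqp, mul_zero]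
  have hsq : s * q = 0 := by rw [← hs.right, mul_assoc, hpq, mul_zero]
  set y' : C := s + p * y * q * z * y * p + p * y * q + q * y * p + w with hy'def
  have hyy : y = p * y * p + p * y * q + q * y * p + q * y * q := by
    calc y = (p + q) * y * (p + q) := by rw [hy.left, hy.right]
      _ = _ := by simp only [mul_add, add_mul]; abel
  have hl : (p + q) * y' = y' := by
    rw [hy'def]
    simp only [mul_add, add_mul, ← mul_assoc, hp, hq, hpq, hqp, zero_mul, hs.left, hw.left, hqs,
      hpw]
    abel
  have hr : y' * (p + q) = y' := by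
    rw [hy'def]
    simp only [mul_add, add_mul, mul_assoc, hp, hq, hpq, hqp, mul_zero, hs.right, hw.right, hwp,
      hsq]
    abel
  refine ⟨y', ⟨?_, hl, hr⟩, ?_, ?_⟩
  · have e3 : star (p * y * q * z * y * p) = p * y * q * z * y * p := by
      simp only [star_mul, hp', hq', hy.sa, hzs]
      calc p * (y * (z * (q * (y * p)))) = p * y * (z * q) * y * p := by
            simp only [mul_assoc]
        _ = p * y * (q * z) * y * p := by rw [hz2, hz1]
        _ = _ := by simp only [mul_assoc]
    have e4 : star (p * y * q) = q * y * p := by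
      simp only [star_mul, hp', hq', hy.sa, mul_assoc]
    have e5 : star (q * y * p) = p * y * q := by
      simp only [star_mul, hp', hq', hy.sa, mul_assoc]
    rw [hy'def, star_add, star_add, star_add, star_add, e3, e4, e5, hs.sa, hw.sa]
    abel
  · have e6 : y - y' = (p * y * p - p * y * q * z * y * p - s) + (q * y * q - w) := by
      calc y - y' = (p * y * p + p * y * q + q * y * p + q * y * q) - y' := by rw [← hyy]
        _ = _ := by rw [hy'def]; abel
    rw [e6]
    calc ‖(p * y * p - p * y * q * z * y * p - s) + (q * y * q - w)‖ ≤ _ := norm_add_le _ _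
      _ < ε / 2 + ε / 2 := add_lt_add hsn hwn
      _ = ε := by ring
  · refine corInv_of_isUnit (by simp only [mul_add, add_mul, hp, hq, hpq, hqp]; simp) hl hr ?_
    exact schur_sum hq hpq hqp hs.left hs.right hw.left (hsinv.isUnit hp hs.left hs.right)
      (CorInv.isUnit hq hw.left hw.right ⟨z, hz1, hz2, hwz, hzw⟩) hz1 hz2 hwz hzw

theorem DProp.zero : DProp (0 : C) := by
  intro y hy ε hε
  have : y = 0 := by rw [← hy.left, zero_mul]
  subst this
  exact ⟨0, ⟨star_zero _, by simp, by simp⟩, by simpa using hε, ⟨0, by simp, by simp, by simp,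
    by simp⟩⟩

/-- `DProp` passes to finite orthogonal sums. -/
theorem DProp.sum {ι : Type*} (S : Finset ι) (p : ι → C) (hp : ∀ i ∈ S, p i * p i = p i)
    (hp' : ∀ i ∈ S, star (p i) = p i) (hpq : ∀ i ∈ S, ∀ j ∈ S, i ≠ j → p i * p j = 0)
    (h : ∀ i ∈ S, DProp (p i)) : DProp (∑ i ∈ S, p i) := by
  classical
  induction S using Finset.induction_on with
  | empty => simpa using DProp.zero
  | insert i S hi ih =>
    rw [Finset.sum_insert hi]
    have hsub : ∀ j ∈ S, j ∈ insert i S := fun j hj => Finset.mem_insert_of_mem hj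
    have hne : ∀ j ∈ S, i ≠ j := fun j hj => by rintro rfl; exact hi hj
    refine DProp.add (hp i (Finset.mem_insert_self _ _)) ?_ (hp' i (Finset.mem_insert_self _ _))
      ?_ ?_ ?_ (h i (Finset.mem_insert_self _ _))
      (ih (fun j hj => hp j (hsub j hj)) (fun j hj => hp' j (hsub j hj))
        (fun j hj k hk hjk => hpq j (hsub j hj) k (hsub k hk) hjk) (fun j hj => h j (hsub j hj)))
    · rw [Finset.sum_mul]
      refine Finset.sum_congr rfl fun j hj => ?_
      rw [Finset.mul_sum, Finset.sum_eq_single j]
      · exact hp j (hsub j hj)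
      · intro k hk hkj
        exact hpq j (hsub j hj) k (hsub k hk) hkj.symm
      · intro hj'; exact absurd hj hj'
    · rw [star_sum]
      exact Finset.sum_congr rfl fun j hj => hp' j (hsub j hj)
    · rw [Finset.mul_sum]
      exact Finset.sum_eq_zero fun j hj =>
        hpq i (Finset.mem_insert_self _ _) j (hsub j hj) (hne j hj)
    · rw [Finset.sum_mul]
      exact Finset.sum_eq_zero fun j hj =>
        hpq j (hsub j hj) i (Finset.mem_insert_self _ _) (hne j hj).symm

/-- norm of a projection -/
theorem norm_proj_le {p : C} (hp : p * p = p) (hp' : star p = p) : ‖p‖ ≤ 1 := by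
  have h1 : ‖star p * p‖ = ‖p‖ * ‖p‖ := CStarRing.norm_star_mul_self
  rw [hp', hp] at h1
  rcases (norm_nonneg p).eq_or_lt with h | h
  · rw [← h]; exact zero_le_one
  · have : ‖p‖ * 1 = ‖p‖ * ‖p‖ := by rw [mul_one]; exact h1
    exact (mul_left_cancel₀ h.ne' this).symm.le

/-- `DProp` passes from the unit to projections. -/
theorem DProp.corner {g : C} (hg : g * g = g) (hg' : star g = g) (h : DProp (1 : C)) :
    DProp g := by
  intro y hy ε hε
  obtain ⟨p, hpdef⟩ : ∃ p : C, p = 1 - g := ⟨_, rfl⟩
  have hgp : g + p = 1 := by rw [hpdef]; abel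
  have hp : p * p = p := by
    rw [hpdef]
    simp only [mul_sub, sub_mul, mul_one, one_mul, hg]
    abel
  have hp' : star p = p := by rw [hpdef, star_sub, star_one, hg']
  have hgp0 : g * p = 0 := by rw [hpdef, mul_sub, mul_one, hg, sub_self]
  have hpg0 : p * g = 0 := by rw [hpdef, sub_mul, one_mul, hg, sub_self]
  have hyp : y * p = 0 := by rw [hpdef, mul_sub, mul_one, hy.right, sub_self]
  have hpy : p * y = 0 := by rw [hpdef, sub_mul, one_mul, hy.left, sub_self]
  have hng := norm_proj_le hg hg'
  have hnp := norm_proj_le hp hp'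
  set δ : ℝ := min (1 / 2) (ε / 2) with hδ
  have hδ0 : 0 < δ := lt_min (by norm_num) (by positivity)
  have hδ1 : δ ≤ 1 / 2 := min_le_left _ _
  have hδ2 : δ ≤ ε / 2 := min_le_right _ _
  obtain ⟨b, hb, hbn, hbinv⟩ := h (y + p) ⟨by rw [star_add, hy.sa, hp'], one_mul _, mul_one _⟩
    δ hδ0
  have hbu : IsUnit b := by
    have := hbinv.isUnit (one_mul 1) (one_mul b) (mul_one b)
    simpa using this
  -- the corner of `p`
  have hcor : ‖p * b * p + g - 1‖ < 1 := by
    have e1 : p * b * p + g - 1 = p * (b - (y + p)) * p := by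
      rw [mul_sub, sub_mul, mul_add, hpy, hp, zero_add, hp, ← hgp]
      abel
    rw [e1]
    calc ‖p * (b - (y + p)) * p‖ ≤ ‖p‖ * ‖b - (y + p)‖ * ‖p‖ :=
          (norm_mul_le _ _).trans (mul_le_mul_of_nonneg_right (norm_mul_le _ _) (norm_nonneg _))
      _ ≤ 1 * ‖b - (y + p)‖ * 1 := by gcongr
      _ = ‖y + p - b‖ := by rw [one_mul, mul_one, norm_sub_rev]
      _ < δ := hbn
      _ < 1 := by linarith
  have hwu : IsUnit (p * b * p + (1 - p)) := by
    have e1 : p * b * p + (1 - p) = 1 - (1 - (p * b * p + g)) := by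
      rw [← hgp]; abel
    rw [e1]
    refine isUnit_one_sub_of_norm_lt_one ?_
    rw [norm_sub_rev]
    exact hcor
  obtain ⟨t, ht1, ht2, ht3, ht4⟩ := corInv_of_isUnit hp
    (by rw [← mul_assoc, ← mul_assoc, hp]) (by rw [mul_assoc, hp]) hwu
  have hts : star t = t := star_of_corInv hp'
    (by rw [star_mul, star_mul, hp', hb.sa, mul_assoc]) ht1 ht3
  have hg2 : g * b * p = g * (b - (y + p)) * p := by
    rw [mul_sub, sub_mul, mul_add, add_mul, mul_assoc g y p, hyp, hgp0]
    simp
  have hg3 : p * b * g = p * (b - (y + p)) * g := by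
    rw [mul_sub, sub_mul, mul_add, add_mul, hpy, hp, hpg0]
    simp
  set η : ℝ := ‖y + p - b‖ with hη
  have hη' : ‖b - (y + p)‖ = η := norm_sub_rev _ _
  have hη0 : 0 ≤ η := norm_nonneg _
  have bound3 : ∀ a c : C, ‖a‖ ≤ 1 → ‖c‖ ≤ 1 → ‖a * (b - (y + p)) * c‖ ≤ η := by
    intro a c ha hc
    calc ‖a * (b - (y + p)) * c‖ ≤ ‖a‖ * ‖b - (y + p)‖ * ‖c‖ :=
          (norm_mul_le _ _).trans (mul_le_mul_of_nonneg_right (norm_mul_le _ _) (norm_nonneg _))
      _ ≤ 1 * ‖b - (y + p)‖ * 1 := by gcongr
      _ = η := by rw [one_mul, mul_one, hη']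
  have htn : ‖t‖ ≤ 2 := by
    have e1 : t = p - (p * (b - (y + p)) * p) * t := by
      rw [mul_sub, sub_mul, mul_add, hpy, hp, zero_add, hp, sub_mul, ht3, ht1]
      abel
    have e2 : ‖t‖ ≤ 1 + 1 / 2 * ‖t‖ := by
      calc ‖t‖ = ‖p - (p * (b - (y + p)) * p) * t‖ := by rw [← e1]
        _ ≤ ‖p‖ + ‖(p * (b - (y + p)) * p) * t‖ := norm_sub_le _ _
        _ ≤ 1 + η * ‖t‖ := by
            gcongr
            exact (norm_mul_le _ _).trans
              (mul_le_mul_of_nonneg_right (bound3 p p hnp hnp) (norm_nonneg _))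
        _ ≤ 1 + 1 / 2 * ‖t‖ := by
            gcongr
            exact hbn.le.trans hδ1
    linarith
  have hfac : g * b * t * b * g = (g * b * p) * t * (p * b * g) := by
    calc g * b * t * b * g = g * b * (p * t * p) * b * g := by rw [ht1, ht2]
      _ = _ := by simp only [mul_assoc]
  refine ⟨g * b * g - g * b * t * b * g, ⟨?_, ?_, ?_⟩, ?_, schur_corner hg hgp hbu ht1 ht2 ht3 ht4⟩
  · simp only [star_sub, star_mul, hg', hb.sa, hts, mul_assoc]
  · simp only [mul_sub, ← mul_assoc, hg]
  · simp only [sub_mul, mul_assoc, hg]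
  · have e1 : y - (g * b * g - g * b * t * b * g) =
        -(g * (b - (y + p)) * g) + (g * b * p) * t * (p * b * g) := by
      rw [hfac, mul_sub, sub_mul, mul_add, add_mul, hgp0, hy.left, hy.right]
      simp only [zero_mul]
      abel
    rw [e1]
    calc ‖-(g * (b - (y + p)) * g) + (g * b * p) * t * (p * b * g)‖
        ≤ ‖-(g * (b - (y + p)) * g)‖ + ‖(g * b * p) * t * (p * b * g)‖ := norm_add_le _ _
      _ ≤ η + η * 2 * η := by
          refine add_le_add ?_ ?_
          · rw [norm_neg]; exact bound3 g g hng hng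
          · calc ‖(g * b * p) * t * (p * b * g)‖ ≤ ‖g * b * p‖ * ‖t‖ * ‖p * b * g‖ :=
                  (norm_mul_le _ _).trans
                    (mul_le_mul_of_nonneg_right (norm_mul_le _ _) (norm_nonneg _))
              _ ≤ η * 2 * η := by
                  rw [hg2, hg3]
                  gcongr
                  · exact bound3 g p hng hnp
                  · exact bound3 p g hnp hng
      _ < ε := by
          have h1 : η < δ := hbn
          nlinarith

end cstar

end Pool.Agent.Lib_helper8.V53
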