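import Pool.Agent.Lib_helper8.V53.LocGlob

set_option autoImplicit false
set_option linter.unusedSectionVars false

/-!
# `V` of fields, finite powers and matrix rings
-/

namespace Pool.Agent.Lib_helper8.V53

open Matrix

universe u v

noncomputable section

/-! ### Fields -/

section field

variable {K : Type u} [Field K]

theorem rank_le_of_mEquiv {ι κ : Type*} [Fintype ι] [Fintype κ] [DecidableEq ι] [DecidableEq κ]
    {e : Matrix ι ι K} {f : Matrix κ κ K} (he : e * e = e) (h : MEquiv e f) :
    e.rank ≤ f.rank := by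
  obtain ⟨x, y, h1, h2⟩ := h
  have : e = x * f * y := by
    rw [← he, ← h1, ← h2]
    simp only [Matrix.mul_assoc]
  rw [this]
  exact (Matrix.rank_mul_le_left _ _).trans (Matrix.rank_mul_le_right _ _)

theorem rank_eq_of_mEquiv {ι κ : Type*} [Fintype ι] [Fintype κ] [DecidableEq ι] [DecidableEq κ]
    {e : Matrix ι ι K} {f : Matrix κ κ K} (he : e * e = e) (hf : f * f = f) (h : MEquiv e f) :
    e.rank = f.rank :=
  le_antisymm (rank_le_of_mEquiv he h) (rank_le_of_mEquiv hf h.symm)

theorem mEquiv_one {ι : Type} [Fintype ι] [DecidableEq ι] {e : Matrix ι ι K} (he : e * e = e) :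
    MEquiv e (1 : Matrix (Fin e.rank) (Fin e.rank) K) := by
  let L : (ι → K) →ₗ[K] (ι → K) := Matrix.toLin' e
  have hLL : L ∘ₗ L = L := by
    rw [← Matrix.toLin'_mul, he]
  have hfin : Module.finrank K (LinearMap.range L) = e.rank := rfl
  let b := Module.finBasisOfFinrankEq K (LinearMap.range L) hfin
  let i0 : LinearMap.range L →ₗ[K] (ι → K) := (LinearMap.range L).subtype
  let p0 : (ι → K) →ₗ[K] LinearMap.range L := L.rangeRestrict
  have h1 : i0 ∘ₗ p0 = L := by ext v; rfl
  have h2 : p0 ∘ₗ i0 = LinearMap.id := by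
    refine LinearMap.ext fun w => Subtype.ext ?_
    obtain ⟨w, v, rfl⟩ := w
    exact LinearMap.congr_fun hLL v
  refine ⟨LinearMap.toMatrix b (Pi.basisFun K ι) i0, LinearMap.toMatrix (Pi.basisFun K ι) b p0,
    ?_, ?_⟩
  · rw [← LinearMap.toMatrix_comp, h1, LinearMap.toMatrix_eq_toMatrix',
      LinearMap.toMatrix'_toLin']
  · rw [← LinearMap.toMatrix_comp, h2, LinearMap.toMatrix_id]

/-- the class of the unit -/
def uK (K : Type u) [Field K] : V K := cls (1 : Matrix Unit Unit K) (one_mul 1)

theorem nsmul_uK (m : ℕ) : m • uK K = cls (1 : Matrix (Fin m) (Fin m) K) (one_mul 1) := by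
  have h := cls_blockDiagonal (R := K) (one_mul (1 : Matrix Unit Unit K)) m
  change m • cls (1 : Matrix Unit Unit K) (one_mul 1) = _
  rw [← h, cls_eq_iff]
  have h2 := MEquiv.submatrix (one_mul (1 : Matrix (Fin m) (Fin m) K)) (Equiv.punitProd (Fin m))
  have h3 : (1 : Matrix (Fin m) (Fin m) K).submatrix (Equiv.punitProd (Fin m))
      (Equiv.punitProd (Fin m)) = blockDiagonal (fun _ : Fin m => (1 : Matrix Unit Unit K)) := by
    rw [Matrix.submatrix_one_equiv]
    exact (Matrix.blockDiagonal_one).symm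
  rw [h3] at h2
  exact h2.symm

theorem cls_eq_rank {ι : Type} [Fintype ι] [DecidableEq ι] {e : Matrix ι ι K} (he : e * e = e) :
    cls e he = e.rank • uK K := by
  rw [nsmul_uK, cls_eq_iff]
  exact mEquiv_one he

/-- `V(K) ≅ ℕ` -/
def natEquivV (K : Type u) [Field K] : ℕ ≃+ V K :=
  AddEquiv.ofBijective (multiplesHom (V K) (uK K)) (by
    constructor
    · intro m n h
      have h' : m • uK K = n • uK K := h
      rw [nsmul_uK, nsmul_uK, cls_eq_iff] at h'
      have := rank_eq_of_mEquiv (one_mul _) (one_mul _) h'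
      simpa using this
    · intro a
      obtain ⟨n, e, he, rfl⟩ := a.exists_rep
      exact ⟨e.rank, (cls_eq_rank he).symm⟩)

theorem natEquivV_symm_cls {ι : Type} [Fintype ι] [DecidableEq ι] {e : Matrix ι ι K}
    (he : e * e = e) : (natEquivV K).symm (cls e he) = e.rank := by
  rw [AddEquiv.symm_apply_eq, cls_eq_rank he]
  rfl

theorem niceMon_V_field (K : Type u) [Field K] : NiceMon (V K) :=
  niceMon_nat.of_equiv (natEquivV K)

end field

/-! ### Powers -/

section power

variable (ι : Type) [Fintype ι] [DecidableEq ι] (R : Type) [Ring R]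

/-- evaluation -/
def evHom (i : ι) : (ι → R) →ₙ+* R where
  toFun f := f i
  map_mul' _ _ := rfl
  map_zero' := rfl
  map_add' _ _ := rfl

/-- the embedding of a factor -/
def sgHom (i : ι) : R →ₙ+* (ι → R) where
  toFun a := Pi.single i a
  map_mul' a b := Pi.single_mul (α := fun _ => R) i a b
  map_zero' := Pi.single_zero i
  map_add' a b := Pi.single_add (f := fun _ => R) i a b

/-- `V(R^ι) ≅ V(R)^ι` -/
def powEquiv : V (ι → R) ≃+ (ι → V R) :=
  AddEquiv.ofBijective
    ({ toFun := fun a i => V.map (evHom ι R i) a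
       map_zero' := by funext i; exact map_zero _
       map_add' := fun a b => by funext i; exact map_add _ _ _ } : V (ι → R) →+ (ι → V R)) (by
    constructor
    · intro a b h
      obtain ⟨n, e, he, rfl⟩ := a.exists_rep
      obtain ⟨m, f, hf, rfl⟩ := b.exists_rep
      have h1 : ∀ i, MEquiv (e.map (evHom ι R i)) (f.map (evHom ι R i)) := by
        intro i
        have h2 : V.map (evHom ι R i) (cls e he) = V.map (evHom ι R i) (cls f hf) := congrFun h i
        rw [V.map_cls, V.map_cls, cls_eq_iff] at h2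
        exact h2
      choose x y hxy hyx using h1
      rw [cls_eq_iff]
      refine ⟨Matrix.of fun p q i => x i p q, Matrix.of fun p q i => y i p q, ?_, ?_⟩
      · ext p q i
        rw [Matrix.mul_apply, Finset.sum_apply]
        exact (Matrix.mul_apply (M := x i) (N := y i)).symm.trans (congrFun (congrFun (hxy i) p) q)
      · ext p q i
        rw [Matrix.mul_apply, Finset.sum_apply]
        exact (Matrix.mul_apply (M := y i) (N := x i)).symm.trans (congrFun (congrFun (hyx i) p) q)
    · intro c
      refine ⟨∑ i, V.map (sgHom ι R i) (c i), ?_⟩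
      funext j
      change V.map (evHom ι R j) (∑ i, V.map (sgHom ι R i) (c i)) = c j
      rw [map_sum, Finset.sum_eq_single j]
      · rw [V.map_map]
        refine V.map_eq_id (φ := (evHom ι R j).comp (sgHom ι R j)) (fun a => ?_) _
        change (Pi.single j a : ι → R) j = a
        simp
      · intro i _ hij
        rw [V.map_map]
        refine V.map_eq_zero (φ := (evHom ι R j).comp (sgHom ι R i)) (fun a => ?_) _
        change (Pi.single i a : ι → R) j = 0
        simp [hij.symm]
      · intro h; exact absurd (Finset.mem_univ j) h)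

theorem niceMon_V_power (K : Type) [Field K] : NiceMon (V (ι → K)) :=
  (NiceMon.pi fun _ => niceMon_V_field K).of_equiv (powEquiv ι K).symm

end power

/-! ### Matrix rings -/

section morita

variable {R : Type u} [Ring R] {μ : Type} [Fintype μ] [DecidableEq μ]
variable {ι κ ν : Type*} [Fintype ι] [Fintype κ] [Fintype ν]

/-- a matrix of matrices as a matrix -/
def cmp (x : Matrix ι κ (Matrix μ μ R)) : Matrix (ι × μ) (κ × μ) R :=
  Matrix.of fun p q => x p.1 q.1 p.2 q.2

/-- the inverse operation -/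
def ucmp (x : Matrix (ι × μ) (κ × μ) R) : Matrix ι κ (Matrix μ μ R) :=
  Matrix.of fun i k => Matrix.of fun a b => x (i, a) (k, b)

theorem cmp_ucmp (x : Matrix (ι × μ) (κ × μ) R) : cmp (ucmp x) = x := rfl

theorem cmp_inj {x y : Matrix ι κ (Matrix μ μ R)} (h : cmp x = cmp y) : x = y := by
  ext i k a b
  exact congrFun (congrFun h (i, a)) (k, b)

theorem cmp_mul (x : Matrix ι κ (Matrix μ μ R)) (y : Matrix κ ν (Matrix μ μ R)) :
    cmp (x * y) = cmp x * cmp y := by
  ext p q
  simp only [cmp, Matrix.of_apply, Matrix.mul_apply, Matrix.sum_apply, Fintype.sum_prod_type]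

theorem cmp_idem {x : Matrix ι ι (Matrix μ μ R)} (h : x * x = x) : cmp x * cmp x = cmp x := by
  rw [← cmp_mul, h]

theorem mEquiv_cmp {x : Matrix ι ι (Matrix μ μ R)} {y : Matrix κ κ (Matrix μ μ R)} :
    MEquiv (cmp x) (cmp y) ↔ MEquiv x y := by
  constructor
  · rintro ⟨a, b, h1, h2⟩
    refine ⟨ucmp a, ucmp b, cmp_inj ?_, cmp_inj ?_⟩
    · rw [cmp_mul, cmp_ucmp, cmp_ucmp, h1]
    · rw [cmp_mul, cmp_ucmp, cmp_ucmp, h2]
  · rintro ⟨a, b, rfl, rfl⟩
    exact ⟨cmp a, cmp b, (cmp_mul _ _).symm, (cmp_mul _ _).symm⟩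

variable (R μ)

/-- the map `V(M_μ(R)) → V(R)` -/
def moritaHom : V (Matrix μ μ R) →+ V R where
  toFun := Quotient.lift (fun p : IdemMat (Matrix μ μ R) => cls (cmp p.e) (cmp_idem p.idem)) (by
    intro p q h
    exact cls_eq_iff.mpr (mEquiv_cmp.mpr h))
  map_zero' := by
    change cls (cmp (0 : Matrix (Fin 0) (Fin 0) (Matrix μ μ R))) _ = 0
    rw [← cls_zero (ι := Fin 0 × μ)]
    exact cls_congr rfl _ _
  map_add' := by
    intro a b
    induction a using Quotient.inductionOn with
    | _ p =>
    induction b using Quotient.inductionOn with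
    | _ q =>
    change cls (cmp (IdemMat.sum p q).e) _ = cls (cmp p.e) _ + cls (cmp q.e) _
    rw [← cls_fromBlocks, cls_eq_iff]
    have h1 : MEquiv (cmp (fromBlocks p.e 0 0 q.e)) (cmp (IdemMat.sum p q).e) :=
      mEquiv_cmp.mpr (MEquiv.submatrix (idem_fromBlocks p.idem q.idem) _)
    have h2 := MEquiv.submatrix (cmp_idem (idem_fromBlocks p.idem q.idem))
      (Equiv.sumProdDistrib (Fin p.n) (Fin q.n) μ).symm
    have h3 : (cmp (fromBlocks p.e 0 0 q.e)).submatrix
        (Equiv.sumProdDistrib (Fin p.n) (Fin q.n) μ).symm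
        (Equiv.sumProdDistrib (Fin p.n) (Fin q.n) μ).symm =
        fromBlocks (cmp p.e) 0 0 (cmp q.e) := by
      ext i j
      rcases i with ⟨i, a⟩ | ⟨i, a⟩ <;> rcases j with ⟨j, b⟩ | ⟨j, b⟩ <;> simp [cmp]
    rw [h3] at h2
    exact h1.symm.trans (cmp_idem (IdemMat.sum p q).idem)
      (idem_fromBlocks (cmp_idem p.idem) (cmp_idem q.idem)) h2

variable {R μ}

theorem moritaHom_cls {ι : Type} [Fintype ι] {e : Matrix ι ι (Matrix μ μ R)} (he : e * e = e) :
    moritaHom R μ (cls e he) = cls (cmp e) (cmp_idem he) := by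
  change cls (cmp (toIdem e he).e) _ = _
  rw [cls_eq_iff, mEquiv_cmp]
  exact (MEquiv.submatrix he _).symm

theorem moritaHom_bijective [Nonempty μ] : Function.Bijective (moritaHom R μ) := by
  constructor
  · intro a b h
    obtain ⟨n, e, he, rfl⟩ := a.exists_rep
    obtain ⟨m, f, hf, rfl⟩ := b.exists_rep
    rw [moritaHom_cls, moritaHom_cls, cls_eq_iff, mEquiv_cmp] at h
    exact cls_eq_iff.mpr h
  · intro c
    obtain ⟨n, e, he, rfl⟩ := c.exists_rep
    obtain ⟨a0⟩ := ‹Nonempty μ›
    let q : Matrix (Fin n) (Fin n) (Matrix μ μ R) :=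
      Matrix.of fun i j => Matrix.single a0 a0 (e i j)
    have hq : q * q = q := by
      ext i j a b
      simp only [q, Matrix.mul_apply, Matrix.of_apply, Matrix.sum_apply]
      have h1 := congrFun (congrFun he i) j
      rw [Matrix.mul_apply] at h1
      by_cases hab : a0 = a ∧ a0 = b
      · obtain ⟨rfl, rfl⟩ := hab
        simp only [Matrix.single_apply, true_and, and_true, if_true]
        rw [← h1]
        refine Finset.sum_congr rfl fun k _ => ?_
        rw [Finset.sum_eq_single a0]
        · simp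
        · intro x _ hx; simp [hx.symm]
        · simp
      · rw [Matrix.single_apply, if_neg hab]
        refine Finset.sum_eq_zero fun k _ => Finset.sum_eq_zero fun x _ => ?_
        simp only [Matrix.single_apply]
        by_cases h2 : a0 = a
        · have h3 : ¬ a0 = b := fun h3 => hab ⟨h2, h3⟩
          simp [h3]
        · simp [h2]
    refine ⟨cls q hq, ?_⟩
    rw [moritaHom_cls, cls_eq_iff]
    refine ⟨Matrix.of fun (p : Fin n × μ) (j : Fin n) => if p.2 = a0 then e p.1 j else 0,
      Matrix.of fun (i : Fin n) (p : Fin n × μ) => if p.2 = a0 then e i p.1 else 0, ?_, ?_⟩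
    · ext ⟨i, a⟩ ⟨j, b⟩
      have h1 := congrFun (congrFun he i) j
      rw [Matrix.mul_apply] at h1
      simp only [Matrix.mul_apply, Matrix.of_apply, cmp, q, Matrix.single_apply]
      by_cases ha : a = a0 <;> by_cases hb : b = a0
      · subst ha; subst hb; simpa using h1
      · simp [hb, Ne.symm hb]
      · simp [ha, Ne.symm ha]
      · simp [ha, Ne.symm ha]
    · ext i j
      have h1 := congrFun (congrFun he i) j
      rw [Matrix.mul_apply] at h1
      simp only [Matrix.mul_apply, Matrix.of_apply, Fintype.sum_prod_type]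
      rw [← h1]
      refine Finset.sum_congr rfl fun k _ => ?_
      rw [Finset.sum_eq_single a0]
      · simp
      · intro x _ hx; simp [hx]
      · simp

/-- `V(M_μ(R)) ≅ V(R)` -/
def moritaEquiv (R : Type u) [Ring R] (μ : Type) [Fintype μ] [DecidableEq μ] [Nonempty μ] :
    V (Matrix μ μ R) ≃+ V R :=
  AddEquiv.ofBijective (moritaHom R μ) moritaHom_bijective

theorem niceMon_V_matrix (K : Type u) [Field K] (μ : Type) [Fintype μ] [DecidableEq μ]
    [Nonempty μ] : NiceMon (V (Matrix μ μ K)) :=
  (niceMon_V_field K).of_equiv (moritaEquiv K μ).symm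

end morita

end

end Pool.Agent.Lib_helper8.V53
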