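import Pool.Agent.Lib_helper8.V53.PartII
import Pool.Agent.Lib_helper8.V53.VField

set_option autoImplicit false

/-!
# `V(A)` is the positive cone of a dimension group
-/

namespace Pool.Agent.Lib_helper8.V53

open Topology TopologicalSpace
open scoped ComplexOrder

universe u

noncomputable section

/-! ### Generalities -/

section general

theorem equiv_of_unit {B : Type*} [Ring B] {p q c : B} (hp : p * p = p) (hq : q * q = q)
    (hc : c * c = c) (hcomm : ∀ b, c * b = b * c)
    (hu : IsUnit (1 - c * (p + q - (q * p + q * p)))) : ∃ x y, x * y = c * p ∧ y * x = c * q := by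
  obtain ⟨w, hw⟩ := hu
  have h1 : (w : B) * (c * p) = c * q * p := by
    rw [hw]
    have e1 : (p + q - (q * p + q * p)) * p = p - q * p := by
      simp only [sub_mul, add_mul, mul_assoc, hp]
      abel
    calc (1 - c * (p + q - (q * p + q * p))) * (c * p)
        = c * p - c * ((p + q - (q * p + q * p)) * c) * p := by
          simp only [sub_mul, one_mul, mul_assoc]
      _ = c * p - c * (c * (p + q - (q * p + q * p))) * p := by rw [← hcomm]
      _ = c * p - (c * c) * ((p + q - (q * p + q * p)) * p) := by simp only [mul_assoc]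
      _ = c * q * p := by rw [hc, e1, mul_sub, ← mul_assoc c q p]; abel
  have h2 : c * q * (w : B) = c * q * p := by
    rw [hw]
    have e1 : q * (p + q - (q * p + q * p)) = q - q * p := by
      simp only [mul_sub, mul_add, ← mul_assoc, hq]
      abel
    calc c * q * (1 - c * (p + q - (q * p + q * p)))
        = c * q - c * (q * c) * (p + q - (q * p + q * p)) := by
          simp only [mul_sub, mul_one, mul_assoc]
      _ = c * q - c * (c * q) * (p + q - (q * p + q * p)) := by rw [← hcomm]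
      _ = c * q - (c * c) * (q * (p + q - (q * p + q * p))) := by simp only [mul_assoc]
      _ = c * q * p := by rw [hc, e1, mul_sub, ← mul_assoc c q p]; abel
  have hcq : c * q * (c * q) = c * q := by
    calc c * q * (c * q) = c * (q * c) * q := by simp only [mul_assoc]
      _ = c * (c * q) * q := by rw [← hcomm]
      _ = (c * c) * (q * q) := by simp only [mul_assoc]
      _ = c * q := by rw [hc, hq]
  refine ⟨↑w⁻¹ * (c * q), c * q * w, ?_, ?_⟩
  · calc ↑w⁻¹ * (c * q) * (c * q * ↑w) = ↑w⁻¹ * ((c * q * (c * q)) * ↑w) := by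
          simp only [mul_assoc]
      _ = ↑w⁻¹ * (↑w * (c * p)) := by rw [hcq, h2, h1]
      _ = c * p := by rw [← mul_assoc, Units.inv_mul, one_mul]
  · calc c * q * ↑w * (↑w⁻¹ * (c * q)) = c * q * (↑w * ↑w⁻¹) * (c * q) := by
          simp only [mul_assoc]
      _ = c * q := by rw [Units.mul_inv, mul_one, hcq]

theorem exists_rho {A M D : Type*} [NonUnitalRing A] [NonUnitalRing M] [NonUnitalRing D]
    (ev : A →ₙ+* M) (j : D →ₙ+* M) (hj : Function.Injective j) (hr : ∀ a, ∃ d, j d = ev a) :
    ∃ ρ : A →ₙ+* D, ∀ a, j (ρ a) = ev a := by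
  choose f hf using hr
  exact ⟨{ toFun := f
           map_mul' := fun a b => hj (by rw [hf, map_mul, map_mul, hf, hf])
           map_zero' := hj (by rw [hf, map_zero, map_zero])
           map_add' := fun a b => hj (by rw [hf, map_add, map_add, hf, hf]) }, hf⟩

theorem map_eq_of_rho {A M D : Type*} [NonUnitalRing A] [NonUnitalRing M] [NonUnitalRing D]
    {ev : A →ₙ+* M} {j : D →ₙ+* M} {ρ : A →ₙ+* D} (h : ∀ a, j (ρ a) = ev a) {n : ℕ}
    {p q : Matrix (Fin n) (Fin n) A} (hpq : p.map ρ = q.map ρ) : p.map ev = q.map ev := by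
  ext a b
  have h1 := congrFun (congrFun hpq a) b
  simp only [Matrix.map_apply] at h1 ⊢
  rw [← h, ← h, h1]

end general

/-! ### The algebra `A` -/

variable {M : Type} [CStarAlgebra M] (𝓡 : RotData M)

/-- the central idempotents of `A` -/
def chA (W : Clopens YY) : AA 𝓡 :=
  ⟨chi (W : Set YY) W.isClopen, by
    intro y
    by_cases hy : y ∈ (W : Set YY)
    · rw [chi_mem hy]
      have := DD_smul_one (𝓡 := 𝓡) y 1
      rwa [one_smul] at this
    · rw [chi_notMem hy]
      exact DD_zero y⟩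

theorem chA_mem {W : Clopens YY} {y : YY} (hy : y ∈ W) : ((chA 𝓡 W : AA 𝓡) : C(YY, M)) y = 1 :=
  chi_mem (hW := W.isClopen) hy

theorem chA_notMem {W : Clopens YY} {y : YY} (hy : y ∉ W) :
    ((chA 𝓡 W : AA 𝓡) : C(YY, M)) y = 0 :=
  chi_notMem (hW := W.isClopen) hy

theorem AA_ext {a b : AA 𝓡} (h : ∀ y, (a : C(YY, M)) y = (b : C(YY, M)) y) : a = b :=
  Subtype.ext (ContinuousMap.ext h)

theorem AA_mul (a b : AA 𝓡) (y : YY) :
    ((a * b : AA 𝓡) : C(YY, M)) y = (a : C(YY, M)) y * (b : C(YY, M)) y := rfl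

theorem AA_add (a b : AA 𝓡) (y : YY) :
    ((a + b : AA 𝓡) : C(YY, M)) y = (a : C(YY, M)) y + (b : C(YY, M)) y := rfl

theorem AA_sub (a b : AA 𝓡) (y : YY) :
    ((a - b : AA 𝓡) : C(YY, M)) y = (a : C(YY, M)) y - (b : C(YY, M)) y := rfl

theorem AA_one (y : YY) : ((1 : AA 𝓡) : C(YY, M)) y = 1 := rfl

theorem AA_smul (r : ℂ) (a : AA 𝓡) (y : YY) :
    ((r • a : AA 𝓡) : C(YY, M)) y = r • (a : C(YY, M)) y := rfl

/-- `A` is fibred over `Y` -/
def fibA : Fibred YY (AA 𝓡) where
  χ := chA 𝓡
  comm W a := by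
    refine AA_ext 𝓡 fun y => ?_
    rw [AA_mul, AA_mul]
    by_cases hy : y ∈ W
    · rw [chA_mem 𝓡 hy, one_mul, mul_one]
    · rw [chA_notMem 𝓡 hy, zero_mul, mul_zero]
  inf W W' := by
    refine AA_ext 𝓡 fun y => ?_
    rw [AA_mul]
    by_cases hy : y ∈ W
    · by_cases hy' : y ∈ W'
      · rw [chA_mem 𝓡 hy, chA_mem 𝓡 hy', chA_mem 𝓡 (show y ∈ W ⊓ W' from ⟨hy, hy'⟩), one_mul]
      · rw [chA_notMem 𝓡 hy', chA_notMem 𝓡 (show y ∉ W ⊓ W' from fun h => hy' h.2), mul_zero]
    · rw [chA_notMem 𝓡 hy, chA_notMem 𝓡 (show y ∉ W ⊓ W' from fun h => hy h.1), zero_mul]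
  sup W W' h := by
    refine AA_ext 𝓡 fun y => ?_
    rw [AA_add]
    by_cases hy : y ∈ W
    · have hy' : y ∉ W' := fun hy' => by
        have : y ∈ W ⊓ W' := ⟨hy, hy'⟩
        rw [h.eq_bot] at this
        exact this
      rw [chA_mem 𝓡 hy, chA_notMem 𝓡 hy', chA_mem 𝓡 (show y ∈ W ⊔ W' from Or.inl hy), add_zero]
    · by_cases hy' : y ∈ W'
      · rw [chA_notMem 𝓡 hy, chA_mem 𝓡 hy', chA_mem 𝓡 (show y ∈ W ⊔ W' from Or.inr hy'),
          zero_add]
      · rw [chA_notMem 𝓡 hy, chA_notMem 𝓡 hy',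
          chA_notMem 𝓡 (show y ∉ W ⊔ W' from fun h => h.elim hy hy'), add_zero]
  top := by
    refine AA_ext 𝓡 fun y => ?_
    rw [chA_mem 𝓡 (show y ∈ (⊤ : Clopens YY) from trivial)]
    rfl

attribute [local instance] Matrix.linftyOpNormedRing in
/-- Idempotent matrices which agree at a point are equivalent near the point. -/
theorem equiv_near {n : ℕ} {p q : Matrix (Fin n) (Fin n) (AA 𝓡)} (hp : p * p = p)
    (hq : q * q = q) {y : YY} (h : p.map (evR 𝓡 y) = q.map (evR 𝓡 y)) :
    ∃ W : Clopens YY, y ∈ W ∧ MEquiv (p.map ((fibA 𝓡).cut W)) (q.map ((fibA 𝓡).cut W)) := by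
  set U : Matrix (Fin n) (Fin n) (AA 𝓡) := p + q - (q * p + q * p) with hU
  have hU0 : ∀ i j, ((U i j : AA 𝓡) : C(YY, M)) y = 0 := by
    intro i j
    have h1 : U.map (evR 𝓡 y) = 0 := by
      have e1 : U.map (evR 𝓡 y) = p.map (evR 𝓡 y) + q.map (evR 𝓡 y) -
          ((q * p).map (evR 𝓡 y) + (q * p).map (evR 𝓡 y)) := by
        ext a b
        rfl
      rw [e1, map_mul', ← h, ← map_mul', hp]
      abel
    exact congrFun (congrFun h1 i) j
  have hε : (0 : ℝ) < 1 / (n + 1) := by positivity
  have hopen : IsOpen (⋂ i : Fin n, ⋂ j : Fin n,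
      {y' : YY | ‖((U i j : AA 𝓡) : C(YY, M)) y'‖ < 1 / (n + 1)}) := by
    refine isOpen_iInter_of_finite fun i => isOpen_iInter_of_finite fun j => ?_
    exact isOpen_lt ((U i j : AA 𝓡) : C(YY, M)).continuous.norm continuous_const
  obtain ⟨W, hW, hyW, hsub⟩ := compact_exists_isClopen_in_isOpen hopen
    (show y ∈ _ by
      simp only [Set.mem_iInter, Set.mem_ofPred_eq]
      intro i j
      rw [hU0 i j, norm_zero]
      exact hε)
  let W' : Clopens YY := ⟨W, hW⟩
  refine ⟨W', hyW, ?_⟩
  let c : Matrix (Fin n) (Fin n) (AA 𝓡) := Matrix.diagonal fun _ => chA 𝓡 W'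
  have hcp : ∀ b : Matrix (Fin n) (Fin n) (AA 𝓡), c * b = b.map ((fibA 𝓡).cut W') := by
    intro b
    ext1 i j
    rw [Matrix.diagonal_mul]
    rfl
  have hcomm : ∀ b : Matrix (Fin n) (Fin n) (AA 𝓡), c * b = b * c := by
    intro b
    ext1 i j
    rw [Matrix.diagonal_mul, Matrix.mul_diagonal]
    exact (fibA 𝓡).comm W' _
  have hcc : c * c = c := by
    change Matrix.diagonal _ * Matrix.diagonal _ = _
    rw [Matrix.diagonal_mul_diagonal]
    congr 1
    funext i
    exact (fibA 𝓡).idem W'
  have hnorm : ‖c * U‖ < 1 := by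
    have h1 : ∀ i j, ‖(c * U) i j‖ ≤ 1 / (n + 1) := by
      intro i j
      have e1 : (c * U) i j = chA 𝓡 W' * U i j := by
        rw [hcp]; rfl
      rw [e1]
      change ‖((chA 𝓡 W' * U i j : AA 𝓡) : C(YY, M))‖ ≤ _
      rw [ContinuousMap.norm_le _ hε.le]
      intro y'
      rw [AA_mul]
      by_cases hy' : y' ∈ W'
      · rw [chA_mem 𝓡 hy', one_mul]
        have := hsub (show y' ∈ W from hy')
        simp only [Set.mem_iInter, Set.mem_ofPred_eq] at this
        exact (this i j).le
      · rw [chA_notMem 𝓡 hy', zero_mul, norm_zero]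
        exact hε.le
    have h2 : ‖c * U‖₊ ≤ Real.toNNReal (n / (n + 1)) := by
      rw [Matrix.linfty_opNNNorm_def]
      refine Finset.sup_le fun i _ => ?_
      rw [Real.le_toNNReal_iff_coe_le (by positivity)]
      push_cast
      calc ∑ j, ‖(c * U) i j‖ ≤ ∑ j : Fin n, 1 / ((n : ℝ) + 1) :=
            Finset.sum_le_sum fun j _ => h1 i j
        _ = n / (n + 1) := by
            rw [Finset.sum_const, Finset.card_univ, Fintype.card_fin, nsmul_eq_mul]
            ring
    have h3 : ‖c * U‖ ≤ n / (n + 1) := by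
      have := NNReal.coe_le_coe.mpr h2
      rwa [Real.coe_toNNReal _ (by positivity)] at this
    refine h3.trans_lt ?_
    rw [div_lt_one (by positivity)]
    linarith
  have hcomplete : @CompleteSpace (Matrix (Fin n) (Fin n) (AA 𝓡))
      (Matrix.linftyOpNormedRing (α := AA 𝓡)
        (n := Fin n)).toMetricSpace.toPseudoMetricSpace.toUniformSpace :=
    inferInstanceAs (CompleteSpace (Fin n → Fin n → AA 𝓡))
  obtain ⟨x, y, hxy, hyx⟩ := equiv_of_unit hp hq hcc hcomm (isUnit_one_sub_of_norm_lt_one hnorm)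
  exact ⟨x, y, by rw [hxy, hcp], by rw [hyx, hcp]⟩

/-- `V(A)` is nice. -/
theorem niceMon_AA (hM : NiceMon (V M)) (hP0 : ∀ s, 𝓡.P s ≠ 0) (hP1 : ∀ s, 𝓡.P s ≠ 1) :
    NiceMon (V (AA 𝓡)) := by
  refine (fibA 𝓡).nice fun y => ?_
  by_cases h1 : ∃ i, y.1 i = true
  · obtain ⟨i, hi⟩ := h1
    by_cases h2 : ∀ j, y.1 j = true →
        𝓡.P (i.2 y.2) * 𝓡.P (j.2 y.2) = 𝓡.P (j.2 y.2) * 𝓡.P (i.2 y.2)
    · -- commutative fibre
      have hc : 𝓡.P (i.2 y.2) ∈ (gens 𝓡 y).centralizer := by
        rintro _ ⟨j, hj, rfl⟩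
        exact (h2 j hj).symm
      set P := 𝓡.P (i.2 y.2) with hPdef
      have hPP : P * P = P := 𝓡.P_idem _
      have hs : ∃ s : (Fin 2 → ℂ) →ₙ+* AA 𝓡, ∀ c, s c =
          c 0 • (⟨FF 𝓡 i, FF_mem_AA i⟩ : AA 𝓡) + c 1 • (1 - ⟨FF 𝓡 i, FF_mem_AA i⟩) := by
        set F : AA 𝓡 := ⟨FF 𝓡 i, FF_mem_AA i⟩ with hF
        have hFF : F * F = F := Subtype.ext (FF_idem i)
        refine ⟨{ toFun := fun c => c 0 • F + c 1 • (1 - F), map_mul' := ?_, map_zero' := ?_,
                  map_add' := ?_ }, fun c => rfl⟩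
        · intro a b
          have e1 : F * (1 - F) = 0 := by rw [mul_sub, mul_one, hFF, sub_self]
          have e2 : (1 - F) * F = 0 := by rw [sub_mul, one_mul, hFF, sub_self]
          have e3 : (1 - F) * (1 - F) = 1 - F := by rw [mul_sub, mul_one, e2, sub_zero]
          simp only [Pi.mul_apply, add_mul, mul_add, smul_mul_smul_comm, hFF, e1, e2, e3,
            smul_zero]
          abel
        · simp
        · intro a b
          simp only [Pi.add_apply, add_smul]
          abel
      obtain ⟨s, hs⟩ := hs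
      have hev : ∀ c, evR 𝓡 y (s c) = c 0 • P + c 1 • (1 - P) := by
        intro c
        rw [hs]
        change c 0 • (FF 𝓡 i) y + c 1 • (1 - (FF 𝓡 i) y) = _
        rw [FF_of_mem hi]
      have hjinj : Function.Injective ((evR 𝓡 y).comp s) := by
        rw [injective_iff_map_eq_zero]
        intro c hc0
        have hc1 : c 0 • P + c 1 • (1 - P) = 0 := by rw [← hev]; exact hc0
        have e1 : c 0 • P = 0 := by
          have h3 := congrArg (fun x => P * x) hc1
          simp only [mul_add, mul_smul_comm, mul_sub, mul_one, hPP, sub_self, smul_zero,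
            add_zero, mul_zero] at h3
          exact h3
        have e2 : c 1 • (1 - P) = 0 := by rw [e1, zero_add] at hc1; exact hc1
        funext k
        fin_cases k
        · exact (smul_eq_zero.mp e1).resolve_right (hP0 _)
        · exact (smul_eq_zero.mp e2).resolve_right fun h => hP1 _ (sub_eq_zero.mp h).symm
      obtain ⟨ρ, hρ⟩ := exists_rho (evR 𝓡 y) ((evR 𝓡 y).comp s) hjinj (by
        intro a
        obtain ⟨α, β, hαβ⟩ := 𝓡.comm_P (s := i.2 y.2) (T := (a : C(YY, M)) y) (a.2 y _ hc).symm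
        refine ⟨![α, β], ?_⟩
        change evR 𝓡 y (s _) = _
        rw [hev]
        exact hαβ.symm)
      refine ⟨Fin 2 → ℂ, inferInstance, ρ, s, ?_, niceMon_V_power (Fin 2) ℂ, ?_⟩
      · intro d
        exact hjinj (hρ _)
      · intro n p q hp hq hpq
        exact equiv_near 𝓡 hp hq (map_eq_of_rho hρ hpq)
    · -- full fibre
      push Not at h2
      obtain ⟨j, hj, hne⟩ := h2
      have hopen : IsOpen {y' : YY | y'.1 i = true ∧ y'.1 j = true ∧
          𝓡.P (i.2 y'.2) * 𝓡.P (j.2 y'.2) ≠ 𝓡.P (j.2 y'.2) * 𝓡.P (i.2 y'.2)} := by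
        have o1 := (Ui_clopen i).isOpen
        have o2 := (Ui_clopen j).isOpen
        have o3 : IsOpen {y' : YY | 𝓡.P (i.2 y'.2) * 𝓡.P (j.2 y'.2) ≠
            𝓡.P (j.2 y'.2) * 𝓡.P (i.2 y'.2)} := by
          have c1 : Continuous fun y' : YY => 𝓡.P (i.2 y'.2) := (Pi 𝓡 i).continuous
          have c2 : Continuous fun y' : YY => 𝓡.P (j.2 y'.2) := (Pi 𝓡 j).continuous
          exact isOpen_ne_fun (c1.mul c2) (c2.mul c1)
        exact o1.inter (o2.inter o3)
      obtain ⟨W, hW, hyW, hsub⟩ := compact_exists_isClopen_in_isOpen hopen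
        (show y ∈ _ from ⟨hi, hj, hne⟩)
      have hmem : ∀ m : M, patch W hW (ContinuousMap.const _ m) 0 ∈ AA 𝓡 := by
        intro m
        refine patch_mem_AA ?_ ?_
        · intro y' hy' x hx
          obtain ⟨hi', hj', hne'⟩ := hsub hy'
          obtain ⟨α, rfl⟩ := 𝓡.comm_two (hx _ ⟨i, hi', rfl⟩).symm (hx _ ⟨j, hj', rfl⟩).symm hne'
          simp
        · intro y' _
          exact DD_zero y'
      have hval : ∀ (m : M) (y' : YY), patch W hW (ContinuousMap.const YY m) 0 y' =
          @ite _ (y' ∈ W) (Classical.dec _) m 0 := by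
        intro m y'
        by_cases hy' : y' ∈ W
        · rw [patch_mem hy', if_pos hy']; rfl
        · rw [patch_notMem hy', if_neg hy']; rfl
      let s : M →ₙ+* AA 𝓡 :=
        { toFun := fun m => ⟨patch W hW (ContinuousMap.const _ m) 0, hmem m⟩
          map_mul' := fun m m' => by
            refine AA_ext 𝓡 fun y' => ?_
            rw [AA_mul]
            change patch W hW (ContinuousMap.const YY (m * m')) 0 y' =
              patch W hW (ContinuousMap.const YY m) 0 y' *
                patch W hW (ContinuousMap.const YY m') 0 y'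
            rw [hval, hval, hval]
            by_cases hy' : y' ∈ W
            · simp only [if_pos hy']
            · simp only [if_neg hy', mul_zero]
          map_zero' := by
            refine AA_ext 𝓡 fun y' => ?_
            change patch W hW (ContinuousMap.const YY 0) 0 y' = 0
            rw [hval]
            by_cases hy' : y' ∈ W
            · simp only [if_pos hy']
            · simp only [if_neg hy']
          map_add' := fun m m' => by
            refine AA_ext 𝓡 fun y' => ?_
            rw [AA_add]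
            change patch W hW (ContinuousMap.const YY (m + m')) 0 y' =
              patch W hW (ContinuousMap.const YY m) 0 y' +
                patch W hW (ContinuousMap.const YY m') 0 y'
            rw [hval, hval, hval]
            by_cases hy' : y' ∈ W
            · simp only [if_pos hy']
            · simp only [if_neg hy', add_zero] }
      refine ⟨M, inferInstance, evR 𝓡 y, s, ?_, hM, ?_⟩
      · intro m
        change patch W hW (ContinuousMap.const YY m) 0 y = m
        rw [patch_mem hyW]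
        rfl
      · intro n p q hp hq hpq
        exact equiv_near 𝓡 hp hq hpq
  · -- empty fibre
    have hgens : gens 𝓡 y = ∅ := by
      ext T
      simp only [gens, Set.mem_ofPred_eq, Set.mem_empty_iff_false, iff_false, not_exists]
      intro i hi
      exact h1 ⟨i, hi.1⟩
    have hall : ∀ (a : AA 𝓡) x, (a : C(YY, M)) y * x = x * (a : C(YY, M)) y := by
      intro a x
      have := a.2 y x (by rw [hgens]; intro z hz; exact absurd hz (Set.notMem_empty z))
      exact this.symm
    let s : ℂ →ₙ+* AA 𝓡 :=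
      { toFun := fun c => c • (1 : AA 𝓡)
        map_mul' := fun c c' => by rw [smul_mul_smul_comm, one_mul]
        map_zero' := zero_smul _ _
        map_add' := fun c c' => add_smul _ _ _ }
    have hev : ∀ c, evR 𝓡 y (s c) = c • (1 : M) := fun c => rfl
    have hjinj : Function.Injective ((evR 𝓡 y).comp s) := by
      rw [injective_iff_map_eq_zero]
      intro c hc0
      have hc1 : c • (1 : M) = 0 := by rw [← hev]; exact hc0
      exact (smul_eq_zero.mp hc1).resolve_right 𝓡.ne
    obtain ⟨ρ, hρ⟩ := exists_rho (evR 𝓡 y) ((evR 𝓡 y).comp s) hjinj (by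
      intro a
      obtain ⟨α, hα⟩ := 𝓡.comm_all (hall a)
      exact ⟨α, hα.symm⟩)
    refine ⟨ℂ, inferInstance, ρ, s, ?_, niceMon_V_field ℂ, ?_⟩
    · intro d
      exact hjinj (hρ _)
    · intro n p q hp hq hpq
      exact equiv_near 𝓡 hp hq (map_eq_of_rho hρ hpq)

theorem niceMon_rotM2 : NiceMon (V (AA rotM2)) := by
  refine niceMon_AA rotM2 ?_ ?_ ?_
  · have h := niceMon_V_matrix ℂ (Fin 2)
    exact h
  · intro s h
    have h0 := congrArg (fun x : M2 => x 0 0) h
    have h1 := congrArg (fun x : M2 => x 1 1) h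
    have h2 : cc s ^ 2 = 0 := h0
    have h3 : ss s ^ 2 = 0 := h1
    have := cc_ss s
    rw [h2, h3] at this
    norm_num at this
  · intro s h
    have h0 := congrArg (fun x : M2 => x 0 0) h
    have h1 := congrArg (fun x : M2 => x 1 1) h
    have h2 : cc s ^ 2 = 1 := h0
    have h3 : ss s ^ 2 = 1 := h1
    have := cc_ss s
    rw [h2, h3] at this
    norm_num at this

/-- There is a C*-algebra `A` of real rank zero such that `V(A)` is the positive cone of a
dimension group and is not isomorphic to `V(R)` for any regular ring `R`. -/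
theorem dimA : ∃ (A : Type) (_ : NonUnitalCStarAlgebra A), RealRankZero A ∧ NiceMon (V A) ∧
    ∀ (R : Type u) [NonUnitalRing R], IsVNRegular R → IsEmpty (V R ≃+ V A) := by
  refine ⟨AA rotM2, inferInstance, AA_rr0 rotM2, niceMon_rotM2, ?_⟩
  intro R _ hR
  refine ⟨fun Ψ => ?_⟩
  exact ring_side (modelA rotM2) hR Ψ

end

end Pool.Agent.Lib_helper8.V53
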