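import Mathlib

set_option autoImplicit false

/-!
# Dimension groups and their positive cones
-/

namespace Pool.Agent.Lib_helper8.V53

universe u

/-- A partially ordered abelian group is a dimension group if it is directed, unperforated and has
the Riesz interpolation property. -/
structure IsDimGroup (G : Type u) [AddCommGroup G] [PartialOrder G] [IsOrderedAddMonoid G] :
    Prop where
  directed : ∀ x y : G, ∃ z, x ≤ z ∧ y ≤ z
  unperforated : ∀ (n : ℕ) (x : G), 0 < n → 0 ≤ n • x → 0 ≤ x
  interpolation : ∀ x₁ x₂ y₁ y₂ : G, x₁ ≤ y₁ → x₁ ≤ y₂ → x₂ ≤ y₁ → x₂ ≤ y₂ →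
    ∃ z, x₁ ≤ z ∧ x₂ ≤ z ∧ z ≤ y₁ ∧ z ≤ y₂

/-- the properties of a commutative monoid which say that it is the positive cone of a dimension
group -/
structure NiceMon (M : Type u) [AddCommMonoid M] : Prop where
  cancel : ∀ a b c : M, a + c = b + c → a = b
  conical : ∀ a b : M, a + b = 0 → a = 0
  unperf : ∀ (n : ℕ) (a b c : M), 0 < n → n • a + c = n • b → ∃ d, a + d = b
  refine : ∀ a b c d : M, a + b = c + d →
    ∃ w x y z, w + x = a ∧ y + z = b ∧ w + y = c ∧ x + z = d

open Algebra in
/-- A nice monoid is the positive cone of a dimension group. -/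
theorem NiceMon.exists_dimGroup {M : Type u} [AddCommMonoid M] (h : NiceMon M) :
    ∃ (G : Type u) (_ : AddCommGroup G) (_ : PartialOrder G) (_ : IsOrderedAddMonoid G),
      IsDimGroup G ∧ Nonempty (AddSubmonoid.nonneg G ≃+ M) := by
  have _ : IsCancelAdd M :=
    { add_left_cancel := fun a b c hbc => h.cancel b c a (by
        rw [add_comm b a, add_comm c a]; exact hbc)
      add_right_cancel := fun a b c hbc => h.cancel b c a hbc }
  let G := GrothendieckAddGroup M
  let φ : M →+ G := GrothendieckAddGroup.of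
  have hφ : Function.Injective φ := GrothendieckAddGroup.of_injective
  have hrep : ∀ g : G, ∃ a b : M, g = φ a - φ b := by
    intro g
    induction g using AddLocalization.ind with
    | _ p =>
      obtain ⟨a, ⟨b, hb⟩⟩ := p
      refine ⟨a, b, ?_⟩
      rw [eq_sub_iff_add_eq]
      change AddLocalization.mk a ⟨b, hb⟩ + φ b = φ a
      have h1 : φ b = AddLocalization.mk b 0 := (AddLocalization.mk_zero_eq_addMonoidOf_mk b).symm
      have h2 : φ a = AddLocalization.mk a 0 := (AddLocalization.mk_zero_eq_addMonoidOf_mk a).symm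
      rw [h1, h2, AddLocalization.mk_add, AddLocalization.mk_eq_mk_iff']
      simp [add_comm]
  let po : PartialOrder G :=
    { le := fun x y => ∃ m : M, x + φ m = y
      le_refl := fun x => ⟨0, by rw [map_zero, add_zero]⟩
      le_trans := by
        rintro x y z ⟨m, rfl⟩ ⟨m', rfl⟩
        exact ⟨m + m', by rw [map_add, add_assoc]⟩
      le_antisymm := by
        rintro x y ⟨m, rfl⟩ ⟨m', hm'⟩
        have h1 : φ m + φ m' = 0 := by
          rw [add_assoc] at hm'
          exact add_eq_left.mp hm'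
        have h2 : m + m' = 0 := hφ (by rw [map_add, h1, map_zero])
        rw [h.conical m m' h2, map_zero, add_zero] }
  have hle : ∀ x y : G, x ≤ y ↔ ∃ m : M, x + φ m = y := fun x y => Iff.rfl
  have hord : IsOrderedAddMonoid G :=
    { add_le_add_left := by
        rintro x y ⟨m, rfl⟩ z
        exact ⟨m, by abel⟩ }
  have hnn : ∀ x : G, 0 ≤ x ↔ ∃ m : M, φ m = x := by
    intro x
    rw [hle]
    simp only [zero_add]
  refine ⟨G, inferInstance, po, hord, ⟨?_, ?_, ?_⟩, ⟨?_⟩⟩
  · -- directed
    intro x y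
    obtain ⟨a, b, rfl⟩ := hrep x
    obtain ⟨c, d, rfl⟩ := hrep y
    refine ⟨φ (a + c), ⟨b + c, ?_⟩, ⟨d + a, ?_⟩⟩
    · simp only [map_add]; abel
    · simp only [map_add]; abel
  · -- unperforated
    intro n x hn hx
    obtain ⟨a, b, rfl⟩ := hrep x
    rw [hnn] at hx ⊢
    obtain ⟨c, hc⟩ := hx
    have h1 : n • b + c = n • a := by
      apply hφ
      rw [map_add, hc, map_nsmul, map_nsmul, smul_sub]
      abel
    obtain ⟨d, hd⟩ := h.unperf n b a c hn h1
    exact ⟨d, by rw [← hd, map_add]; abel⟩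
  · -- interpolation
    intro x₁ x₂ y₁ y₂ h11 h12 h21 h22
    obtain ⟨a₁, ha₁⟩ := h11
    obtain ⟨a₂, ha₂⟩ := h12
    obtain ⟨b₁, hb₁⟩ := h21
    obtain ⟨b₂, hb₂⟩ := h22
    have h1 : a₁ + b₂ = a₂ + b₁ := by
      apply hφ
      rw [map_add, map_add]
      have e1 : φ a₁ = y₁ - x₁ := by rw [← ha₁]; abel
      have e2 : φ a₂ = y₂ - x₁ := by rw [← ha₂]; abel
      have e3 : φ b₁ = y₁ - x₂ := by rw [← hb₁]; abel
      have e4 : φ b₂ = y₂ - x₂ := by rw [← hb₂]; abel
      rw [e1, e2, e3, e4]
      abel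
    obtain ⟨w, x, y, z, hw1, hw2, hw3, hw4⟩ := h.refine a₁ b₂ a₂ b₁ h1
    refine ⟨x₁ + φ w, ⟨w, rfl⟩, ⟨z, ?_⟩, ⟨x, ?_⟩, ⟨y, ?_⟩⟩
    · have e1 : x₂ = x₁ + φ a₁ - φ b₁ := by rw [ha₁, ← hb₁]; abel
      rw [e1, ← hw1, ← hw4, map_add, map_add]
      abel
    · rw [← ha₁, ← hw1, map_add]; abel
    · rw [← ha₂, ← hw3, map_add]; abel
  · -- the cone
    let ψ : M →+ AddSubmonoid.nonneg G :=
      { toFun := fun m => ⟨φ m, (hnn _).mpr ⟨m, rfl⟩⟩
        map_zero' := Subtype.ext (map_zero φ)
        map_add' := fun a b => Subtype.ext (map_add φ a b) }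
    refine (AddEquiv.ofBijective ψ ⟨?_, ?_⟩).symm
    · intro a b hab
      exact hφ (congrArg Subtype.val hab)
    · rintro ⟨x, hx⟩
      obtain ⟨m, hm⟩ := (hnn x).mp hx
      exact ⟨m, Subtype.ext hm⟩

/-- `ℕ` is nice. -/
theorem niceMon_nat : NiceMon ℕ where
  cancel a b c h := by omega
  conical a b h := by omega
  unperf n a b c hn h := by
    simp only [smul_eq_mul] at h
    have h1 : a ≤ b := by
      have : n * a ≤ n * b := by omega
      exact Nat.le_of_mul_le_mul_left this hn
    exact ⟨b - a, by omega⟩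
  refine a b c d h :=
    ⟨min a c, a - min a c, c - min a c, b - (c - min a c), by omega, by omega, by omega, by omega⟩

/-- Niceness is invariant under isomorphisms. -/
theorem NiceMon.of_equiv {M : Type*} {N : Type*} [AddCommMonoid M] [AddCommMonoid N]
    (h : NiceMon M) (e : M ≃+ N) : NiceMon N where
  cancel a b c hab := by
    have := h.cancel (e.symm a) (e.symm b) (e.symm c) (by rw [← map_add, ← map_add, hab])
    exact e.symm.injective this
  conical a b hab := by
    have := h.conical (e.symm a) (e.symm b) (by rw [← map_add, hab, map_zero])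
    exact (map_eq_zero_iff e.symm e.symm.injective).mp this
  unperf n a b c hn hab := by
    obtain ⟨d, hd⟩ := h.unperf n (e.symm a) (e.symm b) (e.symm c) hn (by
      rw [← map_nsmul, ← map_nsmul, ← map_add, hab])
    refine ⟨e d, ?_⟩
    apply e.symm.injective
    rw [map_add, e.symm_apply_apply, hd]
  refine a b c d hab := by
    obtain ⟨w, x, y, z, h1, h2, h3, h4⟩ := h.refine (e.symm a) (e.symm b) (e.symm c) (e.symm d)
      (by rw [← map_add, ← map_add, hab])
    refine ⟨e w, e x, e y, e z, ?_, ?_, ?_, ?_⟩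
    · rw [← map_add, h1, e.apply_symm_apply]
    · rw [← map_add, h2, e.apply_symm_apply]
    · rw [← map_add, h3, e.apply_symm_apply]
    · rw [← map_add, h4, e.apply_symm_apply]

/-- Niceness of products. -/
theorem NiceMon.pi {ι : Type*} {N : ι → Type*} [∀ i, AddCommMonoid (N i)]
    (h : ∀ i, NiceMon (N i)) : NiceMon (∀ i, N i) where
  cancel a b c hab := by
    funext i
    exact (h i).cancel _ _ (c i) (congrFun hab i)
  conical a b hab := by
    funext i
    exact (h i).conical _ (b i) (congrFun hab i)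
  unperf n a b c hn hab := by
    choose d hd using fun i => (h i).unperf n (a i) (b i) (c i) hn (congrFun hab i)
    exact ⟨d, funext hd⟩
  refine a b c d hab := by
    choose w x y z h1 h2 h3 h4 using fun i => (h i).refine (a i) (b i) (c i) (d i)
      (congrFun hab i)
    exact ⟨w, x, y, z, funext h1, funext h2, funext h3, funext h4⟩

end Pool.Agent.Lib_helper8.V53
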