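import Mathlib

set_option autoImplicit false

/-!
# Free sets
-/

namespace Pool.Agent.Lib_helper8.V53

open Cardinal

/-- For every `m` there is a set `X` such that every countable-set valued function of two
variables of `X` has a free sequence of length `m`. -/
theorem free_sets (m : ℕ) : ∃ X : Type, ∀ (G0 : Set X) (G2 : X → X → Set X), G0.Countable →
    (∀ a b, (G2 a b).Countable) → ∃ h : Fin m → X, (∀ s, h s ∉ G0) ∧
      ∀ s t t', s ≠ t → s ≠ t' → h s ∉ G2 (h t) (h t') := by
  induction m with
  | zero => exact ⟨Unit, fun _ _ _ _ => ⟨fun i => i.elim0, fun i => i.elim0, fun i => i.elim0⟩⟩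
  | succ m ih =>
    obtain ⟨X, hX⟩ := ih
    let C : Type := ℕ × ((X → Set X) × Set X)
    refine ⟨X ⊕ Set C, fun G0 G2 hG0 hG2 => ?_⟩
    let c : Set C → C := fun q =>
      (0, (fun i => Sum.inl ⁻¹' (G2 (Sum.inl i) (Sum.inr q)) ∪
        Sum.inl ⁻¹' (G2 (Sum.inr q) (Sum.inl i))), Sum.inl ⁻¹' (G2 (Sum.inr q) (Sum.inr q)))
    have hC : ℵ₀ ≤ #C := by
      have : Infinite C := by
        have : Nonempty ((X → Set X) × Set X) := ⟨(fun _ => ∅, ∅)⟩
        exact inferInstanceAs (Infinite (ℕ × ((X → Set X) × Set X)))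
      exact Cardinal.aleph0_le_mk C
    have hlt : #C < #(Set C) := by rw [Cardinal.mk_set]; exact Cardinal.cantor _
    obtain ⟨⟨n, c0, c1⟩, ha⟩ := Cardinal.infinite_pigeonhole_card_lt c hlt (hC.trans hlt.le)
    set J' : Set (Set C) := c ⁻¹' {(n, c0, c1)} with hJ'
    have hunc : ¬ J'.Countable := by
      intro h
      have h1 : #J' ≤ ℵ₀ := Cardinal.le_aleph0_iff_set_countable.mpr h
      exact absurd (hC.trans_lt ha) (not_lt.mpr h1)
    have hJc : ∀ q ∈ J', (∀ i, c0 i = Sum.inl ⁻¹' (G2 (Sum.inl i) (Sum.inr q)) ∪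
        Sum.inl ⁻¹' (G2 (Sum.inr q) (Sum.inl i))) ∧
          c1 = Sum.inl ⁻¹' (G2 (Sum.inr q) (Sum.inr q)) := by
      intro q hq
      have h1 : c q = (n, c0, c1) := hq
      have h2 := congrArg (fun x : C => x.2.1) h1
      have h3 := congrArg (fun x : C => x.2.2) h1
      exact ⟨fun i => (congrFun h2 i).symm, h3.symm⟩
    obtain ⟨q0, hq0⟩ : J'.Nonempty := by
      rw [Set.nonempty_iff_ne_empty]
      intro h
      exact hunc (by rw [h]; exact Set.countable_empty)
    have hinl : Function.Injective (Sum.inl : X → X ⊕ Set C) := Sum.inl_injective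
    have hc0 : ∀ i, (c0 i).Countable := by
      intro i
      rw [(hJc q0 hq0).1 i]
      exact ((hG2 _ _).preimage hinl).union ((hG2 _ _).preimage hinl)
    have hc1 : c1.Countable := by
      rw [(hJc q0 hq0).2]
      exact (hG2 _ _).preimage hinl
    obtain ⟨h, h1, h2⟩ := hX (Sum.inl ⁻¹' G0 ∪ c1)
      (fun i j => Sum.inl ⁻¹' (G2 (Sum.inl i) (Sum.inl j)) ∪ (c0 i ∪ c0 j))
      ((hG0.preimage hinl).union hc1)
      (fun i j => ((hG2 _ _).preimage hinl).union ((hc0 i).union (hc0 j)))
    -- the last element
    obtain ⟨q, hq, hqB⟩ : ∃ q ∈ J', (Sum.inr q : X ⊕ Set C) ∉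
        G0 ∪ ⋃ t, ⋃ t', G2 (Sum.inl (h t)) (Sum.inl (h t')) := by
      by_contra hcon
      push Not at hcon
      apply hunc
      have hsub : J' ⊆ Sum.inr ⁻¹' (G0 ∪ ⋃ t, ⋃ t', G2 (Sum.inl (h t)) (Sum.inl (h t'))) := hcon
      refine Set.Countable.mono hsub (Set.Countable.preimage ?_ Sum.inr_injective)
      exact hG0.union (Set.countable_iUnion fun t => Set.countable_iUnion fun t' => hG2 _ _)
    obtain ⟨k0, k1⟩ := hJc q hq
    simp only [Set.mem_union, Set.mem_iUnion, not_or, not_exists] at hqB
    refine ⟨Fin.snoc (fun i => Sum.inl (h i)) (Sum.inr q), ?_, ?_⟩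
    · intro s
      refine Fin.lastCases ?_ (fun s => ?_) s
      · rw [Fin.snoc_last]; exact hqB.1
      · rw [Fin.snoc_castSucc]
        intro hmem
        exact h1 s (Or.inl hmem)
    · intro s
      refine Fin.lastCases ?_ (fun s => ?_) s
      · intro t
        refine Fin.lastCases ?_ (fun t => ?_) t
        · intro t' hst; exact absurd rfl hst
        · intro t'
          refine Fin.lastCases ?_ (fun t' => ?_) t'
          · intro _ hst; exact absurd rfl hst
          · intro _ _
            rw [Fin.snoc_last, Fin.snoc_castSucc, Fin.snoc_castSucc]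
            exact hqB.2 t t'
      · intro t
        refine Fin.lastCases ?_ (fun t => ?_) t
        · intro t'
          refine Fin.lastCases ?_ (fun t' => ?_) t'
          · intro _ _
            rw [Fin.snoc_last, Fin.snoc_castSucc]
            intro hmem
            refine h1 s (Or.inr ?_)
            rw [k1]; exact hmem
          · intro _ hst
            have hst' : s ≠ t' := fun h => hst (by rw [h])
            rw [Fin.snoc_last, Fin.snoc_castSucc, Fin.snoc_castSucc]
            intro hmem
            refine h2 s t' t' hst' hst' (Or.inr (Or.inl ?_))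
            rw [k0]; exact Or.inr hmem
        · intro t'
          refine Fin.lastCases ?_ (fun t' => ?_) t'
          · intro hst _
            have hst' : s ≠ t := fun h => hst (by rw [h])
            rw [Fin.snoc_last, Fin.snoc_castSucc, Fin.snoc_castSucc]
            intro hmem
            refine h2 s t t hst' hst' (Or.inr (Or.inl ?_))
            rw [k0]; exact Or.inl hmem
          · intro hst hst2
            rw [Fin.snoc_castSucc, Fin.snoc_castSucc, Fin.snoc_castSucc]
            intro hmem
            exact h2 s t t' (fun h => hst (by rw [h])) (fun h => hst2 (by rw [h])) (Or.inl hmem)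

end Pool.Agent.Lib_helper8.V53
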