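import Mathlib

set_option autoImplicit false

/-!
# Real rank zero
-/

namespace Pool.Agent.Lib_helper8.V53

open Polynomial

/-- A C*-algebra `A` has real rank zero if every self-adjoint element of its unitization is a norm
limit of self-adjoint elements with finite spectrum. -/
def RealRankZero (A : Type*) [NonUnitalCStarAlgebra A] : Prop :=
  ∀ a : Unitization ℂ A, IsSelfAdjoint a →
    a ∈ closure {b : Unitization ℂ A | IsSelfAdjoint b ∧ (spectrum ℂ b).Finite}

theorem finite_spectrum_of_aeval {B : Type*} [Ring B] [Algebra ℂ B] [Nontrivial B] {b : B}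
    {p : ℂ[X]} (hp : p ≠ 0) (h : aeval b p = 0) : (spectrum ℂ b).Finite := by
  have h1 := spectrum.subset_polynomial_aeval b p
  rw [h, spectrum.zero_eq] at h1
  refine Set.Finite.subset (Multiset.finite_toSet p.roots) ?_
  intro k hk
  have h2 : eval k p = 0 := h1 ⟨k, hk, rfl⟩
  exact (mem_roots hp).mpr h2

theorem fst_sub' {A : Type*} [NonUnitalRing A] [Module ℂ A] (x y : Unitization ℂ A) :
    (x - y).fst = x.fst - y.fst := by
  rw [sub_eq_add_neg, Unitization.fst_add, Unitization.fst_neg, sub_eq_add_neg]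

theorem snd_sub' {A : Type*} [NonUnitalRing A] [Module ℂ A] (x y : Unitization ℂ A) :
    (x - y).snd = x.snd - y.snd := by
  rw [sub_eq_add_neg, Unitization.snd_add, Unitization.snd_neg, sub_eq_add_neg]

theorem realRankZero_of_unital {A : Type*} [CStarAlgebra A]
    (h : ∀ a : A, IsSelfAdjoint a → ∀ ε > 0, ∃ b : A, IsSelfAdjoint b ∧
      (∃ p : ℂ[X], p ≠ 0 ∧ aeval b p = 0) ∧ ‖a - b‖ < ε) : RealRankZero A := by
  intro x hx
  rw [Metric.mem_closure_iff]
  intro ε hε
  have hfst : star x.fst = x.fst := by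
    have := congrArg (fun z : Unitization ℂ A => z.fst) hx.star_eq
    simpa using this
  have hsnd : star x.snd = x.snd := by
    have := congrArg (fun z : Unitization ℂ A => z.snd) hx.star_eq
    simpa using this
  obtain ⟨b, hb, ⟨p, hp, hpb⟩, hab⟩ := h (algebraMap ℂ A x.fst + x.snd) (by
    rw [IsSelfAdjoint, star_add, hsnd, ← algebraMap_star_comm, hfst]) ε hε
  let y : Unitization ℂ A := Unitization.inl x.fst +
    (Unitization.inr (b - algebraMap ℂ A x.fst) : Unitization ℂ A)
  have hy1 : y.fst = x.fst := by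
    rw [Unitization.fst_add, Unitization.fst_inl, Unitization.fst_inr, add_zero]
  have hy2 : y.snd = b - algebraMap ℂ A x.fst := by
    rw [Unitization.snd_add, Unitization.snd_inl, Unitization.snd_inr, zero_add]
  have hysa : IsSelfAdjoint y := by
    rw [IsSelfAdjoint]
    refine Unitization.ext ?_ ?_
    · rw [Unitization.fst_star, hy1, hfst]
    · rw [Unitization.snd_star, hy2, star_sub, hb.star_eq, ← algebraMap_star_comm, hfst]
  let π : Unitization ℂ A →ₐ[ℂ] A := Unitization.lift (NonUnitalAlgHom.id ℂ A)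
  have hπ : ∀ z : Unitization ℂ A, π z = algebraMap ℂ A z.fst + z.snd := fun z => rfl
  let φ : Unitization ℂ A →ₐ[ℂ] ℂ := Unitization.fstHom ℂ A
  have hφ : ∀ z : Unitization ℂ A, φ z = z.fst := fun z => rfl
  have hker : ∀ z : Unitization ℂ A, π z = 0 → φ z = 0 → z = 0 := by
    intro z h1 h2
    rw [hφ] at h2
    rw [hπ, h2, map_zero, zero_add] at h1
    exact Unitization.ext h2 h1
  refine ⟨y, ⟨hysa, ?_⟩, ?_⟩
  · refine finite_spectrum_of_aeval (p := p * (X - C x.fst))
      (mul_ne_zero hp (X_sub_C_ne_zero _)) ?_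
    apply hker
    · rw [← aeval_algHom_apply, hπ, hy1, hy2, map_mul]
      have : algebraMap ℂ A x.fst + (b - algebraMap ℂ A x.fst) = b := by abel
      rw [this, hpb, zero_mul]
    · rw [← aeval_algHom_apply, hφ, hy1, map_mul]
      simp
  · rw [dist_eq_norm]
    have : x - y = (Unitization.inr (algebraMap ℂ A x.fst + x.snd - b) : Unitization ℂ A) := by
      refine Unitization.ext ?_ ?_
      · rw [fst_sub', hy1, sub_self, Unitization.fst_inr]
      · rw [snd_sub', hy2, Unitization.snd_inr]
        abel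
    rw [this, Unitization.norm_inr]
    exact hab

end Pool.Agent.Lib_helper8.V53
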