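import Pool.Agent.Lib_helper8.V53.EndGame
import Pool.Agent.Lib_helper8.V53.RR0

set_option autoImplicit false
set_option linter.unusedSectionVars false

/-!
# Matrices over the unitization of a C*-algebra of real rank zero
-/

namespace Pool.Agent.Lib_helper8.V53

noncomputable section

universe u

variable {A : Type u} [NonUnitalCStarAlgebra A]

/-- Invertible self-adjoint elements of the unitization are dense in the self-adjoint elements. -/
theorem dense_inv (hA : RealRankZero A) (a : Unitization ℂ A) (ha : star a = a) {ε : ℝ}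
    (hε : 0 < ε) : ∃ b : Unitization ℂ A, star b = b ∧ IsUnit b ∧ ‖a - b‖ < ε := by
  have h := hA a ha
  rw [Metric.mem_closure_iff] at h
  obtain ⟨b, ⟨hb, hfin⟩, hab⟩ := h (ε / 2) (by positivity)
  rw [dist_eq_norm] at hab
  have hinf : (Set.Ioo (0 : ℝ) (ε / 2)).Infinite := Set.Ioo_infinite (by positivity)
  have hfin' : {δ : ℝ | (-(δ : ℂ)) ∈ spectrum ℂ b}.Finite := by
    refine Set.Finite.preimage ?_ hfin
    intro x _ y _ hxy
    have := neg_injective hxy
    exact_mod_cast this
  obtain ⟨δ, hδ, hδ'⟩ := (hinf.sdiff hfin').nonempty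
  have hns : (-(δ : ℂ)) ∉ spectrum ℂ b := hδ'
  rw [spectrum.notMem_iff] at hns
  refine ⟨b + (δ : ℂ) • 1, ?_, ?_, ?_⟩
  · rw [star_add, star_smul, star_one, hb.star_eq]
    congr 2
    exact Complex.conj_ofReal δ
  · have h2 : b + (δ : ℂ) • 1 = -(algebraMap ℂ (Unitization ℂ A) (-(δ : ℂ)) - b) := by
      rw [map_neg, Algebra.algebraMap_eq_smul_one]; abel
    rw [h2]
    exact hns.neg
  · have h1 : ‖(1 : Unitization ℂ A)‖ ≤ 1 := norm_proj_le (one_mul 1) (star_one _)
    calc ‖a - (b + (δ : ℂ) • 1)‖ = ‖(a - b) - (δ : ℂ) • 1‖ := by congr 1; abel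
      _ ≤ ‖a - b‖ + ‖(δ : ℂ) • (1 : Unitization ℂ A)‖ := norm_sub_le _ _
      _ = ‖a - b‖ + δ * ‖(1 : Unitization ℂ A)‖ := by
          rw [norm_smul, Complex.norm_real, Real.norm_eq_abs, abs_of_pos hδ.1]
      _ ≤ ‖a - b‖ + δ * 1 := by
          gcongr
          exact hδ.1.le
      _ < ε := by linarith [hδ.2]

section mat

variable {B : Type u} [CStarAlgebra B] [PartialOrder B] [StarOrderedRing B] {n : ℕ}

/-- the embedding of the algebra at a diagonal entry -/
def sgl (i : Fin n) (c : B) : CStarMatrix (Fin n) (Fin n) B :=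
  CStarMatrix.ofMatrix (Matrix.single i i c)

/-- the embedding as a homomorphism -/
def sglHom (i : Fin n) : B →⋆ₙₐ[ℂ] CStarMatrix (Fin n) (Fin n) B where
  toFun c := sgl i c
  map_smul' r c := by
    change Matrix.single i i (r • c) = r • Matrix.single i i c
    rw [Matrix.smul_single]
  map_zero' := by
    change Matrix.single i i (0 : B) = 0
    exact Matrix.single_zero i i
  map_add' c d := by
    change Matrix.single i i (c + d) = Matrix.single i i c + Matrix.single i i d
    exact Matrix.single_add i i c d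
  map_mul' c d := by
    change Matrix.single i i (c * d) = Matrix.single i i c * Matrix.single i i d
    rw [Matrix.single_mul_single_same]
  map_star' c := by
    change Matrix.single i i (star c) = Matrix.conjTranspose (Matrix.single i i c)
    rw [Matrix.conjTranspose_single]

theorem norm_sgl_le (i : Fin n) (c : B) : ‖sgl i c‖ ≤ ‖c‖ :=
  NonUnitalStarAlgHom.norm_apply_le (sglHom i) c

theorem sgl_mul (i : Fin n) (c d : B) : sgl i c * sgl i d = sgl i (c * d) :=
  (map_mul (sglHom i) c d).symm

theorem sgl_star (i : Fin n) (c : B) : star (sgl i c) = sgl i (star c) :=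
  (map_star (sglHom i) c).symm

theorem sgl_sub (i : Fin n) (c d : B) : sgl i c - sgl i d = sgl i (c - d) :=
  (map_sub (sglHom i) c d).symm

theorem sgl_ne {i j : Fin n} (hij : i ≠ j) (c d : B) : sgl i c * sgl j d = 0 := by
  change Matrix.single i i c * Matrix.single j j d = 0
  rw [Matrix.single_mul_single_of_ne _ _ _ _ hij]

theorem sgl_corner (i : Fin n) (y : CStarMatrix (Fin n) (Fin n) B) :
    sgl i 1 * y * sgl i 1 = sgl i (y i i) := by
  have h : ∀ y' : Matrix (Fin n) (Fin n) B,
      Matrix.single i i (1 : B) * y' * Matrix.single i i 1 = Matrix.single i i (y' i i) := by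
    intro y'
    rw [Matrix.single_mul_mul_single, one_mul, mul_one]
  exact h y

theorem sum_sgl : ∑ i : Fin n, sgl i (1 : B) = 1 := by
  change ∑ i : Fin n, Matrix.single i i (1 : B) = (1 : Matrix (Fin n) (Fin n) B)
  ext a b
  rw [Matrix.sum_apply]
  by_cases h : a = b
  · subst h
    rw [Finset.sum_eq_single a]
    · simp
    · intro c _ hc; simp [Matrix.single, hc]
    · simp
  · rw [Matrix.one_apply_ne h]
    refine Finset.sum_eq_zero fun c _ => ?_
    simp only [Matrix.single, Matrix.of_apply, ite_eq_right_iff, and_imp]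
    rintro rfl rfl
    exact absurd rfl h

theorem DProp_sgl (hB : ∀ (a : B), star a = a → ∀ ε > 0, ∃ b : B, star b = b ∧ IsUnit b ∧
    ‖a - b‖ < ε) (i : Fin n) : DProp (sgl i (1 : B)) := by
  intro y hy ε hε
  set c : B := y i i with hc
  have hyc : y = sgl i c := by
    rw [hc, ← sgl_corner, hy.left, hy.right]
  have hcs : star c = c := by
    have h := congrArg (fun z : CStarMatrix (Fin n) (Fin n) B => z i i) hy.sa
    exact h
  obtain ⟨b, hb, ⟨w, hw⟩, hn⟩ := hB c hcs ε hε
  refine ⟨sgl i b, ⟨?_, ?_, ?_⟩, ?_, sgl i (↑w⁻¹ : B), ?_, ?_, ?_, ?_⟩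
  · rw [sgl_star, hb]
  · rw [sgl_mul, one_mul]
  · rw [sgl_mul, mul_one]
  · rw [hyc, sgl_sub]
    exact (norm_sgl_le i _).trans_lt hn
  · rw [sgl_mul, one_mul]
  · rw [sgl_mul, mul_one]
  · rw [sgl_mul, ← hw, Units.mul_inv]
  · rw [sgl_mul, ← hw, Units.inv_mul]

theorem DProp_one (hB : ∀ (a : B), star a = a → ∀ ε > 0, ∃ b : B, star b = b ∧ IsUnit b ∧
    ‖a - b‖ < ε) : DProp (1 : CStarMatrix (Fin n) (Fin n) B) := by
  rw [← sum_sgl]
  refine DProp.sum _ _ ?_ ?_ ?_ ?_
  · intro i _; rw [sgl_mul, one_mul]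
  · intro i _; rw [sgl_star, star_one]
  · intro i _ j _ hij; exact sgl_ne hij _ _
  · intro i _; exact DProp_sgl hB i

end mat

/-! ### The class system -/

section classes

variable (A) (n : ℕ) [PartialOrder (Unitization ℂ A)] [StarOrderedRing (Unitization ℂ A)]

/-- the ring of matrices over the unitization -/
abbrev CM : Type u := CStarMatrix (Fin n) (Fin n) (Unitization ℂ A)

variable {A n}

/-- matrices over `A` as matrices over the unitization -/
def io (m : Matrix (Fin n) (Fin n) A) : CM A n :=
  CStarMatrix.ofMatrix (m.map (fun a => (Unitization.inr a : Unitization ℂ A)))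

/-- the `A`-part of a matrix over the unitization -/
def ka (c : CM A n) : Matrix (Fin n) (Fin n) A := Matrix.of fun i j => (c i j).snd

theorem io_apply (m : Matrix (Fin n) (Fin n) A) (i j : Fin n) :
    io m i j = (Unitization.inr (m i j) : Unitization ℂ A) := rfl

theorem io_inj {m m' : Matrix (Fin n) (Fin n) A} (h : io m = io m') : m = m' := by
  ext i j
  have := congrFun (congrFun h i) j
  exact Unitization.inr_injective this

theorem io_add (m m' : Matrix (Fin n) (Fin n) A) : io (m + m') = io m + io m' := by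
  refine CStarMatrix.ext fun i j => ?_
  rw [CStarMatrix.add_apply, io_apply, io_apply, io_apply, Matrix.add_apply, Unitization.inr_add]

theorem io_mul (m m' : Matrix (Fin n) (Fin n) A) : io (m * m') = io m * io m' := by
  refine CStarMatrix.ext fun i j => ?_
  rw [CStarMatrix.mul_apply, io_apply, Matrix.mul_apply]
  simp only [io_apply, ← Unitization.inr_mul]
  exact map_sum (Unitization.inrNonUnitalAlgHom ℂ A) _ _

theorem io_zero : io (0 : Matrix (Fin n) (Fin n) A) = 0 := by
  refine CStarMatrix.ext fun i j => ?_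
  rw [io_apply]
  exact Unitization.inr_zero _

/-- the ideal of matrices with entries in `A` -/
def JJ : Set (CM A n) := {c | ∀ i j, (c i j).fst = 0}

theorem io_mem (m : Matrix (Fin n) (Fin n) A) : io m ∈ (JJ : Set (CM A n)) := fun _ _ => rfl

theorem io_ka {c : CM A n} (hc : c ∈ (JJ : Set (CM A n))) : io (ka c) = c := by
  refine CStarMatrix.ext fun i j => ?_
  exact Unitization.ext (hc i j).symm rfl

theorem fst_sum {ι : Type*} (S : Finset ι) (f : ι → Unitization ℂ A) :
    (∑ i ∈ S, f i).fst = ∑ i ∈ S, (f i).fst :=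
  map_sum (Unitization.fstHom ℂ A) f S

theorem JJ_mul (c q d : CM A n) (hq : q ∈ (JJ : Set (CM A n))) :
    c * q * d ∈ (JJ : Set (CM A n)) := by
  intro i j
  rw [CStarMatrix.mul_apply, fst_sum]
  refine Finset.sum_eq_zero fun k _ => ?_
  rw [Unitization.fst_mul, CStarMatrix.mul_apply, fst_sum]
  have : ∑ l, (c i l * q l k).fst = 0 :=
    Finset.sum_eq_zero fun l _ => by rw [Unitization.fst_mul, hq l k, mul_zero]
  rw [this, zero_mul]

theorem JJ_sub (q q' : CM A n) (hq : q ∈ (JJ : Set (CM A n))) (hq' : q' ∈ (JJ : Set (CM A n))) :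
    q - q' ∈ (JJ : Set (CM A n)) := by
  intro i j
  rw [CStarMatrix.sub_apply, fst_sub', hq i j, hq' i j, sub_zero]

/-- the class relation -/
def Cl (q : CM A n) (c : V A) : Prop :=
  ∃ (m : Matrix (Fin n) (Fin n) A) (h : m * m = m), io m = q ∧ cls m h = c

theorem io_sum {ι : Type*} (S : Finset ι) (f : ι → Matrix (Fin n) (Fin n) A) :
    io (∑ i ∈ S, f i) = ∑ i ∈ S, io (f i) := by
  classical
  induction S using Finset.induction_on with
  | empty => simpa using io_zero
  | insert i S hi ih => rw [Finset.sum_insert hi, Finset.sum_insert hi, io_add, ih]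

theorem cl_fin (k e : CM A n) (c a : V A) (hk : Cl k c) (he : Cl e a) :
    (∃ (m : ℕ) (t : V A), c + t = m • a) ↔ FRk e k := by
  obtain ⟨mk, hmk, rfl, rfl⟩ := hk
  obtain ⟨me, hme, rfl, rfl⟩ := he
  rw [finRank_iff hme hmk]
  constructor
  · rintro ⟨m, u, v, h⟩
    refine ⟨m, fun l => io (u l), fun l => io (v l), ?_⟩
    rw [h, io_sum]
    simp only [io_mul]
  · rintro ⟨m, u, v, h⟩
    have hee : io me * io me = io me := by rw [← io_mul, hme]
    have hkk : io mk * io mk = io mk := by rw [← io_mul, hmk]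
    have hu : ∀ l, io mk * u l * io me ∈ (JJ : Set (CM A n)) := fun l => by
      have := JJ_mul 1 (io mk) (u l * io me) (io_mem mk)
      rwa [one_mul, ← mul_assoc] at this
    have hv : ∀ l, io me * v l * io mk ∈ (JJ : Set (CM A n)) := fun l => by
      have := JJ_mul 1 (io me) (v l * io mk) (io_mem me)
      rwa [one_mul, ← mul_assoc] at this
    refine ⟨m, fun l => ka (io mk * u l * io me), fun l => ka (io me * v l * io mk), ?_⟩
    apply io_inj
    rw [io_sum]
    simp only [io_mul, io_ka (hu _), io_ka (hv _)]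
    calc io mk = io mk * io mk * io mk := by rw [hkk, hkk]
      _ = io mk * (∑ l, u l * io me * v l) * io mk := by rw [← h]
      _ = ∑ l, io mk * (u l * io me * v l) * io mk := by
          rw [Finset.mul_sum, Finset.sum_mul]
      _ = ∑ l, io mk * u l * io me * io me * (io me * v l * io mk) := by
          refine Finset.sum_congr rfl fun l _ => ?_
          calc io mk * (u l * io me * v l) * io mk = io mk * u l * io me * v l * io mk := by
                simp only [mul_assoc]
            _ = io mk * u l * (io me * io me * io me) * v l * io mk := by rw [hee, hee]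
            _ = _ := by simp only [mul_assoc]

/-- The class system of the matrices over `A`. -/
def classSys : ClassSys (CM A n) (V A) where
  J := JJ
  Cl := Cl
  mul_mem := JJ_mul
  sub_mem := JJ_sub
  mem := by
    rintro _ _ ⟨m, h, rfl, -⟩
    exact io_mem m
  idem := by
    rintro _ _ ⟨m, h, rfl, -⟩
    rw [← io_mul, h]
  exists_cl := by
    intro q hq hqq
    have h : ka q * ka q = ka q := by
      apply io_inj
      rw [io_mul, io_ka hq, hqq]
    exact ⟨cls (ka q) h, ka q, h, io_ka hq, rfl⟩
  unique := by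
    rintro _ _ _ ⟨m, h, rfl, rfl⟩ ⟨m', h', hm, rfl⟩
    exact (cls_congr (io_inj hm) h' h).symm
  equiv := by
    rintro _ q' u v _ ⟨m, h, rfl, rfl⟩ hq' hqq' huv hvu
    have hmm : io m * io m = io m := by rw [← io_mul, h]
    have h' : ka q' * ka q' = ka q' := by
      apply io_inj
      rw [io_mul, io_ka hq', hqq']
    refine ⟨ka q', h', io_ka hq', ?_⟩
    have hx : io m * u * q' ∈ (JJ : Set (CM A n)) := by
      have := JJ_mul 1 (io m) (u * q') (io_mem m)
      rwa [one_mul, ← mul_assoc] at this
    have hy : q' * v * io m ∈ (JJ : Set (CM A n)) := by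
      have := JJ_mul (q' * v) (io m) 1 (io_mem m)
      rwa [mul_one] at this
    refine (cls_eq_iff.mpr ⟨ka (io m * u * q'), ka (q' * v * io m), ?_, ?_⟩).symm
    · apply io_inj
      rw [io_mul, io_ka hx, io_ka hy]
      calc io m * u * q' * (q' * v * io m) = io m * u * (q' * q') * v * io m := by
            simp only [mul_assoc]
        _ = io m * (u * v) * (u * v) * io m := by rw [hqq', ← hvu]; simp only [mul_assoc]
        _ = io m := by rw [huv, hmm, hmm, hmm]
    · apply io_inj
      rw [io_mul, io_ka hx, io_ka hy, io_ka hq']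
      calc q' * v * io m * (io m * u * q') = q' * v * (io m * io m) * u * q' := by
            simp only [mul_assoc]
        _ = q' * (v * u) * (v * u) * q' := by rw [hmm, ← huv]; simp only [mul_assoc]
        _ = q' := by rw [hvu, hqq', hqq', hqq']
  equiv' := by
    rintro _ _ _ ⟨m, h, rfl, rfl⟩ ⟨m', h', rfl, hc⟩
    obtain ⟨x, y, hxy, hyx⟩ := cls_eq_iff.mp hc.symm
    exact ⟨io x, io y, by rw [← io_mul, hxy], by rw [← io_mul, hyx]⟩
  add := by
    rintro _ _ _ _ ⟨m, h, rfl, rfl⟩ ⟨m', h', rfl, rfl⟩ h1 h2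
    have h1' : m * m' = 0 := by
      apply io_inj
      rw [io_mul, h1, io_zero]
    have h2' : m' * m = 0 := by
      apply io_inj
      rw [io_mul, h2, io_zero]
    exact ⟨m + m', idem_add h h' h1' h2', io_add m m', cls_add h h' h1' h2'⟩
  split := by
    rintro _ a b ⟨m, h, rfl, hc⟩
    obtain ⟨e1, e2, h1, h2, h12, h21, hs, hc1, hc2⟩ := cls_split h hc
    exact ⟨io e1, io e2, ⟨e1, h1, rfl, hc1⟩, ⟨e2, h2, rfl, hc2⟩,
      by rw [← io_mul, h12, io_zero], by rw [← io_mul, h21, io_zero], by rw [← io_add, hs]⟩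
  fin := cl_fin
  zero := by
    rintro _ ⟨m, h, rfl, hc⟩
    rw [cls_eq_zero hc, io_zero]
  zero' := by
    rintro _ ⟨m, h, hm, rfl⟩
    have : m = 0 := io_inj (by rw [hm, io_zero])
    rw [← cls_zero (ι := Fin n)]
    exact cls_congr this _ _

end classes

/-- **C*-side.** No C*-algebra of real rank zero has a bad pair. -/
theorem no_badPair (hA : RealRankZero A) (a x : V A) (h : BadPair a x) : False := by
  let _ : PartialOrder (Unitization ℂ A) := CStarAlgebra.spectralOrder _
  have _ : StarOrderedRing (Unitization ℂ A) := CStarAlgebra.spectralOrderedRing _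
  obtain ⟨n, e, he, rfl⟩ := x.exists_rep
  exact no_badPair_aux (classSys (A := A) (n := n))
    (DProp_one fun a ha ε hε => dense_inv hA a ha hε) h (g0 := io e) ⟨e, he, rfl, rfl⟩

end

end Pool.Agent.Lib_helper8.V53
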