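import Pool.Agent.Lib_helper8.V53.CSide
import Pool.Agent.Lib_helper8.V53.MatSide
import Pool.Agent.Lib_helper8.V53.FreeSet
import Pool.Agent.Lib_helper8.V53.RingSide

set_option autoImplicit false
set_option linter.unusedSectionVars false

/-!
# The monoid `V(R)` is not `V(A)` for a C*-algebra `A` of real rank zero
-/

namespace Pool.Agent.Lib_helper8.V53

open Topology TopologicalSpace

noncomputable section

universe u

/-! ### The key property of the class system -/

section key

variable {A : Type u} [NonUnitalCStarAlgebra A] {n : ℕ} [PartialOrder (Unitization ℂ A)]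
  [StarOrderedRing (Unitization ℂ A)]

theorem InId.sum {P : V A → Prop} (hP : OrdIdeal P) {ι : Type} [Fintype ι] {κ : Type*}
    (S : Finset κ) (f : κ → Matrix ι ι A) (h : ∀ k ∈ S, InId P (f k)) :
    InId P (∑ k ∈ S, f k) := by
  classical
  induction S using Finset.induction_on with
  | empty =>
    rw [Finset.sum_empty]
    exact ⟨ι, inferInstance, 0, by simp, 0, 0, by rw [cls_zero]; exact hP.zero, by simp⟩
  | insert k S hk ih =>
    rw [Finset.sum_insert hk]
    exact (h k (Finset.mem_insert_self _ _)).add hP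
      (ih fun j hj => h j (Finset.mem_insert_of_mem hj))

theorem classSys_key (P : V A → Prop) (hP : OrdIdeal P) (k : CM A n) (c : V A)
    (hk : (classSys (A := A) (n := n)).Cl k c) (h : InS (classSys (A := A) (n := n)) P k) :
    P c := by
  obtain ⟨mk, hmk, rfl, rfl⟩ := hk
  obtain ⟨m, u, H, v, a, h1, h2⟩ := h
  rw [← inId_idem_iff hP hmk]
  have h3 : ∀ l, ∃ (e : Matrix (Fin n) (Fin n) A) (he : e * e = e), io e = H l ∧ P (cls e he) := by
    intro l
    obtain ⟨⟨e, he, he1, he2⟩, hPl⟩ := h1 l
    exact ⟨e, he, he1, by rw [he2]; exact hPl⟩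
  choose e he he1 he2 using h3
  have hu : ∀ l, io mk * u l * io (e l) ∈ (JJ : Set (CM A n)) := fun l => by
    have := JJ_mul 1 (io mk) (u l * io (e l)) (io_mem mk)
    rwa [one_mul, ← mul_assoc] at this
  have hv : ∀ l, io (e l) * v l * io mk ∈ (JJ : Set (CM A n)) := fun l => by
    have := JJ_mul 1 (io (e l)) (v l * io mk) (io_mem (e l))
    rwa [one_mul, ← mul_assoc] at this
  have hkk : io mk * io mk = io mk := by rw [← io_mul, hmk]
  have hsum : mk = ∑ l, ka (io mk * u l * io (e l)) * e l * ka (io (e l) * v l * io mk) := by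
    apply io_inj
    rw [io_sum]
    simp only [io_mul, io_ka (hu _), io_ka (hv _)]
    calc io mk = io mk * io mk * io mk := by rw [hkk, hkk]
      _ = io mk * (∑ l, u l * H l * v l) * io mk := by rw [← h2]
      _ = ∑ l, io mk * (u l * H l * v l) * io mk := by
          rw [Finset.mul_sum, Finset.sum_mul]
      _ = ∑ l, io mk * u l * io (e l) * io (e l) * (io (e l) * v l * io mk) := by
          refine Finset.sum_congr rfl fun l _ => ?_
          have hee : io (e l) * io (e l) = io (e l) := by rw [← io_mul, he]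
          calc io mk * (u l * H l * v l) * io mk = io mk * u l * io (e l) * v l * io mk := by
                rw [he1]
                simp only [mul_assoc]
            _ = io mk * u l * (io (e l) * io (e l) * io (e l)) * v l * io mk := by rw [hee, hee]
            _ = _ := by simp only [mul_assoc]
  rw [hsum]
  refine InId.sum hP _ _ fun l _ => ?_
  exact ⟨Fin n, inferInstance, e l, he l, _, _, he2 l, rfl⟩

end key

/-! ### `V(M_3(F_2)) = ℕ` -/

section M3

/-- `V(M_3(F_2)) ≅ ℕ` -/
def E3 : V M3 ≃+ ℕ := (moritaEquiv K2 (Fin 3)).trans (natEquivV K2).symm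

theorem E3_fT (t : TT) : E3 (clsE (fT t) (fT_idem t)) = 1 := by
  have h1 : moritaEquiv K2 (Fin 3) (clsE (fT t) (fT_idem t)) = uK K2 := by
    have h2 : moritaHom K2 (Fin 3) (cls (one1 (fT t)) (one1_idem (fT_idem t))) =
        cls (cmp (one1 (fT t))) (cmp_idem (one1_idem (fT_idem t))) := moritaHom_cls _
    refine h2.trans ?_
    unfold uK
    rw [cls_eq_iff]
    refine ⟨Matrix.of fun (p : Unit × Fin 3) (_ : Unit) => vT t p.2,
      Matrix.of fun (_ : Unit) (p : Unit × Fin 3) => pT t p.2, ?_, ?_⟩
    · ext ⟨i, a⟩ ⟨j, b⟩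
      rw [Matrix.mul_apply]
      simp [cmp, one1, fT]
    · ext i j
      rw [Matrix.mul_apply, Fintype.sum_prod_type]
      have := dotT_self t
      unfold dotT at this
      simp only [Finset.univ_unique, Finset.sum_singleton, Matrix.of_apply, Fin.sum_univ_three]
      rw [this]
      rfl
  change (natEquivV K2).symm (moritaEquiv K2 (Fin 3) _) = 1
  rw [h1, AddEquiv.symm_apply_eq]
  exact (one_smul ℕ (uK K2)).symm

theorem E3_one : E3 (clsE (1 : M3) (one_mul 1)) = 3 := by
  have h1 : moritaEquiv K2 (Fin 3) (clsE (1 : M3) (one_mul 1)) =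
      cls (cmp (one1 (1 : M3))) (cmp_idem (one1_idem (one_mul 1))) := moritaHom_cls _
  change (natEquivV K2).symm (moritaEquiv K2 (Fin 3) _) = 3
  rw [h1, natEquivV_symm_cls]
  have h2 : cmp (one1 (1 : M3)) = 1 := by
    ext ⟨i, a⟩ ⟨j, b⟩
    simp only [cmp, one1, Matrix.of_apply]
    rw [Matrix.one_apply, Matrix.one_apply]
    simp
  rw [h2, Matrix.rank_one]
  rfl

theorem clsE_fT (t : TT) : clsE (fT t) (fT_idem t) = clsE (fT 0) (fT_idem 0) :=
  E3.injective (by rw [E3_fT, E3_fT])

theorem clsE_one_M3 : clsE (1 : M3) (one_mul 1) = clsE (fT 0) (fT_idem 0) +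
    clsE (fT 0) (fT_idem 0) + clsE (fT 0) (fT_idem 0) :=
  E3.injective (by rw [map_add, map_add, E3_fT, E3_one])

end M3

/-! ### Classes of elements -/

section clsE

variable {R : Type*} [Ring R] {S : Type*} [Ring S]

theorem clsE_add {p q : R} (hp : p * p = p) (hq : q * q = q) (h1 : p * q = 0) (h2 : q * p = 0)
    (hpq : (p + q) * (p + q) = p + q) : clsE (p + q) hpq = clsE p hp + clsE q hq := by
  unfold clsE
  rw [← cls_add (one1_idem hp) (one1_idem hq) (by rw [one1_mul, h1]; rfl)
    (by rw [one1_mul, h2]; rfl)]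
  exact cls_congr (one1_add _ _).symm _ _

theorem map_clsE (φ : R →ₙ+* S) {p : R} (hp : p * p = p) (hp' : φ p * φ p = φ p) :
    V.map φ (clsE p hp) = clsE (φ p) hp' := by
  unfold clsE
  rw [V.map_cls]
  exact cls_congr rfl _ _

theorem clsE_congr {p q : R} (h : p = q) (hp : p * p = p) (hq : q * q = q) :
    clsE p hp = clsE q hq := by subst h; rfl

theorem clsE_eq_zero {p : R} (hp : p * p = p) (h : p = 0) : clsE p hp = 0 := by
  subst h
  unfold clsE
  rw [← cls_zero (ι := Unit)]
  exact cls_congr rfl _ _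

end clsE

/-! ### The ring side -/

variable {X : Type}

/-- the evaluation on classes -/
def VE (x : YR X) : V (RR X) →+ V M3 := V.map (R := RR X) (S := M3) (evX x)

theorem VE_cls {ι : Type} [Fintype ι] (x : YR X) {p : Matrix ι ι (RR X)} (hp : p * p = p)
    (hp' : p.map (evX x) * p.map (evX x) = p.map (evX x)) :
    VE x (cls p hp) = cls (p.map (evX x)) hp' := V.map_cls (R := RR X) (S := M3) (evX x) hp

theorem VE_clsE (x : YR X) {p : RR X} (hp : p * p = p) (hp' : evX x p * evX x p = evX x p) :
    VE x (clsE p hp) = clsE (evX x p) hp' := map_clsE (R := RR X) (S := M3) (evX x) hp hp'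

theorem zero_set (n : ℕ) (p : Matrix (Fin n) (Fin n) (RR X)) (hp : p * p = p) :
    {x | VE x (cls p hp) = 0} =
      ⋂ i : Fin n, ⋂ j : Fin n, {x | ((p i j : RR X) : YR X → M3) x = 0} := by
  ext x
  simp only [Set.mem_ofPred_eq, Set.mem_iInter]
  rw [VE_cls x hp (map_idem (R := RR X) (S := M3) (evX x) hp)]
  constructor
  · intro h i j
    have h1 := cls_eq_zero h
    have h2 : p.map (evX x) i j = 0 := by rw [h1]; rfl
    rw [Matrix.map_apply] at h2
    exact (evX_apply x (p i j)).symm.trans h2
  · intro h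
    have h1 : p.map (evX x) = 0 := by
      ext1 i j
      rw [Matrix.map_apply]
      exact (evX_apply x (p i j)).trans (h i j)
    rw [← cls_zero (ι := Fin n)]
    exact cls_congr h1 _ _

theorem clopen_entry (a : RR X) : IsClopen {x | (a : YR X → M3) x = 0} :=
  a.2.1.isClopen_fiber 0

theorem clopen_R (d : V (RR X)) : IsClopen {x | VE x d = 0} := by
  obtain ⟨n, p, hp, rfl⟩ := d.exists_rep
  rw [zero_set]
  exact isClopen_iInter_of_finite fun i => isClopen_iInter_of_finite fun j => clopen_entry (p i j)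

theorem comm_small {x : YR X} (hx : Small x) {t : TT} (ht : t ∈ typ x) {m : M3}
    (hm : m ∈ DR x) : m * fT t = fT t * m := by
  obtain ⟨α, β, rfl⟩ := mem_DR_small hx hm
  have h1 : sumT x * fT t = fT t := by
    unfold sumT
    rw [Finset.sum_mul, Finset.sum_eq_single t]
    · exact fT_idem t
    · intro s hs hst
      exact fT_orth (hx.2 s hs t ht hst)
    · intro h; exact absurd ht h
  have h2 := hx.fT_sumT ht
  rw [add_mul, mul_add, smul_mul_assoc, mul_smul_comm, sub_mul, mul_sub, one_mul, mul_one, h1, h2,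
    Finset.sum_mul, Finset.mul_sum]
  congr 1
  refine Finset.sum_congr rfl fun s hs => ?_
  rw [smul_mul_assoc, mul_smul_comm]
  congr 1
  by_cases hst : s = t
  · rw [hst]
  · rw [fT_orth (hx.2 s hs t ht hst), fT_orth (hx.2 t ht s hs (Ne.symm hst))]

theorem typ_prR (i j : LR X) : typ (prR i j) = {i.2, j.2} := by
  ext t
  rw [mem_typ, Finset.mem_insert, Finset.mem_singleton]
  constructor
  · rintro ⟨a, ha⟩
    simp only [prR, decide_eq_true_eq] at ha
    rcases ha with h | h
    · left; rw [← h]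
    · right; rw [← h]
  · rintro (rfl | rfl)
    · exact ⟨i.1, by simp [prR]⟩
    · exact ⟨j.1, by simp [prR]⟩

theorem small_prR {i j : LR X} (h : OrthT i.2 j.2) : Small (prR i j) := by
  constructor
  · rw [typ_prR]; exact Finset.card_le_two
  · rw [typ_prR]
    intro s hs t ht hst
    rw [Finset.mem_insert, Finset.mem_singleton] at hs ht
    rcases hs with rfl | rfl <;> rcases ht with rfl | rfl
    · exact absurd rfl hst
    · exact h
    · exact h.symm
    · exact absurd rfl hst

theorem evX_FR {i : LR X} {x : YR X} (h : x i = true) : evX x (FR i) = fT i.2 := by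
  rw [evX_apply, FR_apply, if_pos h]

theorem comm_R {i j : LR X} (h : OrthT i.2 j.2) {d c c' : V (RR X)}
    (h1 : d + c = clsE (FR i) (FR_idem i)) (h2 : d + c' = clsE (FR j) (FR_idem j)) :
    VE (prR i j) d = 0 := by
  have hi : prR i j i = true := by simp [prR]
  have hj : prR i j j = true := by simp [prR]
  have ti : i.2 ∈ typ (prR i j) := by rw [typ_prR]; simp
  have tj : j.2 ∈ typ (prR i j) := by rw [typ_prR]; simp
  refine van_of_le (A := RR X) (M := M3) (evX (prR i j)) (FR_idem i) (FR_idem j) ?_ ?_ ?_ h1 h2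
  · intro a
    rw [evX_FR hi]
    exact comm_small (small_prR h) ti (a.2.2 _)
  · intro a
    rw [evX_FR hj]
    exact comm_small (small_prR h) tj (a.2.2 _)
  · rw [evX_FR hi, evX_FR hj]
    exact fT_orth h

/-- the finite set of the indices of a choice function -/
def FH (h : TT → X) : Finset (LR X) := by
  classical
  exact Finset.univ.image fun t => (h t, t)

theorem mem_FH {h : TT → X} {i : LR X} : i ∈ FH h ↔ ∃ t, (h t, t) = i := by
  classical
  unfold FH
  simp [Finset.mem_image]

/-- the clopen set of the points containing the points of a choice function -/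
def WH (h : TT → X) : Clopens (YR X) := conW (FH h)

theorem mem_WH {h : TT → X} {y : YR X} : y ∈ WH h ↔ ∀ t, y (h t, t) = true := by
  unfold WH
  rw [mem_conW]
  constructor
  · intro H t
    exact H _ (mem_FH.mpr ⟨t, rfl⟩)
  · intro H i hi
    obtain ⟨t, rfl⟩ := mem_FH.mp hi
    exact H t

theorem WH_not_small (h : TT → X) : ∀ y ∈ WH h, ¬ Small y := by
  intro y hy hs
  rw [mem_WH] at hy
  exact not_orthT (hs.2 0 (mem_typ.mpr ⟨h 0, hy 0⟩) 1 (mem_typ.mpr ⟨h 1, hy 1⟩) (by decide))

theorem xH_WH (h : TT → X) : xH h ∈ WH h := mem_WH.mpr fun t => xH_mem h t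

/-- the extension of constants from the clopen set -/
def sW (h : TT → X) : M3 →ₙ+* RR X := constHom (WH h) (WH_not_small h)

theorem sW_apply (h : TT → X) (m : M3) (y : YR X) :
    ((sW h m : RR X) : YR X → M3) y = ((chR (WH h) : RR X) : YR X → M3) y * m := rfl

theorem evX_sW (h : TT → X) (m : M3) : evX (xH h) (sW h m) = m := by
  rw [evX_apply, sW_apply, chR_mem (xH_WH h), one_mul]

/-- the extension of constants on classes -/
def VS (h : TT → X) : V M3 →+ V (RR X) := V.map (R := M3) (S := RR X) (sW h)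

theorem VS_clsE (h : TT → X) {m : M3} (hm : m * m = m) (hm' : sW h m * sW h m = sW h m) :
    VS h (clsE m hm) = clsE (sW h m) hm' := map_clsE (R := M3) (S := RR X) (sW h) hm hm'

theorem VE_VS (h : TT → X) (c : V M3) : VE (xH h) (VS h c) = c := by
  obtain ⟨n, p, hp, rfl⟩ := c.exists_rep
  have h1 : VS h (cls p hp) = cls (p.map (sW h)) (map_idem (R := M3) (S := RR X) (sW h) hp) :=
    V.map_cls (R := M3) (S := RR X) (sW h) hp
  rw [h1, VE_cls (xH h) _ (map_idem (R := RR X) (S := M3) (evX (xH h))
    (map_idem (R := M3) (S := RR X) (sW h) hp))]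
  refine cls_congr ?_ _ _
  ext1 i j
  rw [Matrix.map_apply, Matrix.map_apply]
  exact evX_sW h _

theorem sW_fT (h : TT → X) (t : TT) : sW h (fT t) = chR (WH h) * FR (h t, t) := by
  refine RR_ext fun y => ?_
  rw [sW_apply, RR_mul, FR_apply]
  by_cases hy : y ∈ WH h
  · rw [if_pos (mem_WH.mp hy t)]
  · rw [chR_notMem hy, zero_mul, zero_mul]

theorem sW_one (h : TT → X) : sW h 1 = chR (WH h) := by
  refine RR_ext fun y => ?_
  rw [sW_apply, mul_one]

/-- splitting a class by a central idempotent -/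
theorem split_central (h : TT → X) {p : RR X} (hp : p * p = p) {m : M3} (hm : m * m = m)
    (hpm : chR (WH h) * p = sW h m) : ∃ c, clsE p hp = VS h (clsE m hm) + c ∧
      VE (xH h) c = 0 := by
  have hc : ∀ a, chR (WH h) * a = a * (chR (WH h) : RR X) := (fibR X).comm (WH h)
  have hcc : chR (WH h) * chR (WH h) = (chR (WH h) : RR X) := (fibR X).idem (WH h)
  set e : RR X := chR (WH h) with he
  have h1 : (e * p) * (e * p) = e * p := by
    calc e * p * (e * p) = e * (p * e) * p := by simp only [mul_assoc]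
      _ = e * (e * p) * p := by rw [← hc]
      _ = (e * e) * (p * p) := by simp only [mul_assoc]
      _ = e * p := by rw [hcc, hp]
  have h2 : (p - e * p) * (e * p) = 0 := by
    rw [sub_mul, h1, ← mul_assoc, ← hc, mul_assoc, hp, sub_self]
  have h3 : (e * p) * (p - e * p) = 0 := by
    rw [mul_sub, h1, mul_assoc, hp, sub_self]
  have h4 : (p - e * p) * (p - e * p) = p - e * p := by
    rw [mul_sub, h2, sub_zero, sub_mul, hp, mul_assoc, hp]
  have h5 : clsE p hp = clsE (e * p) h1 + clsE (p - e * p) h4 := by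
    rw [← clsE_add h1 h4 h3 h2 (by rw [add_sub_cancel, hp])]
    exact clsE_congr (by rw [add_sub_cancel]) _ _
  refine ⟨clsE (p - e * p) h4, ?_, ?_⟩
  · have h7 : sW h m * sW h m = sW h m := by rw [← map_mul, hm]
    rw [h5, VS_clsE h hm h7]
    rw [clsE_congr hpm h1 h7]
  · have h6 : evX (xH h) (p - e * p) = 0 := by
      have h8 : evX (xH h) e = 1 := (evX_apply _ _).trans (chR_mem (xH_WH h))
      rw [map_sub, map_mul, h8, one_mul, sub_self]
    rw [VE_clsE (xH h) h4 (by rw [h6, mul_zero])]
    exact clsE_eq_zero _ h6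

/-- **The monoid `V(R)` is not `V(A)` for a C*-algebra `A` of real rank zero.** -/
theorem dimR_aux {A : Type u} [NonUnitalCStarAlgebra A] (hA : RealRankZero A)
    (hX : ∀ (G0 : Set X) (G2 : X → X → Set X), G0.Countable → (∀ a b, (G2 a b).Countable) →
      ∃ h : TT → X, (∀ s, h s ∉ G0) ∧ ∀ s t t', s ≠ t → s ≠ t' → h s ∉ G2 (h t) (h t'))
    (Φ : V (RR X) ≃+ V A) : False := by
  let _ : PartialOrder (Unitization ℂ A) := CStarAlgebra.spectralOrder _
  have _ : StarOrderedRing (Unitization ℂ A) := CStarAlgebra.spectralOrderedRing _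
  have h1R : (1 : RR X) * 1 = 1 := one_mul 1
  obtain ⟨n, e, he, hecls⟩ := (Φ (clsE (1 : RR X) h1R)).exists_rep
  have hDens : DProp (1 : CM A n) := DProp_one fun a ha ε hε => dense_inv hA a ha hε
  let P : YR X → V A → Prop := fun x c => VE x (Φ.symm c) = 0
  have hP : ∀ x, OrdIdeal (P x) := by
    intro x
    refine ⟨?_, fun a b => ?_⟩
    · simp only [P, map_zero]
    · simp only [P, map_add]
      constructor
      · intro h
        exact ⟨V.eq_zero_of_add h, V.eq_zero_of_add ((add_comm _ _).trans h)⟩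
      · rintro ⟨h1, h2⟩
        rw [h1, h2, add_zero]
  refine cside_aux (𝓢 := classSys (A := A) (n := n)) classSys_key hDens hX P hP ?_
    (fun i => Φ (clsE (FR i) (FR_idem i))) (Φ (clsE (1 : RR X) h1R)) ?_ ?_ ?_
    (z0 := io e) ⟨e, he, rfl, hecls.symm⟩
  · intro c
    exact clopen_R (Φ.symm c)
  · intro i
    have h4 : (1 - FR i : RR X) * (1 - FR i) = 1 - FR i := by
      rw [mul_sub, mul_one, sub_mul, one_mul, FR_idem, sub_self, sub_zero]
    refine ⟨Φ (clsE (1 - FR i) h4), ?_⟩
    rw [← map_add]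
    congr 1
    rw [← clsE_add (FR_idem i) h4 (by rw [mul_sub, mul_one, FR_idem, sub_self])
      (by rw [sub_mul, one_mul, FR_idem, sub_self]) (by rw [add_sub_cancel, one_mul])]
    exact clsE_congr (by rw [add_sub_cancel]) _ _
  · intro i j hij d c c' h1 h2
    refine comm_R hij (c := Φ.symm c) (c' := Φ.symm c') ?_ ?_
    · rw [← map_add, ← h1, Φ.symm_apply_apply]
    · rw [← map_add, ← h2, Φ.symm_apply_apply]
  · intro h
    have hmap : ∀ c : V M3, VE (xH h) (Φ.symm (Φ (VS h c))) = c := by
      intro c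
      rw [Φ.symm_apply_apply, VE_VS]
    refine ⟨Φ (VS h (clsE (fT 0) (fT_idem 0))), ?_, ?_, ?_, ?_⟩
    · intro h0
      have h1 : clsE (fT 0) (fT_idem 0) = 0 := by
        rw [← hmap (clsE (fT 0) (fT_idem 0))]
        exact h0
      have h2 := E3_fT 0
      rw [h1, map_zero] at h2
      exact zero_ne_one h2
    · intro d d' hdd
      have h1 : clsE (fT 0) (fT_idem 0) = VE (xH h) (Φ.symm d) +
          VE (xH h) (Φ.symm d') := by
        rw [← map_add, ← map_add, ← hdd, hmap]
      have h2 := congrArg E3 h1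
      rw [map_add, E3_fT] at h2
      have h3 : E3 (VE (xH h) (Φ.symm d)) = 0 ∨
          E3 (VE (xH h) (Φ.symm d')) = 0 := by omega
      rcases h3 with h3 | h3
      · exact Or.inl ((map_eq_zero_iff E3 E3.injective).mp h3)
      · exact Or.inr ((map_eq_zero_iff E3 E3.injective).mp h3)
    · intro t
      obtain ⟨c, hc1, hc2⟩ := split_central h (FR_idem (h t, t)) (fT_idem t) (sW_fT h t).symm
      refine ⟨Φ c, ?_, ?_⟩
      · rw [hc1, map_add, clsE_fT]
      · change VE (xH h) (Φ.symm (Φ c)) = 0
        rw [Φ.symm_apply_apply]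
        exact hc2
    · obtain ⟨c, hc1, hc2⟩ := split_central h h1R (one_mul (1 : M3))
        (by rw [mul_one, sW_one])
      refine ⟨Φ c, ?_, ?_⟩
      · rw [hc1, map_add, clsE_one_M3, map_add, map_add, map_add, map_add]
      · change VE (xH h) (Φ.symm (Φ c)) = 0
        rw [Φ.symm_apply_apply]
        exact hc2

/-- the index set -/
def XX : Type := Classical.choose (free_sets 19)

theorem XX_spec : ∀ (G0 : Set XX) (G2 : XX → XX → Set XX), G0.Countable →
    (∀ a b, (G2 a b).Countable) → ∃ h : TT → XX, (∀ s, h s ∉ G0) ∧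
      ∀ s t t', s ≠ t → s ≠ t' → h s ∉ G2 (h t) (h t') :=
  Classical.choose_spec (free_sets 19)

/-- `V(R)` is not isomorphic to `V(A)` for any C*-algebra `A` of real rank zero. -/
theorem dimR (A : Type u) [NonUnitalCStarAlgebra A] (hA : RealRankZero A) :
    IsEmpty (V (RR XX) ≃+ V A) :=
  ⟨fun Φ => dimR_aux hA XX_spec Φ⟩

end

end Pool.Agent.Lib_helper8.V53
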