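import Pool.Agent.Lib_helper8.V53.Approx
import Pool.Agent.Lib_helper8.V53.BergRing

set_option autoImplicit false

/-!
# No bad pairs for C*-algebras with dense invertible self-adjoint elements
-/

namespace Pool.Agent.Lib_helper8.V53

noncomputable section

section FR

variable {C : Type*} [Ring C]

/-- `k` is a finite sum of elements `u * e * v` -/
def FRk (e k : C) : Prop := ∃ (m : ℕ) (u v : Fin m → C), k = ∑ l, u l * e * v l

theorem FRk.zero (e : C) : FRk e 0 := ⟨0, fun _ => 0, fun _ => 0, by simp⟩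

theorem FRk.add {e k k' : C} (h : FRk e k) (h' : FRk e k') : FRk e (k + k') := by
  obtain ⟨m, u, v, rfl⟩ := h
  obtain ⟨m', u', v', rfl⟩ := h'
  refine ⟨m + m', Fin.append u u', Fin.append v v', ?_⟩
  rw [Fin.sum_univ_add]
  simp

theorem FRk.mul_left {e k : C} (h : FRk e k) (c : C) : FRk e (c * k) := by
  obtain ⟨m, u, v, rfl⟩ := h
  exact ⟨m, fun l => c * u l, v, by simp only [Finset.mul_sum, mul_assoc]⟩

theorem FRk.mul_right {e k : C} (h : FRk e k) (c : C) : FRk e (k * c) := by
  obtain ⟨m, u, v, rfl⟩ := h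
  exact ⟨m, u, fun l => v l * c, by simp only [Finset.sum_mul, mul_assoc]⟩

theorem FRk.neg {e k : C} (h : FRk e k) : FRk e (-k) := by
  rw [← neg_one_mul]; exact h.mul_left _

theorem FRk.sub {e k k' : C} (h : FRk e k) (h' : FRk e k') : FRk e (k - k') := by
  rw [sub_eq_add_neg]; exact h.add h'.neg

theorem FRk.sum {e : C} {ι : Type*} (S : Finset ι) (f : ι → C) (h : ∀ i ∈ S, FRk e (f i)) :
    FRk e (∑ i ∈ S, f i) := by
  classical
  induction S using Finset.induction_on with
  | empty => simpa using FRk.zero e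
  | insert i S hi ih =>
    rw [Finset.sum_insert hi]
    exact (h i (Finset.mem_insert_self _ _)).add
      (ih fun j hj => h j (Finset.mem_insert_of_mem hj))

theorem FRk.smul [Algebra ℂ C] {e k : C} (h : FRk e k) (c : ℂ) : FRk e (c • k) := by
  rw [← one_mul k, ← smul_mul_assoc]; exact h.mul_left _

end FR

variable {C : Type*} [CStarAlgebra C]

/-- Corners of minimal projections are one-dimensional. -/
theorem minimal_corner {e : C} (he : e * e = e) (he' : star e = e) (hD : DProp e)
    (hmin : ∀ q, q * q = q → e * q = q → q * e = q → q = 0 ∨ q = e) (c : C) :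
    ∃ l : ℂ, e * c * e = l • e := by
  have hsa : ∀ y, InCor e y → y ∈ (Submodule.span ℂ {e} : Submodule ℂ C) := by
    intro y hy
    have hcl : IsClosed ((Submodule.span ℂ {e} : Submodule ℂ C) : Set C) :=
      Submodule.closed_of_finiteDimensional _
    have : y ∈ closure ((Submodule.span ℂ {e} : Submodule ℂ C) : Set C) := by
      rw [Metric.mem_closure_iff]
      intro ε hε
      obtain ⟨S, q, μ, hq, -, hn⟩ := corner_approx he he' hD hy hε
      refine ⟨∑ k ∈ S, μ k • q k, ?_, by rw [dist_eq_norm]; exact hn⟩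
      refine Submodule.sum_mem _ fun k hk => Submodule.smul_mem _ _ ?_
      obtain ⟨h1, h2, h3⟩ := hq k hk
      rcases hmin _ h1 h2 h3 with h | h
      · rw [h]; exact Submodule.zero_mem _
      · rw [h]; exact Submodule.mem_span_singleton_self _
    rwa [hcl.closure_eq] at this
  set z : C := e * c * e with hz
  have hz1 : e * z = z := by rw [hz, ← mul_assoc, ← mul_assoc, he]
  have hz2 : z * e = z := by rw [hz, mul_assoc, he]
  have hz3 : star z * e = star z := by
    have := congrArg star hz1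
    rwa [star_mul, he'] at this
  have hz4 : e * star z = star z := by
    have := congrArg star hz2
    rwa [star_mul, he'] at this
  have h1 := hsa (z + star z) ⟨by rw [star_add, star_star, add_comm],
    by rw [mul_add, hz1, hz4], by rw [add_mul, hz2, hz3]⟩
  have h2 := hsa (Complex.I • (z - star z))
    ⟨by
      rw [star_smul, star_sub, star_star]
      change (starRingEnd ℂ) Complex.I • _ = _
      rw [Complex.conj_I, neg_smul, ← smul_neg, neg_sub],
    by rw [mul_smul_comm, mul_sub, hz1, hz4], by rw [smul_mul_assoc, sub_mul, hz2, hz3]⟩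
  have h3 : z = (1 / 2 : ℂ) • ((z + star z) - Complex.I • (Complex.I • (z - star z))) := by
    rw [smul_smul, Complex.I_mul_I, neg_smul, one_smul, sub_neg_eq_add]
    have : z + star z + (z - star z) = (2 : ℂ) • z := by rw [two_smul]; abel
    rw [this, smul_smul]
    norm_num
  have h4 : z ∈ (Submodule.span ℂ {e} : Submodule ℂ C) := by
    rw [h3]
    exact Submodule.smul_mem _ _ (Submodule.sub_mem _ h1 (Submodule.smul_mem _ _ h2))
  obtain ⟨l, hl⟩ := Submodule.mem_span_singleton.mp h4
  exact ⟨l, hl.symm⟩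

/-- self-adjoint elements are close to scalars plus finite rank -/
theorem approx_sa {g e : C} (hg : g * g = g) (hg' : star g = g) (hD : DProp g)
    (hdich : ∀ q, q * q = q → g * q = q → q * g = q → FRk e q ∨ FRk e (g - q))
    {y : C} (hy : InCor g y) {ε : ℝ} (hε : 0 < ε) :
    ∃ (l : ℂ) (k : C), FRk e k ∧ g * k = k ∧ k * g = k ∧ ‖y - (l • g + k)‖ < ε := by
  classical
  obtain ⟨S, q, μ, hq, hql, hn⟩ := corner_approx hg hg' hD hy hε
  have hs1 : g * ∑ k ∈ S, μ k • q k = ∑ k ∈ S, μ k • q k := by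
    rw [Finset.mul_sum]
    exact Finset.sum_congr rfl fun k hk => by rw [mul_smul_comm, (hq k hk).2.1]
  have hs2 : (∑ k ∈ S, μ k • q k) * g = ∑ k ∈ S, μ k • q k := by
    rw [Finset.sum_mul]
    exact Finset.sum_congr rfl fun k hk => by rw [smul_mul_assoc, (hq k hk).2.2]
  by_cases hall : ∀ k ∈ S, FRk e (q k)
  · refine ⟨0, ∑ k ∈ S, μ k • q k, FRk.sum _ _ fun k hk => (hall k hk).smul _, hs1, hs2, ?_⟩
    rw [zero_smul, zero_add]
    exact hn
  · push Not at hall
    obtain ⟨k0, hk0, hnot⟩ := hall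
    obtain ⟨a1, a2, a3⟩ := hq k0 hk0
    have hfr : FRk e (g - q k0) := (hdich _ a1 a2 a3).resolve_left hnot
    refine ⟨μ k0, ∑ k ∈ S, μ k • q k - μ k0 • g, ?_, ?_, ?_, ?_⟩
    · have h1 : ∑ k ∈ S, μ k • q k - μ k0 • g =
          ∑ k ∈ S.erase k0, μ k • (q k * (g - q k0)) - μ k0 • (g - q k0) := by
        have h2 : ∑ k ∈ S.erase k0, μ k • (q k * (g - q k0)) = ∑ k ∈ S.erase k0, μ k • q k := by
          refine Finset.sum_congr rfl fun k hk => ?_
          have hk' := Finset.mem_erase.mp hk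
          rw [mul_sub, (hq k hk'.2).2.2, hql k hk'.2 k0 hk0 hk'.1, sub_zero]
        rw [h2, ← Finset.add_sum_erase S _ hk0, smul_sub]
        abel
      rw [h1]
      exact (FRk.sum _ _ fun k _ => (hfr.mul_left _).smul _).sub (hfr.smul _)
    · rw [mul_sub, hs1, mul_smul_comm, hg]
    · rw [sub_mul, hs2, smul_mul_assoc, hg]
    · have : μ k0 • g + (∑ k ∈ S, μ k • q k - μ k0 • g) = ∑ k ∈ S, μ k • q k := by abel
      rw [this]; exact hn

/-- elements of the corner are close to scalars plus finite rank -/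
theorem approx_gen {g e : C} (hg : g * g = g) (hg' : star g = g) (hD : DProp g)
    (hdich : ∀ q, q * q = q → g * q = q → q * g = q → FRk e q ∨ FRk e (g - q))
    {v : C} (hv1 : g * v = v) (hv2 : v * g = v) {ε : ℝ} (hε : 0 < ε) :
    ∃ (l : ℂ) (k : C), FRk e k ∧ g * k = k ∧ k * g = k ∧ ‖v - (l • g + k)‖ < ε := by
  have hv3 : star v * g = star v := by
    have := congrArg star hv1
    rwa [star_mul, hg'] at this
  have hv4 : g * star v = star v := by
    have := congrArg star hv2
    rwa [star_mul, hg'] at this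
  obtain ⟨l1, k1, f1, a1, b1, n1⟩ := approx_sa hg hg' hD hdich (y := v + star v)
    ⟨by rw [star_add, star_star, add_comm], by rw [mul_add, hv1, hv4],
      by rw [add_mul, hv2, hv3]⟩ hε
  obtain ⟨l2, k2, f2, a2, b2, n2⟩ := approx_sa hg hg' hD hdich (y := Complex.I • (v - star v))
    ⟨by
      rw [star_smul, star_sub, star_star]
      change (starRingEnd ℂ) Complex.I • _ = _
      rw [Complex.conj_I, neg_smul, ← smul_neg, neg_sub],
    by rw [mul_smul_comm, mul_sub, hv1, hv4], by rw [smul_mul_assoc, sub_mul, hv2, hv3]⟩ hε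
  refine ⟨(1 / 2 : ℂ) * (l1 - Complex.I * l2), (1 / 2 : ℂ) • (k1 - Complex.I • k2),
    (f1.sub (f2.smul _)).smul _, ?_, ?_, ?_⟩
  · rw [mul_smul_comm, mul_sub, mul_smul_comm, a1, a2]
  · rw [smul_mul_assoc, sub_mul, smul_mul_assoc, b1, b2]
  · have h3 : v = (1 / 2 : ℂ) • ((v + star v) - Complex.I • (Complex.I • (v - star v))) := by
      rw [smul_smul, Complex.I_mul_I, neg_smul, one_smul, sub_neg_eq_add]
      have : v + star v + (v - star v) = (2 : ℂ) • v := by rw [two_smul]; abel
      rw [this, smul_smul]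
      norm_num
    have h4 : v - (((1 / 2 : ℂ) * (l1 - Complex.I * l2)) • g +
        (1 / 2 : ℂ) • (k1 - Complex.I • k2)) =
        (1 / 2 : ℂ) • ((v + star v - (l1 • g + k1)) -
          Complex.I • (Complex.I • (v - star v) - (l2 • g + k2))) := by
      conv_lhs => rw [h3]
      simp only [mul_smul, sub_smul, smul_sub, smul_add]
      abel
    rw [h4, norm_smul]
    have h5 : ‖(1 / 2 : ℂ)‖ = 1 / 2 := by norm_num
    rw [h5]
    calc 1 / 2 * ‖(v + star v - (l1 • g + k1)) -
          Complex.I • (Complex.I • (v - star v) - (l2 • g + k2))‖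
        ≤ 1 / 2 * (‖v + star v - (l1 • g + k1)‖ +
          ‖Complex.I • (Complex.I • (v - star v) - (l2 • g + k2))‖) := by
          gcongr
          exact norm_sub_le _ _
      _ = 1 / 2 * (‖v + star v - (l1 • g + k1)‖ +
          ‖Complex.I • (v - star v) - (l2 • g + k2)‖) := by
          rw [norm_smul, Complex.norm_I, one_mul]
      _ < ε := by linarith

/-- An isometry of the corner which is a limit of scalars plus finite rank is invertible. -/
theorem endgame {g e e1 u v : C} (hg : g * g = g) (he : e * e = e)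
    (hmin : ∀ c, ∃ l : ℂ, e * c * e = l • e) (hbig : ¬ FRk e g)
    (hgu : g * u = u) (hug : u * g = u) (hgv : g * v = v) (hvg : v * g = v) (huv : u * v = g)
    (hvu : v * u = g - e1)
    (happ : ∀ ε > 0, ∃ (l : ℂ) (k : C), FRk e k ∧ g * k = k ∧ k * g = k ∧
      ‖v - (l • g + k)‖ < ε) : e1 = 0 := by
  obtain ⟨l, k, hk, hgk, hkg, hn⟩ := happ (1 / (‖u‖ + 1)) (by positivity)
  set v0 : C := l • g + k with hv0
  have hgv0 : g * v0 = v0 := by rw [hv0, mul_add, mul_smul_comm, hg, hgk]
  have hv0g : v0 * g = v0 := by rw [hv0, add_mul, smul_mul_assoc, hg, hkg]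
  set r : C := u * (v0 - v) with hr
  have hrn : ‖r‖ < 1 := by
    calc ‖r‖ ≤ ‖u‖ * ‖v0 - v‖ := norm_mul_le _ _
      _ ≤ ‖u‖ * (1 / (‖u‖ + 1)) := by
          gcongr
          rw [norm_sub_rev]
          exact hn.le
      _ < 1 := by
          rw [mul_one_div, div_lt_one (by positivity)]
          linarith [norm_nonneg u]
  have huv0 : u * v0 = g + r := by rw [hr, mul_sub, huv]; abel
  have hrg : r * g = r := by rw [hr, mul_assoc, sub_mul, hv0g, hvg]
  have hunit : IsUnit (1 + r) := by
    have : 1 + r = 1 - (-r) := by abel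
    rw [this]
    exact isUnit_one_sub_of_norm_lt_one (by rwa [norm_neg])
  obtain ⟨un, hun⟩ := hunit
  set s : C := ↑un⁻¹ with hs
  have hs1 : s * (1 + r) = 1 := by rw [← hun]; exact Units.inv_mul un
  set w : C := s * u with hw
  have hwv0 : w * v0 = g := by
    have e2 : g + r = (1 + r) * g := by rw [add_mul, one_mul, hrg]
    rw [hw, mul_assoc, huv0, e2, ← mul_assoc, hs1, one_mul]
  have hwg : w * g = w := by rw [hw, mul_assoc, hug]
  have hl : l ≠ 0 := by
    rintro rfl
    rw [zero_smul, zero_add] at hv0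
    apply hbig
    rw [← hwv0, hv0]
    exact hk.mul_left _
  obtain ⟨m, a, b, hab⟩ := hk
  let W : Submodule ℂ C := Submodule.span ℂ (Set.range fun i => g * a i * e)
  have hWfin : FiniteDimensional ℂ W := FiniteDimensional.span_of_finite ℂ (Set.finite_range _)
  have hWe : ∀ x ∈ W, x * e = x := by
    intro x hx
    induction hx using Submodule.span_induction with
    | mem x hx => obtain ⟨i, rfl⟩ := hx; simp only [mul_assoc, he]
    | zero => rw [zero_mul]
    | add x y _ _ hx hy => rw [add_mul, hx, hy]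
    | smul c x _ hx => rw [smul_mul_assoc, hx]
  have hWg : ∀ x ∈ W, g * x = x := by
    intro x hx
    induction hx using Submodule.span_induction with
    | mem x hx => obtain ⟨i, rfl⟩ := hx; simp only [← mul_assoc, hg]
    | zero => rw [mul_zero]
    | add x y _ _ hx hy => rw [mul_add, hx, hy]
    | smul c x _ hx => rw [mul_smul_comm, hx]
  have hgk' : k = ∑ i, g * a i * e * b i := by
    conv_lhs => rw [← hgk, hab]
    simp only [Finset.mul_sum, mul_assoc]
  have hkW : ∀ x ∈ W, k * x ∈ W := by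
    intro x hx
    rw [hgk', Finset.sum_mul]
    refine Submodule.sum_mem _ fun i _ => ?_
    obtain ⟨c, hc⟩ := hmin (b i * x)
    have : g * a i * e * b i * x = c • (g * a i * e) := by
      calc g * a i * e * b i * x = g * a i * e * b i * (x * e) := by rw [hWe x hx]
        _ = g * a i * (e * (b i * x) * e) := by simp only [mul_assoc]
        _ = c • (g * a i * e) := by rw [hc, mul_smul_comm]
    rw [this]
    exact Submodule.smul_mem _ _ (Submodule.subset_span ⟨i, rfl⟩)
  have hvW : ∀ x ∈ W, v0 * x ∈ W := by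
    intro x hx
    rw [hv0, add_mul, smul_mul_assoc, hWg x hx]
    exact Submodule.add_mem _ (Submodule.smul_mem _ _ hx) (hkW x hx)
  let T : W →ₗ[ℂ] W := (LinearMap.mulLeft ℂ v0).restrict hvW
  have hTinj : Function.Injective T := by
    rw [injective_iff_map_eq_zero]
    intro x hx
    have h1 : v0 * (x : C) = 0 := congrArg Subtype.val hx
    have h2 : (x : C) = 0 := by
      rw [← hWg x x.2, ← hwv0, mul_assoc, h1, mul_zero]
    exact Subtype.ext h2
  have hTsurj : Function.Surjective T := LinearMap.injective_iff_surjective.mp hTinj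
  have hβ : ∀ i, ∃ β : C, v0 * β = g * a i * e := by
    intro i
    obtain ⟨x, hx⟩ := hTsurj ⟨g * a i * e, Submodule.subset_span ⟨i, rfl⟩⟩
    exact ⟨x, congrArg Subtype.val hx⟩
  choose β hβ using hβ
  set t : C := l⁻¹ • (g - ∑ i, β i * b i) with ht
  have hv0t : v0 * t = g := by
    have h1 : v0 * ∑ i, β i * b i = k := by
      rw [hgk', Finset.mul_sum]
      exact Finset.sum_congr rfl fun i _ => by rw [← mul_assoc, hβ]
    rw [ht, mul_smul_comm, mul_sub, h1, hv0g, hv0]
    have : l • g + k - k = l • g := by abel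
    rw [this, smul_smul, inv_mul_cancel₀ hl, one_smul]
  have hwgt : w = g * t := by
    rw [← hwv0, mul_assoc, hv0t, hwg]
  have hv0w : v0 * w = g := by rw [hwgt, ← mul_assoc, hv0g, hv0t]
  have hLu : v0 * s * u = g := by rw [mul_assoc]; exact hv0w
  have hfin : v * u = g := by
    calc v * u = g * v * u := by rw [hgv]
      _ = (v0 * s * u) * v * u := by rw [hLu]
      _ = v0 * s * (u * v) * u := by simp only [mul_assoc]
      _ = v0 * s * (g * u) := by rw [huv, mul_assoc]
      _ = g := by rw [hgu, hLu]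
  rw [hfin] at hvu
  exact (sub_eq_self.mp hvu.symm)

/-- Kaplansky: every idempotent of a C*-algebra is equivalent to a projection. -/
theorem kaplansky {f : C} (hf : f * f = f) :
    ∃ p : C, p * p = p ∧ star p = p ∧ f * p = p ∧ p * f = f ∧ ∃ c, p = f * c := by
  have hf' : star f * star f = star f := by rw [← star_mul, hf]
  set d : C := f - star f with hd
  have hu : IsUnit (1 + star d * d) := by
    have h1 : (-1 : ℝ) ∉ spectrum ℝ (star d * d) := by
      intro h
      have := spectrum_star_mul_self_nonneg (b := d) (-1) h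
      norm_num at this
    rw [spectrum.notMem_iff] at h1
    have h2 : 1 + star d * d = -(algebraMap ℝ C (-1) - star d * d) := by
      rw [map_neg, map_one]; abel
    rw [h2]
    exact h1.neg
  obtain ⟨z, hz⟩ := hu
  have hzx : (z : C) = 1 + star f * f - star f - f + f * star f := by
    rw [hz, hd, star_sub, star_star]
    simp only [mul_sub, sub_mul, hf, hf']
    abel
  have h1 : f * z = f * star f * f := by
    rw [hzx]
    simp only [mul_sub, mul_add, mul_one, ← mul_assoc, hf]
    abel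
  have h2 : z * f = f * star f * f := by
    rw [hzx]
    simp only [sub_mul, add_mul, one_mul, mul_assoc, hf]
    abel
  have h3 : star f * z = z * star f := by
    have hzs : star (z : C) = z := by
      rw [hz]
      simp
    have := congrArg star (h2.trans h1.symm)
    rw [star_mul, star_mul, hzs] at this
    exact this
  have hcomm : (z : C) * (f * star f) = f * star f * z := by
    rw [← mul_assoc, h2, ← h1, mul_assoc, ← h3, mul_assoc]
  have hcomm' : (↑z⁻¹ : C) * (f * star f) = f * star f * ↑z⁻¹ := by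
    calc (↑z⁻¹ : C) * (f * star f) = ↑z⁻¹ * (f * star f * ↑z) * ↑z⁻¹ := by
          rw [mul_assoc _ _ (↑z⁻¹ : C), mul_assoc (f * star f), Units.mul_inv, mul_one]
      _ = ↑z⁻¹ * (↑z * (f * star f)) * ↑z⁻¹ := by rw [hcomm]
      _ = f * star f * ↑z⁻¹ := by rw [← mul_assoc, Units.inv_mul, one_mul]
  have hzinvs : star (↑z⁻¹ : C) = ↑z⁻¹ := by
    have hzs : star (z : C) = z := by
      rw [hz]
      simp
    have e1 : star (↑z⁻¹ : C) * z = 1 := by
      have := congrArg star (Units.mul_inv z)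
      rwa [star_mul, hzs, star_one] at this
    calc star (↑z⁻¹ : C) = star (↑z⁻¹ : C) * (z * ↑z⁻¹) := by rw [Units.mul_inv, mul_one]
      _ = ↑z⁻¹ := by rw [← mul_assoc, e1, one_mul]
  refine ⟨f * star f * ↑z⁻¹, ?_, ?_, ?_, ?_, star f * ↑z⁻¹, by rw [mul_assoc]⟩
  · calc f * star f * ↑z⁻¹ * (f * star f * ↑z⁻¹)
        = (↑z⁻¹ * (f * star f)) * (f * star f * ↑z⁻¹) := by rw [hcomm']
      _ = ↑z⁻¹ * (f * star f * f) * star f * ↑z⁻¹ := by simp only [mul_assoc]
      _ = (↑z⁻¹ * ↑z) * f * star f * ↑z⁻¹ := by rw [← h2]; simp only [mul_assoc]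
      _ = f * star f * ↑z⁻¹ := by rw [Units.inv_mul, one_mul]
  · rw [star_mul, star_mul, star_star, hzinvs]
    exact hcomm'
  · rw [← mul_assoc, ← mul_assoc, hf]
  · rw [← hcomm', mul_assoc, ← h2, ← mul_assoc, Units.inv_mul, one_mul]

/-- Classes of idempotents of an ideal of a C*-algebra. -/
structure ClassSys (C : Type*) [Ring C] (M : Type*) [AddCommMonoid M] where
  /-- the ideal -/
  J : Set C
  /-- the classes -/
  Cl : C → M → Prop
  mul_mem : ∀ c q d, q ∈ J → c * q * d ∈ J
  sub_mem : ∀ q q', q ∈ J → q' ∈ J → q - q' ∈ J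
  mem : ∀ q c, Cl q c → q ∈ J
  idem : ∀ q c, Cl q c → q * q = q
  exists_cl : ∀ q, q ∈ J → q * q = q → ∃ c, Cl q c
  unique : ∀ q c c', Cl q c → Cl q c' → c = c'
  equiv : ∀ q q' u v c, Cl q c → q' ∈ J → q' * q' = q' → u * v = q → v * u = q' → Cl q' c
  equiv' : ∀ q q' c, Cl q c → Cl q' c → ∃ u v, u * v = q ∧ v * u = q'
  add : ∀ q q' c c', Cl q c → Cl q' c' → q * q' = 0 → q' * q = 0 → Cl (q + q') (c + c')
  split : ∀ q a b, Cl q (a + b) → ∃ q1 q2, Cl q1 a ∧ Cl q2 b ∧ q1 * q2 = 0 ∧ q2 * q1 = 0 ∧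
    q1 + q2 = q
  fin : ∀ k e c a, Cl k c → Cl e a → ((∃ (m : ℕ) (t : M), c + t = m • a) ↔ FRk e k)
  zero : ∀ q, Cl q 0 → q = 0
  zero' : ∀ c, Cl 0 c → c = 0

/-- **The C*-side.** -/
theorem no_badPair_aux {M : Type*} [AddCommMonoid M] (𝓢 : ClassSys C M)
    (hD : DProp (1 : C)) {a x : M} (hbad : BadPair a x) {g0 : C} (hg0 : 𝓢.Cl g0 x) : False := by
  -- a projection of class `x`
  obtain ⟨g, hg, hg', hgg0, hg0g, c, hc⟩ := kaplansky (𝓢.idem _ _ hg0)
  have hgJ : g ∈ 𝓢.J := by
    have := 𝓢.mul_mem 1 g0 c (𝓢.mem _ _ hg0)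
    rwa [one_mul, ← hc] at this
  have hgx : 𝓢.Cl g x := 𝓢.equiv g0 g g g0 x hg0 hgJ hg hg0g hgg0
  -- splitting
  obtain ⟨g1, e1, hg1, he1, h1e, he1', hsum⟩ := 𝓢.split g x a (by
    have := hbad.absorb
    rwa [← this])
  have hg1i := 𝓢.idem _ _ hg1
  have he1i := 𝓢.idem _ _ he1
  -- a projection of class `a`
  obtain ⟨e, he, he', hee1, he1e, c', hc'⟩ := kaplansky he1i
  have heJ : e ∈ 𝓢.J := by
    have := 𝓢.mul_mem 1 e1 c' (𝓢.mem _ _ he1)
    rwa [one_mul, ← hc'] at this
  have hea : 𝓢.Cl e a := 𝓢.equiv e1 e e e1 a he1 heJ he he1e hee1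
  -- minimality
  have hsub : ∀ p q : C, p * p = p → q * q = q → p * q = q → q * p = q →
      (p - q) * (p - q) = p - q := by
    intro p q h1 h2 h3 h4
    rw [sub_mul, mul_sub, mul_sub, h1, h2, h3, h4]; abel
  have hdec : ∀ (p : C) (y : M), 𝓢.Cl p y → ∀ q, q * q = q → p * q = q → q * p = q →
      ∃ b b', 𝓢.Cl q b ∧ 𝓢.Cl (p - q) b' ∧ y = b + b' := by
    intro p y hp q hq hpq hqp
    have hpi := 𝓢.idem _ _ hp
    have hpJ := 𝓢.mem _ _ hp
    have hqJ : q ∈ 𝓢.J := by
      have := 𝓢.mul_mem 1 p q hpJ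
      rwa [one_mul, hpq] at this
    obtain ⟨b, hb⟩ := 𝓢.exists_cl q hqJ hq
    obtain ⟨b', hb'⟩ := 𝓢.exists_cl (p - q) (𝓢.sub_mem _ _ hpJ hqJ) (hsub p q hpi hq hpq hqp)
    refine ⟨b, b', hb, hb', ?_⟩
    have h1 := 𝓢.add q (p - q) b b' hb hb' (by rw [mul_sub, hqp, hq, sub_self])
      (by rw [sub_mul, hpq, hq, sub_self])
    have h2 : q + (p - q) = p := by abel
    rw [h2] at h1
    exact 𝓢.unique _ _ _ hp h1
  have hmin : ∀ q, q * q = q → e * q = q → q * e = q → q = 0 ∨ q = e := by
    intro q hq h1 h2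
    obtain ⟨b, b', hb, hb', hab⟩ := hdec e a hea q hq h1 h2
    rcases hbad.atom b b' hab with h | h
    · left; rw [h] at hb; exact 𝓢.zero _ hb
    · right; rw [h] at hb'; exact (sub_eq_zero.mp (𝓢.zero _ hb')).symm
  have hminc := minimal_corner he he' (hD.corner he he') hmin
  have hdich : ∀ q, q * q = q → g * q = q → q * g = q → FRk e q ∨ FRk e (g - q) := by
    intro q hq h1 h2
    obtain ⟨b, b', hb, hb', hab⟩ := hdec g x hgx q hq h1 h2
    rcases hbad.dich b b' hab with h | h
    · exact Or.inl ((𝓢.fin _ _ _ _ hb hea).mp h)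
    · exact Or.inr ((𝓢.fin _ _ _ _ hb' hea).mp h)
  have hbig : ¬ FRk e g := fun h => hbad.big ((𝓢.fin _ _ _ _ hgx hea).mpr h)
  -- the isometry
  obtain ⟨u, v, huv, hvu⟩ := 𝓢.equiv' g g1 x hgx hg1
  have hgg1 : g * g1 = g1 := by rw [← hsum, add_mul, hg1i, he1', add_zero]
  have hg1g : g1 * g = g1 := by rw [← hsum, mul_add, hg1i, h1e, add_zero]
  have huv' : (g * u * g1) * (g1 * v * g) = g := by
    calc (g * u * g1) * (g1 * v * g) = g * u * (g1 * g1) * v * g := by simp only [mul_assoc]
      _ = g * (u * v) * (u * v) * g := by rw [hg1i, ← hvu]; simp only [mul_assoc]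
      _ = g := by rw [huv, hg, hg, hg]
  have hvu' : (g1 * v * g) * (g * u * g1) = g1 := by
    calc (g1 * v * g) * (g * u * g1) = g1 * v * (g * g) * u * g1 := by simp only [mul_assoc]
      _ = g1 * (v * u) * (v * u) * g1 := by rw [hg, ← huv]; simp only [mul_assoc]
      _ = g1 := by rw [hvu, hg1i, hg1i, hg1i]
  have hend : e1 = 0 := by
    refine endgame (g := g) (e := e) (u := g * u * g1) (v := g1 * v * g) hg he hminc hbig
      ?_ ?_ ?_ ?_ huv' ?_ ?_
    · rw [← mul_assoc, ← mul_assoc, hg]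
    · rw [mul_assoc, hg1g]
    · rw [← mul_assoc, ← mul_assoc, hgg1]
    · rw [mul_assoc, hg]
    · rw [hvu', ← hsum]; abel
    · intro ε hε
      exact approx_gen hg hg' (hD.corner hg hg') hdich
        (by rw [← mul_assoc, ← mul_assoc, hgg1]) (by rw [mul_assoc, hg]) hε
  rw [hend] at he1
  exact hbad.ne (𝓢.zero' _ he1)

end

end Pool.Agent.Lib_helper8.V53
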