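import Pool.Agent.Lib_helper8.V53.PartII
import Pool.Agent.Lib_helper8.V53.MatSide

set_option autoImplicit false

/-!
# Nonstable K-theory of regular rings versus real rank zero C*-algebras

Neither of the inclusions `C_reg ⊆ C_RR0` and `C_RR0 ⊆ C_reg` holds:

* there is a (unital, countable) regular ring `R` such that `V(R)` is not isomorphic to `V(A)` for
  any C*-algebra `A` of real rank zero;
* there is a (unital) C*-algebra `A` of real rank zero such that `V(A)` is not isomorphic to `V(R)`
  for any regular ring `R`.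

The definitions (in `Pool/Agent/Lib_helper8/V53`): `IsVNRegular R` is von Neumann regularity;
`RealRankZero A` says that every self-adjoint element of the unitization is a limit of self-adjoint
elements with finite spectrum; `V R` is the monoid of classes of idempotent matrices over `R`, where
`e ∼ f` (`MEquiv e f`) means `e = x y`, `f = y x` for rectangular matrices `x`, `y`, with
block-diagonal addition.  `mEquiv_iff_square` below says that this is the same as the equivalence
of `e` and `f` by square matrices inside `M_∞(R)`.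
-/

namespace Pool.Agent.Lib_helper8.V53.IncomparableQ1

open Pool.Agent.Lib_helper8.V53

universe u v

/-! ### The equivalence of idempotents is the one of `M_∞(R)` -/

section square

variable {R : Type u} [NonUnitalRing R]

/-- the image of an `m × m` matrix in `M_N(R)` under the upper left corner embedding -/
def pad {m : ℕ} (N : ℕ) (e : Matrix (Fin m) (Fin m) R) : Matrix (Fin N) (Fin N) R :=
  Matrix.of fun i j => if h : (i : ℕ) < m ∧ (j : ℕ) < m then e ⟨i, h.1⟩ ⟨j, h.2⟩ else 0

theorem sum_dite_lt {m N : ℕ} (hmN : m ≤ N) (F : Fin m → R) :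
    ∑ k : Fin N, (if h : (k : ℕ) < m then F ⟨k, h⟩ else 0) = ∑ k : Fin m, F k := by
  rw [Fin.sum_univ_eq_sum_range (fun k => if h : k < m then F ⟨k, h⟩ else 0) N,
    ← Finset.sum_subset (Finset.range_mono hmN) (by
      intro k _ hk
      rw [Finset.mem_range] at hk
      rw [dif_neg hk]), ← Fin.sum_univ_eq_sum_range (fun k => if h : k < m then F ⟨k, h⟩ else 0) m]
  exact Finset.sum_congr rfl fun k _ => by rw [dif_pos k.2]

theorem mEquiv_pad {m N : ℕ} (hmN : m ≤ N) {e : Matrix (Fin m) (Fin m) R} (he : e * e = e) :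
    MEquiv e (pad N e) := by
  refine ⟨Matrix.of fun i j => if h : (j : ℕ) < m then e i ⟨j, h⟩ else 0,
    Matrix.of fun i j => if h : (i : ℕ) < m then e ⟨i, h⟩ j else 0, ?_, ?_⟩
  · ext i j
    rw [Matrix.mul_apply, ← congrFun (congrFun he i) j, Matrix.mul_apply,
      ← sum_dite_lt hmN]
    refine Finset.sum_congr rfl fun k _ => ?_
    by_cases h : (k : ℕ) < m <;> simp [h]
  · ext i j
    rw [Matrix.mul_apply]
    by_cases hi : (i : ℕ) < m <;> by_cases hj : (j : ℕ) < m
    · simp only [Matrix.of_apply, hi, hj, dif_pos, pad, and_self]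
      exact (congrFun (congrFun he ⟨i, hi⟩) ⟨j, hj⟩)
    all_goals simp [pad, hi, hj]

theorem pad_idem {m N : ℕ} (hmN : m ≤ N) {e : Matrix (Fin m) (Fin m) R} (he : e * e = e) :
    pad N e * pad N e = pad N e := by
  ext i j
  rw [Matrix.mul_apply]
  by_cases hi : (i : ℕ) < m <;> by_cases hj : (j : ℕ) < m
  · have h1 : pad N e i j = ∑ k : Fin m, e ⟨i, hi⟩ k * e k ⟨j, hj⟩ := by
      rw [← Matrix.mul_apply, he]
      simp [pad, hi, hj]
    rw [h1, ← sum_dite_lt hmN]
    refine Finset.sum_congr rfl fun k _ => ?_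
    by_cases h : (k : ℕ) < m <;> simp [pad, h, hi, hj]
  all_goals simp [pad, hi, hj]

/-- Equivalence by rectangular matrices is the same as equivalence by square matrices of a large
size, i.e. equivalence in `M_∞(R) = ⋃ M_N(R)`. -/
theorem mEquiv_iff_square {m n : ℕ} {e : Matrix (Fin m) (Fin m) R}
    {f : Matrix (Fin n) (Fin n) R} (he : e * e = e) (hf : f * f = f) :
    MEquiv e f ↔ ∃ N, m ≤ N ∧ n ≤ N ∧ ∃ x y : Matrix (Fin N) (Fin N) R,
      x * y = pad N e ∧ y * x = pad N f := by
  constructor
  · intro h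
    refine ⟨max m n, le_max_left _ _, le_max_right _ _, ?_⟩
    have h1 := mEquiv_pad (le_max_left m n) he
    have h2 := mEquiv_pad (le_max_right m n) hf
    exact (h1.symm.trans (pad_idem (le_max_left m n) he) hf h).trans
      (pad_idem (le_max_left m n) he) (pad_idem (le_max_right m n) hf) h2
  · rintro ⟨N, hm, hn, x, y, h1, h2⟩
    have h3 : MEquiv (pad N e) (pad N f) := ⟨x, y, h1, h2⟩
    exact ((mEquiv_pad hm he).trans he (pad_idem hn hf) h3).trans he hf (mEquiv_pad hn hf).symm

end square

/-- **Neither of the inclusions `C_reg ⊆ C_RR0` and `C_RR0 ⊆ C_reg` holds.** -/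
theorem result :
    (∃ (R : Type) (_ : Ring R), IsVNRegular R ∧
      ∀ (A : Type u) [NonUnitalCStarAlgebra A], RealRankZero A → IsEmpty (V R ≃+ V A)) ∧
    (∃ (A : Type) (_ : NonUnitalCStarAlgebra A), RealRankZero A ∧
      ∀ (R : Type v) [NonUnitalRing R], IsVNRegular R → IsEmpty (V R ≃+ V A)) := by
  refine ⟨⟨BB, inferInstance, BB_regular, ?_⟩, partII⟩
  intro A _ hA
  refine ⟨fun Φ => ?_⟩
  refine no_badPair hA (Φ (clsE e0 e0_idem)) (Φ (clsE (1 : BB) (one_mul 1))) ?_
  have h := BB_bad
  refine ⟨?_, ?_, ?_, ?_, ?_⟩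
  · intro h0
    exact h.ne ((map_eq_zero_iff Φ Φ.injective).mp h0)
  · intro b c hbc
    have := h.atom (Φ.symm b) (Φ.symm c) (by rw [← map_add, ← hbc, Φ.symm_apply_apply])
    rcases this with h1 | h1
    · left; exact (map_eq_zero_iff Φ.symm Φ.symm.injective).mp h1
    · right; exact (map_eq_zero_iff Φ.symm Φ.symm.injective).mp h1
  · rw [← map_add, ← h.absorb]
  · intro y z hyz
    have := h.dich (Φ.symm y) (Φ.symm z) (by rw [← map_add, ← hyz, Φ.symm_apply_apply])
    rcases this with ⟨m, t, h1⟩ | ⟨m, t, h1⟩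
    · left
      refine ⟨m, Φ t, ?_⟩
      rw [← map_nsmul, ← h1, map_add, Φ.apply_symm_apply]
    · right
      refine ⟨m, Φ t, ?_⟩
      rw [← map_nsmul, ← h1, map_add, Φ.apply_symm_apply]
  · rintro ⟨m, t, h1⟩
    apply h.big
    refine ⟨m, Φ.symm t, ?_⟩
    apply Φ.injective
    rw [map_add, Φ.apply_symm_apply, map_nsmul, h1]

end Pool.Agent.Lib_helper8.V53.IncomparableQ1
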