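import Pool.Agent.Lib_helper8.V53.VMon
import Pool.Agent.Lib_helper8.V53.DimCone

set_option autoImplicit false

/-!
# Local-global principle for `V` over a compact totally disconnected space
-/

namespace Pool.Agent.Lib_helper8.V53

open TopologicalSpace Topology

universe u v

section space

variable {Y : Type v} [TopologicalSpace Y] [CompactSpace Y]

/-- Induction over clopen sets. -/
theorem clopens_induction (S : Clopens Y → Prop) (h0 : S ⊥)
    (hmono : ∀ W W', W ≤ W' → S W' → S W)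
    (hunion : ∀ W W', Disjoint W W' → S W → S W' → S (W ⊔ W'))
    (hloc : ∀ y, ∃ W : Clopens Y, y ∈ W ∧ S W) : S ⊤ := by
  have h : ∃ W : Clopens Y, (Set.univ : Set Y) ⊆ (W : Set Y) ∧ S W := by
    refine isCompact_univ.induction_on
      (p := fun s => ∃ W : Clopens Y, s ⊆ (W : Set Y) ∧ S W) ?_ ?_ ?_ ?_
    · exact ⟨⊥, Set.empty_subset _, h0⟩
    · rintro s t hst ⟨W, hW, hS⟩
      exact ⟨W, hst.trans hW, hS⟩
    · rintro s t ⟨W, hW, hS⟩ ⟨W', hW', hS'⟩
      refine ⟨W ⊔ (W' \ W), ?_, hunion _ _ disjoint_sdiff_self_right hS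
        (hmono _ W' sdiff_le hS')⟩
      rw [sup_sdiff_self_right]
      exact Set.union_subset_union hW hW'
    · intro y _
      obtain ⟨W, hy, hS⟩ := hloc y
      exact ⟨W, mem_nhdsWithin_of_mem_nhds (W.isClopen.isOpen.mem_nhds hy), W,
        Set.Subset.rfl, hS⟩
  obtain ⟨W, hW, hS⟩ := h
  have : W = ⊤ := by
    apply top_unique
    intro y _
    exact hW (Set.mem_univ y)
  rwa [this] at hS

end space

/-- a system of cuts of a commutative monoid `M` over clopen sets -/
structure CutSys (Y : Type v) [TopologicalSpace Y] (M : Type u) [AddCommMonoid M] where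
  /-- the cuts -/
  r : Clopens Y → (M →+ M)
  inf : ∀ W W' a, r (W ⊓ W') a = r W (r W' a)
  sup : ∀ W W' a, Disjoint W W' → r (W ⊔ W') a = r W a + r W' a
  top : ∀ a, r ⊤ a = a
  bot : ∀ a, r ⊥ a = 0

section

variable {Y : Type v} [TopologicalSpace Y] {M : Type u} [AddCommMonoid M]

theorem CutSys.self (R : CutSys Y M) (W : Clopens Y) (a : M) : R.r W (R.r W a) = R.r W a := by
  rw [← R.inf, inf_idem]

theorem CutSys.le (R : CutSys Y M) {W W' : Clopens Y} (h : W ≤ W') (a : M) :
    R.r W (R.r W' a) = R.r W a := by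
  rw [← R.inf, inf_of_le_left h]

theorem CutSys.disj (R : CutSys Y M) {W W' : Clopens Y} (h : Disjoint W W') (a : M) :
    R.r W (R.r W' a) = 0 := by
  rw [← R.inf, h.eq_bot, R.bot]

/-- patching -/
theorem CutSys.patch (R : CutSys Y M) {W W' : Clopens Y} (h : Disjoint W W') (a b : M) :
    R.r W (R.r W a + R.r W' b) = R.r W a ∧ R.r W' (R.r W a + R.r W' b) = R.r W' b := by
  constructor
  · rw [map_add, R.self, R.disj h, add_zero]
  · rw [map_add, R.self, R.disj h.symm, zero_add]

variable [CompactSpace Y]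

/-- Equality is local. -/
theorem CutSys.ext (R : CutSys Y M) {a b : M}
    (h : ∀ y, ∃ W : Clopens Y, y ∈ W ∧ R.r W a = R.r W b) : a = b := by
  have := clopens_induction (fun W => R.r W a = R.r W b) (by rw [R.bot, R.bot])
    (fun W W' hW hS => by rw [← R.le hW a, ← R.le hW b, hS])
    (fun W W' hd hS hS' => by rw [R.sup _ _ _ hd, R.sup _ _ _ hd, hS, hS']) h
  rwa [R.top, R.top] at this

/-- **Local-global principle.** -/
theorem CutSys.nice (R : CutSys Y M)
    (hloc : ∀ y : Y, ∃ (N : Type) (_ : AddCommMonoid N) (e : M →+ N), Function.Surjective e ∧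
      NiceMon N ∧ ∀ a b, e a = e b → ∃ W : Clopens Y, y ∈ W ∧ R.r W a = R.r W b) :
    NiceMon M where
  cancel a b c h := by
    refine R.ext fun y => ?_
    obtain ⟨N, _, e, -, hN, hg⟩ := hloc y
    exact hg a b (hN.cancel _ _ (e c) (by rw [← map_add, ← map_add, h]))
  conical a b h := by
    refine R.ext fun y => ?_
    obtain ⟨N, _, e, -, hN, hg⟩ := hloc y
    refine hg a 0 ?_
    rw [map_zero]
    exact hN.conical _ (e b) (by rw [← map_add, h, map_zero])
  unperf n a b c hn h := by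
    have key := clopens_induction (fun W => ∃ d, R.r W (a + d) = R.r W b)
      ⟨0, by rw [R.bot, R.bot]⟩
      (fun W W' hW => by
        rintro ⟨d, hd⟩
        exact ⟨d, by rw [← R.le hW (a + d), ← R.le hW b, hd]⟩)
      (fun W W' hd => by
        rintro ⟨d, h1⟩ ⟨d', h2⟩
        refine ⟨R.r W d + R.r W' d', ?_⟩
        rw [R.sup _ _ _ hd, R.sup _ _ _ hd, map_add, map_add (R.r W') a, (R.patch hd d d').1,
          (R.patch hd d d').2, ← map_add, ← map_add, h1, h2])
      (fun y => by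
        obtain ⟨N, _, e, hs, hN, hg⟩ := hloc y
        obtain ⟨d, hd⟩ := hN.unperf n (e a) (e b) (e c) hn (by
          rw [← map_nsmul, ← map_nsmul, ← map_add, h])
        obtain ⟨d, rfl⟩ := hs d
        obtain ⟨W, hy, hW⟩ := hg (a + d) b (by rw [map_add, hd])
        exact ⟨W, hy, d, hW⟩)
    obtain ⟨d, hd⟩ := key
    exact ⟨d, by rwa [R.top, R.top] at hd⟩
  refine a b c d h := by
    have key := clopens_induction (fun W => ∃ w x y z, R.r W (w + x) = R.r W a ∧
        R.r W (y + z) = R.r W b ∧ R.r W (w + y) = R.r W c ∧ R.r W (x + z) = R.r W d)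
      ⟨0, 0, 0, 0, by simp only [R.bot], by simp only [R.bot], by simp only [R.bot],
        by simp only [R.bot]⟩
      (fun W W' hW => by
        rintro ⟨w, x, y, z, h1, h2, h3, h4⟩
        refine ⟨w, x, y, z, ?_, ?_, ?_, ?_⟩
        · rw [← R.le hW, h1, R.le hW]
        · rw [← R.le hW, h2, R.le hW]
        · rw [← R.le hW, h3, R.le hW]
        · rw [← R.le hW, h4, R.le hW])
      (fun W W' hd => by
        rintro ⟨w, x, y, z, h1, h2, h3, h4⟩ ⟨w', x', y', z', h1', h2', h3', h4'⟩
        refine ⟨R.r W w + R.r W' w', R.r W x + R.r W' x', R.r W y + R.r W' y',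
          R.r W z + R.r W' z', ?_, ?_, ?_, ?_⟩
        · rw [R.sup _ _ _ hd, R.sup _ _ _ hd, map_add, map_add (R.r W'), (R.patch hd _ _).1,
            (R.patch hd _ _).2, (R.patch hd _ _).1, (R.patch hd _ _).2, ← map_add, ← map_add,
            h1, h1']
        · rw [R.sup _ _ _ hd, R.sup _ _ _ hd, map_add, map_add (R.r W'), (R.patch hd _ _).1,
            (R.patch hd _ _).2, (R.patch hd _ _).1, (R.patch hd _ _).2, ← map_add, ← map_add,
            h2, h2']
        · rw [R.sup _ _ _ hd, R.sup _ _ _ hd, map_add, map_add (R.r W'), (R.patch hd _ _).1,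
            (R.patch hd _ _).2, (R.patch hd _ _).1, (R.patch hd _ _).2, ← map_add, ← map_add,
            h3, h3']
        · rw [R.sup _ _ _ hd, R.sup _ _ _ hd, map_add, map_add (R.r W'), (R.patch hd _ _).1,
            (R.patch hd _ _).2, (R.patch hd _ _).1, (R.patch hd _ _).2, ← map_add, ← map_add,
            h4, h4'])
      (fun p => by
        obtain ⟨N, _, e, hs, hN, hg⟩ := hloc p
        obtain ⟨w, x, y, z, h1, h2, h3, h4⟩ := hN.refine (e a) (e b) (e c) (e d) (by
          rw [← map_add, ← map_add, h])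
        obtain ⟨w, rfl⟩ := hs w
        obtain ⟨x, rfl⟩ := hs x
        obtain ⟨y, rfl⟩ := hs y
        obtain ⟨z, rfl⟩ := hs z
        obtain ⟨W1, m1, k1⟩ := hg (w + x) a (by rw [map_add, h1])
        obtain ⟨W2, m2, k2⟩ := hg (y + z) b (by rw [map_add, h2])
        obtain ⟨W3, m3, k3⟩ := hg (w + y) c (by rw [map_add, h3])
        obtain ⟨W4, m4, k4⟩ := hg (x + z) d (by rw [map_add, h4])
        have l1 : W1 ⊓ W2 ⊓ (W3 ⊓ W4) ≤ W1 := inf_le_left.trans inf_le_left
        have l2 : W1 ⊓ W2 ⊓ (W3 ⊓ W4) ≤ W2 := inf_le_left.trans inf_le_right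
        have l3 : W1 ⊓ W2 ⊓ (W3 ⊓ W4) ≤ W3 := inf_le_right.trans inf_le_left
        have l4 : W1 ⊓ W2 ⊓ (W3 ⊓ W4) ≤ W4 := inf_le_right.trans inf_le_right
        refine ⟨W1 ⊓ W2 ⊓ (W3 ⊓ W4), ⟨⟨m1, m2⟩, ⟨m3, m4⟩⟩, w, x, y, z, ?_, ?_, ?_, ?_⟩
        · rw [← R.le l1, k1, R.le l1]
        · rw [← R.le l2, k2, R.le l2]
        · rw [← R.le l3, k3, R.le l3]
        · rw [← R.le l4, k4, R.le l4])
    obtain ⟨w, x, y, z, h1, h2, h3, h4⟩ := key
    rw [R.top, R.top] at h1 h2 h3 h4
    exact ⟨w, x, y, z, h1, h2, h3, h4⟩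

end

/-! ### Functoriality of `V` -/

section func

variable {R : Type*} {S : Type*} {T : Type*} [NonUnitalRing R] [NonUnitalRing S]
  [NonUnitalRing T]

theorem V.map_map (φ : S →ₙ+* T) (ψ : R →ₙ+* S) (a : V R) :
    V.map φ (V.map ψ a) = V.map (φ.comp ψ) a := by
  obtain ⟨n, e, he, rfl⟩ := a.exists_rep
  rw [V.map_cls, V.map_cls, V.map_cls]
  exact cls_congr rfl _ _

theorem V.map_id (a : V R) : V.map (NonUnitalRingHom.id R) a = a := by
  obtain ⟨n, e, he, rfl⟩ := a.exists_rep
  rw [V.map_cls]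
  exact cls_congr rfl _ _

theorem V.map_eq_id {φ : R →ₙ+* R} (h : ∀ a, φ a = a) (a : V R) : V.map φ a = a := by
  have : φ = NonUnitalRingHom.id R := by ext x; exact h x
  rw [this, V.map_id]

theorem V.map_eq_zero {φ : R →ₙ+* S} (h : ∀ a, φ a = 0) (a : V R) : V.map φ a = 0 := by
  obtain ⟨n, e, he, rfl⟩ := a.exists_rep
  rw [V.map_cls, ← cls_zero (ι := Fin n)]
  exact cls_congr (by ext i j; exact h _) _ _

end func

/-! ### Rings with central idempotents over clopen sets -/

/-- a ring with a compatible system of central idempotents indexed by the clopen sets -/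
structure Fibred (Y : Type v) [TopologicalSpace Y] (A : Type u) [Ring A] where
  /-- the central idempotents -/
  χ : Clopens Y → A
  comm : ∀ W a, χ W * a = a * χ W
  inf : ∀ W W', χ (W ⊓ W') = χ W * χ W'
  sup : ∀ W W', Disjoint W W' → χ (W ⊔ W') = χ W + χ W'
  top : χ ⊤ = 1

section

variable {Y : Type v} [TopologicalSpace Y] {A : Type u} [Ring A] (F : Fibred Y A)

theorem Fibred.idem (W : Clopens Y) : F.χ W * F.χ W = F.χ W := by
  rw [← F.inf, inf_idem]

theorem Fibred.bot : F.χ ⊥ = 0 := by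
  have h := F.sup ⊥ ⊥ disjoint_bot_left
  rw [bot_sup_eq] at h
  exact left_eq_add.mp h

/-- cutting by a clopen set -/
def Fibred.cut (W : Clopens Y) : A →ₙ+* A where
  toFun a := F.χ W * a
  map_mul' a b := by
    have h := F.idem W
    calc F.χ W * (a * b) = F.χ W * F.χ W * a * b := by rw [h, mul_assoc]
      _ = F.χ W * (F.χ W * a) * b := by rw [mul_assoc (F.χ W) (F.χ W)]
      _ = F.χ W * (a * F.χ W) * b := by rw [F.comm W a]
      _ = F.χ W * a * (F.χ W * b) := by simp only [mul_assoc]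
  map_zero' := mul_zero _
  map_add' a b := mul_add _ _ _

theorem Fibred.cut_apply (W : Clopens Y) (a : A) : F.cut W a = F.χ W * a := rfl

/-- the cuts on `V` -/
def Fibred.cutSys : CutSys Y (V A) where
  r W := V.map (F.cut W)
  inf W W' a := by
    rw [V.map_map]
    congr 1
    have : F.cut (W ⊓ W') = (F.cut W).comp (F.cut W') := by
      ext x
      change F.χ (W ⊓ W') * x = F.χ W * (F.χ W' * x)
      rw [F.inf, mul_assoc]
    rw [this]
  sup W W' a h := by
    obtain ⟨n, e, he, rfl⟩ := a.exists_rep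
    rw [V.map_cls, V.map_cls, V.map_cls]
    have h0 : ∀ x y, F.cut W x * F.cut W' y = 0 := by
      intro x y
      rw [F.cut_apply, F.cut_apply]
      have : F.χ W * F.χ W' = 0 := by rw [← F.inf, h.eq_bot, F.bot]
      rw [F.comm W x, mul_assoc, ← mul_assoc (F.χ W), this, zero_mul, mul_zero]
    have h0' : ∀ x y, F.cut W' x * F.cut W y = 0 := by
      intro x y
      rw [F.cut_apply, F.cut_apply]
      have : F.χ W' * F.χ W = 0 := by rw [← F.inf, h.symm.eq_bot, F.bot]
      rw [F.comm W' x, mul_assoc, ← mul_assoc (F.χ W'), this, zero_mul, mul_zero]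
    rw [← cls_add (map_idem _ he) (map_idem _ he)]
    · refine cls_congr ?_ _ _
      ext i j
      change F.χ (W ⊔ W') * e i j = F.χ W * e i j + F.χ W' * e i j
      rw [F.sup _ _ h, add_mul]
    · ext i j
      rw [Matrix.mul_apply]
      exact Finset.sum_eq_zero fun k _ => h0 _ _
    · ext i j
      rw [Matrix.mul_apply]
      exact Finset.sum_eq_zero fun k _ => h0' _ _
  top a := V.map_eq_id (fun x => by rw [F.cut_apply, F.top, one_mul]) a
  bot a := V.map_eq_zero (fun x => by rw [F.cut_apply, F.bot, zero_mul]) a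

variable [CompactSpace Y]

/-- `V` of a ring with good local models is the cone of a dimension group. -/
theorem Fibred.nice
    (hloc : ∀ y : Y, ∃ (D : Type) (_ : Ring D) (ρ : A →ₙ+* D) (s : D →ₙ+* A),
      (∀ d, ρ (s d) = d) ∧ NiceMon (V D) ∧
      ∀ (n : ℕ) (p q : Matrix (Fin n) (Fin n) A), p * p = p → q * q = q →
        p.map ρ = q.map ρ → ∃ W : Clopens Y, y ∈ W ∧ MEquiv (p.map (F.cut W)) (q.map (F.cut W))) :
    NiceMon (V A) := by
  refine F.cutSys.nice fun y => ?_
  obtain ⟨D, _, ρ, s, hs, hN, hg⟩ := hloc y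
  refine ⟨V D, inferInstance, V.map ρ, ?_, hN, ?_⟩
  · intro d
    refine ⟨V.map s d, ?_⟩
    rw [V.map_map]
    exact V.map_eq_id hs d
  · intro a b hab
    have hsec : ∀ c : V A, ∃ W : Clopens Y, y ∈ W ∧
        F.cutSys.r W c = F.cutSys.r W (V.map s (V.map ρ c)) := by
      intro c
      obtain ⟨n, e, he, rfl⟩ := c.exists_rep
      obtain ⟨W, hy, hW⟩ := hg n e ((e.map ρ).map s) he (map_idem s (map_idem ρ he)) (by
        ext i j
        exact (hs _).symm)
      refine ⟨W, hy, ?_⟩
      rw [V.map_cls, V.map_cls]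
      change V.map (F.cut W) _ = V.map (F.cut W) _
      rw [V.map_cls, V.map_cls]
      exact cls_eq_iff.mpr hW
    obtain ⟨W, hy, hW⟩ := hsec a
    obtain ⟨W', hy', hW'⟩ := hsec b
    refine ⟨W ⊓ W', ⟨hy, hy'⟩, ?_⟩
    rw [← F.cutSys.le (inf_le_left : W ⊓ W' ≤ W) a, hW, F.cutSys.le inf_le_left,
      ← F.cutSys.le (inf_le_right : W ⊓ W' ≤ W') b, hW', F.cutSys.le inf_le_right, hab]

end

end Pool.Agent.Lib_helper8.V53
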