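import Mathlib

set_option autoImplicit false

/-!
# The rotating rank one projections in `M_2(ℂ)`
-/

namespace Pool.Agent.Lib_helper8.V53

open scoped ComplexOrder
open Matrix

noncomputable section

/-- `M_2(ℂ)` as a C*-algebra -/
abbrev M2 : Type := CStarMatrix (Fin 2) (Fin 2) ℂ

instance : FiniteDimensional ℂ M2 := inferInstanceAs (FiniteDimensional ℂ (Matrix (Fin 2) (Fin 2) ℂ))

/-- cosine -/
def cc (s : ℝ) : ℂ := (Real.cos (Real.pi * s / 2) : ℝ)
/-- sine -/
def ss (s : ℝ) : ℂ := (Real.sin (Real.pi * s / 2) : ℝ)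

theorem cc_ss (s : ℝ) : cc s ^ 2 + ss s ^ 2 = 1 := by
  unfold cc ss
  norm_cast
  rw [add_comm]
  exact Real.sin_sq_add_cos_sq _

theorem star_cc (s : ℝ) : star (cc s) = cc s := Complex.conj_ofReal _
theorem star_ss (s : ℝ) : star (ss s) = ss s := Complex.conj_ofReal _

theorem continuous_cc : Continuous cc := by unfold cc; fun_prop
theorem continuous_ss : Continuous ss := by unfold ss; fun_prop

/-- the projection onto the line spanned by `(cos (π s / 2), sin (π s / 2))` -/
def P (s : ℝ) : M2 := CStarMatrix.ofMatrix !![cc s ^ 2, cc s * ss s; cc s * ss s, ss s ^ 2]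

theorem M2.ext {x y : M2} (h00 : x 0 0 = y 0 0) (h01 : x 0 1 = y 0 1) (h10 : x 1 0 = y 1 0)
    (h11 : x 1 1 = y 1 1) : x = y := by
  refine CStarMatrix.ext fun i j => ?_
  fin_cases i <;> fin_cases j <;> assumption

theorem M2.mul_apply (x y : M2) (i j : Fin 2) : (x * y) i j = x i 0 * y 0 j + x i 1 * y 1 j := by
  rw [CStarMatrix.mul_apply, Fin.sum_univ_two]

theorem P00 (s : ℝ) : P s 0 0 = cc s ^ 2 := rfl
theorem P01 (s : ℝ) : P s 0 1 = cc s * ss s := rfl
theorem P10 (s : ℝ) : P s 1 0 = cc s * ss s := rfl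
theorem P11 (s : ℝ) : P s 1 1 = ss s ^ 2 := rfl

theorem P_idem (s : ℝ) : P s * P s = P s := by
  have h := cc_ss s
  apply M2.ext <;> simp only [M2.mul_apply, P00, P01, P10, P11]
  · linear_combination (cc s ^ 2) * h
  · linear_combination (cc s * ss s) * h
  · linear_combination (cc s * ss s) * h
  · linear_combination (ss s ^ 2) * h

theorem P_star (s : ℝ) : star (P s) = P s := by
  apply M2.ext <;> simp only [CStarMatrix.star_apply, P00, P01, P10, P11, star_mul', star_pow,
    star_cc, star_ss]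

theorem continuous_P : Continuous P := by
  have hc := continuous_cc
  have hs := continuous_ss
  have : Continuous (fun s => (!![cc s ^ 2, cc s * ss s; cc s * ss s, ss s ^ 2] :
      Matrix (Fin 2) (Fin 2) ℂ)) := by
    refine continuous_matrix fun i j => ?_
    fin_cases i <;> fin_cases j <;> simp <;> fun_prop
  exact this

theorem P_zero_add_one : P 0 + P 1 = 1 := by
  apply M2.ext
  · change cc 0 ^ 2 + cc 1 ^ 2 = 1
    simp [cc]
  · change cc 0 * ss 0 + cc 1 * ss 1 = 0
    simp [cc, ss]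
  · change cc 0 * ss 0 + cc 1 * ss 1 = 0
    simp [cc, ss]
  · change ss 0 ^ 2 + ss 1 ^ 2 = 1
    simp [ss]

theorem comm_P {T : M2} {s : ℝ} (h : T * P s = P s * T) :
    ∃ α β : ℂ, T = α • P s + β • (1 - P s) := by
  have h00 := congrArg (fun x : M2 => x 0 0) h
  have h01 := congrArg (fun x : M2 => x 0 1) h
  have h10 := congrArg (fun x : M2 => x 1 0) h
  have h11 := congrArg (fun x : M2 => x 1 1) h
  simp only [M2.mul_apply, P00, P01, P10, P11] at h00 h01 h10 h11
  have hcs := cc_ss s
  set c := cc s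
  set d := ss s
  set a := T 0 0
  set b := T 0 1
  set b' := T 1 0
  set a' := T 1 1
  refine ⟨a * c ^ 2 + (b + b') * (c * d) + a' * d ^ 2,
    a * d ^ 2 - (b + b') * (c * d) + a' * c ^ 2, ?_⟩
  have e1 : (1 : M2) 0 0 = 1 := rfl
  have e2 : (1 : M2) 0 1 = 0 := rfl
  have e3 : (1 : M2) 1 0 = 0 := rfl
  have e4 : (1 : M2) 1 1 = 1 := rfl
  apply M2.ext
  · simp only [CStarMatrix.add_apply, CStarMatrix.smul_apply, CStarMatrix.sub_apply, P00, e1,
      smul_eq_mul]
    linear_combination (c * d) * h01 - (c * d) * h10 +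
      (a * d ^ 2 - (b + b') * (c * d) + a' * c ^ 2 - a * (c ^ 2 + d ^ 2 + 1)) * hcs
  · simp only [CStarMatrix.add_apply, CStarMatrix.smul_apply, CStarMatrix.sub_apply, P01, e2,
      smul_eq_mul]
    linear_combination (-(c ^ 2 - d ^ 2)) * h01 + 2 * c * d * h00 -
      b * (c ^ 2 + d ^ 2 + 1) * hcs
  · simp only [CStarMatrix.add_apply, CStarMatrix.smul_apply, CStarMatrix.sub_apply, P10, e3,
      smul_eq_mul]
    linear_combination (c ^ 2 - d ^ 2) * h10 - 2 * c * d * h00 -
      b' * (c ^ 2 + d ^ 2 + 1) * hcs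
  · simp only [CStarMatrix.add_apply, CStarMatrix.smul_apply, CStarMatrix.sub_apply, P11, e4,
      smul_eq_mul]
    linear_combination (-(c * d)) * h01 + (c * d) * h10 +
      (a * d ^ 2 - (b + b') * (c * d) + a' * c ^ 2 - a' * (c ^ 2 + d ^ 2 + 1)) * hcs

/-- An element commuting with two non-commuting projections is a scalar. -/
theorem comm_two {T : M2} {s t : ℝ} (hs : T * P s = P s * T) (ht : T * P t = P t * T)
    (hne : P s * P t ≠ P t * P s) : ∃ α : ℂ, T = α • 1 := by
  obtain ⟨α, β, rfl⟩ := comm_P hs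
  refine ⟨α, ?_⟩
  have h1 : (α - β) • (P s * P t - P t * P s) = 0 := by
    have h2 : (α • P s + β • (1 - P s)) * P t - P t * (α • P s + β • (1 - P s)) = 0 := by
      rw [ht, sub_self]
    rw [← h2]
    simp only [add_mul, mul_add, smul_mul_assoc, mul_smul_comm, sub_mul, mul_sub, one_mul,
      mul_one, smul_sub, sub_smul]
    abel
  rcases smul_eq_zero.mp h1 with h | h
  · have : α = β := sub_eq_zero.mp h
    subst this
    rw [← smul_add]
    congr 1
    abel
  · exact absurd (sub_eq_zero.mp h) hne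

theorem P_noncomm : P 0 * P (1 / 2) ≠ P (1 / 2) * P 0 := by
  intro h
  have h01 := congrArg (fun x : M2 => x 0 1) h
  simp only [M2.mul_apply, P00, P01, P10, P11] at h01
  have h1 : cc 0 = 1 := by simp [cc]
  have h2 : ss 0 = 0 := by simp [ss]
  rw [h1, h2] at h01
  have h3 : cc (1 / 2) * ss (1 / 2) = 0 := by linear_combination h01
  have hpos : (0 : ℝ) < Real.pi / 4 := by positivity
  have h4 : Real.pi * (1 / 2) / 2 = Real.pi / 4 := by ring
  unfold cc ss at h3
  rw [h4, Real.cos_pi_div_four, Real.sin_pi_div_four] at h3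
  have h5 : (Real.sqrt 2 / 2) * (Real.sqrt 2 / 2) = 0 := by exact_mod_cast h3
  have : Real.sqrt 2 * Real.sqrt 2 = 2 := Real.mul_self_sqrt (by norm_num)
  nlinarith

/-- An element commuting with everything is a scalar. -/
theorem comm_all {T : M2} (h : ∀ x, T * x = x * T) : ∃ α : ℂ, T = α • 1 :=
  comm_two (h _) (h _) P_noncomm

end

end Pool.Agent.Lib_helper8.V53
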