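import Pool.Agent.Lib_helper8.V53.AlgA
import Pool.Agent.Lib_helper8.V53.RotProj

set_option autoImplicit false

/-!
# `C_RR0 ⊄ C_reg`
-/

namespace Pool.Agent.Lib_helper8.V53

open Polynomial
open scoped ComplexOrder

universe u

noncomputable section

/-- the rotating rank one projections of `M_2(ℂ)` -/
def rotM2 : RotData M2 where
  P := P
  P_idem := P_idem
  P_star := P_star
  continuous_P := continuous_P
  P_add := P_zero_add_one
  comm_P := comm_P
  comm_two := comm_two
  comm_all := comm_all
  exists_poly T := ⟨minpoly ℂ T, minpoly.ne_zero (Algebra.IsIntegral.isIntegral T),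
    minpoly.aeval ℂ T⟩
  ne := by
    intro h
    have := congrArg (fun x : M2 => x 0 0) h
    exact one_ne_zero (α := ℂ) this

/-- There is a C*-algebra `A` of real rank zero such that `V(A)` is not isomorphic to `V(R)` for
any regular ring `R`. -/
theorem partII : ∃ (A : Type) (_ : NonUnitalCStarAlgebra A), RealRankZero A ∧
    ∀ (R : Type u) [NonUnitalRing R], IsVNRegular R → IsEmpty (V R ≃+ V A) := by
  refine ⟨AA rotM2, inferInstance, AA_rr0 rotM2, ?_⟩
  intro R _ hR
  refine ⟨fun Ψ => ?_⟩
  exact ring_side (modelA rotM2) hR Ψ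

end

end Pool.Agent.Lib_helper8.V53
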