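import Mathlib

set_option autoImplicit false

/-!
# The nonstable `K₀`-monoid `V(R)` of a (not necessarily unital) ring

`V R` is the monoid of equivalence classes of idempotent matrices over `R`, where `e ∼ f` means
`e = x y` and `f = y x` for some matrices `x`, `y`, with block-diagonal addition.
-/

namespace Pool.Agent.Lib_helper8.V53

open Matrix

universe u v w

/-- Two square matrices `e` (of format `ι`) and `f` (of format `κ`) over `R` are equivalent if
`e = x * y` and `f = y * x` for some rectangular matrices `x`, `y`. -/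
def MEquiv {R : Type*} [NonUnitalRing R] {ι κ : Type*} [Fintype ι] [Fintype κ]
    (e : Matrix ι ι R) (f : Matrix κ κ R) : Prop :=
  ∃ (x : Matrix ι κ R) (y : Matrix κ ι R), x * y = e ∧ y * x = f

/-- An idempotent matrix over `R`, i.e. an idempotent of `M_n(R)` for some `n`. -/
structure IdemMat (R : Type u) [NonUnitalRing R] where
  /-- the size -/
  n : ℕ
  /-- the matrix -/
  e : Matrix (Fin n) (Fin n) R
  /-- it is idempotent -/
  idem : e * e = e

section basics

variable {R : Type*} [NonUnitalRing R]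
variable {ι κ μ ν : Type*} [Fintype ι] [Fintype κ] [Fintype μ] [Fintype ν]

theorem MEquiv.refl {e : Matrix ι ι R} (he : e * e = e) : MEquiv e e := ⟨e, e, he, he⟩

theorem MEquiv.symm {e : Matrix ι ι R} {f : Matrix κ κ R} (h : MEquiv e f) : MEquiv f e := by
  obtain ⟨x, y, h1, h2⟩ := h
  exact ⟨y, x, h2, h1⟩

theorem MEquiv.trans {e : Matrix ι ι R} {f : Matrix κ κ R} {g : Matrix μ μ R}
    (he : e * e = e) (hg : g * g = g) (h : MEquiv e f) (h' : MEquiv f g) : MEquiv e g := by
  obtain ⟨x, y, h1, h2⟩ := h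
  obtain ⟨z, w, h3, h4⟩ := h'
  refine ⟨x * z, w * y, ?_, ?_⟩
  · calc x * z * (w * y) = x * (z * w) * y := by simp only [Matrix.mul_assoc]
      _ = x * (y * x) * y := by rw [h3, h2]
      _ = (x * y) * (x * y) := by simp only [Matrix.mul_assoc]
      _ = e := by rw [h1, he]
  · calc w * y * (x * z) = w * (y * x) * z := by simp only [Matrix.mul_assoc]
      _ = w * (z * w) * z := by rw [h3, h2]
      _ = (w * z) * (w * z) := by simp only [Matrix.mul_assoc]
      _ = g := by rw [h4, hg]

theorem idem_submatrix {e : Matrix ι ι R} (he : e * e = e) (σ : κ ≃ ι) :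
    e.submatrix σ σ * e.submatrix σ σ = e.submatrix σ σ := by
  rw [Matrix.submatrix_mul_equiv, he]

theorem MEquiv.submatrix {e : Matrix ι ι R} (he : e * e = e) (σ : κ ≃ ι) :
    MEquiv e (e.submatrix σ σ) := by
  refine ⟨e.submatrix id σ, e.submatrix σ id, ?_, ?_⟩
  · rw [Matrix.submatrix_mul_equiv, he]
    rfl
  · have := Matrix.submatrix_mul e e σ (id : ι → ι) σ Function.bijective_id
    rw [← this, he]

theorem idem_fromBlocks {e : Matrix ι ι R} {f : Matrix κ κ R} (he : e * e = e) (hf : f * f = f) :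
    fromBlocks e 0 0 f * fromBlocks e 0 0 f = fromBlocks e 0 0 f := by
  simp [fromBlocks_multiply, he, hf]

theorem MEquiv.fromBlocks {e : Matrix ι ι R} {f : Matrix κ κ R} {e' : Matrix μ μ R}
    {f' : Matrix ν ν R} (h : MEquiv e e') (h' : MEquiv f f') :
    MEquiv (fromBlocks e 0 0 f) (fromBlocks e' 0 0 f') := by
  obtain ⟨x, y, h1, h2⟩ := h
  obtain ⟨z, w, h3, h4⟩ := h'
  refine ⟨Matrix.fromBlocks x 0 0 z, Matrix.fromBlocks y 0 0 w, ?_, ?_⟩ <;>
    simp [fromBlocks_multiply, h1, h2, h3, h4]

theorem MEquiv.add {e f : Matrix ι ι R} (he : e * e = e) (hf : f * f = f)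
    (h1 : e * f = 0) (h2 : f * e = 0) : MEquiv (e + f) (Matrix.fromBlocks e 0 0 f) := by
  refine ⟨fromCols e f, fromRows e f, ?_, ?_⟩
  · have : fromCols e f * fromRows e f = e * e + f * f := by
      ext i j
      simp [Matrix.mul_apply, Fintype.sum_sum_type]
    rw [this, he, hf]
  · have : fromRows e f * fromCols e f = Matrix.fromBlocks (e * e) (e * f) (f * e) (f * f) := by
      ext i j
      rcases i with i | i <;> rcases j with j | j <;> simp [Matrix.mul_apply]
    rw [this, he, hf, h1, h2]

theorem idem_add {e f : Matrix ι ι R} (he : e * e = e) (hf : f * f = f)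
    (h1 : e * f = 0) (h2 : f * e = 0) : (e + f) * (e + f) = e + f := by
  rw [Matrix.add_mul, Matrix.mul_add, Matrix.mul_add, he, hf, h1, h2]
  simp

theorem MEquiv.eq_zero {e : Matrix ι ι R} (he : e * e = e)
    (h : MEquiv e (0 : Matrix κ κ R)) : e = 0 := by
  obtain ⟨x, y, h1, h2⟩ := h
  rw [← he, ← h1]
  calc x * y * (x * y) = x * (y * x) * y := by simp only [Matrix.mul_assoc]
    _ = 0 := by rw [h2]; simp

theorem MEquiv.zero : MEquiv (0 : Matrix ι ι R) (0 : Matrix κ κ R) :=
  ⟨0, 0, by simp, by simp⟩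

end basics

/-! ### The monoid -/

/-- Equivalence of idempotent matrices. -/
instance IdemMat.setoid (R : Type u) [NonUnitalRing R] : Setoid (IdemMat R) where
  r p q := MEquiv p.e q.e
  iseqv :=
    { refl := fun p => MEquiv.refl p.idem
      symm := fun h => h.symm
      trans := fun {p _ r} h h' => MEquiv.trans p.idem r.idem h h' }

/-- The block-diagonal matrix with blocks `e`, `f`. -/
def dsum {R : Type u} [NonUnitalRing R] {m n : ℕ} (e : Matrix (Fin m) (Fin m) R)
    (f : Matrix (Fin n) (Fin n) R) : Matrix (Fin (m + n)) (Fin (m + n)) R :=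
  (fromBlocks e 0 0 f).submatrix finSumFinEquiv.symm finSumFinEquiv.symm

theorem dsum_idem {R : Type u} [NonUnitalRing R] {m n : ℕ} {e : Matrix (Fin m) (Fin m) R}
    {f : Matrix (Fin n) (Fin n) R} (he : e * e = e) (hf : f * f = f) :
    dsum e f * dsum e f = dsum e f :=
  idem_submatrix (idem_fromBlocks he hf) _

/-- Block-diagonal sum of idempotent matrices. -/
def IdemMat.sum {R : Type u} [NonUnitalRing R] (p q : IdemMat R) : IdemMat R :=
  ⟨p.n + q.n, dsum p.e q.e, dsum_idem p.idem q.idem⟩

/-- The nonstable `K₀`-monoid `V(R)`: equivalence classes of idempotent matrices over `R`. -/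
def V (R : Type u) [NonUnitalRing R] : Type u := Quotient (IdemMat.setoid R)

section cls

variable {R : Type u} [NonUnitalRing R]
variable {ι κ μ ν : Type*} [Fintype ι] [Fintype κ] [Fintype μ] [Fintype ν]

/-- The `IdemMat` given by an idempotent matrix with arbitrary finite index type. -/
noncomputable def toIdem (e : Matrix ι ι R) (he : e * e = e) : IdemMat R where
  n := Fintype.card ι
  e := e.submatrix (Fintype.equivFin ι).symm (Fintype.equivFin ι).symm
  idem := idem_submatrix he _

/-- The class in `V(R)` of an idempotent matrix with arbitrary finite index type. -/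
noncomputable def cls (e : Matrix ι ι R) (he : e * e = e) : V R :=
  Quotient.mk (IdemMat.setoid R) (toIdem e he)

theorem cls_eq_iff {e : Matrix ι ι R} {f : Matrix κ κ R} {he : e * e = e} {hf : f * f = f} :
    cls e he = cls f hf ↔ MEquiv e f := by
  have h1 : MEquiv e (toIdem e he).e := MEquiv.submatrix he _
  have h2 : MEquiv f (toIdem f hf).e := MEquiv.submatrix hf _
  constructor
  · intro h
    have h3 : MEquiv (toIdem e he).e (toIdem f hf).e := Quotient.exact h
    exact (h1.trans he (toIdem f hf).idem h3).trans he hf h2.symm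
  · intro h
    refine Quotient.sound ?_
    change MEquiv (toIdem e he).e (toIdem f hf).e
    exact (h1.symm.trans (toIdem e he).idem hf h).trans (toIdem e he).idem
      (toIdem f hf).idem h2

theorem mk_eq_cls (p : IdemMat R) : Quotient.mk (IdemMat.setoid R) p = cls p.e p.idem := by
  refine Quotient.sound ?_
  exact MEquiv.submatrix p.idem _

theorem V.exists_rep (c : V R) :
    ∃ (n : ℕ) (e : Matrix (Fin n) (Fin n) R) (he : e * e = e), c = cls e he := by
  induction c using Quotient.inductionOn with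
  | _ p => exact ⟨p.n, p.e, p.idem, mk_eq_cls p⟩

instance : Zero (V R) := ⟨Quotient.mk (IdemMat.setoid R) ⟨0, 0, by simp⟩⟩

instance : Add (V R) :=
  ⟨Quotient.map₂ IdemMat.sum (by
    intro p p' hp q q' hq
    change MEquiv (IdemMat.sum p q).e (IdemMat.sum p' q').e
    have h0 : MEquiv p.e p'.e := hp
    have h0' : MEquiv q.e q'.e := hq
    have h1 : MEquiv (fromBlocks p.e 0 0 q.e) (IdemMat.sum p q).e :=
      MEquiv.submatrix (idem_fromBlocks p.idem q.idem) _
    have h2 : MEquiv (fromBlocks p'.e 0 0 q'.e) (IdemMat.sum p' q').e :=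
      MEquiv.submatrix (idem_fromBlocks p'.idem q'.idem) _
    exact (h1.symm.trans (IdemMat.sum p q).idem (idem_fromBlocks p'.idem q'.idem)
      (h0.fromBlocks h0')).trans (IdemMat.sum p q).idem (IdemMat.sum p' q').idem h2)⟩

theorem cls_zero : cls (0 : Matrix ι ι R) (by simp) = 0 := by
  have : (0 : V R) = cls (0 : Matrix (Fin 0) (Fin 0) R) (by simp) := mk_eq_cls _
  rw [this]
  exact cls_eq_iff.mpr MEquiv.zero

theorem cls_eq_zero {e : Matrix ι ι R} {he : e * e = e} (h : cls e he = 0) : e = 0 := by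
  rw [← cls_zero (ι := ι)] at h
  exact (cls_eq_iff.mp h).eq_zero he

theorem cls_fromBlocks {e : Matrix ι ι R} {f : Matrix κ κ R} (he : e * e = e) (hf : f * f = f) :
    cls (fromBlocks e 0 0 f) (idem_fromBlocks he hf) = cls e he + cls f hf := by
  have h1 : cls e he + cls f hf =
      Quotient.mk (IdemMat.setoid R) (IdemMat.sum (toIdem e he) (toIdem f hf)) := rfl
  rw [h1, mk_eq_cls, cls_eq_iff]
  have h2 : MEquiv (fromBlocks e 0 0 f) (fromBlocks (toIdem e he).e 0 0 (toIdem f hf).e) :=
    (MEquiv.submatrix he _).fromBlocks (MEquiv.submatrix hf _)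
  exact h2.trans (idem_fromBlocks he hf) (IdemMat.sum (toIdem e he) (toIdem f hf)).idem
    (MEquiv.submatrix (idem_fromBlocks (toIdem e he).idem (toIdem f hf).idem) _)

theorem cls_add {e f : Matrix ι ι R} (he : e * e = e) (hf : f * f = f)
    (h1 : e * f = 0) (h2 : f * e = 0) :
    cls (e + f) (idem_add he hf h1 h2) = cls e he + cls f hf := by
  rw [← cls_fromBlocks he hf, cls_eq_iff]
  exact MEquiv.add he hf h1 h2

instance : AddCommMonoid (V R) where
  add_assoc := by
    intro a b c
    obtain ⟨l, e, he, rfl⟩ := a.exists_rep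
    obtain ⟨m, f, hf, rfl⟩ := b.exists_rep
    obtain ⟨n, g, hg, rfl⟩ := c.exists_rep
    rw [← cls_fromBlocks he hf, ← cls_fromBlocks hf hg, ← cls_fromBlocks _ hg,
      ← cls_fromBlocks he, cls_eq_iff]
    have h := MEquiv.submatrix (idem_fromBlocks (idem_fromBlocks he hf) hg)
      (Equiv.sumAssoc (Fin l) (Fin m) (Fin n)).symm
    convert h using 1
    ext i j
    rcases i with i | i | i <;> rcases j with j | j | j <;> simp
  zero_add := by
    intro a
    obtain ⟨l, e, he, rfl⟩ := a.exists_rep
    rw [← cls_zero (ι := Fin l), ← cls_add (by simp) he (by simp) (by simp)]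
    simp
  add_zero := by
    intro a
    obtain ⟨l, e, he, rfl⟩ := a.exists_rep
    rw [← cls_zero (ι := Fin l), ← cls_add he (by simp) (by simp) (by simp)]
    simp
  add_comm := by
    intro a b
    obtain ⟨l, e, he, rfl⟩ := a.exists_rep
    obtain ⟨m, f, hf, rfl⟩ := b.exists_rep
    rw [← cls_fromBlocks he hf, ← cls_fromBlocks hf he, cls_eq_iff]
    have h := MEquiv.submatrix (idem_fromBlocks he hf) (Equiv.sumComm (Fin m) (Fin l))
    convert h using 1
    ext i j
    rcases i with i | i <;> rcases j with j | j <;> simp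
  nsmul := nsmulRec

theorem cls_congr {e f : Matrix ι ι R} (h : e = f) (he : e * e = e) (hf : f * f = f) :
    cls e he = cls f hf := by subst h; rfl

/-- If an idempotent `k` factors through an idempotent `H`, then `[k] ≤ [H]`. -/
theorem cls_le {k : Matrix ι ι R} {H : Matrix κ κ R} (hk : k * k = k) (hH : H * H = H)
    (u : Matrix ι κ R) (v : Matrix κ ι R) (h : k = u * H * v) :
    ∃ c, cls H hH = cls k hk + c := by
  set u' := k * u * H with hu'
  set v' := H * v * k with hv'
  have huv : u' * v' = k := by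
    calc u' * v' = k * (u * (H * H) * v) * k := by simp only [hu', hv', Matrix.mul_assoc]
      _ = k := by rw [hH, ← h, hk, hk]
  have hku : k * u' = u' := by
    calc k * u' = (k * k) * u * H := by simp only [hu', Matrix.mul_assoc]
      _ = u' := by rw [hk]
  have hvk : v' * k = v' := by
    calc v' * k = H * v * (k * k) := by simp only [hv', Matrix.mul_assoc]
      _ = v' := by rw [hk]
  have hHv : H * v' = v' := by
    calc H * v' = (H * H) * v * k := by simp only [hv', Matrix.mul_assoc]
      _ = v' := by rw [hH]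
  have huH : u' * H = u' := by
    calc u' * H = k * u * (H * H) := by simp only [hu', Matrix.mul_assoc]
      _ = u' := by rw [hH]
  set w := v' * u' with hw
  have hww : w * w = w := by
    calc w * w = v' * (u' * v') * u' := by simp only [hw, Matrix.mul_assoc]
      _ = w := by rw [huv, hvk]
  have hHw : H * w = w := by rw [hw, ← Matrix.mul_assoc, hHv]
  have hwH : w * H = w := by rw [hw, Matrix.mul_assoc, huH]
  have hd : (H - w) * (H - w) = H - w := by
    rw [Matrix.sub_mul, Matrix.mul_sub, Matrix.mul_sub, hH, hHw, hwH, hww]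
    simp
  have h1 : w * (H - w) = 0 := by rw [Matrix.mul_sub, hwH, hww, sub_self]
  have h2 : (H - w) * w = 0 := by rw [Matrix.sub_mul, hHw, hww, sub_self]
  refine ⟨cls (H - w) hd, ?_⟩
  have h3 : cls k hk = cls w hww := cls_eq_iff.mpr ⟨u', v', huv, rfl⟩
  rw [h3, ← cls_add hww hd h1 h2]
  exact cls_congr (by abel) _ _

/-- Decompositions of a class lift to orthogonal decompositions of a representative. -/
theorem cls_split {e : Matrix ι ι R} (he : e * e = e) {a b : V R} (h : cls e he = a + b) :
    ∃ (e1 e2 : Matrix ι ι R) (h1 : e1 * e1 = e1) (h2 : e2 * e2 = e2),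
      e1 * e2 = 0 ∧ e2 * e1 = 0 ∧ e1 + e2 = e ∧ cls e1 h1 = a ∧ cls e2 h2 = b := by
  obtain ⟨m, p, hp, rfl⟩ := a.exists_rep
  obtain ⟨n, q, hq, rfl⟩ := b.exists_rep
  rw [← cls_fromBlocks hp hq, cls_eq_iff] at h
  obtain ⟨x, y, hxy, hyx⟩ := h
  set P : Matrix (Fin m ⊕ Fin n) (Fin m ⊕ Fin n) R := fromBlocks p 0 0 0 with hP
  set Q : Matrix (Fin m ⊕ Fin n) (Fin m ⊕ Fin n) R := fromBlocks 0 0 0 q with hQ
  have hPP : P * P = P := by simp [hP, fromBlocks_multiply, hp]
  have hQQ : Q * Q = Q := by simp [hQ, fromBlocks_multiply, hq]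
  have hPQ : P * Q = 0 := by simp [hP, hQ, fromBlocks_multiply]
  have hQP : Q * P = 0 := by simp [hP, hQ, fromBlocks_multiply]
  have hsum : P + Q = y * x := by
    rw [hyx, hP, hQ, fromBlocks_add]
    simp
  have hPD : P * (y * x) = P := by rw [← hsum, Matrix.mul_add, hPP, hPQ, add_zero]
  have hQD : Q * (y * x) = Q := by rw [← hsum, Matrix.mul_add, hQQ, hQP, zero_add]
  have h1 : x * P * y * (x * P * y) = x * P * y := by
    calc x * P * y * (x * P * y) = x * (P * (y * x)) * P * y := by
          simp only [Matrix.mul_assoc]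
      _ = x * P * y := by rw [hPD, Matrix.mul_assoc x P P, hPP]
  have h2 : x * Q * y * (x * Q * y) = x * Q * y := by
    calc x * Q * y * (x * Q * y) = x * (Q * (y * x)) * Q * y := by
          simp only [Matrix.mul_assoc]
      _ = x * Q * y := by rw [hQD, Matrix.mul_assoc x Q Q, hQQ]
  refine ⟨x * P * y, x * Q * y, h1, h2, ?_, ?_, ?_, ?_, ?_⟩
  · calc x * P * y * (x * Q * y) = x * (P * (y * x)) * Q * y := by
          simp only [Matrix.mul_assoc]
      _ = 0 := by rw [hPD, Matrix.mul_assoc x P Q, hPQ]; simp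
  · calc x * Q * y * (x * P * y) = x * (Q * (y * x)) * P * y := by
          simp only [Matrix.mul_assoc]
      _ = 0 := by rw [hQD, Matrix.mul_assoc x Q P, hQP]; simp
  · calc x * P * y + x * Q * y = x * (P + Q) * y := by
          rw [Matrix.mul_add, Matrix.add_mul]
      _ = (x * y) * (x * y) := by rw [hsum]; simp only [Matrix.mul_assoc]
      _ = e := by rw [hxy, he]
  · have h3 : cls (x * P * y) h1 = cls P hPP := by
      refine cls_eq_iff.mpr ⟨x * P, P * y, ?_, ?_⟩
      · calc x * P * (P * y) = x * (P * P) * y := by simp only [Matrix.mul_assoc]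
          _ = x * P * y := by rw [hPP]
      · calc P * y * (x * P) = (P * (y * x)) * P := by simp only [Matrix.mul_assoc]
          _ = P := by rw [hPD, hPP]
    rw [h3]
    have h4 : cls P hPP = cls p hp + cls (0 : Matrix (Fin n) (Fin n) R) (by simp) := by
      rw [← cls_fromBlocks]
    rw [h4, cls_zero, add_zero]
  · have h3 : cls (x * Q * y) h2 = cls Q hQQ := by
      refine cls_eq_iff.mpr ⟨x * Q, Q * y, ?_, ?_⟩
      · calc x * Q * (Q * y) = x * (Q * Q) * y := by simp only [Matrix.mul_assoc]
          _ = x * Q * y := by rw [hQQ]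
      · calc Q * y * (x * Q) = (Q * (y * x)) * Q := by simp only [Matrix.mul_assoc]
          _ = Q := by rw [hQD, hQQ]
    rw [h3]
    have h4 : cls Q hQQ = cls (0 : Matrix (Fin m) (Fin m) R) (by simp) + cls q hq := by
      rw [← cls_fromBlocks]
    rw [h4, cls_zero, zero_add]

/-- `blockDiagonal` of `m` copies of an idempotent is idempotent. -/
theorem idem_blockDiagonal {e : Matrix ι ι R} (he : e * e = e) (m : ℕ) :
    blockDiagonal (fun _ : Fin m => e) * blockDiagonal (fun _ : Fin m => e) =
      blockDiagonal (fun _ : Fin m => e) := by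
  rw [← blockDiagonal_mul]
  simp only [he]

theorem cls_blockDiagonal {e : Matrix ι ι R} (he : e * e = e) (m : ℕ) :
    cls (blockDiagonal (fun _ : Fin m => e)) (idem_blockDiagonal he m) = m • cls e he := by
  induction m with
  | zero =>
    rw [zero_smul, ← cls_zero (ι := ι × Fin 0)]
    exact cls_congr (by ext ⟨_, i⟩; exact i.elim0) _ _
  | succ m ih =>
    rw [succ_nsmul, ← ih, ← cls_fromBlocks, cls_eq_iff]
    let σ : (ι × Fin m) ⊕ ι ≃ ι × Fin (m + 1) :=
      { toFun := Sum.elim (fun p => (p.1, p.2.castSucc)) (fun i => (i, Fin.last m))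
        invFun := fun p => Fin.lastCases (motive := fun _ => (ι × Fin m) ⊕ ι)
          (Sum.inr p.1) (fun j => Sum.inl (p.1, j)) p.2
        left_inv := by rintro (⟨i, j⟩ | i) <;> simp
        right_inv := by
          rintro ⟨i, j⟩
          refine Fin.lastCases ?_ (fun j => ?_) j <;> simp }
    have h := MEquiv.submatrix (idem_blockDiagonal he (m + 1)) σ
    convert h using 1
    ext a b
    rcases a with ⟨i, k⟩ | i <;> rcases b with ⟨j, l⟩ | j <;>
      simp [σ, blockDiagonal_apply, Fin.castSucc_ne_last, (Fin.castSucc_ne_last _).symm]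

/-- `k` is a finite sum of matrices factoring through `e`. -/
def FinRank (e : Matrix κ κ R) (k : Matrix ι ι R) : Prop :=
  ∃ (m : ℕ) (u : Fin m → Matrix ι κ R) (v : Fin m → Matrix κ ι R), k = ∑ l, u l * e * v l

theorem mul_blockDiagonal_mul (e : Matrix κ κ R) (m : ℕ) (U : Matrix ι (κ × Fin m) R)
    (W : Matrix (κ × Fin m) ι R) :
    U * blockDiagonal (fun _ : Fin m => e) * W =
      ∑ l : Fin m, U.submatrix id (fun j => (j, l)) * e * W.submatrix (fun j => (j, l)) id := by
  ext i j
  simp only [Matrix.mul_apply, Matrix.sum_apply, Matrix.submatrix_apply, id,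
    Fintype.sum_prod_type, blockDiagonal_apply]
  rw [Finset.sum_comm]
  refine Finset.sum_congr rfl fun l _ => Finset.sum_congr rfl fun b _ => ?_
  congr 1
  refine Finset.sum_congr rfl fun a _ => ?_
  simp

theorem finRank_iff {e : Matrix κ κ R} (he : e * e = e) {k : Matrix ι ι R} (hk : k * k = k) :
    (∃ (m : ℕ) (t : V R), cls k hk + t = m • cls e he) ↔ FinRank e k := by
  constructor
  · rintro ⟨m, t, h⟩
    rw [← cls_blockDiagonal he m] at h
    obtain ⟨e1, e2, h1, h2, h12, h21, hs, hc1, -⟩ := cls_split (idem_blockDiagonal he m) h.symm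
    obtain ⟨x, y, hxy, hyx⟩ := cls_eq_iff.mp hc1
    have hk' : k = (y * e1) * blockDiagonal (fun _ : Fin m => e) * (e1 * x) := by
      calc k = (y * x) * (y * x) * (y * x) := by rw [hyx, hk, hk]
        _ = y * (x * y) * (x * y) * x := by simp only [Matrix.mul_assoc]
        _ = y * (e1 * (e1 + e2) * e1) * x := by
            rw [hxy, Matrix.mul_add, h12, add_zero, h1, h1]
            simp only [Matrix.mul_assoc]
            rw [← Matrix.mul_assoc e1 e1 x, h1]
        _ = _ := by rw [hs]; simp only [Matrix.mul_assoc]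
    rw [mul_blockDiagonal_mul] at hk'
    exact ⟨m, _, _, hk'⟩
  · rintro ⟨m, u, v, h⟩
    have h' : k = (Matrix.of fun i (p : κ × Fin m) => u p.2 i p.1) *
        blockDiagonal (fun _ : Fin m => e) * (Matrix.of fun (p : κ × Fin m) i => v p.2 p.1 i) := by
      rw [mul_blockDiagonal_mul]
      exact h
    obtain ⟨c, hc⟩ := cls_le hk (idem_blockDiagonal he m) _ _ h'
    exact ⟨m, c, by rw [← hc, cls_blockDiagonal]⟩

end cls

/-! ### Functoriality -/

section map

variable {R : Type u} [NonUnitalRing R] {S : Type v} [NonUnitalRing S]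
variable {ι κ μ ν : Type*} [Fintype ι] [Fintype κ] [Fintype μ] [Fintype ν]

theorem map_mul' (φ : R →ₙ+* S) (x : Matrix ι κ R) (y : Matrix κ μ R) :
    (x * y).map φ = x.map φ * y.map φ := by
  ext i j
  simp [Matrix.mul_apply, map_sum]

theorem map_idem (φ : R →ₙ+* S) {e : Matrix ι ι R} (he : e * e = e) :
    e.map φ * e.map φ = e.map φ := by rw [← map_mul', he]

/-- A ring homomorphism induces a monoid homomorphism on `V`. -/
def V.mapFun (φ : R →ₙ+* S) : V R → V S :=
  Quotient.map (fun p : IdemMat R => (⟨p.n, p.e.map φ, map_idem φ p.idem⟩ : IdemMat S)) (by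
    rintro p q ⟨x, y, h1, h2⟩
    exact ⟨x.map φ, y.map φ, by rw [← map_mul', h1], by rw [← map_mul', h2]⟩)

theorem V.mapFun_cls (φ : R →ₙ+* S) {e : Matrix ι ι R} (he : e * e = e) :
    V.mapFun φ (cls e he) = cls (e.map φ) (map_idem φ he) := by
  have h : V.mapFun φ (cls e he) =
    Quotient.mk (IdemMat.setoid S) ⟨(toIdem e he).n, (toIdem e he).e.map φ,
      map_idem φ (toIdem e he).idem⟩ := rfl
  rw [h, mk_eq_cls, cls_eq_iff]
  exact (MEquiv.submatrix (map_idem φ he) _).symm

/-- A ring homomorphism induces a monoid homomorphism on `V`. -/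
def V.map (φ : R →ₙ+* S) : V R →+ V S where
  toFun := V.mapFun φ
  map_zero' := by
    rw [← cls_zero (ι := Fin 0), V.mapFun_cls, ← cls_zero (ι := Fin 0)]
    exact cls_congr (by ext i; exact i.elim0) _ _
  map_add' := by
    intro a b
    obtain ⟨l, e, he, rfl⟩ := a.exists_rep
    obtain ⟨m, f, hf, rfl⟩ := b.exists_rep
    rw [← cls_fromBlocks he hf, V.mapFun_cls, V.mapFun_cls, V.mapFun_cls,
      ← cls_fromBlocks (map_idem φ he) (map_idem φ hf)]
    refine cls_congr ?_ _ _
    rw [Matrix.fromBlocks_map]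
    congr 1 <;> ext i j <;> simp

theorem V.map_cls (φ : R →ₙ+* S) {e : Matrix ι ι R} (he : e * e = e) :
    V.map φ (cls e he) = cls (e.map φ) (map_idem φ he) := V.mapFun_cls φ he

/-- `V` of a ring is conical. -/
theorem V.eq_zero_of_add {a b : V R} (h : a + b = 0) : a = 0 := by
  rw [← cls_zero (ι := Fin 0)] at h
  obtain ⟨e1, e2, h1, h2, -, -, -, ha, -⟩ := cls_split _ h.symm
  rw [← ha, ← cls_zero (ι := Fin 0)]
  exact cls_congr (by ext i; exact i.elim0) _ _

end map

end Pool.Agent.Lib_helper8.V53
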